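import Mathlib

set_option autoImplicit false

open Classical Finset

namespace ImmLog

variable {V : Type*} [Fintype V]

/-- number of edges between `S` and its complement (ordered pairs from inside to outside) -/
noncomputable def cut (G : SimpleGraph V) (S : Finset V) : ℕ :=
  ((univ : Finset (V × V)).filter (fun e => e.1 ∈ S ∧ e.2 ∉ S ∧ G.Adj e.1 e.2)).card

/-- twice the number of edges inside `S` -/
noncomputable def inn (G : SimpleGraph V) (S : Finset V) : ℕ :=
  ((univ : Finset (V × V)).filter (fun e => e.1 ∈ S ∧ e.2 ∈ S ∧ G.Adj e.1 e.2)).card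

/-- sum of the degrees of the vertices of `S` -/
noncomputable def vol (G : SimpleGraph V) (S : Finset V) : ℕ :=
  ((univ : Finset (V × V)).filter (fun e => e.1 ∈ S ∧ G.Adj e.1 e.2)).card

/-- twice the number of edges -/
noncomputable def nd (G : SimpleGraph V) : ℕ :=
  ((univ : Finset (V × V)).filter (fun e => G.Adj e.1 e.2)).card

/-- number of edges between the disjoint sets `S` and `Y` -/
noncomputable def eb (G : SimpleGraph V) (S Y : Finset V) : ℕ :=
  ((univ : Finset (V × V)).filter (fun e => e.1 ∈ S ∧ e.2 ∈ Y ∧ G.Adj e.1 e.2)).card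

/-- vertices within distance `R` of `A` in the graph `T` -/
noncomputable def ball (T : SimpleGraph V) (A : Finset V) (R : ℕ) : Finset V :=
  univ.filter (fun v => ∃ a ∈ A, ∃ w : T.Walk a v, w.length ≤ R)

/-- the graph with the vertices of `X` isolated -/
def del (G : SimpleGraph V) (X : Finset V) : SimpleGraph V where
  Adj u v := G.Adj u v ∧ u ∉ X ∧ v ∉ X
  symm := ⟨fun _ _ h => ⟨h.1.symm, h.2.2, h.2.1⟩⟩
  loopless := ⟨fun _ h => G.loopless.irrefl _ h.1⟩

/-- the edges inside `A` or between `A` and `Y` -/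
def Ex (H : SimpleGraph V) (A Y : Finset V) : SimpleGraph V where
  Adj u v := H.Adj u v ∧ ((u ∈ A ∧ v ∈ A) ∨ (u ∈ A ∧ v ∈ Y) ∨ (u ∈ Y ∧ v ∈ A))
  symm := ⟨fun _ _ h => ⟨h.1.symm, by tauto⟩⟩
  loopless := ⟨fun _ h => H.loopless.irrefl _ h.1⟩

/-- The growth property used by the fat tree lemma. -/
def Grow (H G : SimpleGraph V) (A : Finset V) (q r B : ℕ) : Prop :=
  ∀ p < q, ∀ S : ℕ → Finset V, S 0 = A → (∀ k, S k ⊆ S (k+1)) → (∀ k, S k ⊆ ball G A k) →
    (∀ k, cut G (S k) + 2 * vol H (S k) ≤ 2 * vol H (S (k+1)) + p) → B ≤ vol H (S r)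

end ImmLog
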