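import Pool.Agent.ImmLog.Defs

set_option autoImplicit false

open Classical Finset

namespace ImmLog

variable {V : Type*} [Fintype V]
/-- expansion data of the ambient graph (partition inequality and density bound) -/
structure Expd (H : SimpleGraph V) (g : ℕ → ℝ) (D0 ρ : ℝ) (smax : ℕ) : Prop where
  hg : ∀ s, s ≤ smax → 0 ≤ g s
  hρ : ∀ s, 1 ≤ s → s ≤ smax → ρ * s ≤ g s
  hρ0 : 0 < ρ
  hρD : ρ ≤ D0
  hD1 : 1 ≤ D0
  hPI : ∀ part : V → ℕ, (∀ i, i ≠ 0 → (univ.filter (fun v => part v = i)).card ≤ smax) →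
      ∑ i ∈ (univ.image part).erase 0, g ((univ.filter (fun v => part v = i)).card) ≤
        ((univ : Finset (V × V)).filter (fun e => H.Adj e.1 e.2 ∧ part e.1 ≠ part e.2)).card
  hDB : ∀ S : Finset V, S.card ≤ smax → (inn H S : ℝ) ≤ D0 * S.card

/-- a family of terminals with excluded edges `E A` and `q` ports each -/
structure Terms (H : SimpleGraph V) (fam : Finset (Finset V)) (E : Finset V → SimpleGraph V)
    (q K smax : ℕ) : Prop where
  hne : ∀ A ∈ fam, A.Nonempty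
  hdisj : ∀ A ∈ fam, ∀ B ∈ fam, A ≠ B → Disjoint A B
  hcard : ∀ A ∈ fam, A.card ≤ K
  hEle : ∀ A ∈ fam, E A ≤ H
  hEinc : ∀ A ∈ fam, ∀ u v, (E A).Adj u v → u ∈ A ∨ v ∈ A
  hEnd : ∀ A ∈ fam, nd (E A) ≤ 2 * K
  hcut : ∀ A ∈ fam, ∀ S, A ⊆ S → S.card ≤ smax → q ≤ cut (H \ E A) S


/-- the potential -/
noncomputable def phi (ε x : ℝ) (m : ℕ) : ℝ :=
  ε / 8 * (Real.log m / x) - ε / 8 / (1 + Real.log m)

/-- the guaranteed cut function -/
noncomputable def gf (ε x : ℝ) (h s : ℕ) : ℝ := s * (phi ε x h - phi ε x s)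

/-- a minimal (expanding) graph -/
structure Good (ε x D0 c1 : ℝ) (H : SimpleGraph V) : Prop where
  x_pos : 0 < x
  x_ge : Real.log (Fintype.card V) ≤ x
  card_ge : 2 ≤ Fintype.card V
  PI : ∀ part : V → ℕ,
      ∑ i ∈ (univ.image part).erase 0,
        gf ε x (Fintype.card V) ((univ.filter (fun v => part v = i)).card) ≤
        ((univ : Finset (V × V)).filter (fun e => H.Adj e.1 e.2 ∧ part e.1 ≠ part e.2)).card
  DB : ∀ S : Finset V, S ≠ univ → (inn H S : ℝ) ≤ D0 * S.card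
  lo : c1 * Fintype.card V ≤ nd H
  hi : 4 ≤ Fintype.card V → (nd H : ℝ) ≤ D0 * (Fintype.card V + 2)

/-- immersion of `K_k` (in the form of the frozen statement) -/
def HasImm (k : ℕ) {W : Type*} (G : SimpleGraph W) : Prop :=
  ∃ f : Fin k → W, Function.Injective f ∧
    ∃ P : ∀ i j : Fin k, G.Walk (f i) (f j),
      (∀ i j : Fin k, i < j → (P i j).IsPath) ∧
      (∀ i j i' j' : Fin k, i < j → i' < j' → (i ≠ i' ∨ j ≠ j') →
        (P i j).edges.Disjoint (P i' j').edges)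

/-- the same with at most `B` vertices -/
def HasImmLe (k : ℕ) {W : Type*} (G : SimpleGraph W) (B : ℕ) : Prop :=
  ∃ f : Fin k → W, Function.Injective f ∧
    ∃ P : ∀ i j : Fin k, G.Walk (f i) (f j),
      (∀ i j : Fin k, i < j → (P i j).IsPath) ∧
      (∀ i j i' j' : Fin k, i < j → i' < j' → (i ≠ i' ∨ j ≠ j') →
        (P i j).edges.Disjoint (P i' j').edges) ∧
      {v : W | (∃ i, f i = v) ∨ ∃ i j, i < j ∧ v ∈ (P i j).support}.ncard ≤ B

end ImmLog
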