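import Pool.Agent.ImmLog.Defs2

set_option autoImplicit false

open Classical Finset

namespace ImmLog

namespace M1

variable {V : Type*} [Fintype V]



/-- number of times the arc `e` is used by the walk -/
noncomputable def cnt {G : SimpleGraph V} {a b : V} (w : G.Walk a b) (e : V × V) : ℤ :=
  ((w.darts.map (fun d => d.toProd)).count e : ℤ)

theorem cnt_nonneg {G : SimpleGraph V} {a b : V} (w : G.Walk a b) (e : V × V) : 0 ≤ cnt w e := by
  unfold cnt; exact Int.natCast_nonneg _

theorem cnt_cons {G : SimpleGraph V} {a b c : V} (h : G.Adj a c) (p : G.Walk c b) (e : V × V) :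
    cnt (SimpleGraph.Walk.cons h p) e = (if e = (a, c) then 1 else 0) + cnt p e := by
  unfold cnt
  rw [SimpleGraph.Walk.darts_cons, List.map_cons, List.count_cons]
  by_cases h1 : e = (a, c)
  · subst h1
    simp; ring
  · have h2 : ¬ ((a, c) = e) := fun h => h1 h.symm
    simp [h1, h2]

theorem sum_pair_left (a c v : V) : ∑ x : V, (if (x, v) = (a, c) then (1:ℤ) else 0)
    = if v = c then 1 else 0 := by
  by_cases h : v = c
  · subst h
    simp
  · simp [h]

theorem sum_pair_right (a c v : V) : ∑ x : V, (if (v, x) = (a, c) then (1:ℤ) else 0)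
    = if v = a then 1 else 0 := by
  by_cases h : v = a
  · subst h
    simp
  · simp [h]

theorem div_walk {G : SimpleGraph V} {a b : V} (w : G.Walk a b) (v : V) :
    ∑ x, (cnt w (x, v) - cnt w (v, x)) = (if v = b then 1 else 0) - (if v = a then 1 else 0) := by
  induction w with
  | nil => simp [cnt]
  | @cons a c b h p ih =>
    simp only [cnt_cons]
    have h1 : ∀ x : V, ((if (x, v) = (a, c) then (1:ℤ) else 0) + cnt p (x, v)
        - ((if (v, x) = (a, c) then (1:ℤ) else 0) + cnt p (v, x)))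
        = ((if (x, v) = (a, c) then (1:ℤ) else 0) - (if (v, x) = (a, c) then (1:ℤ) else 0))
          + (cnt p (x, v) - cnt p (v, x)) := by
      intro x; ring
    rw [Finset.sum_congr rfl (fun x _ => h1 x), Finset.sum_add_distrib, ih,
      Finset.sum_sub_distrib, sum_pair_left, sum_pair_right]
    ring

theorem cnt_pos_iff {G : SimpleGraph V} {a b : V} (w : G.Walk a b) (e : V × V) :
    0 < cnt w e ↔ ∃ d ∈ w.darts, d.toProd = e := by
  unfold cnt
  rw [Int.natCast_pos, List.count_pos_iff, List.mem_map]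

theorem cnt_le_one {G : SimpleGraph V} {a b : V} (w : G.Walk a b) (hw : w.IsPath) (e : V × V) :
    cnt w e ≤ 1 := by
  unfold cnt
  have h1 : (w.darts.map (fun d => d.toProd)).Nodup := by
    have h2 : w.darts.Nodup := SimpleGraph.Walk.darts_nodup_of_support_nodup hw.support_nodup
    refine h2.map ?_
    intro d d' h
    exact SimpleGraph.Dart.ext _ _ h
  exact_mod_cast List.nodup_iff_count_le_one.1 h1 e

theorem mem_edges_of_cnt {G : SimpleGraph V} {a b : V} (w : G.Walk a b) {x y : V}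
    (h : 0 < cnt w (x, y)) : s(x, y) ∈ w.edges ∧ G.Adj x y := by
  obtain ⟨d, hd, he⟩ := (cnt_pos_iff w _).1 h
  have h1 : d.edge = s(x, y) := by
    rw [SimpleGraph.Dart.edge, he]
  refine ⟨?_, ?_⟩
  · rw [← h1]
    exact List.mem_map_of_mem hd
  · have := d.adj
    rw [he] at this
    exact this

theorem mem_edges_iff_cnt {G : SimpleGraph V} {a b : V} (w : G.Walk a b) {e : Sym2 V}
    (h : e ∈ w.edges) : ∃ x y, e = s(x, y) ∧ 0 < cnt w (x, y) := by
  obtain ⟨d, hd, he⟩ := List.mem_map.1 h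
  refine ⟨d.fst, d.snd, ?_, ?_⟩
  · rw [← he]; rfl
  · rw [cnt_pos_iff]
    exact ⟨d, hd, rfl⟩

/-- a path does not use an edge in both directions -/
theorem cnt_antisymm {G : SimpleGraph V} {a b : V} (w : G.Walk a b) (hw : w.IsPath) {x y : V}
    (h : 0 < cnt w (x, y)) : cnt w (y, x) = 0 := by
  by_contra hcon
  have h2 : 0 < cnt w (y, x) := lt_of_le_of_ne (cnt_nonneg w _) (Ne.symm hcon)
  obtain ⟨d, hd, he⟩ := (cnt_pos_iff w _).1 h
  obtain ⟨d', hd', he'⟩ := (cnt_pos_iff w _).1 h2
  have hnd : (w.darts.map SimpleGraph.Dart.edge).Nodup :=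
    SimpleGraph.Walk.edges_nodup_of_support_nodup hw.support_nodup
  have h3 : d.edge = d'.edge := by
    rw [SimpleGraph.Dart.edge, SimpleGraph.Dart.edge, he, he']
    exact Sym2.eq_swap
  have h4 := List.inj_on_of_nodup_map hnd hd hd' h3
  rw [h4] at he
  rw [he] at he'
  have h5 : x = y := (Prod.mk.inj he').1
  have h6 := (mem_edges_of_cnt w h).2
  rw [h5] at h6
  exact G.loopless.irrefl _ h6

/-- in-degree minus out-degree -/
noncomputable def Dv (Ψ : Finset (V × V)) (v : V) : ℤ :=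
  ∑ x, ((if (x, v) ∈ Ψ then (1:ℤ) else 0) - (if (v, x) ∈ Ψ then (1:ℤ) else 0))

theorem reach {G : SimpleGraph V} (Ψ : Finset (V × V)) (hG : ∀ x y, (x, y) ∈ Ψ → G.Adj x y)
    (A : Finset V) (hdiv : ∀ x, x ∉ A → 0 ≤ Dv Ψ x) {v : V} (hpos : 0 < Dv Ψ v) :
    ∃ a ∈ A, ∃ P : G.Walk a v, P.IsPath ∧ ∀ e, 0 < cnt P e → e ∈ Ψ := by
  by_contra hcon
  have hR : ∀ x, Relation.ReflTransGen (fun x y => (x, y) ∈ Ψ) x v → x ∉ A := by
    intro x hx hxA
    apply hcon
    have hwalk : ∃ w : G.Walk x v, ∀ d ∈ w.darts, d.toProd ∈ Ψ := by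
      clear hxA
      induction hx using Relation.ReflTransGen.head_induction_on with
      | refl => exact ⟨SimpleGraph.Walk.nil, by simp⟩
      | @head x y h _ ih =>
        obtain ⟨w, hw⟩ := ih
        refine ⟨SimpleGraph.Walk.cons (hG _ _ h) w, ?_⟩
        intro d hd
        rw [SimpleGraph.Walk.darts_cons, List.mem_cons] at hd
        rcases hd with h1 | h1
        · rw [h1]; exact h
        · exact hw d h1
    obtain ⟨w, hw⟩ := hwalk
    refine ⟨x, hxA, w.bypass, w.bypass_isPath, ?_⟩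
    intro e he
    obtain ⟨d, hd, hde⟩ := (cnt_pos_iff _ _).1 he
    rw [← hde]
    exact hw d (w.darts_bypass_subset_darts hd)
  set R : Finset V := univ.filter (fun x => Relation.ReflTransGen (fun x y => (x, y) ∈ Ψ) x v)
    with hRdef
  have hmem : ∀ x, x ∈ R ↔ Relation.ReflTransGen (fun x y => (x, y) ∈ Ψ) x v := by
    intro x; simp [hRdef]
  have h1 : 0 < ∑ x ∈ R, Dv Ψ x := by
    refine Finset.sum_pos' (fun x hx => hdiv x (hR x ((hmem x).1 hx))) ⟨v, ?_, hpos⟩
    rw [hmem]
  have h2 : ∑ x ∈ R, Dv Ψ x ≤ 0 := by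
    unfold Dv
    have h3 : ∀ x ∈ R, ∑ y, ((if (y, x) ∈ Ψ then (1:ℤ) else 0) - (if (x, y) ∈ Ψ then (1:ℤ) else 0))
        ≤ ∑ y ∈ R, ((if (y, x) ∈ Ψ then (1:ℤ) else 0) - (if (x, y) ∈ Ψ then (1:ℤ) else 0)) := by
      intro x hx
      rw [← Finset.sum_sdiff (Finset.subset_univ R)]
      have : ∑ y ∈ univ \ R, ((if (y, x) ∈ Ψ then (1:ℤ) else 0) - (if (x, y) ∈ Ψ then (1:ℤ) else 0))
          ≤ 0 := by
        refine Finset.sum_nonpos (fun y hy => ?_)
        rw [Finset.mem_sdiff] at hy
        have h4 : (y, x) ∉ Ψ := by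
          intro h5
          apply hy.2
          rw [hmem]
          exact Relation.ReflTransGen.head h5 ((hmem x).1 hx)
        rw [if_neg h4]
        split_ifs <;> norm_num
      linarith
    refine (Finset.sum_le_sum h3).trans (le_of_eq ?_)
    simp only [Finset.sum_sub_distrib]
    rw [Finset.sum_comm, sub_self]
  linarith

theorem decomp {G : SimpleGraph V} (A : Finset V) : ∀ (n : ℕ) (z : Fin n → V) (Ψ : Finset (V × V)),
    (∀ x y, (x, y) ∈ Ψ → G.Adj x y) → (∀ x y, (x, y) ∈ Ψ → (y, x) ∉ Ψ) →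
    (∀ v, v ∉ A → Dv Ψ v = ∑ i, if z i = v then (1:ℤ) else 0) →
    ∃ W : ∀ i : Fin n, Σ a : V, G.Walk a (z i), (∀ i, (W i).2.IsPath) ∧ (∀ i, (W i).1 ∈ A) ∧
      (∀ i j, i ≠ j → (W i).2.edges.Disjoint (W j).2.edges) ∧
      ∀ i e, 0 < cnt (W i).2 e → e ∈ Ψ := by
  intro n
  induction n with
  | zero =>
    intro z Ψ _ _ _
    exact ⟨fun i => i.elim0, fun i => i.elim0, fun i => i.elim0, fun i => i.elim0, fun i => i.elim0⟩
  | succ n ih =>
    intro z Ψ hG h2 hD
    have main : ∃ (a : V) (P : G.Walk a (z (Fin.last n))) (Ψ' : Finset (V × V)), a ∈ A ∧ P.IsPath ∧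
        Ψ' ⊆ Ψ ∧ (∀ e, 0 < cnt P e → e ∈ Ψ ∧ e ∉ Ψ') ∧
        ∀ v, v ∉ A → Dv Ψ' v = ∑ i : Fin n, if z i.castSucc = v then (1:ℤ) else 0 := by
      by_cases hv : z (Fin.last n) ∈ A
      · refine ⟨_, SimpleGraph.Walk.nil, Ψ, hv, SimpleGraph.Walk.IsPath.nil, Finset.Subset.refl _,
          ?_, ?_⟩
        · intro e he
          simp [cnt] at he
        · intro v hvA
          rw [hD v hvA, Fin.sum_univ_castSucc, if_neg, add_zero]
          intro h; exact hvA (h ▸ hv)
      · have hpos : 0 < Dv Ψ (z (Fin.last n)) := by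
          rw [hD _ hv]
          refine Finset.sum_pos' (fun i _ => by split_ifs <;> norm_num)
            ⟨Fin.last n, Finset.mem_univ _, by simp⟩
        obtain ⟨a, haA, P, hP, hPΨ⟩ := reach Ψ hG A (fun x hx => by
          rw [hD x hx]
          exact Finset.sum_nonneg (fun i _ => by split_ifs <;> norm_num)) hpos
        refine ⟨a, P, Ψ.filter (fun e => cnt P e = 0), haA, hP, Finset.filter_subset _ _, ?_, ?_⟩
        · intro e he
          refine ⟨hPΨ e he, ?_⟩
          rw [Finset.mem_filter]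
          intro h; omega
        · intro v hvA
          have hind : ∀ e, (if e ∈ Ψ.filter (fun e => cnt P e = 0) then (1:ℤ) else 0)
              = (if e ∈ Ψ then (1:ℤ) else 0) - cnt P e := by
            intro e
            have hm : e ∈ Ψ.filter (fun e => cnt P e = 0) ↔ e ∈ Ψ ∧ cnt P e = 0 := Finset.mem_filter
            have h3 := cnt_nonneg P e
            have h4 := cnt_le_one P hP e
            have h5 := hPΨ e
            by_cases h6 : e ∈ Ψ
            · by_cases h7 : cnt P e = 0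
              · rw [if_pos (hm.2 ⟨h6, h7⟩), if_pos h6, h7]; norm_num
              · rw [if_neg (fun h => h7 (hm.1 h).2), if_pos h6]; omega
            · have h8 : cnt P e = 0 := by
                by_contra h9
                exact h6 (h5 (lt_of_le_of_ne h3 (Ne.symm h9)))
              rw [if_neg (fun h => h6 (hm.1 h).1), if_neg h6, h8]; norm_num
          have h3 : Dv (Ψ.filter (fun e => cnt P e = 0)) v
              = Dv Ψ v - ∑ x, (cnt P (x, v) - cnt P (v, x)) := by
            unfold Dv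
            rw [← Finset.sum_sub_distrib]
            refine Finset.sum_congr rfl (fun x _ => ?_)
            rw [hind, hind]
            ring
          rw [h3, div_walk, hD v hvA, Fin.sum_univ_castSucc]
          have h4 : v ≠ a := fun h => hvA (h ▸ haA)
          rw [if_neg h4]
          by_cases h5 : z (Fin.last n) = v
          · rw [if_pos h5, if_pos h5.symm]; ring
          · rw [if_neg h5, if_neg (fun h => h5 h.symm)]; ring
    obtain ⟨a, P, Ψ', haA, hP, hsub, hPΨ, hD'⟩ := main
    obtain ⟨W, w1, w2, w3, w4⟩ := ih (fun i => z i.castSucc) Ψ' (fun x y h => hG x y (hsub h))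
      (fun x y h h' => h2 x y (hsub h) (hsub h')) hD'
    have hdisj : ∀ i, P.edges.Disjoint (W i).2.edges := by
      intro i e he1 he2
      obtain ⟨x, y, hxy, hc⟩ := mem_edges_iff_cnt P he1
      obtain ⟨x', y', hxy', hc'⟩ := mem_edges_iff_cnt (W i).2 he2
      have h5 := hPΨ _ hc
      have h6 := w4 i _ hc'
      rw [hxy] at hxy'
      rcases Sym2.eq_iff.1 hxy' with ⟨h7, h8⟩ | ⟨h7, h8⟩
      · subst h7; subst h8
        exact h5.2 h6
      · subst h7; subst h8
        exact h2 _ _ h5.1 (hsub h6)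
    obtain ⟨W', hlast, hcast⟩ : ∃ W' : ∀ i : Fin (n+1), Σ a : V, G.Walk a (z i),
        W' (Fin.last n) = ⟨a, P⟩ ∧ ∀ i : Fin n, W' i.castSucc = W i :=
      ⟨fun i => Fin.lastCases (motive := fun i => Σ a : V, G.Walk a (z i)) ⟨a, P⟩ W i,
        Fin.lastCases_last, fun i => Fin.lastCases_castSucc i⟩
    refine ⟨W', ?_, ?_, ?_, ?_⟩
    · intro i
      refine Fin.lastCases ?_ (fun i => ?_) i
      · rw [hlast]; exact hP
      · rw [hcast]; exact w1 i
    · intro i
      refine Fin.lastCases ?_ (fun i => ?_) i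
      · rw [hlast]; exact haA
      · rw [hcast]; exact w2 i
    · intro i
      refine Fin.lastCases ?_ (fun i => ?_) i
      · intro j
        refine Fin.lastCases ?_ (fun j => ?_) j
        · intro h; exact absurd rfl h
        · intro _
          rw [hlast, hcast]; exact hdisj j
      · intro j
        refine Fin.lastCases ?_ (fun j => ?_) j
        · intro _
          rw [hlast, hcast]; exact (hdisj i).symm
        · intro h
          have h' : i ≠ j := fun h3 => h (by rw [h3])
          rw [hcast, hcast]; exact w3 i j h'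
    · intro i
      refine Fin.lastCases ?_ (fun i => ?_) i
      · intro e he
        rw [hlast] at he
        exact (hPΨ e he).1
      · intro e he
        rw [hcast] at he
        exact hsub (w4 i e he)

/-- Augmentation: `p` edge-disjoint paths from `A` to `z i` plus a residual path `π` from `A` to `u`
give `p+1` edge-disjoint paths from `A` to the `z i` and `u`. -/
theorem aug (G : SimpleGraph V) (A : Finset V) {p : ℕ} (a z : Fin p → V)
    (w : ∀ i, G.Walk (a i) (z i)) (hw : ∀ i, (w i).IsPath) (ha : ∀ i, a i ∈ A)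
    (hd : ∀ i j, i ≠ j → (w i).edges.Disjoint (w j).edges)
    {b u : V} (hb : b ∈ A) (π : G.Walk b u) (hπ : π.IsPath)
    (hres : ∀ d ∈ π.darts, ∀ i, d ∉ (w i).darts)
    (z' : Fin (p+1) → V) (hz : ∀ i : Fin p, z' i.castSucc = z i) (hu : z' (Fin.last p) = u) :
    ∃ (a' : Fin (p+1) → V) (w' : ∀ i, G.Walk (a' i) (z' i)),
      (∀ i, (w' i).IsPath) ∧ (∀ i, a' i ∈ A) ∧
      (∀ i j, i ≠ j → (w' i).edges.Disjoint (w' j).edges) ∧
      (∀ i, ∀ e ∈ (w' i).edges, (∃ j, e ∈ (w j).edges) ∨ e ∈ π.edges) := by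
  -- the net flow
  let α : Fin p → V × V → ℤ := fun i e => cnt (w i) (e.1, e.2) - cnt (w i) (e.2, e.1)
  let β : V × V → ℤ := fun e => cnt π (e.1, e.2) - cnt π (e.2, e.1)
  let f : V × V → ℤ := fun e => ∑ i, α i e + β e
  have hanti : ∀ x y, f (y, x) = - f (x, y) := by
    intro x y
    simp only [f, α, β]
    rw [neg_add, ← Finset.sum_neg_distrib]
    congr 1
    · exact Finset.sum_congr rfl (fun i _ => by ring)
    · ring
  have hαpos : ∀ i x y, α i (x, y) ≠ 0 → s(x, y) ∈ (w i).edges := by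
    intro i x y h
    simp only [α] at h
    by_cases h1 : 0 < cnt (w i) (x, y)
    · exact (mem_edges_of_cnt _ h1).1
    · have h2 := cnt_nonneg (w i) (x, y)
      have h3 := cnt_nonneg (w i) (y, x)
      have h4 : 0 < cnt (w i) (y, x) := by omega
      rw [Sym2.eq_swap]
      exact (mem_edges_of_cnt _ h4).1
  have hαle : ∀ i x y, α i (x, y) ≤ 1 ∧ -1 ≤ α i (x, y) := by
    intro i x y
    simp only [α]
    have h1 := cnt_nonneg (w i) (x, y)
    have h2 := cnt_nonneg (w i) (y, x)
    have h3 := cnt_le_one (w i) (hw i) (x, y)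
    have h4 := cnt_le_one (w i) (hw i) (y, x)
    constructor <;> omega
  have hsum : ∀ x y, (∑ i, α i (x, y) = 0) ∨ ∃ i, ∑ i, α i (x, y) = α i (x, y) := by
    intro x y
    by_cases h : ∃ i, α i (x, y) ≠ 0
    · obtain ⟨i, hi⟩ := h
      refine Or.inr ⟨i, Finset.sum_eq_single i (fun j _ hj => ?_) (fun h => absurd (Finset.mem_univ i) h)⟩
      by_contra hcon
      exact hd i j (Ne.symm hj) (hαpos i x y hi) (hαpos j x y hcon)
    · push Not at h
      exact Or.inl (Finset.sum_eq_zero (fun i _ => h i))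
  have hπpos : ∀ x y, 0 < cnt π (x, y) → ∀ i, cnt (w i) (x, y) = 0 := by
    intro x y h i
    by_contra hcon
    have h1 : 0 < cnt (w i) (x, y) := lt_of_le_of_ne (cnt_nonneg _ _) (Ne.symm hcon)
    obtain ⟨d, hd1, hd2⟩ := (cnt_pos_iff _ _).1 h
    obtain ⟨d', hd1', hd2'⟩ := (cnt_pos_iff _ _).1 h1
    have h3 : d = d' := SimpleGraph.Dart.ext _ _ (hd2.trans hd2'.symm)
    exact hres d hd1 i (h3 ▸ hd1')
  have hfle : ∀ x y, f (x, y) ≤ 1 := by
    intro x y
    have b1 := cnt_nonneg π (x, y)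
    have b2 := cnt_nonneg π (y, x)
    have b3 := cnt_le_one π hπ (x, y)
    show ∑ i, α i (x, y) + (cnt π (x, y) - cnt π (y, x)) ≤ 1
    by_cases h : 0 < cnt π (x, y)
    · have h1 : ∑ i, α i (x, y) ≤ 0 := by
        refine Finset.sum_nonpos (fun i _ => ?_)
        simp only [α]
        have h2 := hπpos x y h i
        have h3 := cnt_nonneg (w i) (y, x)
        omega
      omega
    · rcases hsum x y with h1 | ⟨i, h1⟩
      · omega
      · have := (hαle i x y).1
        omega
  -- the new set of arcs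
  let Ψ : Finset (V × V) := univ.filter (fun e => f e = 1)
  have hΨ : ∀ e, e ∈ Ψ ↔ f e = 1 := by intro e; simp [Ψ]
  have hsrc : ∀ x y, (x, y) ∈ Ψ → (∃ i, 0 < cnt (w i) (x, y)) ∨ 0 < cnt π (x, y) := by
    intro x y h
    rw [hΨ] at h
    by_contra hcon
    push Not at hcon
    obtain ⟨h1, h2⟩ := hcon
    have h3 : ∑ i, α i (x, y) ≤ 0 := by
      refine Finset.sum_nonpos (fun i _ => ?_)
      simp only [α]
      have h4 := h1 i
      have h5 := cnt_nonneg (w i) (y, x)
      omega
    have h6 := cnt_nonneg π (y, x)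
    have h7 : ∑ i, α i (x, y) + (cnt π (x, y) - cnt π (y, x)) = 1 := h
    omega
  have hΨG : ∀ x y, (x, y) ∈ Ψ → G.Adj x y := by
    intro x y h
    rcases hsrc x y h with ⟨i, h1⟩ | h1
    · exact (mem_edges_of_cnt _ h1).2
    · exact (mem_edges_of_cnt _ h1).2
  have hΨ2 : ∀ x y, (x, y) ∈ Ψ → (y, x) ∉ Ψ := by
    intro x y h h'
    rw [hΨ] at h h'
    rw [hanti] at h'
    omega
  have hdv : ∀ v, v ∉ A → Dv Ψ v = ∑ i, if z' i = v then (1:ℤ) else 0 := by
    intro v hv
    have h1 : Dv Ψ v = ∑ x, f (x, v) := by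
      unfold Dv
      refine Finset.sum_congr rfl (fun x _ => ?_)
      have h2 := hfle x v
      have h3 := hfle v x
      rw [hanti x v] at h3
      by_cases h4 : f (x, v) = 1
      · have h5 : (v, x) ∉ Ψ := hΨ2 _ _ ((hΨ _).2 h4)
        rw [if_pos ((hΨ _).2 h4), if_neg h5, h4]; norm_num
      · have h4' : (x, v) ∉ Ψ := fun h => h4 ((hΨ _).1 h)
        by_cases h6 : f (v, x) = 1
        · rw [if_neg h4', if_pos ((hΨ _).2 h6)]
          rw [hanti x v] at h6
          omega
        · have h6' : (v, x) ∉ Ψ := fun h => h6 ((hΨ _).1 h)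
          rw [if_neg h4', if_neg h6']
          rw [hanti x v] at h6
          omega
    have h2 : ∑ x, f (x, v) = ∑ i, ∑ x, (cnt (w i) (x, v) - cnt (w i) (v, x))
        + ∑ x, (cnt π (x, v) - cnt π (v, x)) := by
      simp only [f, α, β]
      rw [Finset.sum_add_distrib, Finset.sum_comm]
    rw [h1, h2, div_walk, Fin.sum_univ_castSucc]
    simp only [div_walk]
    have h3 : v ≠ b := fun h => hv (h ▸ hb)
    have h4 : ∀ i, v ≠ a i := fun i h => hv (h ▸ ha i)
    rw [if_neg h3]
    congr 1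
    · refine Finset.sum_congr rfl (fun i _ => ?_)
      rw [if_neg (h4 i), hz i]
      by_cases h5 : z i = v
      · rw [if_pos h5, if_pos h5.symm]; norm_num
      · rw [if_neg h5, if_neg (fun h => h5 h.symm)]; norm_num
    · rw [hu]
      by_cases h5 : u = v
      · rw [if_pos h5, if_pos h5.symm]; norm_num
      · rw [if_neg h5, if_neg (fun h => h5 h.symm)]; norm_num
  obtain ⟨W, w1, w2, w3, w4⟩ := decomp (G := G) A (p+1) z' Ψ hΨG hΨ2 hdv
  refine ⟨fun i => (W i).1, fun i => (W i).2, w1, w2, w3, ?_⟩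
  intro i e he
  obtain ⟨x, y, hxy, hc⟩ := mem_edges_iff_cnt _ he
  rw [hxy]
  rcases hsrc x y (w4 i _ hc) with ⟨j, h1⟩ | h1
  · exact Or.inl ⟨j, (mem_edges_of_cnt _ h1).1⟩
  · exact Or.inr (mem_edges_of_cnt _ h1).1

end M1

alias aug := M1.aug

end ImmLog
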