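import Pool.Agent.ImmLog.Defs2

set_option autoImplicit false

open Classical Finset

namespace ImmLog

namespace M10

variable {V : Type*} [Fintype V]



/-- the graph of the edges of a walk -/
def EG {T : SimpleGraph V} {a b : V} (w : T.Walk a b) : SimpleGraph V :=
  SimpleGraph.fromEdgeSet {e | e ∈ w.edges}

theorem EG_adj {T : SimpleGraph V} {a b : V} (w : T.Walk a b) (u v : V) :
    (EG w).Adj u v ↔ s(u, v) ∈ w.edges := by
  unfold EG
  rw [SimpleGraph.fromEdgeSet_adj]
  constructor
  · rintro ⟨h, _⟩; exact h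
  · intro h
    refine ⟨h, ?_⟩
    exact (w.adj_of_mem_edges h).ne

theorem EG_le {T : SimpleGraph V} {a b : V} (w : T.Walk a b) : EG w ≤ T := by
  intro u v h
  rw [EG_adj] at h
  exact w.adj_of_mem_edges h

theorem nd_EG {T : SimpleGraph V} {a b : V} (w : T.Walk a b) : nd (EG w) ≤ 2 * w.length := by
  unfold nd
  have h1 : ((univ : Finset (V × V)).filter (fun e => (EG w).Adj e.1 e.2)).card ≤ 2 * w.edges.toFinset.card := by
    apply Finset.card_le_mul_card_image_of_maps_to (f := fun e : V × V => s(e.1, e.2))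
    · intro e he
      rw [mem_filter, EG_adj] at he
      rw [List.mem_toFinset]
      exact he.2
    · intro b hb
      induction b using Sym2.ind with
      | _ x y =>
        have : ((univ : Finset (V × V)).filter (fun e => (EG w).Adj e.1 e.2)).filter (fun e => s(e.1, e.2) = s(x, y)) ⊆ {(x, y), (y, x)} := by
          rintro ⟨u, v⟩ he
          rw [mem_filter] at he
          have h2 := he.2
          simp only [Sym2.eq_iff] at h2
          rw [Finset.mem_insert, Finset.mem_singleton]
          rcases h2 with ⟨h3, h4⟩ | ⟨h3, h4⟩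
          · left; rw [h3, h4]
          · right; rw [h3, h4]
        exact (Finset.card_le_card this).trans Finset.card_le_two
  have h2 : w.edges.toFinset.card ≤ w.length := by
    rw [← w.length_edges]
    exact w.edges.toFinset_card_le
  omega

theorem nd_bot : nd (⊥ : SimpleGraph V) = 0 := by
  unfold nd
  simp

/-- good families -/
def Good (H Rs : SimpleGraph V) {N q : ℕ} (D : Fin N → Fin q → Finset V) (L : ℕ)
    (Fam : Finset (Fin N × Fin N × Fin q)) (P : Fin N → Fin N → Fin q → SimpleGraph V) : Prop :=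
  (∀ l l' j, P l l' j ≤ H \ Rs) ∧ (∀ l l' j, nd (P l l' j) ≤ 2 * L) ∧
  (∀ l l' j m m' i, (l, l', j) ≠ (m, m', i) → Disjoint (P l l' j) (P m m' i)) ∧
  (∀ l l' j, (l, l', j) ∉ Fam → P l l' j = ⊥) ∧
  (∀ l l' j, (l, l', j) ∈ Fam → l < l' ∧ ∃ x ∈ D l j, ∃ y ∈ D l' j, ∃ w : (P l l' j).Walk x y, w.length ≤ L)

theorem good_empty (H Rs : SimpleGraph V) {N q : ℕ} (D : Fin N → Fin q → Finset V) (L : ℕ) :
    Good H Rs D L ∅ (fun _ _ _ => ⊥) := by
  refine ⟨fun _ _ _ => bot_le, fun _ _ _ => by rw [nd_bot]; exact Nat.zero_le _, fun _ _ _ _ _ _ _ => disjoint_bot_left, fun _ _ _ _ => rfl, ?_⟩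
  intro l l' j h
  simp at h

/-- Greedy linking: a maximal family of short edge-disjoint links gives auxiliary graphs without
large independent sets. -/
theorem links (H Rs : SimpleGraph V) {N q : ℕ} (D : Fin N → Fin q → Finset V)
    (L t Fm smax : ℕ) (hL : 2 * t ≤ L) (hFm : N * N * q * L ≤ Fm)
    (hreach : ∀ F : SimpleGraph V, F ≤ H → Disjoint F Rs → nd F ≤ 2 * Fm →
      ∀ l j, smax ≤ (ball (H \ (Rs ⊔ F)) (D l j) t).card) :
    ∃ (Γ : Fin q → SimpleGraph (Fin N)) (P : Fin N → Fin N → Fin q → SimpleGraph V),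
      (∀ l l' j, P l l' j ≤ H \ Rs) ∧ (∀ l l' j, nd (P l l' j) ≤ 2 * L) ∧
      (∀ l l' j m m' i, (l, l', j) ≠ (m, m', i) → Disjoint (P l l' j) (P m m' i)) ∧
      (∀ l l' j, l < l' → (Γ j).Adj l l' →
        ∃ x ∈ D l j, ∃ y ∈ D l' j, ∃ w : (P l l' j).Walk x y, w.length ≤ L) ∧
      (∀ j, ∀ I : Finset (Fin N), (∀ a ∈ I, ∀ b ∈ I, a ≠ b → ¬ (Γ j).Adj a b) →
        I.card * smax ≤ Fintype.card V) := by
  -- maximal family
  obtain ⟨Fam, hFam, hmax⟩ := Finset.exists_max_image
    ((univ : Finset (Finset (Fin N × Fin N × Fin q))).filter (fun Fam => ∃ P, Good H Rs D L Fam P))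
    (fun Fam => Fam.card) ⟨∅, by rw [mem_filter]; exact ⟨mem_univ _, _, good_empty H Rs D L⟩⟩
  rw [mem_filter] at hFam
  obtain ⟨-, P, hP⟩ := hFam
  obtain ⟨hP1, hP2, hP3, hP4, hP5⟩ := hP
  let Γ : Fin q → SimpleGraph (Fin N) := fun j =>
    { Adj := fun a b => (a < b ∧ (a, b, j) ∈ Fam) ∨ (b < a ∧ (b, a, j) ∈ Fam)
      symm := ⟨fun _ _ h => h.symm⟩
      loopless := ⟨fun a h => by rcases h with h | h <;> exact lt_irrefl _ h.1⟩ }
  refine ⟨Γ, P, hP1, hP2, hP3, ?_, ?_⟩
  · intro l l' j hl hadj
    rcases hadj with h | h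
    · exact (hP5 l l' j h.2).2
    · exact absurd hl (lt_asymm h.1)
  intro j I hI
  -- the union graph
  obtain ⟨F, hF⟩ : ∃ F : SimpleGraph V, ∀ u v, F.Adj u v ↔ ∃ l l' i, (P l l' i).Adj u v := ⟨
    { Adj := fun u v => ∃ l l' i, (P l l' i).Adj u v
      symm := ⟨fun _ _ ⟨l, l', i, h⟩ => ⟨l, l', i, h.symm⟩⟩
      loopless := ⟨fun v ⟨l, l', i, h⟩ => (P l l' i).loopless.irrefl v h⟩ }, fun _ _ => Iff.rfl⟩
  have hFH : F ≤ H := by
    intro u v huv
    obtain ⟨l, l', i, h⟩ := (hF u v).mp huv
    exact (hP1 l l' i h).1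
  have hFR : Disjoint F Rs := by
    rw [SimpleGraph.disjoint_left]
    intro u v huv
    obtain ⟨l, l', i, h⟩ := (hF u v).mp huv
    exact (hP1 l l' i h).2
  have hFnd : nd F ≤ 2 * Fm := by
    have h1 : nd F ≤ ∑ τ : Fin N × Fin N × Fin q, nd (P τ.1 τ.2.1 τ.2.2) := by
      unfold nd
      refine le_trans (Finset.card_le_card ?_) (Finset.card_biUnion_le (s := (univ : Finset (Fin N × Fin N × Fin q)))
        (t := fun τ => (univ : Finset (V × V)).filter (fun e => (P τ.1 τ.2.1 τ.2.2).Adj e.1 e.2)))
      intro e he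
      rw [mem_filter] at he
      obtain ⟨l, l', i, h⟩ := (hF _ _).mp he.2
      rw [mem_biUnion]
      refine ⟨(l, l', i), mem_univ _, ?_⟩
      rw [mem_filter]
      exact ⟨mem_univ _, h⟩
    have h2 : ∑ τ : Fin N × Fin N × Fin q, nd (P τ.1 τ.2.1 τ.2.2) ≤ ∑ _τ : Fin N × Fin N × Fin q, 2 * L :=
      Finset.sum_le_sum (fun τ _ => hP2 _ _ _)
    rw [Finset.sum_const, Finset.card_univ, Fintype.card_prod, Fintype.card_prod, Fintype.card_fin, Fintype.card_fin, smul_eq_mul] at h2
    calc nd F ≤ N * (N * q) * (2 * L) := h1.trans h2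
      _ = 2 * (N * N * q * L) := by ring
      _ ≤ 2 * Fm := by omega
  have hcard := hreach F hFH hFR hFnd
  have hdisj : ∀ a ∈ I, ∀ b ∈ I, a < b → Disjoint (ball (H \ (Rs ⊔ F)) (D a j) t) (ball (H \ (Rs ⊔ F)) (D b j) t) := by
    intro a ha b hb hab
    rw [Finset.disjoint_left]
    intro v hva hvb
    unfold ball at hva hvb
    rw [mem_filter] at hva hvb
    obtain ⟨-, x, hx, w, hw⟩ := hva
    obtain ⟨-, y, hy, w', hw'⟩ := hvb
    let W := w.append w'.reverse
    have hWlen : W.length ≤ L := by
      have : W.length = w.length + w'.length := by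
        simp [W]
      omega
    have hnot : (a, b, j) ∉ Fam := by
      intro hmem
      exact hI a ha b hb hab.ne (Or.inl ⟨hab, hmem⟩)
    -- new family
    let Q := EG W
    have hQT : Q ≤ H \ (Rs ⊔ F) := EG_le W
    have hQ1 : Q ≤ H \ Rs := by
      intro u v huv
      have := hQT huv
      rw [SimpleGraph.sdiff_adj, SimpleGraph.sup_adj] at this
      rw [SimpleGraph.sdiff_adj]
      exact ⟨this.1, fun h => this.2 (Or.inl h)⟩
    have hQF : ∀ l l' i, Disjoint Q (P l l' i) := by
      intro l l' i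
      rw [SimpleGraph.disjoint_left]
      intro u v huv h
      have := hQT huv
      rw [SimpleGraph.sdiff_adj, SimpleGraph.sup_adj] at this
      exact this.2 (Or.inr ((hF u v).mpr ⟨l, l', i, h⟩))
    let P' : Fin N → Fin N → Fin q → SimpleGraph V := fun l l' i => if (l, l', i) = (a, b, j) then Q else P l l' i
    have hgood : Good H Rs D L (insert (a, b, j) Fam) P' := by
      refine ⟨?_, ?_, ?_, ?_, ?_⟩
      · intro l l' i
        by_cases h : (l, l', i) = (a, b, j)
        · simp only [P', if_pos h]; exact hQ1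
        · simp only [P', if_neg h]; exact hP1 l l' i
      · intro l l' i
        by_cases h : (l, l', i) = (a, b, j)
        · simp only [P', if_pos h]
          exact (nd_EG W).trans (by omega)
        · simp only [P', if_neg h]; exact hP2 l l' i
      · intro l l' i m m' k hne
        by_cases h : (l, l', i) = (a, b, j)
        · have h2 : (m, m', k) ≠ (a, b, j) := fun h3 => hne (h.trans h3.symm)
          simp only [P', if_pos h, if_neg h2]; exact hQF _ _ _
        · by_cases h2 : (m, m', k) = (a, b, j)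
          · simp only [P', if_neg h, if_pos h2]; exact (hQF _ _ _).symm
          · simp only [P', if_neg h, if_neg h2]; exact hP3 _ _ _ _ _ _ hne
      · intro l l' i hmem
        rw [mem_insert, not_or] at hmem
        simp only [P', if_neg hmem.1]
        exact hP4 l l' i hmem.2
      · intro l l' i hmem
        by_cases h : (l, l', i) = (a, b, j)
        · have e1 : l = a := congrArg (fun z => z.1) h
          have e2 : l' = b := congrArg (fun z => z.2.1) h
          have e3 : i = j := congrArg (fun z => z.2.2) h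
          subst e1; subst e2; subst e3
          refine ⟨hab, x, hx, y, hy, ?_⟩
          have hP'eq : P' l l' i = Q := by simp only [P', if_pos]
          rw [hP'eq]
          refine ⟨W.transfer Q ?_, ?_⟩
          · intro e he
            induction e using Sym2.ind with
            | _ u v =>
              rw [SimpleGraph.mem_edgeSet, EG_adj]
              exact he
          · rw [SimpleGraph.Walk.length_transfer]; exact hWlen
        · have hP'eq : P' l l' i = P l l' i := by simp only [P', if_neg h]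
          rw [mem_insert] at hmem
          rw [hP'eq]
          exact hP5 l l' i (hmem.resolve_left h)
    have := hmax (insert (a, b, j) Fam) (by rw [mem_filter]; exact ⟨mem_univ _, P', hgood⟩)
    rw [Finset.card_insert_of_notMem hnot] at this
    omega
  have hpw : (I : Set (Fin N)).PairwiseDisjoint (fun a => ball (H \ (Rs ⊔ F)) (D a j) t) := by
    intro a ha b hb hab
    rcases lt_or_gt_of_ne hab with h | h
    · exact hdisj a ha b hb h
    · exact (hdisj b hb a ha h).symm
  calc I.card * smax = ∑ _a ∈ I, smax := by rw [Finset.sum_const, smul_eq_mul]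
    _ ≤ ∑ a ∈ I, (ball (H \ (Rs ⊔ F)) (D a j) t).card := Finset.sum_le_sum (fun a _ => hcard a j)
    _ = (I.biUnion (fun a => ball (H \ (Rs ⊔ F)) (D a j) t)).card := (Finset.card_biUnion hpw).symm
    _ ≤ Fintype.card V := Finset.card_le_univ _

end M10

alias links := M10.links

end ImmLog
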