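import Pool.Agent.ImmLog.Defs2

set_option autoImplicit false

open Classical Finset

namespace ImmLog

namespace M11

variable {V : Type*} [Fintype V]



/-- all entries of `y` are adjacent to `v` -/
def Cm {W κ : Type*} (G : SimpleGraph W) (y : κ → W) (v : W) : Prop := ∀ i, G.Adj (y i) v

/-- all entries of `y` are in `S` -/
def Ins {W κ : Type*} (S : Finset W) (y : κ → W) : Prop := ∀ i, y i ∈ S

/-- independent -/
def Indp {W : Type*} (G : SimpleGraph W) (I : Finset W) : Prop :=
  ∀ x ∈ I, ∀ y ∈ I, x ≠ y → ¬ G.Adj x y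

/-- common neighbourhood -/
noncomputable def CNb {W κ : Type*} (G : SimpleGraph W) (U : Finset W) (y : κ → W) : Finset W :=
  U.filter (fun v => Cm G y v)

theorem mem_CNb {W κ : Type*} (G : SimpleGraph W) (U : Finset W) (y : κ → W) (v : W) :
    v ∈ CNb G U y ↔ v ∈ U ∧ ∀ i, G.Adj (y i) v := by
  unfold CNb
  rw [mem_filter]
  rfl

theorem low_deg {W : Type*} (G : SimpleGraph W) (U : Finset W) (a : ℕ) (ha : 1 ≤ a)
    (hI : ∀ I ⊆ U, (∀ x ∈ I, ∀ y ∈ I, x ≠ y → ¬ G.Adj x y) → I.card ≤ a) :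
    2 * (U.filter (fun x => ((U.filter (fun v => G.Adj x v)).card + 1) * (2 * a) ≤ U.card)).card
      ≤ U.card := by
  obtain ⟨L, hL⟩ : ∃ L, L = U.filter (fun x =>
    ((U.filter (fun v => G.Adj x v)).card + 1) * (2 * a) ≤ U.card) := ⟨_, rfl⟩
  rw [← hL]
  obtain ⟨I, hIm, hImax⟩ := Finset.exists_max_image
    (L.powerset.filter (fun I => Indp G I)) (fun I => I.card)
    ⟨∅, by rw [mem_filter]; exact ⟨empty_mem_powerset _, fun x hx => absurd hx (notMem_empty x)⟩⟩
  rw [mem_filter, mem_powerset] at hIm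
  obtain ⟨hIL, hind⟩ := hIm
  have hLU : L ⊆ U := by rw [hL]; exact filter_subset _ _
  have hcov : L ⊆ I.biUnion (fun x => insert x (U.filter (fun v => G.Adj x v))) := by
    intro z hz
    rw [mem_biUnion]
    by_cases hzI : z ∈ I
    · exact ⟨z, hzI, mem_insert_self _ _⟩
    · by_contra hcon
      push Not at hcon
      have h1 : ∀ x ∈ I, ¬ G.Adj x z := by
        intro x hx hadj
        exact hcon x hx (mem_insert_of_mem (mem_filter.mpr ⟨hLU hz, hadj⟩))
      have h2 := hImax (insert z I) (by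
        rw [mem_filter, mem_powerset]
        refine ⟨insert_subset hz hIL, ?_⟩
        intro x hx y hy hxy
        rw [mem_insert] at hx hy
        rcases hx with rfl | hx
        · rcases hy with rfl | hy
          · exact absurd rfl hxy
          · exact fun h => h1 y hy h.symm
        · rcases hy with rfl | hy
          · exact h1 x hx
          · exact hind x hx y hy hxy)
      rw [card_insert_of_notMem hzI] at h2
      omega
  have h1 : L.card ≤ ∑ x ∈ I, ((U.filter (fun v => G.Adj x v)).card + 1) :=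
    (card_le_card hcov).trans (card_biUnion_le.trans (sum_le_sum (fun x _ => card_insert_le _ _)))
  have h2 : L.card * (2 * a) ≤ I.card * U.card := by
    calc L.card * (2 * a) ≤ (∑ x ∈ I, ((U.filter (fun v => G.Adj x v)).card + 1)) * (2 * a) :=
          Nat.mul_le_mul_right _ h1
      _ = ∑ x ∈ I, ((U.filter (fun v => G.Adj x v)).card + 1) * (2 * a) := by rw [sum_mul]
      _ ≤ ∑ x ∈ I, U.card := by
          apply sum_le_sum
          intro x hx
          have := hIL hx
          rw [hL, mem_filter] at this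
          exact this.2
      _ = I.card * U.card := by rw [sum_const, smul_eq_mul]
  have h3 := hI I (hIL.trans hLU) hind
  have h4 : a * (2 * L.card) ≤ a * U.card := by
    calc a * (2 * L.card) = L.card * (2 * a) := by ring
      _ ≤ I.card * U.card := h2
      _ ≤ a * U.card := Nat.mul_le_mul_right _ h3
  exact Nat.le_of_mul_le_mul_left h4 (by omega)

theorem drc {W ι : Type*} [Fintype ι] [Nonempty ι] (G : SimpleGraph W) (U : Finset W) (s : ℕ)
    (hs : Fintype.card ι = s) (a : ℕ) (ha : 1 ≤ a)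
    (hI : ∀ I ⊆ U, (∀ x ∈ I, ∀ y ∈ I, x ≠ y → ¬ G.Adj x y) → I.card ≤ a)
    (haN : 4 * a ≤ U.card) :
    ∃ U' ⊆ U, (∀ y : ι → W, (∀ i, y i ∈ U') → U.card ≤ (CNb G U y).card ^ 2) ∧
      (U.card : ℝ) / (2 * (4 * a) ^ (2 * s)) - 1 ≤ U'.card := by
  obtain ⟨N, hN⟩ : ∃ N, N = U.card := ⟨_, rfl⟩
  obtain ⟨dg, hdg⟩ : ∃ dg : W → ℕ, dg = fun x => (U.filter (fun v => G.Adj x v)).card := ⟨_, rfl⟩
  obtain ⟨TT, hTT⟩ : ∃ TT : Finset (Fin (2 * s) → W), TT = Fintype.piFinset (fun _ => U) := ⟨_, rfl⟩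
  obtain ⟨YY, hYY⟩ : ∃ YY : Finset (ι → W), YY = (Fintype.piFinset (fun _ => U)).filter
    (fun y => (CNb G U y).card ^ 2 < U.card) := ⟨_, rfl⟩
  have ha' : (1 : ℝ) ≤ a := by exact_mod_cast ha
  have ha0 : (0 : ℝ) < a := by linarith
  have haN' : 4 * (a : ℝ) ≤ N := by rw [hN]; exact_mod_cast haN
  have hN0 : (0 : ℝ) < N := by linarith
  have hTTc : (TT.card : ℝ) = (N : ℝ) ^ (2 * s) := by
    rw [hTT, Fintype.card_piFinset, prod_const, card_univ, Fintype.card_fin, hN]
    push_cast
    rfl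
  -- first sum
  have hsum1 : ∑ T ∈ TT, ((CNb G U T).card : ℝ) = ∑ x ∈ U, (dg x : ℝ) ^ (2 * s) := by
    have h1 := Finset.sum_card_bipartiteAbove_eq_sum_card_bipartiteBelow (s := TT) (t := U)
      (fun T v => Cm G T v)
    have h2 : ∀ x ∈ U, (TT.bipartiteBelow (fun T v => Cm G T v) x).card =
        dg x ^ (2 * s) := by
      intro x _
      have : TT.bipartiteBelow (fun T v => Cm G T v) x =
          Fintype.piFinset (fun _ => U.filter (fun v => G.Adj x v)) := by
        ext T
        rw [Finset.mem_bipartiteBelow, hTT, Fintype.mem_piFinset, Fintype.mem_piFinset]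
        constructor
        · rintro ⟨h3, h4⟩ i
          exact mem_filter.mpr ⟨h3 i, (h4 i).symm⟩
        · intro h3
          exact ⟨fun i => (mem_filter.mp (h3 i)).1, fun i => (mem_filter.mp (h3 i)).2.symm⟩
      rw [this, Fintype.card_piFinset, prod_const, hdg]
      simp
    rw [Finset.sum_congr rfl h2] at h1
    have h3 : ∑ T ∈ TT, (CNb G U T).card = ∑ x ∈ U, dg x ^ (2 * s) := h1
    exact_mod_cast h3
  have hsum1' : (N : ℝ) / 2 * ((N : ℝ) / (4 * a)) ^ (2 * s) ≤
      ∑ x ∈ U, (dg x : ℝ) ^ (2 * s) := by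
    have hlow := low_deg G U a ha hI
    obtain ⟨L, hL⟩ : ∃ L, L = U.filter (fun x =>
      ((U.filter (fun v => G.Adj x v)).card + 1) * (2 * a) ≤ U.card) := ⟨_, rfl⟩
    rw [← hL] at hlow
    have hLU : L ⊆ U := by rw [hL]; exact filter_subset _ _
    have h1 : (N : ℝ) / 2 ≤ (U \ L).card := by
      have := card_sdiff_add_card_eq_card hLU
      have h2 : U.card ≤ 2 * (U \ L).card := by omega
      have h3 : (N : ℝ) ≤ 2 * ((U \ L).card : ℝ) := by rw [hN]; exact_mod_cast h2
      linarith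
    calc (N : ℝ) / 2 * ((N : ℝ) / (4 * a)) ^ (2 * s)
        ≤ (U \ L).card * ((N : ℝ) / (4 * a)) ^ (2 * s) := by gcongr
      _ = ∑ x ∈ U \ L, ((N : ℝ) / (4 * a)) ^ (2 * s) := by rw [sum_const, nsmul_eq_mul]
      _ ≤ ∑ x ∈ U \ L, (dg x : ℝ) ^ (2 * s) := by
          apply sum_le_sum
          intro x hx
          have h4 : (N : ℝ) / (4 * a) ≤ dg x := by
            rw [mem_sdiff, hL, mem_filter] at hx
            have h5 : ¬ (dg x + 1) * (2 * a) ≤ U.card := by
              intro h
              apply hx.2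
              refine ⟨hx.1, ?_⟩
              rw [hdg] at h
              exact h
            push Not at h5
            have h6 : (N : ℝ) < ((dg x : ℝ) + 1) * (2 * a) := by rw [hN]; exact_mod_cast h5
            rw [div_le_iff₀ (by positivity)]
            nlinarith
          gcongr
      _ ≤ ∑ x ∈ U, (dg x : ℝ) ^ (2 * s) := by
          apply sum_le_sum_of_subset_of_nonneg sdiff_subset
          intro x _ _
          positivity
  -- second sum
  have hsum2 : ∑ T ∈ TT, ((YY.filter (fun y => Ins (CNb G U T) y)).card : ℝ) ≤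
      (N : ℝ) ^ (2 * s) := by
    have h1 := Finset.sum_card_bipartiteAbove_eq_sum_card_bipartiteBelow (s := TT) (t := YY)
      (fun T y => Ins (CNb G U T) y)
    have h2 : ∀ y ∈ YY, (TT.bipartiteBelow (fun T y => Ins (CNb G U T) y) y).card ≤ N ^ s := by
      intro y hy
      rw [hYY, mem_filter, Fintype.mem_piFinset] at hy
      have : TT.bipartiteBelow (fun T y => Ins (CNb G U T) y) y ⊆
          Fintype.piFinset (fun _ => CNb G U y) := by
        intro T hT
        rw [Finset.mem_bipartiteBelow, hTT, Fintype.mem_piFinset] at hT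
        rw [Fintype.mem_piFinset]
        intro j
        rw [mem_CNb]
        refine ⟨hT.1 j, fun i => ?_⟩
        have := hT.2 i
        exact (((mem_CNb _ _ _ _).mp this).2 j).symm
      refine (card_le_card this).trans ?_
      rw [Fintype.card_piFinset, prod_const, card_univ, Fintype.card_fin, pow_mul, hN]
      exact Nat.pow_le_pow_left hy.2.le _
    have h3 : YY.card ≤ N ^ s := by
      rw [hYY]
      refine (card_filter_le _ _).trans ?_
      rw [Fintype.card_piFinset, prod_const, card_univ, hs, hN]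
    have h4 : ∑ T ∈ TT, (YY.filter (fun y => Ins (CNb G U T) y)).card ≤ N ^ (2 * s) := by
      calc ∑ T ∈ TT, (YY.filter (fun y => Ins (CNb G U T) y)).card
          = ∑ y ∈ YY, (TT.bipartiteBelow (fun T y => Ins (CNb G U T) y) y).card := h1
        _ ≤ ∑ y ∈ YY, N ^ s := sum_le_sum h2
        _ = YY.card * N ^ s := by rw [sum_const, smul_eq_mul]
        _ ≤ N ^ s * N ^ s := Nat.mul_le_mul_right _ h3
        _ = N ^ (2 * s) := by rw [← pow_add]; congr 1; ring
    exact_mod_cast h4
  -- averaging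
  have hTTne : TT.Nonempty := by
    rw [← card_pos]
    have : (0 : ℝ) < TT.card := by rw [hTTc]; positivity
    exact_mod_cast this
  obtain ⟨T, hT, hTle⟩ := Finset.exists_le_of_sum_le hTTne (f := fun _ =>
      (N : ℝ) / (2 * (4 * a) ^ (2 * s)) - 1)
      (g := fun T => ((CNb G U T).card : ℝ) - ((YY.filter (fun y => Ins (CNb G U T) y)).card : ℝ))
      (by
        rw [sum_const, nsmul_eq_mul, hTTc, sum_sub_distrib, hsum1]
        have e : (N : ℝ) ^ (2 * s) * ((N : ℝ) / (2 * (4 * a) ^ (2 * s)) - 1) =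
            (N : ℝ) / 2 * ((N : ℝ) / (4 * a)) ^ (2 * s) - (N : ℝ) ^ (2 * s) := by
          rw [div_pow]
          field_simp
        rw [e]
        linarith)
  obtain ⟨i0⟩ := (inferInstance : Nonempty ι)
  refine ⟨CNb G U T \ (YY.filter (fun y => Ins (CNb G U T) y)).image (fun y => y i0), ?_, ?_, ?_⟩
  · exact sdiff_subset.trans (filter_subset _ _)
  · intro y hy
    by_contra hcon
    push Not at hcon
    have h1 : ∀ i, y i ∈ CNb G U T := fun i => (mem_sdiff.mp (hy i)).1
    have h2 : y ∈ YY.filter (fun y => Ins (CNb G U T) y) := by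
      rw [mem_filter, hYY, mem_filter, Fintype.mem_piFinset]
      exact ⟨⟨fun i => ((mem_CNb _ _ _ _).mp (h1 i)).1, hcon⟩, h1⟩
    exact (mem_sdiff.mp (hy i0)).2 (mem_image_of_mem _ h2)
  · rw [← hN]
    refine hTle.trans ?_
    have h1 := le_card_sdiff ((YY.filter (fun y => Ins (CNb G U T) y)).image (fun y => y i0))
      (CNb G U T)
    have h2 : ((YY.filter (fun y => Ins (CNb G U T) y)).image (fun y => y i0)).card ≤
      (YY.filter (fun y => Ins (CNb G U T) y)).card := card_image_le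
    have h3 : (CNb G U T).card ≤ (CNb G U T \ (YY.filter
        (fun y => Ins (CNb G U T) y)).image (fun y => y i0)).card +
        (YY.filter (fun y => Ins (CNb G U T) y)).card := by omega
    have h4 : ((CNb G U T).card : ℝ) ≤ ((CNb G U T \ (YY.filter
        (fun y => Ins (CNb G U T) y)).image (fun y => y i0)).card : ℝ) +
        ((YY.filter (fun y => Ins (CNb G U T) y)).card : ℝ) := by exact_mod_cast h3
    linarith

theorem num_bound (N u A K : ℕ) (hA : A ^ 4 ≤ N) (hN : 16 * K ^ 4 < N)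
    (h : N ≤ (u + 1) * (K * A)) : N ≤ u ^ 2 := by
  by_contra hcon
  push Not at hcon
  have h1 : (u + 1) ^ 2 ≤ 4 * N := by nlinarith
  have h2 : (u + 1) ^ 4 ≤ 16 * N ^ 2 := by
    calc (u + 1) ^ 4 = ((u + 1) ^ 2) ^ 2 := by ring
      _ ≤ (4 * N) ^ 2 := Nat.pow_le_pow_left h1 2
      _ = 16 * N ^ 2 := by ring
  have h3 : N ^ 4 ≤ 16 * K ^ 4 * N ^ 3 := by
    calc N ^ 4 ≤ ((u + 1) * (K * A)) ^ 4 := Nat.pow_le_pow_left h 4
      _ = (u + 1) ^ 4 * K ^ 4 * A ^ 4 := by ring
      _ ≤ (16 * N ^ 2) * K ^ 4 * N := by gcongr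
      _ = 16 * K ^ 4 * N ^ 3 := by ring
  have h4 : 0 < N ^ 3 := by
    have : 0 < N := by omega
    positivity
  have h5 : 16 * K ^ 4 * N ^ 3 < N * N ^ 3 := Nat.mul_lt_mul_of_pos_right hN h4
  have h6 : N ^ 4 = N * N ^ 3 := by ring
  omega

/-- the inductive statement -/
def PH (d : ℕ) (c N0 : ℕ) : Prop :=
  ∀ (W : Type) (U : Finset W), N0 ≤ U.card → ∀ Γ : Fin d → SimpleGraph W,
    (∀ j, ∀ I ⊆ U, (∀ a ∈ I, ∀ b ∈ I, a ≠ b → ¬ (Γ j).Adj a b) → I.card ^ c ≤ U.card) →
    ∃ g : (Fin d → Bool) → W, Function.Injective g ∧ (∀ x, g x ∈ U) ∧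
      ∀ x j, (Γ j).Adj (g x) (g (Function.update x j (!x j)))

theorem PH_sub (d c0 N1 : ℕ) (hP : PH d c0 N1) (c : ℕ) (hc : 2 * c0 ≤ c) (W : Type)
    (U U' : Finset W)
    (hU : U' ⊆ U) (hN : N1 ^ 2 ≤ U.card) (hU0 : 0 < U.card) (hUU : U.card ≤ U'.card ^ 2)
    (Γ : Fin d → SimpleGraph W)
    (h : ∀ j, ∀ I ⊆ U, (∀ a ∈ I, ∀ b ∈ I, a ≠ b → ¬ (Γ j).Adj a b) → I.card ^ c ≤ U.card) :
    ∃ g : (Fin d → Bool) → W, Function.Injective g ∧ (∀ x, g x ∈ U') ∧
      ∀ x j, (Γ j).Adj (g x) (g (Function.update x j (!x j))) := by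
  apply hP W U'
  · exact (Nat.pow_le_pow_iff_left (two_ne_zero)).mp (hN.trans hUU)
  · intro j I hI hind
    have h1 := h j I (hI.trans hU) hind
    rcases Nat.eq_zero_or_pos I.card with h0 | h0
    · rw [h0]
      have hU' : 0 < U'.card := by
        rcases Nat.eq_zero_or_pos U'.card with h | h
        · rw [h] at hUU
          rw [zero_pow two_ne_zero] at hUU
          omega
        · exact h
      calc 0 ^ c0 ≤ 1 := by
            rcases Nat.eq_zero_or_pos c0 with h | h
            · rw [h]; simp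
            · rw [zero_pow (by omega)]; omega
        _ ≤ _ := hU'
    · have h2 : (I.card ^ c0) ^ 2 ≤ U'.card ^ 2 := by
        calc (I.card ^ c0) ^ 2 = I.card ^ (2 * c0) := by rw [← pow_mul]; congr 1; ring
          _ ≤ I.card ^ c := Nat.pow_le_pow_right h0 hc
          _ ≤ U.card := h1
          _ ≤ _ := hUU
      exact (Nat.pow_le_pow_iff_left (two_ne_zero)).mp h2

theorem PH_all (d : ℕ) : ∃ c N0 : ℕ, PH d c N0 := by
  induction d with
  | zero =>
    refine ⟨0, 1, ?_⟩
    intro W U hU Γ _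
    obtain ⟨u, hu⟩ := card_pos.mp (by omega : 0 < U.card)
    exact ⟨fun _ => u, fun x y _ => Subsingleton.elim x y, fun _ => hu, fun _ j => j.elim0⟩
  | succ d ih =>
    obtain ⟨c0, N1, hP⟩ := ih
    obtain ⟨s, hs⟩ : ∃ s, s = Fintype.card (Fin d → Bool) := ⟨_, rfl⟩
    have hs0 : 0 < s := by rw [hs]; exact Fintype.card_pos
    refine ⟨8 * s + 2 * c0, 16 * (2 * 16 ^ s) ^ 4 + 17 + N1 ^ 2, ?_⟩
    intro W U hU Γ hΓ
    have hU0 : 0 < U.card := by omega
    -- maximum independent set
    obtain ⟨I0, hI0, hmax⟩ := Finset.exists_max_image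
      (U.powerset.filter (fun I => Indp (Γ 0) I)) (fun I => I.card)
      ⟨∅, by rw [mem_filter]; exact ⟨empty_mem_powerset _, fun x hx => absurd hx (notMem_empty x)⟩⟩
    rw [mem_filter, mem_powerset] at hI0
    obtain ⟨a, ha⟩ : ∃ a, a = I0.card := ⟨_, rfl⟩
    have ha1 : 1 ≤ a := by
      obtain ⟨u, hu⟩ := card_pos.mp hU0
      have := hmax {u} (by
        rw [mem_filter, mem_powerset, singleton_subset_iff]
        refine ⟨hu, ?_⟩
        intro x hx y hy hxy
        rw [mem_singleton] at hx hy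
        rw [hx, hy] at hxy
        exact absurd rfl hxy)
      simp only [card_singleton] at this
      omega
    have haI : ∀ I ⊆ U, (∀ x ∈ I, ∀ y ∈ I, x ≠ y → ¬ (Γ 0).Adj x y) → I.card ≤ a := by
      intro I hI hind
      have := hmax I (by rw [mem_filter, mem_powerset]; exact ⟨hI, hind⟩)
      rw [ha]; exact this
    have hac : a ^ (8 * s) ≤ U.card := by
      have h1 := hΓ 0 I0 hI0.1 hI0.2
      rw [← ha] at h1
      exact (Nat.pow_le_pow_right ha1 (by omega)).trans h1
    have ha2 : a ^ 2 ≤ U.card := (Nat.pow_le_pow_right ha1 (by omega)).trans hac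
    have ha4 : 4 * a ≤ U.card := by
      rcases le_or_gt a 4 with h | h
      · omega
      · nlinarith
    obtain ⟨U', hU'U, hU'1, hU'2⟩ := drc (ι := Fin d → Bool) (Γ 0) U s hs.symm a ha1 haI ha4
    have hU'3 : U.card ≤ U'.card ^ 2 := by
      apply num_bound U.card U'.card (a ^ (2 * s)) (2 * 16 ^ s)
      · calc (a ^ (2 * s)) ^ 4 = a ^ (8 * s) := by rw [← pow_mul]; congr 1; ring
          _ ≤ _ := hac
      · omega
      · have h1 : (U.card : ℝ) ≤ (U'.card + 1) * (2 * (4 * a) ^ (2 * s)) := by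
          have h2 : (U.card : ℝ) / (2 * (4 * a) ^ (2 * s)) ≤ U'.card + 1 := by linarith
          rwa [div_le_iff₀ (by positivity)] at h2
        have h3 : U.card ≤ (U'.card + 1) * (2 * (4 * a) ^ (2 * s)) := by exact_mod_cast h1
        have h4 : (4 * a) ^ (2 * s) = 16 ^ s * a ^ (2 * s) := by
          rw [mul_pow, pow_mul 4 2 s]; norm_num
        calc U.card ≤ (U'.card + 1) * (2 * (4 * a) ^ (2 * s)) := h3
          _ = (U'.card + 1) * (2 * 16 ^ s * a ^ (2 * s)) := by rw [h4]; ring
    obtain ⟨g0, hg0i, hg0U, hg0a⟩ := PH_sub d c0 N1 hP (8 * s + 2 * c0) (by omega) W U U' hU'U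
      (by omega) hU0 hU'3 (fun j => Γ j.succ) (fun j => hΓ j.succ)
    have hCN := hU'1 g0 hg0U
    obtain ⟨g1, hg1i, hg1U, hg1a⟩ := PH_sub d c0 N1 hP (8 * s + 2 * c0) (by omega) W U
      (CNb (Γ 0) U g0) (filter_subset _ _) (by omega) hU0 hCN (fun j => Γ j.succ)
      (fun j => hΓ j.succ)
    have h01 : ∀ x y, (Γ 0).Adj (g0 x) (g1 y) := fun x y => ((mem_CNb _ _ _ _).mp (hg1U y)).2 x
    refine ⟨fun x => if x 0 then g1 (Fin.tail x) else g0 (Fin.tail x), ?_, ?_, ?_⟩
    · intro x x' hxx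
      simp only at hxx
      have hne : ∀ y y', g0 y ≠ g1 y' := fun y y' h => (Γ 0).loopless.irrefl _ (h ▸ h01 y y')
      have hfin : x 0 = x' 0 → Fin.tail x = Fin.tail x' → x = x' := by
        intro h1 h2
        funext i
        refine Fin.cases h1 (fun j => ?_) i
        exact congrFun h2 j
      cases hx0 : x 0 <;> cases hx'0 : x' 0
      · rw [hx0, hx'0] at hxx
        simp only [Bool.false_eq_true, if_false] at hxx
        exact hfin (by rw [hx0, hx'0]) (hg0i hxx)
      · rw [hx0, hx'0] at hxx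
        simp only [Bool.false_eq_true, if_false, if_true] at hxx
        exact absurd hxx (hne _ _)
      · rw [hx0, hx'0] at hxx
        simp only [Bool.false_eq_true, if_false, if_true] at hxx
        exact absurd hxx.symm (hne _ _)
      · rw [hx0, hx'0] at hxx
        simp only [if_true] at hxx
        exact hfin (by rw [hx0, hx'0]) (hg1i hxx)
    · intro x
      simp only
      split_ifs
      · exact ((mem_CNb _ _ _ _).mp (hg1U _)).1
      · exact hU'U (hg0U _)
    · intro x j
      refine Fin.cases ?_ (fun k => ?_) j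
      · have e1 : Fin.tail (Function.update x 0 (!x 0)) = Fin.tail x := Fin.tail_update_zero _ _
        simp only [e1, Function.update_self]
        cases hx0 : x 0
        · simp only [Bool.false_eq_true, if_false, Bool.not_false, if_true]
          exact h01 _ _
        · simp only [Bool.not_true, Bool.false_eq_true, if_false, if_true]
          exact (h01 _ _).symm
      · have e1 : Fin.tail (Function.update x k.succ (!x k.succ)) =
            Function.update (Fin.tail x) k (!(Fin.tail x) k) := Fin.tail_update_succ _ _ _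
        have e2 : Function.update x k.succ (!x k.succ) 0 = x 0 :=
          Function.update_of_ne (Fin.succ_ne_zero k).symm _ _
        simp only [e1, e2]
        split_ifs
        · exact hg1a _ _
        · exact hg0a _ _

/-- coloured hypercube via dependent random choice -/
theorem hypercube (d : ℕ) : ∃ c N0 : ℕ, ∀ N : ℕ, N0 ≤ N → ∀ Γ : Fin d → SimpleGraph (Fin N),
    (∀ j, ∀ I : Finset (Fin N), (∀ a ∈ I, ∀ b ∈ I, a ≠ b → ¬ (Γ j).Adj a b) → I.card ^ c ≤ N) →
    ∃ g : (Fin d → Bool) → Fin N, Function.Injective g ∧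
      ∀ x j, (Γ j).Adj (g x) (g (Function.update x j (!x j))) := by
  obtain ⟨c, N0, h⟩ := PH_all d
  refine ⟨c, N0, fun N hN Γ hΓ => ?_⟩
  obtain ⟨g, h1, _, h3⟩ := h (Fin N) univ (by simpa using hN) Γ
    (fun j I _ hI => by simpa using hΓ j I hI)
  exact ⟨g, h1, h3⟩

end M11

alias hypercube := M11.hypercube

end ImmLog
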