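import Pool.Agent.ImmLog.Defs2

set_option autoImplicit false

open Classical Finset

namespace ImmLog

namespace M12

variable {V : Type*} [Fintype V]



namespace MaderAux

section
variable {W : Type} [Fintype W]

/-- the graph restricted to the vertices in `S` -/
def res (G : SimpleGraph W) (S : Finset W) : SimpleGraph W where
  Adj u v := G.Adj u v ∧ u ∈ S ∧ v ∈ S
  symm := ⟨fun _ _ h => ⟨h.1.symm, h.2.2, h.2.1⟩⟩
  loopless := ⟨fun _ h => G.loopless.irrefl _ h.1⟩

theorem res_mono (G : SimpleGraph W) {S T : Finset W} (h : S ⊆ T) : res G S ≤ res G T := by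
  intro u v huv
  exact ⟨huv.1, h huv.2.1, h huv.2.2⟩

noncomputable def dS (G : SimpleGraph W) (S : Finset W) (v : W) : ℕ :=
  (S.filter (fun w => G.Adj v w)).card

theorem inn_eq_sum (G : SimpleGraph W) (S : Finset W) : inn G S = ∑ v ∈ S, dS G S v := by
  unfold inn dS
  rw [Finset.card_filter, ← Finset.univ_product_univ, Finset.sum_product]
  have h1 : ∀ v : W, ∑ w : W, (if v ∈ S ∧ w ∈ S ∧ G.Adj v w then 1 else 0) =
      if v ∈ S then (S.filter (fun w => G.Adj v w)).card else 0 := by
    intro v
    split_ifs with hv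
    · rw [Finset.card_filter, ← Finset.sum_filter_add_sum_filter_not univ (fun w => w ∈ S)]
      have h2 : ∑ w ∈ univ.filter (fun w => w ∉ S), (if v ∈ S ∧ w ∈ S ∧ G.Adj v w then 1 else 0) = 0 := by
        apply Finset.sum_eq_zero
        intro w hw
        rw [Finset.mem_filter] at hw
        rw [if_neg]
        rintro ⟨-, h, -⟩
        exact hw.2 h
      rw [h2, add_zero]
      have h3 : univ.filter (fun w => w ∈ S) = S := by ext; simp
      rw [h3]
      apply Finset.sum_congr rfl
      intro w hw
      simp [hv, hw]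
    · apply Finset.sum_eq_zero
      intro w _
      rw [if_neg]
      rintro ⟨h, -⟩
      exact hv h
  calc ∑ v : W, ∑ w : W, (if (v, w).1 ∈ S ∧ (v, w).2 ∈ S ∧ G.Adj (v, w).1 (v, w).2 then 1 else 0)
      = ∑ v : W, if v ∈ S then (S.filter (fun w => G.Adj v w)).card else 0 :=
        Finset.sum_congr rfl fun v _ => h1 v
    _ = ∑ v ∈ S, (S.filter (fun w => G.Adj v w)).card := by
        rw [Finset.sum_ite_mem, Finset.univ_inter]

theorem dS_erase (G : SimpleGraph W) (S : Finset W) (v : W) : dS G (S.erase v) v = dS G S v := by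
  unfold dS
  congr 1
  ext w
  simp only [Finset.mem_filter, Finset.mem_erase]
  constructor
  · rintro ⟨⟨_, h⟩, h'⟩; exact ⟨h, h'⟩
  · rintro ⟨h, h'⟩; exact ⟨⟨h'.ne', h⟩, h'⟩

theorem inn_erase (G : SimpleGraph W) (S : Finset W) (v : W) (hv : v ∈ S) :
    inn G S = inn G (S.erase v) + 2 * dS G S v := by
  rw [inn_eq_sum, inn_eq_sum, ← Finset.add_sum_erase S _ hv]
  have h1 : ∀ u ∈ S.erase v, dS G S u = dS G (S.erase v) u + (if G.Adj v u then 1 else 0) := by
    intro u hu
    unfold dS
    rw [Finset.mem_erase] at hu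
    by_cases huv : G.Adj v u
    · rw [if_pos huv]
      have h2 : S.filter (fun w => G.Adj u w) =
          insert v ((S.erase v).filter (fun w => G.Adj u w)) := by
        ext w
        simp only [Finset.mem_filter, Finset.mem_insert, Finset.mem_erase]
        constructor
        · rintro ⟨h, h'⟩
          by_cases hw : w = v
          · left; exact hw
          · right; exact ⟨⟨hw, h⟩, h'⟩
        · rintro (rfl | ⟨⟨_, h⟩, h'⟩)
          · exact ⟨hv, huv.symm⟩
          · exact ⟨h, h'⟩
      rw [h2, Finset.card_insert_of_notMem]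
      simp
    · rw [if_neg huv, add_zero]
      congr 1
      ext w
      simp only [Finset.mem_filter, Finset.mem_erase]
      constructor
      · rintro ⟨h, h'⟩
        refine ⟨⟨?_, h⟩, h'⟩
        rintro rfl
        exact huv h'.symm
      · rintro ⟨⟨_, h⟩, h'⟩
        exact ⟨h, h'⟩
  rw [Finset.sum_congr rfl h1, Finset.sum_add_distrib]
  have h3 : ∑ u ∈ S.erase v, (if G.Adj v u then 1 else 0) = dS G S v := by
    rw [← dS_erase]
    unfold dS
    rw [Finset.card_filter]
  rw [h3]
  ring

/-- neighbours of `U` in `S` outside `U` -/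
noncomputable def NN (G : SimpleGraph W) (S U : Finset W) : Finset W :=
  (S \ U).filter (fun v => ∃ u ∈ U, G.Adj u v)

theorem inn_empty (G : SimpleGraph W) : inn G (∅ : Finset W) = 0 := by
  unfold inn; simp

theorem inn_le (G : SimpleGraph W) (S : Finset W) : inn G S + S.card ≤ S.card * S.card := by
  rw [inn_eq_sum]
  have h1 : ∀ v ∈ S, dS G S v + 1 ≤ S.card := by
    intro v hv
    rw [← dS_erase]
    unfold dS
    have h2 := Finset.card_filter_le (S.erase v) (fun w => G.Adj v w)
    have h3 := Finset.card_erase_add_one hv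
    omega
  calc ∑ v ∈ S, dS G S v + S.card = ∑ v ∈ S, (dS G S v + 1) := by
        rw [Finset.sum_add_distrib]; simp
    _ ≤ ∑ v ∈ S, S.card := Finset.sum_le_sum h1
    _ = S.card * S.card := by simp

theorem inn_split (G : SimpleGraph W) (S U : Finset W) (hU : U ⊆ S) (h : NN G S U = ∅) :
    inn G S ≤ inn G U + inn G (S \ U) := by
  unfold inn
  refine le_trans (Finset.card_le_card ?_) (Finset.card_union_le _ _)
  intro e he
  rw [Finset.mem_filter] at he
  obtain ⟨-, h1, h2, h3⟩ := he
  rw [Finset.mem_union, Finset.mem_filter, Finset.mem_filter]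
  have hno : ∀ a b, a ∈ U → b ∈ S → b ∉ U → ¬ G.Adj a b := by
    intro a b ha hb hb' hab
    have : b ∈ NN G S U := by
      unfold NN
      rw [Finset.mem_filter, Finset.mem_sdiff]
      exact ⟨⟨hb, hb'⟩, a, ha, hab⟩
    rw [h] at this
    exact absurd this (Finset.notMem_empty _)
  by_cases ha : e.1 ∈ U
  · by_cases hb : e.2 ∈ U
    · left; exact ⟨mem_univ _, ha, hb, h3⟩
    · exact absurd h3 (hno _ _ ha h2 hb)
  · by_cases hb : e.2 ∈ U
    · exact absurd h3.symm (hno _ _ hb h1 ha)
    · right; exact ⟨mem_univ _, Finset.mem_sdiff.mpr ⟨h1, ha⟩, Finset.mem_sdiff.mpr ⟨h2, hb⟩, h3⟩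

theorem NN_insert (G : SimpleGraph W) (S U : Finset W) (v : W) (hv : v ∈ NN G S U) :
    (NN G S U).card + dS G (S \ U) v ≤ (NN G S (insert v U)).card + 1 + dS G (NN G S U) v := by
  set N := NN G S U with hN
  have hvN : v ∈ S \ U := by
    rw [hN] at hv; unfold NN at hv; exact (Finset.mem_filter.mp hv).1
  -- new neighbours
  set X := ((S \ U).filter (fun w => G.Adj v w)).filter (fun w => w ∉ N) with hX
  have h1 : dS G (S \ U) v = dS G N v + X.card := by
    unfold dS
    rw [← Finset.card_filter_add_card_filter_not (s := (S \ U).filter (fun w => G.Adj v w))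
      (fun w => w ∈ N)]
    congr 1
    congr 1
    ext w
    simp only [Finset.mem_filter]
    constructor
    · rintro ⟨⟨_, h⟩, h'⟩; exact ⟨h', h⟩
    · rintro ⟨h, h'⟩
      refine ⟨⟨?_, h'⟩, h⟩
      rw [hN] at h; unfold NN at h; exact (Finset.mem_filter.mp h).1
  have h2 : (N.erase v) ∪ X ⊆ NN G S (insert v U) := by
    intro w hw
    rw [Finset.mem_union] at hw
    unfold NN
    rw [Finset.mem_filter, Finset.mem_sdiff, Finset.mem_insert]
    rcases hw with hw | hw
    · rw [Finset.mem_erase] at hw
      have h3 := hw.2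
      rw [hN] at h3; unfold NN at h3
      rw [Finset.mem_filter, Finset.mem_sdiff] at h3
      obtain ⟨⟨h4, h5⟩, u, hu, huw⟩ := h3
      refine ⟨⟨h4, ?_⟩, u, Finset.mem_insert_of_mem hu, huw⟩
      rintro (h | h)
      · exact hw.1 h
      · exact h5 h
    · rw [hX, Finset.mem_filter, Finset.mem_filter, Finset.mem_sdiff] at hw
      obtain ⟨⟨⟨h4, h5⟩, h6⟩, h7⟩ := hw
      refine ⟨⟨h4, ?_⟩, v, Finset.mem_insert_self _ _, h6⟩
      rintro (h | h)
      · exact h6.ne' h
      · exact h5 h
  have h3 : Disjoint (N.erase v) X := by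
    rw [Finset.disjoint_left]
    intro w hw hwX
    rw [hX, Finset.mem_filter] at hwX
    exact hwX.2 (Finset.mem_of_mem_erase hw)
  have h4 := Finset.card_le_card h2
  rw [Finset.card_union_of_disjoint h3] at h4
  have h5 := Finset.card_erase_add_one hv
  omega

/-- connectedness of the graph induced on `U` -/
def Conn (G : SimpleGraph W) (U : Finset W) : Prop :=
  ∀ u ∈ U, ∀ v ∈ U, (res G U).Reachable u v

theorem conn_insert (G : SimpleGraph W) (U : Finset W) (v u0 : W) (hU : Conn G U) (hu0 : u0 ∈ U)
    (hadj : G.Adj u0 v) : Conn G (insert v U) := by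
  have hle := res_mono G (Finset.subset_insert v U)
  have h1 : ∀ x ∈ insert v U, (res G (insert v U)).Reachable u0 x := by
    intro x hx
    rcases Finset.mem_insert.mp hx with rfl | hx
    · exact SimpleGraph.Adj.reachable (G := res G (insert x U))
        (show (res G (insert x U)).Adj u0 x from
        ⟨hadj, Finset.mem_insert_of_mem hu0, Finset.mem_insert_self _ _⟩)
    · exact (hU u0 hu0 x hx).mono hle
  intro x hx y hy
  exact (h1 x hx).symm.trans (h1 y hy)

/-- the extremal argument -/
theorem extremal (c' : ℕ) (G : SimpleGraph W) (S : Finset W) (hS : S.Nonempty)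
    (h : (2 * c' + 2) * S.card ≤ inn G S) :
    ∃ U N : Finset W, U.Nonempty ∧ N.Nonempty ∧ U ⊆ S ∧ N ⊆ S ∧ Disjoint U N ∧ Conn G U ∧
      (∀ v ∈ N, ∃ u ∈ U, G.Adj u v) ∧ c' * N.card ≤ inn G N := by
  set C := 2 * c' + 2 with hC
  -- a minimal S0
  set F1 := S.powerset.filter (fun T => T.Nonempty ∧ C * T.card ≤ inn G T) with hF1
  have hF1n : F1.Nonempty := ⟨S, by
    rw [hF1, Finset.mem_filter, Finset.mem_powerset]; exact ⟨Finset.Subset.refl _, hS, h⟩⟩
  obtain ⟨S0, hS0, hmin⟩ := Finset.exists_min_image F1 (fun T => T.card) hF1n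
  rw [hF1, Finset.mem_filter, Finset.mem_powerset] at hS0
  obtain ⟨hS0S, hS0n, hS0c⟩ := hS0
  have hNN : ∀ U : Finset W, U ⊆ S0 → U.Nonempty → U ≠ S0 → (NN G S0 U).Nonempty := by
    intro U hU hUn hne
    rw [Finset.nonempty_iff_ne_empty]
    intro hemp
    have h1 := inn_split G S0 U hU hemp
    have hlt : U.card < S0.card := Finset.card_lt_card (hU.ssubset_of_ne hne)
    have hcard : (S0 \ U).card + U.card = S0.card := Finset.card_sdiff_add_card_eq_card hU
    have hUpos : 0 < U.card := hUn.card_pos
    have hn2 : (S0 \ U).Nonempty := by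
      rw [← Finset.card_pos]; omega
    by_cases h2 : C * U.card ≤ inn G U
    · have : U ∈ F1 := by
        rw [hF1, Finset.mem_filter, Finset.mem_powerset]
        exact ⟨hU.trans hS0S, hUn, h2⟩
      have := hmin U this
      omega
    · by_cases h3 : C * (S0 \ U).card ≤ inn G (S0 \ U)
      · have : (S0 \ U) ∈ F1 := by
          rw [hF1, Finset.mem_filter, Finset.mem_powerset]
          exact ⟨Finset.sdiff_subset.trans hS0S, hn2, h3⟩
        have := hmin _ this
        omega
      · push Not at h2 h3
        have : C * S0.card = C * (S0 \ U).card + C * U.card := by rw [← hcard]; ring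
        omega
  -- a maximal U
  set F2 := S0.powerset.filter (fun U => U.Nonempty ∧ Conn G U ∧
    C * (S0.card - U.card + 1) ≤ inn G (S0 \ U) + 2 * (NN G S0 U).card) with hF2
  have hF2n : F2.Nonempty := by
    obtain ⟨v, hv⟩ := hS0n
    refine ⟨{v}, ?_⟩
    rw [hF2, Finset.mem_filter, Finset.mem_powerset]
    refine ⟨Finset.singleton_subset_iff.mpr hv, Finset.singleton_nonempty v, ?_, ?_⟩
    · intro x hx y hy
      rw [Finset.mem_singleton] at hx hy
      rw [hx, hy]
    · have h1 := inn_erase G S0 v hv
      have h2 : S0 \ {v} = S0.erase v := by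
        ext w; simp [Finset.mem_sdiff, Finset.mem_erase, and_comm]
      have h3 : (NN G S0 {v}).card = dS G S0 v := by
        rw [← dS_erase]
        unfold NN dS
        rw [h2]
        congr 1
        ext w
        simp
      rw [h2, h3, Finset.card_singleton]
      have h4 : S0.card - 1 + 1 = S0.card := by
        have := Finset.card_pos.mpr ⟨v, hv⟩
        omega
      rw [h4]
      omega
  obtain ⟨U, hU, hmax⟩ := Finset.exists_max_image F2 (fun T => T.card) hF2n
  rw [hF2, Finset.mem_filter, Finset.mem_powerset] at hU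
  obtain ⟨hUS0, hUn, hUc, hUi⟩ := hU
  have hUne : U ≠ S0 := by
    rintro rfl
    rw [Finset.sdiff_self, inn_empty] at hUi
    have h1 : NN G U U = ∅ := by
      unfold NN; rw [Finset.sdiff_self]; rfl
    rw [h1] at hUi
    simp at hUi
  refine ⟨U, NN G S0 U, hUn, hNN U hUS0 hUn hUne, hUS0.trans hS0S, ?_, ?_, hUc, ?_, ?_⟩
  · unfold NN
    exact (Finset.filter_subset _ _).trans (Finset.sdiff_subset.trans hS0S)
  · rw [Finset.disjoint_left]
    intro w hw hw'
    unfold NN at hw'
    rw [Finset.mem_filter, Finset.mem_sdiff] at hw'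
    exact hw'.1.2 hw
  · intro v hv
    unfold NN at hv
    exact (Finset.mem_filter.mp hv).2
  · rw [inn_eq_sum, mul_comm, ← smul_eq_mul, ← Finset.sum_const]
    apply Finset.sum_le_sum
    intro v hv
    have hv' := hv
    unfold NN at hv'
    rw [Finset.mem_filter, Finset.mem_sdiff] at hv'
    obtain ⟨⟨hvS, hvU⟩, u0, hu0, hadj⟩ := hv'
    have hins : insert v U ⊆ S0 := Finset.insert_subset hvS hUS0
    have hcard : (insert v U).card = U.card + 1 := Finset.card_insert_of_notMem hvU
    have hcard2 : (insert v U).card ≤ S0.card := Finset.card_le_card hins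
    have hnot : ¬ (C * (S0.card - (insert v U).card + 1) ≤
        inn G (S0 \ (insert v U)) + 2 * (NN G S0 (insert v U)).card) := by
      intro hcon
      have : insert v U ∈ F2 := by
        rw [hF2, Finset.mem_filter, Finset.mem_powerset]
        exact ⟨hins, Finset.insert_nonempty _ _, conn_insert G U v u0 hUc hu0 hadj, hcon⟩
      have := hmax _ this
      omega
    push Not at hnot
    have h1 : S0 \ insert v U = (S0 \ U).erase v := by
      ext w; simp only [Finset.mem_sdiff, Finset.mem_insert, Finset.mem_erase]; tauto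
    have h2 := inn_erase G (S0 \ U) v (Finset.mem_sdiff.mpr ⟨hvS, hvU⟩)
    have h3 := NN_insert G S0 U v hv
    rw [h1, hcard] at hnot
    have h4 : S0.card - (U.card + 1) + 1 = S0.card - U.card := by omega
    rw [h4] at hnot
    have h5 : C * (S0.card - U.card + 1) = C * (S0.card - U.card) + C := by ring
    rw [h5] at hUi
    have : C = 2 * c' + 2 := hC
    omega

end

theorem main_claim (k : ℕ) (L : List (Fin k × Fin k)) (hL : L.Nodup) :
    ∃ c : ℕ, ∀ (W : Type) [Fintype W] (G : SimpleGraph W) (S : Finset W), S.Nonempty →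
      c * S.card ≤ inn G S →
      ∃ f : Fin k → W, Function.Injective f ∧ (∀ i, f i ∈ S) ∧
        ∃ Es : Fin k × Fin k → List (Sym2 W),
          (∀ e ∈ L, ∃ w : (res G S).Walk (f e.1) (f e.2), w.edges = Es e) ∧
          ∀ e ∈ L, ∀ e' ∈ L, e ≠ e' → (Es e).Disjoint (Es e') := by
  induction L with
  | nil =>
    refine ⟨k, ?_⟩
    intro W _ G S hS h
    have h1 := inn_le G S
    have h2 : 0 < S.card := hS.card_pos
    have h3 : k ≤ S.card := by
      by_contra hcon
      push Not at hcon
      have : S.card * S.card ≤ k * S.card := Nat.mul_le_mul_right _ hcon.le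
      omega
    have h4 : Fintype.card (Fin k) ≤ Fintype.card {x // x ∈ S} := by simpa using h3
    obtain ⟨g⟩ := Function.Embedding.nonempty_of_card_le h4
    refine ⟨fun i => (g i).1, ?_, fun i => (g i).2, fun _ => [], ?_, ?_⟩
    · intro i j hij
      exact g.injective (Subtype.ext hij)
    · intro e he
      exact absurd he List.not_mem_nil
    · intro e he
      exact absurd he List.not_mem_nil
  | cons e0 L ih =>
    rw [List.nodup_cons] at hL
    obtain ⟨c', hc'⟩ := ih hL.2
    refine ⟨2 * c' + 2, ?_⟩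
    intro W _ G S hS h
    obtain ⟨U, N, hUn, hNn, hUS, hNS, hdis, hconn, hadj, hinn⟩ := extremal c' G S hS h
    obtain ⟨f, hf, hfN, Es, hEs, hEd⟩ := hc' W G N hNn hinn
    obtain ⟨u, huU, hu⟩ := hadj (f e0.1) (hfN e0.1)
    obtain ⟨u', hu'U, hu'⟩ := hadj (f e0.2) (hfN e0.2)
    obtain ⟨w0⟩ := hconn u huU u' hu'U
    have hleU : res G U ≤ res G S := res_mono G hUS
    have a1 : (res G S).Adj (f e0.1) u := ⟨hu.symm, hNS (hfN _), hUS huU⟩
    have a2 : (res G S).Adj u' (f e0.2) := ⟨hu', hUS hu'U, hNS (hfN _)⟩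
    set w : (res G S).Walk (f e0.1) (f e0.2) :=
      SimpleGraph.Walk.cons a1 ((w0.mapLe hleU).append (SimpleGraph.Walk.cons a2 SimpleGraph.Walk.nil))
      with hw
    have hwe : ∀ ed ∈ w.edges, ∃ z ∈ U, z ∈ ed := by
      intro ed hed
      rw [hw, SimpleGraph.Walk.edges_cons, List.mem_cons, SimpleGraph.Walk.edges_append,
        List.mem_append, SimpleGraph.Walk.edges_cons, SimpleGraph.Walk.edges_nil,
        List.mem_singleton] at hed
      rcases hed with rfl | hed | rfl
      · exact ⟨u, huU, by simp⟩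
      · have h1 : ed ∈ w0.edges := by simpa using hed
        have h2 := w0.edges_subset_edgeSet h1
        induction ed using Sym2.ind with
        | _ x y =>
          rw [SimpleGraph.mem_edgeSet] at h2
          exact ⟨x, h2.2.1, by simp⟩
      · exact ⟨u', hu'U, by simp⟩
    have hNe : ∀ e ∈ L, ∀ ed ∈ Es e, ∀ z ∈ ed, z ∈ N := by
      intro e he ed hed z hz
      obtain ⟨w1, hw1⟩ := hEs e he
      rw [← hw1] at hed
      have h2 := w1.edges_subset_edgeSet hed
      induction ed using Sym2.ind with
      | _ x y =>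
        rw [SimpleGraph.mem_edgeSet] at h2
        rw [Sym2.mem_iff] at hz
        rcases hz with rfl | rfl
        · exact h2.2.1
        · exact h2.2.2
    have hcross : ∀ e ∈ L, w.edges.Disjoint (Es e) := by
      intro e he ed h1 h2
      obtain ⟨z, hzU, hz⟩ := hwe ed h1
      exact Finset.disjoint_left.mp hdis hzU (hNe e he ed h2 z hz)
    refine ⟨f, hf, fun i => hNS (hfN i), Function.update Es e0 w.edges, ?_, ?_⟩
    · intro e he
      by_cases hee : e = e0
      · subst hee
        exact ⟨w, by rw [Function.update_self]⟩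
      · have heL : e ∈ L := (List.mem_cons.mp he).resolve_left hee
        obtain ⟨w1, hw1⟩ := hEs e heL
        refine ⟨w1.mapLe (res_mono G hNS), ?_⟩
        rw [Function.update_of_ne hee, ← hw1]
        simp
    · intro e he e' he' hne
      by_cases hee : e = e0
      · subst hee
        have heL : e' ∈ L := (List.mem_cons.mp he').resolve_left (fun h => hne h.symm)
        rw [Function.update_self, Function.update_of_ne (fun h => hne h.symm)]
        exact hcross e' heL
      · have heL : e ∈ L := (List.mem_cons.mp he).resolve_left hee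
        rw [Function.update_of_ne hee]
        by_cases hee' : e' = e0
        · subst hee'
          rw [Function.update_self]
          exact (hcross e heL).symm
        · have heL' : e' ∈ L := (List.mem_cons.mp he').resolve_left hee'
          rw [Function.update_of_ne hee']
          exact hEd e heL e' heL' hne

theorem inn_univ {m : ℕ} (H : SimpleGraph (Fin m)) :
    inn H (univ : Finset (Fin m)) = 2 * H.edgeSet.ncard := by
  rw [inn_eq_sum]
  have h1 : ∀ v, dS H univ v = H.degree v := by
    intro v
    unfold dS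
    rw [← SimpleGraph.card_neighborFinset_eq_degree]
    congr 1
    ext w
    simp
  rw [Finset.sum_congr rfl fun v _ => h1 v, SimpleGraph.sum_degrees_eq_twice_card_edges]
  congr 1
  rw [← SimpleGraph.coe_edgeFinset, Set.ncard_coe_finset]

end MaderAux

open MaderAux

/-- `imm(k)` is finite (Mader type bound) -/
theorem mader (k : ℕ) : ∃ d : ℝ, ∀ (m : ℕ) (H : SimpleGraph (Fin m)),
    d ≤ 2 * (H.edgeSet.ncard : ℝ) / (m : ℝ) →
    ∃ f : Fin k → Fin m, Function.Injective f ∧
      ∃ P : ∀ i j : Fin k, H.Walk (f i) (f j),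
        (∀ i j : Fin k, i < j → (P i j).IsPath) ∧
        (∀ i j i' j' : Fin k, i < j → i' < j' → (i ≠ i' ∨ j ≠ j') →
          (P i j).edges.Disjoint (P i' j').edges) := by
  obtain ⟨c, hc⟩ := main_claim k ((univ : Finset (Fin k × Fin k)).filter (fun e => e.1 < e.2)).toList
    (Finset.nodup_toList _)
  refine ⟨(c : ℝ) + 1, ?_⟩
  intro m H hd
  have hm : 0 < m := by
    rcases Nat.eq_zero_or_pos m with rfl | h
    · exfalso
      simp at hd
      have : (0 : ℝ) ≤ c := Nat.cast_nonneg c
      linarith
    · exact h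
  have hmr : (0 : ℝ) < m := by exact_mod_cast hm
  rw [le_div_iff₀ hmr] at hd
  have h1 : c * (univ : Finset (Fin m)).card ≤ inn H (univ : Finset (Fin m)) := by
    rw [inn_univ, Finset.card_univ, Fintype.card_fin]
    have h2 : ((c * m : ℕ) : ℝ) ≤ ((2 * H.edgeSet.ncard : ℕ) : ℝ) := by
      push_cast
      nlinarith
    exact_mod_cast h2
  haveI : Nonempty (Fin m) := ⟨⟨0, hm⟩⟩
  obtain ⟨f, hf, -, Es, hEs, hEd⟩ := hc (Fin m) H univ Finset.univ_nonempty h1
  have hmem : ∀ i j : Fin k, i < j →
      (i, j) ∈ ((univ : Finset (Fin k × Fin k)).filter (fun e => e.1 < e.2)).toList := by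
    intro i j hij
    rw [Finset.mem_toList, Finset.mem_filter]
    exact ⟨mem_univ _, hij⟩
  have hle : res H univ ≤ H := fun u v h => h.1
  -- paths for i < j
  have hP : ∀ i j : Fin k, i < j → ∃ w : H.Walk (f i) (f j), w.IsPath ∧ w.edges ⊆ Es (i, j) := by
    intro i j hij
    obtain ⟨w, hw⟩ := hEs (i, j) (hmem i j hij)
    refine ⟨(w.mapLe hle).bypass, SimpleGraph.Walk.bypass_isPath _, ?_⟩
    intro ed hed
    have h2 := SimpleGraph.Walk.edges_bypass_subset_edges _ hed
    rw [← hw]
    simpa using h2
  choose P hPp hPe using hP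
  refine ⟨f, hf, fun i j => if h : i < j then P i j h else if h' : j < i then (P j i h').reverse else
    (SimpleGraph.Walk.nil : H.Walk (f i) (f i)).copy rfl (by
      have : i = j := le_antisymm (not_lt.mp h') (not_lt.mp h)
      rw [this]), ?_, ?_⟩
  · intro i j hij
    simp only [hij, dif_pos]
    exact hPp i j hij
  · intro i j i' j' hij hij' hne
    simp only [hij, hij', dif_pos]
    have hne' : (i, j) ≠ (i', j') := by
      intro h
      rw [Prod.mk.injEq] at h
      rcases hne with h1 | h1
      · exact h1 h.1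
      · exact h1 h.2
    intro ed h1 h2
    exact hEd (i, j) (hmem i j hij) (i', j') (hmem i' j' hij') hne' (hPe i j hij h1) (hPe i' j' hij' h2)

end M12

alias mader := M12.mader

end ImmLog
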