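import Pool.Agent.ImmLog.Defs2

set_option autoImplicit false

open Classical Finset

namespace ImmLog

namespace M13

variable {V : Type*} [Fintype V]











theorem eg_nd_eq {n : ℕ} (G : SimpleGraph (Fin n)) : nd G = 2 * G.edgeSet.ncard := by
  have h1 := G.sum_degrees_eq_twice_card_edges
  have h2 : G.edgeSet.ncard = G.edgeFinset.card := by
    rw [Set.ncard_eq_toFinset_card']; rfl
  rw [h2, ← h1]
  unfold nd
  rw [Finset.card_filter, Fintype.sum_prod_type]
  refine Finset.sum_congr rfl fun u _ => ?_
  rw [← Finset.card_filter, ← G.card_neighborFinset_eq_degree]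
  congr 1
  ext v
  simp

theorem eg_inn_card {V : Type*} [Fintype V] (G : SimpleGraph V) (S : Finset V)
    (T : Finset (V × V)) (hT : ∀ e, e ∈ T ↔ e.1 ∈ S ∧ e.2 ∈ S ∧ G.Adj e.1 e.2) :
    inn G S = T.card := by
  unfold inn
  congr 1
  ext e
  rw [mem_filter, hT]
  exact ⟨fun h => h.2, fun h => ⟨mem_univ _, h⟩⟩

theorem eg_inn_map {V W : Type*} [Fintype V] [Fintype W] (G : SimpleGraph W) (e : V ↪ W)
    (S : Finset V) :
    inn (G.comap e) S = inn G (S.map e) := by
  unfold inn
  apply Finset.card_bij (fun p _ => (e p.1, e p.2))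
  · intro p hp
    rw [mem_filter] at hp ⊢
    exact ⟨mem_univ _, mem_map_of_mem e hp.2.1, mem_map_of_mem e hp.2.2.1, hp.2.2.2⟩
  · intro p _ q _ h
    rw [Prod.mk.injEq] at h
    exact Prod.ext (e.injective h.1) (e.injective h.2)
  · rintro ⟨a, b⟩ hp
    rw [mem_filter] at hp
    obtain ⟨_, h1, h2, h3⟩ := hp
    obtain ⟨a', ha', rfl⟩ := mem_map.1 h1
    obtain ⟨b', hb', rfl⟩ := mem_map.1 h2
    exact ⟨(a', b'), mem_filter.2 ⟨mem_univ _, ha', hb', h3⟩, rfl⟩

theorem eg_inn_univ {V : Type*} [Fintype V] (G : SimpleGraph V) : inn G univ = nd G := by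
  unfold inn nd
  congr 1
  ext e
  simp

theorem eg_phi_mono {ε x : ℝ} (hε : 0 < ε) (hx : 0 < x) {a b : ℕ} (ha : 1 ≤ a) (hab : a ≤ b) :
    phi ε x a ≤ phi ε x b := by
  unfold phi
  have ha' : (1 : ℝ) ≤ a := by exact_mod_cast ha
  have hab' : (a : ℝ) ≤ b := by exact_mod_cast hab
  have h1 : Real.log a ≤ Real.log b := Real.log_le_log (by linarith) hab'
  have h0 : 0 ≤ Real.log a := Real.log_nonneg ha'
  have h2 : ε / 8 * (Real.log a / x) ≤ ε / 8 * (Real.log b / x) :=
    mul_le_mul_of_nonneg_left (div_le_div_of_nonneg_right h1 hx.le) (by positivity)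
  have h3 : ε / 8 / (1 + Real.log b) ≤ ε / 8 / (1 + Real.log a) :=
    div_le_div_of_nonneg_left (by positivity) (by linarith) (by linarith)
  linarith

theorem eg_phi_le {ε x : ℝ} (hε : 0 < ε) (hx : 0 < x) {a : ℕ} (ha : 1 ≤ a)
    (hax : Real.log a ≤ x) : phi ε x a ≤ ε / 8 := by
  unfold phi
  have ha' : (1 : ℝ) ≤ a := by exact_mod_cast ha
  have h0 : 0 ≤ Real.log a := Real.log_nonneg ha'
  have h1 : Real.log a / x ≤ 1 := (div_le_one hx).2 hax
  have h2 : ε / 8 * (Real.log a / x) ≤ ε / 8 * 1 :=
    mul_le_mul_of_nonneg_left h1 (by positivity)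
  have h3 : 0 ≤ ε / 8 / (1 + Real.log a) := by positivity
  linarith

theorem eg_phi_ge {ε x : ℝ} (hε : 0 < ε) (hx : 0 < x) {a : ℕ} (ha : 1 ≤ a) :
    -(ε / 8) ≤ phi ε x a := by
  unfold phi
  have ha' : (1 : ℝ) ≤ a := by exact_mod_cast ha
  have h0 : 0 ≤ Real.log a := Real.log_nonneg ha'
  have h2 : 0 ≤ ε / 8 * (Real.log a / x) := by positivity
  have h3 : ε / 8 / (1 + Real.log a) ≤ ε / 8 / 1 :=
    div_le_div_of_nonneg_left (by positivity) (by norm_num) (by linarith)
  linarith

/-- the conclusion for a graph with the minimality property -/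
theorem eg_good (I ε x : ℝ) (hI : 0 ≤ I) (hε : 0 < ε) (hx : 0 < x) (m : ℕ) (hm : 1 ≤ m)
    (hmx : Real.log m ≤ x) (H : SimpleGraph (Fin m))
    (hP : (I + ε / 2 + phi ε x m) * m ≤ nd H)
    (hmin : ∀ S : Finset (Fin m), S.Nonempty → S ≠ univ →
      (inn H S : ℝ) < (I + ε / 2 + phi ε x S.card) * S.card) :
    Good ε x (I + ε + 1) (I + ε / 4) H := by
  have hcard : Fintype.card (Fin m) = m := Fintype.card_fin m
  have hmR : (1 : ℝ) ≤ m := by exact_mod_cast hm
  have hm2 : 2 ≤ m := by
    by_contra hlt
    have hm1 : m = 1 := by omega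
    subst hm1
    have h1 : nd H = 0 := by
      unfold nd
      rw [card_eq_zero, filter_eq_empty_iff]
      rintro ⟨a, b⟩ _ h
      have : a = b := Subsingleton.elim a b
      exact h.ne this
    rw [h1] at hP
    have h2 := eg_phi_ge hε hx (le_refl 1)
    simp only [Nat.cast_one, mul_one, Nat.cast_zero] at hP h2
    linarith
  have hcS : ∀ S : Finset (Fin m), S.card ≤ m := fun S => by
    have := card_le_univ S; rwa [hcard] at this
  have hlogS : ∀ S : Finset (Fin m), S.Nonempty → Real.log S.card ≤ x := by
    intro S hS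
    refine le_trans (Real.log_le_log ?_ ?_) hmx
    · exact_mod_cast hS.card_pos
    · exact_mod_cast hcS S
  have hinnle : ∀ S : Finset (Fin m), S ≠ univ → (inn H S : ℝ) ≤ (I + 5 * ε / 8) * S.card := by
    intro S hS
    rcases S.eq_empty_or_nonempty with rfl | hne
    · have : inn H ∅ = 0 := by
        unfold inn
        rw [card_eq_zero, filter_eq_empty_iff]
        rintro e _ h
        exact absurd h.1 (notMem_empty _)
      rw [this]; simp
    · have h1 := hmin S hne hS
      have h2 := eg_phi_le hε hx hne.card_pos (hlogS S hne)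
      have h3 : (I + ε / 2 + phi ε x S.card) * S.card ≤ (I + 5 * ε / 8) * S.card :=
        mul_le_mul_of_nonneg_right (by linarith) (Nat.cast_nonneg _)
      linarith
  refine ⟨hx, by rwa [hcard], by rwa [hcard], ?_, ?_, ?_, ?_⟩
  · -- PI
    intro part
    rw [hcard]
    set cross := ((univ : Finset (Fin m × Fin m)).filter
      (fun e => H.Adj e.1 e.2 ∧ part e.1 ≠ part e.2)).card with hcross
    set F : ℕ → Finset (Fin m) := fun i => univ.filter (fun v => part v = i) with hF
    show ∑ i ∈ (univ.image part).erase 0, gf ε x m (F i).card ≤ (cross : ℝ)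
    have hFne : ∀ i ∈ univ.image part, (F i).Nonempty := by
      intro i hi
      obtain ⟨v, _, rfl⟩ := mem_image.1 hi
      exact ⟨v, mem_filter.2 ⟨mem_univ _, rfl⟩⟩
    have hgf : ∀ i ∈ univ.image part, 0 ≤ gf ε x m (F i).card := by
      intro i hi
      unfold gf
      refine mul_nonneg (Nat.cast_nonneg _) ?_
      have := eg_phi_mono hε hx (hFne i hi).card_pos (hcS (F i))
      linarith
    have hle : ∑ i ∈ (univ.image part).erase 0, gf ε x m (F i).card ≤
        ∑ i ∈ univ.image part, gf ε x m (F i).card :=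
      sum_le_sum_of_subset_of_nonneg (erase_subset _ _) (fun i hi _ => hgf i hi)
    refine hle.trans ?_
    by_cases hex : ∃ i ∈ univ.image part, F i = univ
    · obtain ⟨i, hi, hFi⟩ := hex
      have himg : univ.image part = {i} := by
        ext j
        rw [mem_singleton]
        constructor
        · intro hj
          obtain ⟨v, _, rfl⟩ := mem_image.1 hj
          have : v ∈ F i := by rw [hFi]; exact mem_univ v
          exact (mem_filter.1 this).2
        · rintro rfl; exact hi
      rw [himg, sum_singleton, hFi, card_univ, hcard]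
      unfold gf
      rw [sub_self, mul_zero]
      exact Nat.cast_nonneg _
    · push Not at hex
      have hsum : ∑ i ∈ univ.image part, (F i).card = m := by
        have := Finset.card_eq_sum_card_fiberwise (f := part) (s := (univ : Finset (Fin m)))
          (t := univ.image part) (fun v _ => by
            rw [mem_coe]; exact mem_image_of_mem _ (mem_univ v))
        rw [card_univ, hcard] at this
        exact this.symm
      have hsumR : ∑ i ∈ univ.image part, ((F i).card : ℝ) = m := by exact_mod_cast hsum
      have hnd : nd H = ∑ i ∈ univ.image part, inn H (F i) + cross := by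
        have h1 : nd H = ((univ : Finset (Fin m × Fin m)).filter
            (fun e => H.Adj e.1 e.2 ∧ part e.1 = part e.2)).card + cross := by
          unfold nd
          rw [← Finset.card_filter_add_card_filter_not (s := (univ : Finset (Fin m × Fin m)).filter
            (fun e => H.Adj e.1 e.2)) (fun e => part e.1 = part e.2), filter_filter, filter_filter]
        rw [h1]
        congr 1
        rw [Finset.card_eq_sum_card_fiberwise (f := fun e : Fin m × Fin m => part e.1)
          (t := univ.image part) (fun e _ => by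
            rw [mem_coe]; exact mem_image_of_mem _ (mem_univ e.1))]
        refine sum_congr rfl fun i _ => ?_
        unfold inn
        congr 1
        ext ⟨a, b⟩
        simp only [mem_filter, mem_univ, true_and, hF]
        constructor
        · rintro ⟨⟨h1, h2⟩, h3⟩
          exact ⟨h3, h2 ▸ h3, h1⟩
        · rintro ⟨h1, h2, h3⟩
          exact ⟨⟨h3, h1.trans h2.symm⟩, h1⟩
      have hndR : (nd H : ℝ) = ∑ i ∈ univ.image part, (inn H (F i) : ℝ) + cross := by
        rw [hnd]; push_cast; rfl
      have h2 : ∑ i ∈ univ.image part, (inn H (F i) : ℝ) ≤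
          ∑ i ∈ univ.image part, (I + ε / 2 + phi ε x (F i).card) * (F i).card :=
        sum_le_sum fun i hi => (hmin (F i) (hFne i hi) (hex i hi)).le
      have h3 : ∑ i ∈ univ.image part, gf ε x m (F i).card =
          (I + ε / 2 + phi ε x m) * ∑ i ∈ univ.image part, ((F i).card : ℝ) -
          ∑ i ∈ univ.image part, (I + ε / 2 + phi ε x (F i).card) * (F i).card := by
        rw [mul_sum, ← sum_sub_distrib]
        refine sum_congr rfl fun i _ => ?_
        unfold gf; ring
      rw [h3, hsumR]
      linarith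
  · -- DB
    intro S hS
    have h1 := hinnle S hS
    have h2 : (I + 5 * ε / 8) * S.card ≤ (I + ε + 1) * S.card :=
      mul_le_mul_of_nonneg_right (by linarith) (Nat.cast_nonneg _)
    linarith
  · -- lo
    rw [hcard]
    have h1 := eg_phi_ge hε hx hm
    have h2 : (I + ε / 4) * m ≤ (I + ε / 2 + phi ε x m) * m :=
      mul_le_mul_of_nonneg_right (by linarith) (by linarith)
    linarith
  · -- hi
    rw [hcard]
    intro h4
    set dv : Fin m → ℕ := fun v => ((univ : Finset (Fin m)).filter (fun u => H.Adj v u)).card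
      with hdv
    have hsum : ∑ v, dv v = nd H := by
      unfold nd
      rw [Finset.card_filter, Fintype.sum_prod_type]
      refine Finset.sum_congr rfl fun u _ => ?_
      rw [hdv, ← Finset.card_filter]
    haveI : Nonempty (Fin m) := ⟨⟨0, by omega⟩⟩
    obtain ⟨v, -, hv⟩ : ∃ v ∈ (univ : Finset (Fin m)), dv v * m ≤ nd H := by
      apply Finset.exists_le_of_sum_le univ_nonempty
      rw [← sum_mul, hsum, sum_const, card_univ, hcard, smul_eq_mul, mul_comm]
    have hcov : nd H ≤ inn H (univ.erase v) + dv v + dv v := by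
      have hsub : (univ : Finset (Fin m × Fin m)).filter (fun e => H.Adj e.1 e.2) ⊆
          ((univ : Finset (Fin m × Fin m)).filter (fun e => e.1 ∈ univ.erase v ∧
            e.2 ∈ univ.erase v ∧ H.Adj e.1 e.2)) ∪
          (((univ : Finset (Fin m)).filter (fun u => H.Adj v u)).image (fun u => (v, u))) ∪
          (((univ : Finset (Fin m)).filter (fun u => H.Adj v u)).image (fun u => (u, v))) := by
        rintro ⟨a, b⟩ hab
        rw [mem_filter] at hab
        rw [mem_union, mem_union, mem_filter, mem_image, mem_image]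
        by_cases ha : a = v
        · subst ha
          exact Or.inl (Or.inr ⟨b, mem_filter.2 ⟨mem_univ _, hab.2⟩, rfl⟩)
        · by_cases hb : b = v
          · subst hb
            exact Or.inr ⟨a, mem_filter.2 ⟨mem_univ _, hab.2.symm⟩, rfl⟩
          · exact Or.inl (Or.inl ⟨mem_univ _, mem_erase.2 ⟨ha, mem_univ _⟩,
              mem_erase.2 ⟨hb, mem_univ _⟩, hab.2⟩)
      have hc := card_le_card hsub
      have hc2 := card_union_le
        (((univ : Finset (Fin m × Fin m)).filter (fun e => e.1 ∈ univ.erase v ∧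
            e.2 ∈ univ.erase v ∧ H.Adj e.1 e.2)) ∪
          (((univ : Finset (Fin m)).filter (fun u => H.Adj v u)).image (fun u => (v, u))))
        (((univ : Finset (Fin m)).filter (fun u => H.Adj v u)).image (fun u => (u, v)))
      have hc3 := card_union_le
        ((univ : Finset (Fin m × Fin m)).filter (fun e => e.1 ∈ univ.erase v ∧
            e.2 ∈ univ.erase v ∧ H.Adj e.1 e.2))
          (((univ : Finset (Fin m)).filter (fun u => H.Adj v u)).image (fun u => (v, u)))
      have hc4 : (((univ : Finset (Fin m)).filter (fun u => H.Adj v u)).image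
        (fun u => (v, u))).card ≤ dv v := card_image_le
      have hc5 : (((univ : Finset (Fin m)).filter (fun u => H.Adj v u)).image
        (fun u => (u, v))).card ≤ dv v := card_image_le
      have e1 : nd H = ((univ : Finset (Fin m × Fin m)).filter (fun e => H.Adj e.1 e.2)).card := rfl
      have e2 : inn H (univ.erase v) = ((univ : Finset (Fin m × Fin m)).filter
        (fun e => e.1 ∈ univ.erase v ∧ e.2 ∈ univ.erase v ∧ H.Adj e.1 e.2)).card :=
        eg_inn_card H _ _ (fun e => by
          rw [mem_filter]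
          exact ⟨fun h => h.2, fun h => ⟨mem_univ _, h⟩⟩)
      omega
    have hpr : (univ : Finset (Fin m)).erase v ≠ univ := by
      intro h
      have : v ∈ (univ : Finset (Fin m)).erase v := by rw [h]; exact mem_univ v
      exact absurd this (notMem_erase v _)
    have h5 := hinnle _ hpr
    have h6 : (((univ : Finset (Fin m)).erase v).card : ℝ) = m - 1 := by
      rw [card_erase_of_mem (mem_univ v), card_univ, hcard, Nat.cast_sub hm]; simp
    rw [h6] at h5
    have hcovR : (nd H : ℝ) ≤ inn H (univ.erase v) + dv v + dv v := by exact_mod_cast hcov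
    have hvR : (dv v : ℝ) * m ≤ nd H := by exact_mod_cast hv
    have h4R : (4 : ℝ) ≤ m := by exact_mod_cast h4
    set J := I + 5 * ε / 8 with hJ
    have hJ0 : 0 ≤ J := by rw [hJ]; positivity
    have h7 : (nd H : ℝ) * m ≤ (J * (m - 1) + dv v + dv v) * m :=
      mul_le_mul_of_nonneg_right (by linarith) (by linarith)
    have h8 : (nd H : ℝ) * (m - 2) ≤ J * ((m - 1) * m) := by nlinarith
    have h9 : J * (((m : ℝ) - 1) * m) ≤ J * ((m + 2) * (m - 2)) :=
      mul_le_mul_of_nonneg_left (by nlinarith) hJ0
    have h10 : (nd H : ℝ) * (m - 2) ≤ (J * (m + 2)) * (m - 2) := by linarith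
    have h11 : (nd H : ℝ) ≤ J * (m + 2) := le_of_mul_le_mul_right h10 (by linarith)
    have h12 : J * ((m : ℝ) + 2) ≤ (I + ε + 1) * (m + 2) :=
      mul_le_mul_of_nonneg_right (by rw [hJ]; linarith) (by linarith)
    linarith

/-- extraction of a minimal graph -/
theorem exists_good (I ε : ℝ) (hI : 0 ≤ I) (hε : 0 < ε) (n : ℕ) (hn : 2 ≤ n)
    (G : SimpleGraph (Fin n)) (hG : I + ε ≤ 2 * (G.edgeSet.ncard : ℝ) / n) :
    ∃ (m : ℕ) (H : SimpleGraph (Fin m)) (e : Fin m → Fin n), Function.Injective e ∧
      (∀ u v, H.Adj u v → G.Adj (e u) (e v)) ∧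
      Good ε (Real.log n) (I + ε + 1) (I + ε / 4) H := by
  have hnR : (2 : ℝ) ≤ n := by exact_mod_cast hn
  have hx : 0 < Real.log n := Real.log_pos (by linarith)
  set x := Real.log n with hxdef
  have hcn : (univ : Finset (Fin n)).card = n := by rw [card_univ, Fintype.card_fin]
  set P : Finset (Fin n) → Prop := fun W => W.Nonempty ∧
    (I + ε / 2 + phi ε x W.card) * W.card ≤ inn G W with hPdef
  have hPuniv : P univ := by
    haveI : Nonempty (Fin n) := ⟨⟨0, by omega⟩⟩
    refine ⟨univ_nonempty, ?_⟩
    rw [hcn, eg_inn_univ, eg_nd_eq]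
    have h1 : phi ε x n ≤ ε / 8 := eg_phi_le hε hx (by omega) le_rfl
    have h2 : (I + ε / 2 + phi ε x n) * n ≤ (I + ε) * n :=
      mul_le_mul_of_nonneg_right (by linarith) (by linarith)
    rw [le_div_iff₀ (by linarith)] at hG
    push_cast
    linarith
  obtain ⟨W, hWP, hWmin⟩ := Finset.exists_min_image
    ((univ : Finset (Finset (Fin n))).filter P) (fun W => W.card)
    ⟨univ, mem_filter.2 ⟨mem_univ _, hPuniv⟩⟩
  obtain ⟨hWne, hWineq⟩ := (mem_filter.1 hWP).2
  have hWmin' : ∀ U : Finset (Fin n), U.Nonempty → U.card < W.card →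
      (inn G U : ℝ) < (I + ε / 2 + phi ε x U.card) * U.card := by
    intro U hU hlt
    by_contra hc
    push Not at hc
    have := hWmin U (mem_filter.2 ⟨mem_univ _, hU, hc⟩)
    omega
  set m := W.card with hm
  set e : Fin m ↪ Fin n := (W.orderEmbOfFin rfl).toEmbedding with he
  have hmap : (univ : Finset (Fin m)).map e = W := by
    rw [he]
    exact Finset.map_orderEmbOfFin_univ W rfl
  refine ⟨m, G.comap e, e, e.injective, fun u v h => h, ?_⟩
  apply eg_good I ε x hI hε hx m hWne.card_pos
  · rw [hxdef]
    refine Real.log_le_log (by exact_mod_cast hWne.card_pos) ?_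
    have : m ≤ n := by
      have := card_le_univ W
      rwa [Fintype.card_fin] at this
    exact_mod_cast this
  · rw [← eg_inn_univ, eg_inn_map, hmap]
    exact hWineq
  · intro S hS hSne
    have h1 : (S.map e).card = S.card := card_map e
    have h2 : S.card < m := by
      have := card_lt_card (ssubset_univ_iff.2 hSne)
      rwa [card_univ, Fintype.card_fin] at this
    have h3 := hWmin' (S.map e) (hS.map) (by rw [h1]; exact h2)
    rw [h1] at h3
    rw [eg_inn_map]
    exact h3

end M13

alias exists_good := M13.exists_good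

end ImmLog
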