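import Pool.Agent.ImmLog.Defs2

set_option autoImplicit false

open Classical Finset

namespace ImmLog

namespace M14

variable {V : Type*} [Fintype V]



/-- fibre -/
noncomputable def cl_S (part : V → ℕ) (i : ℕ) : Finset V := univ.filter (fun v => part v = i)

/-- outgoing pairs of the `i`-th part -/
noncomputable def cl_oc (K : SimpleGraph V) (part : V → ℕ) (i : ℕ) : Finset (V × V) :=
  univ.filter (fun e => part e.1 = i ∧ ¬ (1 ≤ part e.2 ∧ part e.2 ≤ i) ∧ K.Adj e.1 e.2)

theorem cl_mem_S (part : V → ℕ) (i : ℕ) (v : V) : v ∈ cl_S part i ↔ part v = i := by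
  simp [cl_S]

theorem cl_mem_oc (K : SimpleGraph V) (part : V → ℕ) (i : ℕ) (e : V × V) :
    e ∈ cl_oc K part i ↔ (part e.1 = i ∧ ¬ (1 ≤ part e.2 ∧ part e.2 ≤ i) ∧ K.Adj e.1 e.2) := by
  rw [cl_oc, Finset.mem_filter]
  exact ⟨fun h => h.2, fun h => ⟨Finset.mem_univ _, h⟩⟩

/-- the bound of the `i`-th part -/
noncomputable def cl_G (H : SimpleGraph V) (g : ℕ → ℝ) (D0 : ℝ) (S : Finset V) : ℝ :=
  max (g S.card) ((vol H S : ℝ) - D0 * S.card)

/-- good labellings -/
def cl_Good (H F : SimpleGraph V) (g : ℕ → ℝ) (D0 : ℝ) (smax l : ℕ) (part : V → ℕ) : Prop :=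
  (∀ v, part v ≤ l) ∧ ∀ i, 1 ≤ i → i ≤ l → (cl_S part i).Nonempty ∧ (cl_S part i).card ≤ smax ∧
    8 * ((cl_oc (H \ F) part i).card : ℝ) < cl_G H g D0 (cl_S part i)

theorem cl_le {H F : SimpleGraph V} {g : ℕ → ℝ} {D0 : ℝ} {smax l : ℕ} {part : V → ℕ}
    (h : cl_Good H F g D0 smax l part) : l ≤ Fintype.card V := by
  have h1 : Finset.Icc 1 l ⊆ univ.image part := by
    intro i hi
    rw [Finset.mem_Icc] at hi
    obtain ⟨v, hv⟩ := (h.2 i hi.1 hi.2).1
    rw [cl_S, Finset.mem_filter] at hv
    exact Finset.mem_image.2 ⟨v, Finset.mem_univ _, hv.2⟩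
  have h2 := (Finset.card_le_card h1).trans Finset.card_image_le
  rw [Nat.card_Icc, Finset.card_univ] at h2
  omega

theorem cl_extend {H F : SimpleGraph V} {g : ℕ → ℝ} {D0 : ℝ} {smax l : ℕ} {part : V → ℕ}
    (h : cl_Good H F g D0 smax l part) (S : Finset V) (hS : S.Nonempty)
    (hdis : Disjoint S (univ.filter fun v => part v ≠ 0)) (hc : S.card ≤ smax)
    (hlt : 8 * (cut (del (H \ F) (univ.filter fun v => part v ≠ 0)) S : ℝ) < cl_G H g D0 S) :
    cl_Good H F g D0 smax (l + 1) (fun v => if v ∈ S then l + 1 else part v) := by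
  have hS0 : ∀ v ∈ S, part v = 0 := by
    intro v hv
    by_contra h0
    exact Finset.disjoint_left.1 hdis hv (Finset.mem_filter.2 ⟨Finset.mem_univ _, h0⟩)
  refine ⟨?_, ?_⟩
  · intro v
    by_cases hv : v ∈ S
    · simp [hv]
    · simp only [hv, if_false]
      have := h.1 v
      omega
  · intro i hi1 hi2
    by_cases hi : i = l + 1
    · have e1 : cl_S (fun v => if v ∈ S then l + 1 else part v) i = S := by
        ext v
        rw [cl_S, Finset.mem_filter]
        by_cases hv : v ∈ S
        · simp [hv, hi]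
        · have := h.1 v
          simp only [hv, if_false, iff_false, not_and]
          intro _; omega
      have e2 : cl_oc (H \ F) (fun v => if v ∈ S then l + 1 else part v) i =
          univ.filter (fun e : V × V => e.1 ∈ S ∧ e.2 ∉ S ∧
            (del (H \ F) (univ.filter fun v => part v ≠ 0)).Adj e.1 e.2) := by
        ext e
        rw [cl_mem_oc, Finset.mem_filter]
        simp only [del, Finset.mem_univ, true_and, Finset.mem_filter, not_not]
        constructor
        · rintro ⟨a1, a2, a3⟩
          have b1 : e.1 ∈ S := by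
            by_contra hn
            simp only [hn, if_false] at a1
            have := h.1 e.1
            omega
          have b2 : e.2 ∉ S := by
            intro hn
            apply a2
            simp only [hn, if_true]
            omega
          simp only [b2, if_false] at a2
          have := h.1 e.2
          exact ⟨b1, b2, a3, hS0 _ b1, by omega⟩
        · rintro ⟨a1, a2, a3, a4, a5⟩
          refine ⟨by simp [a1, hi], ?_, a3⟩
          simp only [a2, if_false]
          omega
      rw [e1, e2]
      exact ⟨hS, hc, hlt⟩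
    · have hil : i ≤ l := by omega
      have e1 : cl_S (fun v => if v ∈ S then l + 1 else part v) i = cl_S part i := by
        ext v
        rw [cl_S, cl_S, Finset.mem_filter, Finset.mem_filter]
        by_cases hv : v ∈ S
        · have := hS0 v hv
          simp only [hv, if_true, Finset.mem_univ, true_and]
          omega
        · simp [hv]
      have e2 : cl_oc (H \ F) (fun v => if v ∈ S then l + 1 else part v) i = cl_oc (H \ F) part i := by
        ext e
        rw [cl_mem_oc, cl_mem_oc]
        have c1 : ((if e.1 ∈ S then l + 1 else part e.1) = i) ↔ part e.1 = i := by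
          by_cases hv : e.1 ∈ S
          · have := hS0 _ hv
            simp only [hv, if_true]
            omega
          · simp [hv]
        have c2 : (1 ≤ (if e.2 ∈ S then l + 1 else part e.2) ∧ (if e.2 ∈ S then l + 1 else part e.2) ≤ i) ↔
            (1 ≤ part e.2 ∧ part e.2 ≤ i) := by
          by_cases hv : e.2 ∈ S
          · have := hS0 _ hv
            simp only [hv, if_true]
            omega
          · simp [hv]
        rw [c1, c2]
      rw [e1, e2]
      exact h.2 i hi1 hil

theorem cl_max (H F : SimpleGraph V) (g : ℕ → ℝ) (D0 : ℝ) (smax : ℕ) :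
    ∃ (l : ℕ) (part : V → ℕ), cl_Good H F g D0 smax l part ∧
      ∀ S : Finset V, S.Nonempty → Disjoint S (univ.filter fun v => part v ≠ 0) → S.card ≤ smax →
        cl_G H g D0 S ≤ 8 * (cut (del (H \ F) (univ.filter fun v => part v ≠ 0)) S : ℝ) := by
  have h0 : ∃ part : V → ℕ, cl_Good H F g D0 smax 0 part :=
    ⟨fun _ => 0, fun _ => le_rfl, fun i h1 h2 => by omega⟩
  set l := Nat.findGreatest (fun l => ∃ part : V → ℕ, cl_Good H F g D0 smax l part) (Fintype.card V)
    with hl
  have h1 : ∃ part : V → ℕ, cl_Good H F g D0 smax l part :=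
    Nat.findGreatest_spec (P := fun l => ∃ part : V → ℕ, cl_Good H F g D0 smax l part)
      (Nat.zero_le _) h0
  obtain ⟨part, hp⟩ := h1
  refine ⟨l, part, hp, ?_⟩
  intro S hS hdis hc
  by_contra hlt
  have h2 := cl_extend hp S hS hdis hc (not_le.1 hlt)
  have h3 := Nat.le_findGreatest (P := fun l => ∃ part : V → ℕ, cl_Good H F g D0 smax l part)
    (cl_le h2) ⟨_, h2⟩
  rw [← hl] at h3
  omega

/-- ordered cross pairs -/
noncomputable def cl_E (K : SimpleGraph V) (part : V → ℕ) : Finset (V × V) :=
  univ.filter (fun e => K.Adj e.1 e.2 ∧ part e.1 ≠ part e.2)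

/-- oriented cross pairs -/
noncomputable def cl_P (K : SimpleGraph V) (part : V → ℕ) : Finset (V × V) :=
  univ.filter (fun e => K.Adj e.1 e.2 ∧ 1 ≤ part e.1 ∧ (part e.2 = 0 ∨ part e.1 < part e.2))

theorem cl_mem_P (K : SimpleGraph V) (part : V → ℕ) (e : V × V) :
    e ∈ cl_P K part ↔ (K.Adj e.1 e.2 ∧ 1 ≤ part e.1 ∧ (part e.2 = 0 ∨ part e.1 < part e.2)) := by
  rw [cl_P, Finset.mem_filter]
  exact ⟨fun h => h.2, fun h => ⟨Finset.mem_univ _, h⟩⟩

theorem cl_two (K : SimpleGraph V) (part : V → ℕ) :
    (cl_E K part).card = 2 * (cl_P K part).card := by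
  have h1 : cl_E K part = cl_P K part ∪ (cl_P K part).image Prod.swap := by
    ext e
    rw [Finset.mem_union, Finset.mem_image, cl_E, cl_P, Finset.mem_filter, Finset.mem_filter]
    constructor
    · rintro ⟨_, a1, a2⟩
      by_cases h : 1 ≤ part e.1 ∧ (part e.2 = 0 ∨ part e.1 < part e.2)
      · exact Or.inl ⟨Finset.mem_univ _, a1, h⟩
      · right
        refine ⟨e.swap, ?_, Prod.swap_swap e⟩
        rw [Finset.mem_filter]
        refine ⟨Finset.mem_univ _, a1.symm, ?_, ?_⟩
        · show 1 ≤ part e.2
          omega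
        · show part e.1 = 0 ∨ part e.2 < part e.1
          omega
    · rintro (⟨_, a1, a2, a3⟩ | ⟨f, hf, rfl⟩)
      · exact ⟨Finset.mem_univ _, a1, by omega⟩
      · rw [Finset.mem_filter] at hf
        obtain ⟨_, a1, a2, a3⟩ := hf
        refine ⟨Finset.mem_univ _, a1.symm, ?_⟩
        show part f.2 ≠ part f.1
        omega
  have h2 : Disjoint (cl_P K part) ((cl_P K part).image Prod.swap) := by
    rw [Finset.disjoint_left]
    intro e he he2
    rw [Finset.mem_image] at he2
    obtain ⟨f, hf, rfl⟩ := he2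
    rw [cl_P, Finset.mem_filter] at he hf
    have b1 : 1 ≤ part f.2 := he.2.2.1
    have b2 : part f.1 = 0 ∨ part f.2 < part f.1 := he.2.2.2
    have b3 := hf.2.2.1
    have b4 := hf.2.2.2
    omega
  rw [h1, Finset.card_union_of_disjoint h2, Finset.card_image_of_injective _ Prod.swap_injective]
  ring

theorem cl_Psum (K : SimpleGraph V) (part : V → ℕ) (l : ℕ) (hl : ∀ v, part v ≤ l) :
    (cl_P K part).card = ∑ i ∈ Finset.Icc 1 l, (cl_oc K part i).card := by
  rw [← Finset.card_biUnion]
  · congr 1
    ext e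
    rw [Finset.mem_biUnion, cl_P, Finset.mem_filter]
    constructor
    · rintro ⟨_, a1, a2, a3⟩
      refine ⟨part e.1, Finset.mem_Icc.2 ⟨a2, hl _⟩, ?_⟩
      rw [cl_oc, Finset.mem_filter]
      exact ⟨Finset.mem_univ _, rfl, by omega, a1⟩
    · rintro ⟨i, hi, he⟩
      rw [cl_oc, Finset.mem_filter] at he
      rw [Finset.mem_Icc] at hi
      obtain ⟨_, a1, a2, a3⟩ := he
      exact ⟨Finset.mem_univ _, a3, by omega, by omega⟩
  · intro i _ j _ hij
    rw [Function.onFun, Finset.disjoint_left]
    intro e he he2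
    rw [cl_oc, Finset.mem_filter] at he he2
    exact hij (he.2.1.symm.trans he2.2.1)

theorem cl_bounds (H F : SimpleGraph V) (g : ℕ → ℝ) (D0 ρ : ℝ) (smax : ℕ)
    (hρ : ∀ s, 1 ≤ s → s ≤ smax → ρ * s ≤ g s)
    (hPI : ∀ part : V → ℕ, (∀ i, i ≠ 0 → (univ.filter (fun v => part v = i)).card ≤ smax) →
      ∑ i ∈ (univ.image part).erase 0, g ((univ.filter (fun v => part v = i)).card) ≤
        ((univ : Finset (V × V)).filter (fun e => H.Adj e.1 e.2 ∧ part e.1 ≠ part e.2)).card)
    (hDB : ∀ S : Finset V, S.card ≤ smax → (inn H S : ℝ) ≤ D0 * S.card)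
    (l : ℕ) (part : V → ℕ) (h : cl_Good H F g D0 smax l part) :
    ρ * (univ.filter fun v => part v ≠ 0).card ≤ 4 * nd F ∧
      (cut H (univ.filter fun v => part v ≠ 0) : ℝ) ≤ nd F := by
  have hex : ∀ i ∈ Finset.Icc 1 l, ∃ v, part v = i := by
    intro i hi
    rw [Finset.mem_Icc] at hi
    obtain ⟨v, hv⟩ := (h.2 i hi.1 hi.2).1
    exact ⟨v, (Finset.mem_filter.1 hv).2⟩
  -- (1)
  have h1 : ∀ I : Finset ℕ, I ⊆ Finset.Icc 1 l →
      ∑ i ∈ I, g (cl_S part i).card ≤ (cl_E H part).card := by
    intro I hI
    have hfib : ∀ i, i ≠ 0 → univ.filter (fun v => (if part v ∈ I then part v else 0) = i) =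
        if i ∈ I then cl_S part i else ∅ := by
      intro i hi
      by_cases hiI : i ∈ I
      · rw [if_pos hiI]
        ext v
        rw [Finset.mem_filter, cl_S, Finset.mem_filter]
        constructor
        · rintro ⟨_, a⟩
          by_cases hv : part v ∈ I
          · rw [if_pos hv] at a; exact ⟨Finset.mem_univ _, a⟩
          · rw [if_neg hv] at a; exact absurd a.symm hi
        · rintro ⟨_, a⟩
          refine ⟨Finset.mem_univ _, ?_⟩
          rw [if_pos (by rw [a]; exact hiI)]; exact a
      · rw [if_neg hiI]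
        rw [Finset.filter_eq_empty_iff]
        intro v _ a
        by_cases hv : part v ∈ I
        · rw [if_pos hv] at a; exact hiI (a ▸ hv)
        · rw [if_neg hv] at a; exact hi a.symm
    have h2 := hPI (fun v => if part v ∈ I then part v else 0) (by
      intro i hi
      rw [hfib i hi]
      split_ifs with hiI
      · have := Finset.mem_Icc.1 (hI hiI)
        exact (h.2 i this.1 this.2).2.1
      · simp)
    have h3 : (univ.image (fun v => if part v ∈ I then part v else 0)).erase 0 = I := by
      ext i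
      rw [Finset.mem_erase, Finset.mem_image]
      constructor
      · rintro ⟨a, v, _, rfl⟩
        by_cases hv : part v ∈ I
        · rw [if_pos hv]; exact hv
        · rw [if_neg hv] at a; exact absurd rfl a
      · intro hi
        have h4 := Finset.mem_Icc.1 (hI hi)
        obtain ⟨v, hv⟩ := hex i (hI hi)
        exact ⟨by omega, v, Finset.mem_univ _, by rw [hv, if_pos hi]⟩
    rw [h3] at h2
    have h4 : ∑ i ∈ I, g (cl_S part i).card =
        ∑ i ∈ I, g (univ.filter (fun v => (if part v ∈ I then part v else 0) = i)).card := by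
      apply Finset.sum_congr rfl
      intro i hi
      have h5 := Finset.mem_Icc.1 (hI hi)
      rw [hfib i (by omega), if_pos hi]
    rw [h4]
    refine h2.trans ?_
    norm_cast
    apply Finset.card_le_card
    intro e he
    rw [Finset.mem_filter] at he
    rw [cl_E, Finset.mem_filter]
    refine ⟨Finset.mem_univ _, he.2.1, ?_⟩
    intro heq
    apply he.2.2
    show (if part e.1 ∈ I then part e.1 else 0) = (if part e.2 ∈ I then part e.2 else 0)
    rw [heq]
  -- (2)
  have h2 : ∀ I : Finset ℕ, I ⊆ Finset.Icc 1 l →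
      ∑ i ∈ I, ((vol H (cl_S part i) : ℝ) - D0 * (cl_S part i).card) ≤ (cl_E H part).card := by
    intro I hI
    have h3 : ∀ i ∈ I, ((vol H (cl_S part i) : ℝ) - D0 * (cl_S part i).card) ≤ cut H (cl_S part i) := by
      intro i hi
      have h5 := Finset.mem_Icc.1 (hI hi)
      have h6 := hDB (cl_S part i) (h.2 i h5.1 h5.2).2.1
      have h7 : vol H (cl_S part i) = inn H (cl_S part i) + cut H (cl_S part i) := by
        unfold vol inn cut
        rw [← Finset.card_union_of_disjoint]
        · congr 1
          ext e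
          simp only [Finset.mem_union, Finset.mem_filter, Finset.mem_univ, true_and]
          tauto
        · rw [Finset.disjoint_left]
          intro e he he2
          rw [Finset.mem_filter] at he he2
          exact he2.2.2.1 he.2.2.1
      rw [h7]
      push_cast
      linarith
    refine (Finset.sum_le_sum h3).trans ?_
    norm_cast
    unfold cut
    rw [← Finset.card_biUnion]
    · apply Finset.card_le_card
      intro e he
      rw [Finset.mem_biUnion] at he
      obtain ⟨i, _, he⟩ := he
      rw [Finset.mem_filter] at he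
      obtain ⟨_, a1, a2, a3⟩ := he
      rw [cl_S, Finset.mem_filter] at a1 a2
      rw [cl_E, Finset.mem_filter]
      refine ⟨Finset.mem_univ _, a3, ?_⟩
      intro heq
      exact a2 ⟨Finset.mem_univ _, heq ▸ a1.2⟩
    · intro i _ j _ hij
      rw [Function.onFun, Finset.disjoint_left]
      intro e he he2
      rw [Finset.mem_filter] at he he2
      have b1 := he.2.1
      have b2 := he2.2.1
      rw [cl_S, Finset.mem_filter] at b1 b2
      exact hij (b1.2.symm.trans b2.2)
  -- sum of the G_i
  have h3 : ∑ i ∈ Finset.Icc 1 l, cl_G H g D0 (cl_S part i) ≤ 2 * (cl_E H part).card := by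
    set Q : ℕ → Prop := fun i => (vol H (cl_S part i) : ℝ) - D0 * (cl_S part i).card ≤ g (cl_S part i).card
      with hQ
    have h4 := Finset.sum_filter_add_sum_filter_not (Finset.Icc 1 l) Q
      (fun i => cl_G H g D0 (cl_S part i))
    rw [← h4]
    have h5 : ∑ i ∈ (Finset.Icc 1 l).filter Q, cl_G H g D0 (cl_S part i) ≤ (cl_E H part).card := by
      have h7 := h1 ((Finset.Icc 1 l).filter Q) (Finset.filter_subset _ _)
      refine le_trans (le_of_eq ?_) h7
      apply Finset.sum_congr rfl
      intro i hi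
      rw [cl_G, max_eq_left (Finset.mem_filter.1 hi).2]
    have h6 : ∑ i ∈ (Finset.Icc 1 l).filter (fun i => ¬ Q i), cl_G H g D0 (cl_S part i) ≤
        (cl_E H part).card := by
      have h7 := h2 ((Finset.Icc 1 l).filter (fun i => ¬ Q i)) (Finset.filter_subset _ _)
      refine le_trans (le_of_eq ?_) h7
      apply Finset.sum_congr rfl
      intro i hi
      rw [cl_G, max_eq_right (not_le.1 (Finset.mem_filter.1 hi).2).le]
    linarith
  -- (3)
  have h4 := cl_two H part
  have h5 : ((cl_P H part).card : ℝ) ≤ (∑ i ∈ Finset.Icc 1 l, cl_G H g D0 (cl_S part i)) / 8 + (nd F : ℝ) / 2 := by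
    have h6 : ((cl_P H part).card) ≤ ∑ i ∈ Finset.Icc 1 l, (cl_oc (H \ F) part i).card + (cl_P F part).card := by
      rw [← cl_Psum (H \ F) part l h.1]
      refine le_trans (Finset.card_le_card ?_) (Finset.card_union_le _ _)
      intro e he
      rw [cl_mem_P] at he
      rw [Finset.mem_union, cl_mem_P, cl_mem_P]
      by_cases hF : F.Adj e.1 e.2
      · exact Or.inr ⟨hF, he.2⟩
      · left
        refine ⟨?_, he.2⟩
        rw [SimpleGraph.sdiff_adj]
        exact ⟨he.1, hF⟩
    have h7 : 2 * (cl_P F part).card ≤ nd F := by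
      rw [← cl_two F part]
      unfold nd cl_E
      apply Finset.card_le_card
      intro e he
      rw [Finset.mem_filter] at he ⊢
      exact ⟨Finset.mem_univ _, he.2.1⟩
    have h8 : (∑ i ∈ Finset.Icc 1 l, ((cl_oc (H \ F) part i).card : ℝ)) ≤
        (∑ i ∈ Finset.Icc 1 l, cl_G H g D0 (cl_S part i)) / 8 := by
      rw [Finset.sum_div]
      apply Finset.sum_le_sum
      intro i hi
      have h9 := Finset.mem_Icc.1 hi
      have := (h.2 i h9.1 h9.2).2.2
      linarith
    have h6' : ((cl_P H part).card : ℝ) ≤ (∑ i ∈ Finset.Icc 1 l, ((cl_oc (H \ F) part i).card : ℝ)) + (cl_P F part).card := by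
      exact_mod_cast h6
    have h7' : 2 * ((cl_P F part).card : ℝ) ≤ nd F := by exact_mod_cast h7
    linarith
  have h4' : ((cl_E H part).card : ℝ) = 2 * (cl_P H part).card := by exact_mod_cast h4
  have hP : ((cl_P H part).card : ℝ) ≤ nd F := by
    rw [h4'] at h3
    linarith
  constructor
  · have h6 : ((univ.filter fun v => part v ≠ 0).card : ℝ) = ∑ i ∈ Finset.Icc 1 l, ((cl_S part i).card : ℝ) := by
      norm_cast
      rw [← Finset.card_biUnion]
      · congr 1
        ext v
        rw [Finset.mem_filter, Finset.mem_biUnion]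
        constructor
        · rintro ⟨_, a⟩
          refine ⟨part v, Finset.mem_Icc.2 ⟨by omega, h.1 v⟩, ?_⟩
          rw [cl_S, Finset.mem_filter]
          exact ⟨Finset.mem_univ _, rfl⟩
        · rintro ⟨i, hi, hv⟩
          rw [cl_S, Finset.mem_filter] at hv
          rw [Finset.mem_Icc] at hi
          exact ⟨Finset.mem_univ _, by omega⟩
      · intro i _ j _ hij
        rw [Function.onFun, Finset.disjoint_left]
        intro v hv hv2
        rw [cl_S, Finset.mem_filter] at hv hv2
        exact hij (hv.2.symm.trans hv2.2)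
    rw [h6, Finset.mul_sum]
    calc ∑ i ∈ Finset.Icc 1 l, ρ * ((cl_S part i).card : ℝ) ≤
          ∑ i ∈ Finset.Icc 1 l, cl_G H g D0 (cl_S part i) := by
          apply Finset.sum_le_sum
          intro i hi
          have h9 := Finset.mem_Icc.1 hi
          obtain ⟨b1, b2, _⟩ := h.2 i h9.1 h9.2
          exact (hρ _ (Finset.card_pos.2 b1) b2).trans (le_max_left _ _)
      _ ≤ 4 * nd F := by
          rw [h4'] at h3
          linarith
  · have h6 : cut H (univ.filter fun v => part v ≠ 0) ≤ (cl_P H part).card := by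
      unfold cut cl_P
      apply Finset.card_le_card
      intro e he
      simp only [Finset.mem_filter, Finset.mem_univ, true_and, not_not] at he ⊢
      exact ⟨he.2.2, by omega, Or.inl he.2.1⟩
    have h6' : (cut H (univ.filter fun v => part v ≠ 0) : ℝ) ≤ (cl_P H part).card := by exact_mod_cast h6
    linarith

/-- Cleaning lemma. `hPI` is the partition inequality (label `0` is the outside). -/
theorem cleaning (H F : SimpleGraph V) (g : ℕ → ℝ) (D0 ρ : ℝ) (smax : ℕ)
    (hg : ∀ s, s ≤ smax → 0 ≤ g s) (hρ : ∀ s, 1 ≤ s → s ≤ smax → ρ * s ≤ g s) (hρ0 : 0 < ρ)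
    (hPI : ∀ part : V → ℕ, (∀ i, i ≠ 0 → (univ.filter (fun v => part v = i)).card ≤ smax) →
      ∑ i ∈ (univ.image part).erase 0, g ((univ.filter (fun v => part v = i)).card) ≤
        ((univ : Finset (V × V)).filter (fun e => H.Adj e.1 e.2 ∧ part e.1 ≠ part e.2)).card)
    (hDB : ∀ S : Finset V, S.card ≤ smax → (inn H S : ℝ) ≤ D0 * S.card) :
    ∃ X : Finset V,
      (∀ S : Finset V, S.Nonempty → Disjoint S X → S.card ≤ smax →
        g S.card ≤ 8 * cut (del (H \ F) X) S ∧
        (vol H S : ℝ) - D0 * S.card ≤ 8 * cut (del (H \ F) X) S) ∧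
      ρ * X.card ≤ 4 * nd F ∧ (cut H X : ℝ) ≤ nd F := by
  obtain ⟨l, part, hgood, hmax⟩ := cl_max H F g D0 smax
  obtain ⟨b1, b2⟩ := cl_bounds H F g D0 ρ smax hρ hPI hDB l part hgood
  refine ⟨univ.filter fun v => part v ≠ 0, ?_, b1, b2⟩
  intro S hS hdis hc
  have h1 := hmax S hS hdis hc
  exact ⟨(le_max_left _ _).trans h1, (le_max_right _ _).trans h1⟩

end M14

alias cleaning := M14.cleaning

end ImmLog
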