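import Pool.Agent.ImmLog.Defs2

set_option autoImplicit false

open Classical Finset

namespace ImmLog

namespace M15

variable {V : Type*} [Fintype V]



/-- one growth step through vertices of small degree -/
noncomputable def fbStep (H : SimpleGraph V) (v0 : ℕ) (M : Finset V) : Finset V :=
  M ∪ univ.filter (fun y => ∃ z ∈ M, vol H {z} ≤ v0 ∧ H.Adj z y)

lemma fbStep_card (H : SimpleGraph V) (v0 : ℕ) (M : Finset V) :
    (fbStep H v0 M).card ≤ (v0 + 1) * M.card := by
  have h1 : univ.filter (fun y => ∃ z ∈ M, vol H {z} ≤ v0 ∧ H.Adj z y) ⊆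
      (M.filter (fun z => vol H {z} ≤ v0)).biUnion (fun z => univ.filter (fun y => H.Adj z y)) := by
    intro y hy
    simp only [mem_filter, mem_univ, true_and] at hy
    obtain ⟨z, hz, hv, ha⟩ := hy
    simp only [mem_biUnion, mem_filter, mem_univ, true_and]
    exact ⟨z, ⟨hz, hv⟩, ha⟩
  have h2 : ((M.filter (fun z => vol H {z} ≤ v0)).biUnion
      (fun z => univ.filter (fun y => H.Adj z y))).card ≤
      (M.filter (fun z => vol H {z} ≤ v0)).card * v0 := by
    apply card_biUnion_le_card_mul
    intro z hz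
    rw [mem_filter] at hz
    refine le_trans ?_ hz.2
    unfold vol
    refine card_le_card_of_injOn (fun y => (z, y)) ?_ ?_
    · intro y hy
      simp only [coe_filter, mem_univ, true_and, Set.mem_ofPred_eq] at hy
      simp only [coe_filter, mem_univ, true_and, Set.mem_ofPred_eq, mem_singleton]
      exact hy
    · intro y _ y' _ h
      exact (Prod.mk.inj h).2
  have h3 : (M.filter (fun z => vol H {z} ≤ v0)).card ≤ M.card := card_filter_le _ _
  unfold fbStep
  refine le_trans (card_union_le _ _) ?_
  have h4 := le_trans (card_le_card h1) (le_trans h2 (Nat.mul_le_mul_right v0 h3))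
  calc M.card + _ ≤ M.card + M.card * v0 := Nat.add_le_add_left h4 _
    _ = (v0 + 1) * M.card := by ring

lemma fbStep_iter_card (H : SimpleGraph V) (v0 : ℕ) (k : ℕ) : ∀ (M : Finset V),
    ((fbStep H v0)^[k] M).card ≤ M.card * (v0 + 1) ^ k := by
  induction k with
  | zero => intro M; simp
  | succ k ih =>
    intro M
    rw [Function.iterate_succ_apply]
    refine le_trans (ih _) ?_
    refine le_trans (Nat.mul_le_mul_right _ (fbStep_card H v0 M)) ?_
    apply le_of_eq; ring

lemma fbStep_subset (H : SimpleGraph V) (v0 : ℕ) (M : Finset V) : M ⊆ fbStep H v0 M :=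
  subset_union_left

lemma fbStep_iter_mono (H : SimpleGraph V) (v0 : ℕ) (M : Finset V) {j k : ℕ} (h : j ≤ k) :
    (fbStep H v0)^[j] M ⊆ (fbStep H v0)^[k] M := by
  induction k, h using Nat.le_induction with
  | base => exact subset_refl _
  | succ k _ ih =>
    rw [Function.iterate_succ_apply']
    exact ih.trans (fbStep_subset _ _ _)

lemma fb_walk (H T : SimpleGraph V) (hTH : ∀ u v, T.Adj u v → H.Adj u v) (v0 : ℕ) {u y : V}
    (w : T.Walk u y) : (∀ z ∈ w.support, vol H {z} ≤ v0) → ∀ M : Finset V, u ∈ M →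
      y ∈ (fbStep H v0)^[w.length] M := by
  induction w with
  | nil => intro _ M hM; simpa using hM
  | cons h p ih =>
    intro hs M hM
    rw [SimpleGraph.Walk.length_cons, Function.iterate_succ_apply]
    apply ih
    · intro z hz
      apply hs
      rw [SimpleGraph.Walk.support_cons]
      exact List.mem_cons_of_mem _ hz
    · unfold fbStep
      rw [mem_union, mem_filter]
      right
      refine ⟨mem_univ _, _, hM, ?_, hTH _ _ h⟩
      apply hs
      rw [SimpleGraph.Walk.support_cons]
      exact List.mem_cons_self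

lemma fb_card_le_of_meets (fam : Finset (Finset V))
    (hdisj : ∀ A ∈ fam, ∀ B ∈ fam, A ≠ B → Disjoint A B) (W : Finset V)
    (h : ∀ A ∈ fam, ∃ x ∈ A, x ∈ W) : fam.card ≤ W.card := by
  rcases isEmpty_or_nonempty V with hV | hV
  · have : fam = ∅ := by
      rw [Finset.eq_empty_iff_forall_notMem]
      intro A hA
      obtain ⟨x, _⟩ := h A hA
      exact hV.false x
    rw [this]; simp
  choose! f hf using h
  refine card_le_card_of_injOn f ?_ ?_
  · intro A hA
    exact (hf A hA).2
  · intro A hA B hB hAB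
    by_contra hne
    have h1 := (hf A hA).1
    have h2 := (hf B hB).1
    rw [← hAB] at h2
    exact (Finset.disjoint_left.mp (hdisj A hA B hB hne)) h1 h2

lemma fb_vol_le (H : SimpleGraph V) {S : Finset V} {z : V} (hz : z ∈ S) : vol H {z} ≤ vol H S := by
  unfold vol
  apply card_le_card
  intro e he
  simp only [mem_filter, mem_univ, true_and, mem_singleton] at he ⊢
  exact ⟨by rw [he.1]; exact hz, he.2⟩

/-- the restriction of a graph to a vertex set -/
def fbRes (G : SimpleGraph V) (S : Finset V) : SimpleGraph V where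
  Adj u v := G.Adj u v ∧ u ∈ S ∧ v ∈ S
  symm := ⟨fun _ _ h => ⟨h.1.symm, h.2.2, h.2.1⟩⟩
  loopless := ⟨fun _ h => G.loopless.irrefl _ h.1⟩

omit [Fintype V] in
lemma fbRes_walk_mem (G : SimpleGraph V) (S : Finset V) {u v : V} (w : (fbRes G S).Walk u v) :
    u ∈ S → v ∈ S := by
  induction w with
  | nil => exact id
  | cons h p ih => intro _; exact ih h.2.2

/-- Only few terminals are spoiled by a small deleted edge set `F` and vertex set `X`. -/
theorem few_bad (H F : SimpleGraph V) (X : Finset V) (fam : Finset (Finset V))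
    (hne : ∀ A ∈ fam, A.Nonempty)
    (hdisj : ∀ A ∈ fam, ∀ B ∈ fam, A ≠ B → Disjoint A B) (E : Finset V → SimpleGraph V)
    (q K' s0 v0 smax : ℕ) (hE : ∀ A ∈ fam, ∀ S, cut (E A) S ≤ K')
    (hcutq : ∀ A ∈ fam, ∀ S, A ⊆ S → S.card ≤ smax → q ≤ cut (H \ E A) S)
    (hsmall : ∀ S : Finset V, S.Nonempty → Disjoint S X → S.card ≤ smax →
      cut (del (H \ F) X) S < q + K' → S.card ≤ s0 ∧ vol H S ≤ v0) :
    (fam.filter (fun A => ¬ (Disjoint A X ∧ (∀ a ∈ A, ∀ v, ¬ F.Adj a v) ∧
      ∀ S, A ⊆ S → Disjoint S X → S.card ≤ smax →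
        q ≤ cut ((del (H \ F) X) \ E A) S))).card
      ≤ X.card + nd F + (nd F + cut H X) * (v0 + 1) ^ s0 := by
  set inc : Finset V := univ.filter (fun x => ∃ v, F.Adj x v) with hinc
  set nbX : Finset V := univ.filter (fun x => x ∉ X ∧ ∃ y ∈ X, H.Adj x y) with hnbX
  have hinc_card : inc.card ≤ nd F := by
    have : inc ⊆ ((univ : Finset (V × V)).filter (fun e => F.Adj e.1 e.2)).image Prod.fst := by
      intro x hx
      simp only [hinc, mem_filter, mem_univ, true_and] at hx
      obtain ⟨v, hv⟩ := hx
      rw [mem_image]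
      exact ⟨(x, v), by simpa using hv, rfl⟩
    exact le_trans (card_le_card this) card_image_le
  have hnbX_card : nbX.card ≤ cut H X := by
    have : nbX ⊆ ((univ : Finset (V × V)).filter
        (fun e => e.1 ∈ X ∧ e.2 ∉ X ∧ H.Adj e.1 e.2)).image Prod.snd := by
      intro x hx
      simp only [hnbX, mem_filter, mem_univ, true_and] at hx
      obtain ⟨hx, y, hy, ha⟩ := hx
      rw [mem_image]
      refine ⟨(y, x), ?_, rfl⟩
      simp only [mem_filter, mem_univ, true_and]
      exact ⟨hy, hx, ha.symm⟩
    exact le_trans (card_le_card this) card_image_le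
  set P1 := fam.filter (fun A => ∃ x ∈ A, x ∈ X) with hP1
  set P2 := fam.filter (fun A => ∃ x ∈ A, x ∈ inc) with hP2
  set P3 := fam.filter (fun A => ∃ x ∈ A, x ∈ (fbStep H v0)^[s0] (inc ∪ nbX)) with hP3
  have hsubdisj : ∀ (Q : Finset (Finset V)), Q ⊆ fam →
      ∀ A ∈ Q, ∀ B ∈ Q, A ≠ B → Disjoint A B :=
    fun Q hQ A hA B hB => hdisj A (hQ hA) B (hQ hB)
  have c1 : P1.card ≤ X.card := by
    apply fb_card_le_of_meets _ (hsubdisj _ (filter_subset _ _))
    intro A hA
    exact (mem_filter.mp hA).2
  have c2 : P2.card ≤ nd F := by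
    refine le_trans ?_ hinc_card
    apply fb_card_le_of_meets _ (hsubdisj _ (filter_subset _ _))
    intro A hA
    exact (mem_filter.mp hA).2
  have c3 : P3.card ≤ (nd F + cut H X) * (v0 + 1) ^ s0 := by
    have h1 : P3.card ≤ ((fbStep H v0)^[s0] (inc ∪ nbX)).card := by
      apply fb_card_le_of_meets _ (hsubdisj _ (filter_subset _ _))
      intro A hA
      exact (mem_filter.mp hA).2
    refine le_trans h1 (le_trans (fbStep_iter_card H v0 s0 _) ?_)
    apply Nat.mul_le_mul_right
    exact le_trans (card_union_le _ _) (Nat.add_le_add hinc_card hnbX_card)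
  have hcover : (fam.filter (fun A => ¬ (Disjoint A X ∧ (∀ a ∈ A, ∀ v, ¬ F.Adj a v) ∧
      ∀ S, A ⊆ S → Disjoint S X → S.card ≤ smax →
        q ≤ cut ((del (H \ F) X) \ E A) S))) ⊆ (P1 ∪ P2) ∪ P3 := by
    intro A hA
    rw [mem_filter] at hA
    obtain ⟨hAf, hbad⟩ := hA
    by_cases h1 : Disjoint A X
    swap
    · rw [mem_union, mem_union]
      left; left
      rw [hP1, mem_filter]
      refine ⟨hAf, ?_⟩
      rw [Finset.not_disjoint_iff] at h1
      exact h1
    by_cases h2 : ∀ a ∈ A, ∀ v, ¬ F.Adj a v
    swap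
    · push Not at h2
      obtain ⟨a, ha, v, hv⟩ := h2
      rw [mem_union, mem_union]
      left; right
      rw [hP2, mem_filter]
      refine ⟨hAf, a, ha, ?_⟩
      rw [hinc, mem_filter]
      exact ⟨mem_univ _, v, hv⟩
    have h3 : ¬ ∀ S, A ⊆ S → Disjoint S X → S.card ≤ smax →
        q ≤ cut ((del (H \ F) X) \ E A) S := fun h3 => hbad ⟨h1, h2, h3⟩
    push Not at h3
    obtain ⟨S, hAS, hSX, hSc, hScut⟩ := h3
    rw [mem_union]
    right
    rw [hP3, mem_filter]
    refine ⟨hAf, ?_⟩
    set GA := (del (H \ F) X) \ E A with hGA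
    set T := fbRes GA S with hT
    set S' : Finset V := S.filter (fun v => ∃ a ∈ A, T.Reachable a v) with hS'
    have hS'S : S' ⊆ S := filter_subset _ _
    have hAS' : A ⊆ S' := by
      intro a ha
      rw [hS', mem_filter]
      exact ⟨hAS ha, a, ha, SimpleGraph.Reachable.refl a⟩
    have hS'X : Disjoint S' X := Disjoint.mono_left hS'S hSX
    have hS'c : S'.card ≤ smax := le_trans (card_le_card hS'S) hSc
    have hS'ne : S'.Nonempty := (hne A hAf).mono hAS'
    have hcut' : cut GA S' < q := by
      refine lt_of_le_of_lt ?_ hScut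
      unfold cut
      apply card_le_card
      intro e he
      simp only [mem_filter, mem_univ, true_and] at he ⊢
      obtain ⟨he1, he2, he3⟩ := he
      refine ⟨hS'S he1, ?_, he3⟩
      intro he4
      apply he2
      have he1' := he1
      rw [hS', mem_filter] at he1'
      obtain ⟨he1S, a, ha, hreach⟩ := he1'
      rw [hS', mem_filter]
      refine ⟨he4, a, ha, hreach.trans ?_⟩
      apply SimpleGraph.Adj.reachable
      exact ⟨he3, he1S, he4⟩
    have hcutd : cut (del (H \ F) X) S' < q + K' := by
      have : cut (del (H \ F) X) S' ≤ cut GA S' + cut (E A) S' := by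
        unfold cut
        refine le_trans (card_le_card ?_) (card_union_le _ _)
        intro e he
        simp only [mem_union, mem_filter, mem_univ, true_and] at he ⊢
        by_cases hE : (E A).Adj e.1 e.2
        · right; exact ⟨he.1, he.2.1, hE⟩
        · left
          refine ⟨he.1, he.2.1, ?_⟩
          rw [hGA, SimpleGraph.sdiff_adj]
          exact ⟨he.2.2, hE⟩
      have hE' := hE A hAf S'
      omega
    obtain ⟨hs1, hs2⟩ := hsmall S' hS'ne hS'X hS'c hcutd
    have hq := hcutq A hAf S' hAS' hS'c
    -- an edge which disappeared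
    obtain ⟨x, hxS', hxW⟩ : ∃ x ∈ S', x ∈ inc ∪ nbX := by
      by_contra hno
      push Not at hno
      have : cut (H \ E A) S' ≤ cut GA S' := by
        unfold cut
        apply card_le_card
        intro e he
        simp only [mem_filter, mem_univ, true_and] at he ⊢
        obtain ⟨he1, he2, he3⟩ := he
        refine ⟨he1, he2, ?_⟩
        rw [SimpleGraph.sdiff_adj] at he3
        rw [hGA, SimpleGraph.sdiff_adj]
        refine ⟨?_, he3.2⟩
        have hn := hno e.1 he1
        rw [mem_union, not_or, hinc, hnbX, mem_filter, mem_filter] at hn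
        obtain ⟨hn1, hn2⟩ := hn
        have hx : e.1 ∉ X := Finset.disjoint_left.mp hS'X he1
        refine ⟨?_, hx, ?_⟩
        · rw [SimpleGraph.sdiff_adj]
          refine ⟨he3.1, ?_⟩
          intro hF
          exact hn1 ⟨mem_univ _, _, hF⟩
        · intro hy
          exact hn2 ⟨mem_univ _, hx, _, hy, he3.1⟩
      omega
    have hx' := hxS'
    rw [hS', mem_filter] at hx'
    obtain ⟨hxS, a, ha, hreach⟩ := hx'
    refine ⟨a, ha, ?_⟩
    obtain ⟨w⟩ := hreach.symm
    let p := w.toPath
    have hpp : (p : T.Walk x a).IsPath := p.2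
    have hsup : ∀ z ∈ (p : T.Walk x a).support, z ∈ S' := by
      intro z hz
      rw [hS', mem_filter]
      refine ⟨?_, a, ha, ?_⟩
      · exact fbRes_walk_mem GA S ((p : T.Walk x a).takeUntil z hz) hxS
      · exact SimpleGraph.Reachable.symm ⟨(p : T.Walk x a).dropUntil z hz⟩
    have hlen : (p : T.Walk x a).length ≤ s0 := by
      have h1 : (p : T.Walk x a).support.toFinset.card = (p : T.Walk x a).support.length :=
        List.toFinset_card_of_nodup hpp.support_nodup
      have h2 : (p : T.Walk x a).support.toFinset ⊆ S' := by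
        intro z hz
        exact hsup z (List.mem_toFinset.mp hz)
      have h3 := card_le_card h2
      rw [h1, SimpleGraph.Walk.length_support] at h3
      omega
    have hmem := fb_walk H T (fun u v h => by
      have h1 : GA.Adj u v := h.1
      rw [hGA, SimpleGraph.sdiff_adj] at h1
      have h2 := h1.1.1
      rw [SimpleGraph.sdiff_adj] at h2
      exact h2.1) v0 (p : T.Walk x a) (fun z hz => le_trans (fb_vol_le H (hsup z hz)) hs2)
      (inc ∪ nbX) hxW
    exact fbStep_iter_mono H v0 _ hlen hmem
  refine le_trans (card_le_card hcover) ?_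
  refine le_trans (card_union_le _ _) ?_
  have := card_union_le P1 P2
  omega

end M15

alias few_bad := M15.few_bad

end ImmLog
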