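import Pool.Agent.ImmLog.Defs2

set_option autoImplicit false

open Classical Finset

namespace ImmLog

namespace M2

variable {V : Type*} [Fintype V]



theorem count_out (G : SimpleGraph V) (S : Finset V) {u v : V} (w : G.Walk u v) :
    w.darts.countP (fun d => decide (d.fst ∈ S ∧ d.snd ∉ S)) + (if v ∈ S then 1 else 0) =
      w.darts.countP (fun d => decide (d.fst ∉ S ∧ d.snd ∈ S)) + (if u ∈ S then 1 else 0) := by
  induction w with
  | nil => simp
  | @cons u v x h p ih =>
    rw [SimpleGraph.Walk.darts_cons, List.countP_cons, List.countP_cons]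
    by_cases hu : u ∈ S <;> by_cases hv : v ∈ S <;> by_cases hx : x ∈ S <;>
      simp [hu, hv, hx] at ih ⊢ <;> omega

/-- In the residual digraph of `p` edge-disjoint paths starting in `A ⊆ S`, at least
`(cut S - p)/2` residual arcs leave `S`. -/
theorem res_out (G : SimpleGraph V) (A S : Finset V) (hAS : A ⊆ S) {p : ℕ} (a z : Fin p → V)
    (w : ∀ i, G.Walk (a i) (z i)) (hw : ∀ i, (w i).IsPath) (ha : ∀ i, a i ∈ A)
    (hd : ∀ i j, i ≠ j → (w i).edges.Disjoint (w j).edges) :
    cut G S ≤ 2 * ((univ : Finset (V × V)).filter (fun e => e.1 ∈ S ∧ e.2 ∉ S ∧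
      ∃ h : G.Adj e.1 e.2, ∀ i, (⟨e, h⟩ : G.Dart) ∉ (w i).darts)).card + p := by
  set P : Finset (V × V) := (univ : Finset (V × V)).filter
    (fun e => e.1 ∈ S ∧ e.2 ∉ S ∧ G.Adj e.1 e.2) with hP
  set O : Fin p → Finset (V × V) := fun i => P.filter
    (fun e => ∃ h : G.Adj e.1 e.2, (⟨e, h⟩ : G.Dart) ∈ (w i).darts) with hO
  set I : Fin p → Finset (V × V) := fun i => P.filter
    (fun e => ∃ h : G.Adj e.2 e.1, (⟨(e.2, e.1), h⟩ : G.Dart) ∈ (w i).darts) with hI
  set R : Finset (V × V) := (univ : Finset (V × V)).filter (fun e => e.1 ∈ S ∧ e.2 ∉ S ∧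
      ∃ h : G.Adj e.1 e.2, ∀ i, (⟨e, h⟩ : G.Dart) ∉ (w i).darts) with hR
  have hcut : cut G S = P.card := rfl
  -- edges
  have edge_of_O : ∀ i, ∀ e ∈ O i, s(e.1, e.2) ∈ (w i).edges := by
    intro i e he
    obtain ⟨-, h, hd⟩ := mem_filter.1 he
    exact List.mem_map.2 ⟨_, hd, rfl⟩
  have edge_of_I : ∀ i, ∀ e ∈ I i, s(e.1, e.2) ∈ (w i).edges := by
    intro i e he
    obtain ⟨-, h, hd⟩ := mem_filter.1 he
    exact List.mem_map.2 ⟨_, hd, Sym2.eq_swap⟩
  -- O i and I i are disjoint
  have hOI : ∀ i, Disjoint (O i) (I i) := by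
    intro i
    rw [Finset.disjoint_left]
    intro e h1 h2
    obtain ⟨-, ha1, hd1⟩ := mem_filter.1 h1
    obtain ⟨-, ha2, hd2⟩ := mem_filter.1 h2
    have hnd : ((w i).darts.map SimpleGraph.Dart.edge).Nodup := (hw i).isTrail.edges_nodup
    have heq : (⟨e, ha1⟩ : G.Dart).edge = (⟨(e.2, e.1), ha2⟩ : G.Dart).edge := Sym2.eq_swap
    have h3 := List.inj_on_of_nodup_map hnd hd1 hd2 heq
    have h4 : e = (e.2, e.1) := congrArg SimpleGraph.Dart.toProd h3
    have h5 : e.1 = e.2 := congrArg Prod.fst h4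
    exact G.loopless.irrefl e.1 (by rw [← h5] at ha1; exact ha1)
  -- pairwise disjoint unions
  have hdisj : ∀ i ∈ (univ : Finset (Fin p)), ∀ j ∈ (univ : Finset (Fin p)), i ≠ j →
      Disjoint (O i ∪ I i) (O j ∪ I j) := by
    intro i _ j _ hij
    rw [Finset.disjoint_left]
    intro e h1 h2
    have e1 : s(e.1, e.2) ∈ (w i).edges := by
      rcases mem_union.1 h1 with h | h
      · exact edge_of_O i e h
      · exact edge_of_I i e h
    have e2 : s(e.1, e.2) ∈ (w j).edges := by
      rcases mem_union.1 h2 with h | h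
      · exact edge_of_O j e h
      · exact edge_of_I j e h
    exact hd i j hij e1 e2
  have hsum : ∑ i, ((O i).card + (I i).card) ≤ P.card := by
    have h1 : ∑ i, ((O i).card + (I i).card) = ∑ i, (O i ∪ I i).card :=
      sum_congr rfl fun i _ => (card_union_of_disjoint (hOI i)).symm
    rw [h1, ← card_biUnion hdisj]
    refine card_le_card ?_
    intro e he
    obtain ⟨i, -, hi⟩ := mem_biUnion.1 he
    rcases mem_union.1 hi with h | h
    · exact (mem_filter.1 h).1
    · exact (mem_filter.1 h).1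
  -- out ≤ in + 1
  have hout : ∀ i, (O i).card ≤ (I i).card + 1 := by
    intro i
    have hc := count_out G S (w i)
    have h1 : (O i).card ≤ (w i).darts.countP (fun d => decide (d.fst ∈ S ∧ d.snd ∉ S)) := by
      rw [List.countP_eq_length_filter]
      have hsub : O i ⊆ (((w i).darts.filter (fun d => decide (d.fst ∈ S ∧ d.snd ∉ S))).map
          (fun d => d.toProd)).toFinset := by
        intro e he
        obtain ⟨hp, ha1, hd1⟩ := mem_filter.1 he
        obtain ⟨-, h1, h2, h3⟩ := mem_filter.1 hp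
        rw [List.mem_toFinset, List.mem_map]
        refine ⟨⟨e, ha1⟩, ?_, rfl⟩
        rw [List.mem_filter]
        refine ⟨hd1, ?_⟩
        simp only [decide_eq_true_eq]
        exact ⟨h1, h2⟩
      refine (card_le_card hsub).trans ((List.toFinset_card_le _).trans ?_)
      rw [List.length_map]
    have h2 : (w i).darts.countP (fun d => decide (d.fst ∉ S ∧ d.snd ∈ S)) ≤ (I i).card := by
      rw [List.countP_eq_length_filter]
      have hnd0 : (w i).darts.Nodup := (hw i).isTrail.edges_nodup.of_map _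
      have hnd1 : (((w i).darts.filter (fun d => decide (d.fst ∉ S ∧ d.snd ∈ S))).map
          (fun d => (d.snd, d.fst))).Nodup := by
        refine (hnd0.filter _).map ?_
        intro d d' hdd
        have h3 : d.snd = d'.snd := congrArg Prod.fst hdd
        have h4 : d.fst = d'.fst := congrArg Prod.snd hdd
        exact SimpleGraph.Dart.ext _ _ (Prod.ext h4 h3)
      have hsub : (((w i).darts.filter (fun d => decide (d.fst ∉ S ∧ d.snd ∈ S))).map
          (fun d => (d.snd, d.fst))).toFinset ⊆ I i := by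
        intro e he
        rw [List.mem_toFinset, List.mem_map] at he
        obtain ⟨d, hd1, rfl⟩ := he
        rw [List.mem_filter] at hd1
        obtain ⟨hd1, hd2⟩ := hd1
        simp only [decide_eq_true_eq] at hd2
        refine mem_filter.2 ⟨mem_filter.2 ⟨mem_univ _, hd2.2, hd2.1, d.adj.symm⟩, d.adj, ?_⟩
        exact hd1
      have h5 := card_le_card hsub
      rw [List.toFinset_card_of_nodup hnd1, List.length_map] at h5
      exact h5
    have h3 : a i ∈ S := hAS (ha i)
    rw [if_pos h3] at hc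
    have h4 : (w i).darts.countP (fun d => decide (d.fst ∈ S ∧ d.snd ∉ S)) ≤
        (w i).darts.countP (fun d => decide (d.fst ∉ S ∧ d.snd ∈ S)) + 1 := by omega
    omega
  have hcover : P.card ≤ R.card + ∑ i, (O i).card := by
    have hsub : P ⊆ R ∪ (univ : Finset (Fin p)).biUnion O := by
      intro e he
      obtain ⟨-, h1, h2, h3⟩ := mem_filter.1 he
      by_cases h : ∀ i, (⟨e, h3⟩ : G.Dart) ∉ (w i).darts
      · exact mem_union_left _ (mem_filter.2 ⟨mem_univ _, h1, h2, h3, h⟩)
      · push Not at h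
        obtain ⟨i, hi⟩ := h
        exact mem_union_right _ (mem_biUnion.2 ⟨i, mem_univ _, mem_filter.2 ⟨he, h3, hi⟩⟩)
    refine (card_le_card hsub).trans ((card_union_le _ _).trans ?_)
    exact Nat.add_le_add_left card_biUnion_le _
  have hsumO : ∑ i, (O i).card ≤ ∑ i, (I i).card + p := by
    calc ∑ i, (O i).card ≤ ∑ i, ((I i).card + 1) := sum_le_sum fun i _ => hout i
      _ = ∑ i, (I i).card + p := by rw [sum_add_distrib]; simp
  rw [sum_add_distrib] at hsum
  rw [hcut]
  omega

end M2

alias res_out := M2.res_out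

end ImmLog
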