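import Pool.Agent.ImmLog.Defs2

set_option autoImplicit false

open Classical Finset

namespace ImmLog

namespace M3

variable {V : Type*} [Fintype V]



/-- `Up par P u v n`: iterating `par` exactly `n` times from `v` gives `u`, and all vertices
passed (except `u`) satisfy `P`. -/
inductive Up {V : Type*} (par : V → V) (P : V → Prop) (u : V) : V → ℕ → Prop
  | refl : Up par P u u 0
  | step {v : V} {n : ℕ} : P v → Up par P u (par v) n → Up par P u v (n+1)

/-- BFS dichotomy in an arbitrary digraph `Res` of arcs of `G`: either a shortest arc-path from `A`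
touches `Tt`, or there is a root `u ∈ A ∪ W` such that many vertices are reached from `u` without
edges of `Tr` (every edge of `Tr` has both ends in `W`). -/
theorem bfs_dichotomy (H G : SimpleGraph V) (Res : V → V → Prop)
    (hRes : ∀ x y, Res x y → G.Adj x y) (A Tt W : Finset V) (hA : A.Nonempty) (Tr : SimpleGraph V)
    (hW : ∀ x y, Tr.Adj x y → x ∈ W ∧ y ∈ W) (r B : ℕ)
    (hgrow : ∀ S : ℕ → Finset V, S 0 = A →
      (∀ k x, x ∈ S (k+1) ↔ x ∈ S k ∨ ∃ y ∈ S k, Res y x) → B ≤ vol H (S r)) :
    (∃ a ∈ A, ∃ y ∈ Tt, ∃ π : G.Walk a y, π.IsPath ∧ π.length ≤ r ∧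
      (∀ d ∈ π.darts, Res d.fst d.snd) ∧ ∀ x ∈ π.support, x ∈ Tt → x = y) ∨
    (∃ a ∈ A, ∃ u ∈ A ∪ W, ∃ π : G.Walk a u, π.IsPath ∧ π.length ≤ r ∧
      (∀ d ∈ π.darts, Res d.fst d.snd) ∧ (∀ x ∈ π.support, x ∉ Tt) ∧
      ∃ T : SimpleGraph V, T ≤ G ∧ Disjoint T Tr ∧ (∀ e ∈ π.edges, e ∉ T.edgeSet) ∧
        (∀ x y, T.Adj x y → x ∉ Tt) ∧ B ≤ (A ∪ W).card * vol H (ball T {u} r)) := by
  -- layers
  let L : ℕ → Finset V := fun k => Nat.rec A (fun _ S => univ.filter (fun x => x ∈ S ∨ ∃ y ∈ S, Res y x)) k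
  have hL0 : L 0 = A := rfl
  have hLs : ∀ k x, x ∈ L (k+1) ↔ x ∈ L k ∨ ∃ y ∈ L k, Res y x := by
    intro k x
    simp only [L, mem_filter, mem_univ, true_and]
  clear_value L
  have hmono : ∀ k, L k ⊆ L (k+1) := fun k x hx => (hLs k x).2 (Or.inl hx)
  have hmono' : ∀ i j, i ≤ j → L i ⊆ L j := fun i j hij => monotone_nat_of_le_succ hmono hij
  have hB : B ≤ vol H (L r) := hgrow L hL0 hLs
  -- rank
  let rk : V → ℕ := fun v => sInf {k | v ∈ L k}
  have hrk_le : ∀ v k, v ∈ L k → rk v ≤ k := fun v k h => Nat.sInf_le h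
  have hrk_mem : ∀ v k, v ∈ L k → v ∈ L (rk v) := by
    intro v k h
    exact Nat.sInf_mem (s := {k | v ∈ L k}) ⟨k, h⟩
  have hrkA : ∀ v ∈ A, rk v = 0 := by
    intro v hv
    exact Nat.le_zero.1 (hrk_le v 0 (hL0 ▸ hv))
  clear_value rk
  have hpar : ∀ v, v ∈ L r → v ∉ A → ∃ y, y ∈ L r ∧ rk y < rk v ∧ Res y v := by
    intro v hv hA'
    have h1 := hrk_mem v r hv
    have h2 := hrk_le v r hv
    rcases Nat.eq_zero_or_pos (rk v) with h0 | h0
    · rw [h0, hL0] at h1
      exact absurd h1 hA'
    · obtain ⟨j, hj⟩ : ∃ j, rk v = j + 1 := ⟨rk v - 1, by omega⟩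
      rw [hj] at h1
      rcases (hLs j v).1 h1 with h3 | ⟨y, hy, hR⟩
      · have := hrk_le v j h3
        omega
      · refine ⟨y, hmono' j r (by omega) hy, ?_, hR⟩
        have := hrk_le y j hy
        omega
  choose! par hpar1 hpar2 hpar3 using hpar
  have hAL : ∀ v ∈ A, v ∈ L r := fun v hv => hmono' 0 r (Nat.zero_le r) (hL0 ▸ hv)
  -- paths
  have hpath : ∀ m, ∀ x ∈ L r, rk x = m → ∃ a ∈ A, ∃ π : G.Walk a x, π.IsPath ∧ π.length ≤ rk x ∧
      (∀ d ∈ π.darts, Res d.fst d.snd) ∧ ∀ z ∈ π.support, z ∈ L r ∧ (z = x ∨ rk z < rk x) := by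
    intro m
    induction m using Nat.strong_induction_on with
    | _ m ih =>
      intro x hx hm
      by_cases hxA : x ∈ A
      · refine ⟨x, hxA, SimpleGraph.Walk.nil, SimpleGraph.Walk.IsPath.nil, by simp, by simp, ?_⟩
        intro z hz
        simp only [SimpleGraph.Walk.support_nil, List.mem_singleton] at hz
        subst hz
        exact ⟨hx, Or.inl rfl⟩
      · have h1 := hpar1 x hx hxA
        have h2 := hpar2 x hx hxA
        have h3 := hpar3 x hx hxA
        obtain ⟨a, ha, π, hπ, hlen, hd, hs⟩ := ih (rk (par x)) (by omega) (par x) h1 rfl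
        have hxs : x ∉ π.support := by
          intro hxs
          rcases (hs x hxs).2 with h4 | h4
          · rw [← h4] at h2
            exact lt_irrefl _ h2
          · omega
        refine ⟨a, ha, π.concat (hRes _ _ h3), hπ.concat hxs _, ?_, ?_, ?_⟩
        · rw [SimpleGraph.Walk.length_concat]
          omega
        · intro d hdd
          rw [SimpleGraph.Walk.darts_concat, List.concat_eq_append, List.mem_append] at hdd
          rcases hdd with hdd | hdd
          · exact hd d hdd
          · rw [List.mem_singleton] at hdd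
            subst hdd
            exact h3
        · intro z hz
          rw [SimpleGraph.Walk.support_concat, List.mem_append] at hz
          rcases hz with hz | hz
          · obtain ⟨h5, h6⟩ := hs z hz
            refine ⟨h5, Or.inr ?_⟩
            rcases h6 with h6 | h6
            · rw [h6]; exact h2
            · omega
          · rw [List.mem_singleton] at hz
            subst hz
            exact ⟨hx, Or.inl rfl⟩
  by_cases hcase : (L r ∩ Tt).Nonempty
  · left
    obtain ⟨y, hy, hmin⟩ := Finset.exists_min_image (L r ∩ Tt) rk hcase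
    rw [mem_inter] at hy
    obtain ⟨a, ha, π, hπ, hlen, hd, hs⟩ := hpath (rk y) y hy.1 rfl
    refine ⟨a, ha, y, hy.2, π, hπ, hlen.trans (hrk_le y r hy.1), hd, ?_⟩
    intro x hx hxT
    obtain ⟨h1, h2⟩ := hs x hx
    rcases h2 with h2 | h2
    · exact h2
    · have := hmin x (mem_inter.2 ⟨h1, hxT⟩)
      omega
  · right
    have hdisj : ∀ x ∈ L r, x ∉ Tt := fun x hx hxT => hcase ⟨x, mem_inter.2 ⟨hx, hxT⟩⟩
    set P : V → Prop := fun v => v ∈ L r ∧ v ∉ A ∧ ¬ Tr.Adj v (par v) with hP
    -- every vertex of L r has a root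
    have hroot : ∀ m, ∀ v ∈ L r, rk v = m → ∃ u ∈ L r, (u ∈ A ∨ Tr.Adj u (par u)) ∧
        ∃ n ≤ rk v, Up par P u v n := by
      intro m
      induction m using Nat.strong_induction_on with
      | _ m ih =>
        intro v hv hm
        by_cases hstop : v ∈ A ∨ Tr.Adj v (par v)
        · exact ⟨v, hv, hstop, 0, Nat.zero_le _, Up.refl⟩
        · push Not at hstop
          have h1 := hpar1 v hv hstop.1
          have h2 := hpar2 v hv hstop.1
          obtain ⟨u, hu, hu2, n, hn, hup⟩ := ih (rk (par v)) (by omega) (par v) h1 rfl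
          exact ⟨u, hu, hu2, n + 1, by omega, Up.step ⟨hv, hstop.1, hstop.2⟩ hup⟩
    -- strict descendants have larger rank
    have hdesc : ∀ u v n, Up par P u v n → rk u ≤ rk v ∧ (n ≠ 0 → rk u < rk v) := by
      intro u v n h
      induction h with
      | refl => exact ⟨le_rfl, fun h => absurd rfl h⟩
      | step hPv _ ih =>
        have h2 := hpar2 _ hPv.1 hPv.2.1
        exact ⟨by omega, fun _ => by omega⟩
    -- the trees
    let D : V → V → Prop := fun u v => ∃ n, Up par P u v (n+1)
    have hDP : ∀ u v, D u v → P v := by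
      rintro u v ⟨n, h⟩
      cases h with
      | step h _ => exact h
    have hDrk : ∀ u v, D u v → rk u < rk v := fun u v ⟨n, h⟩ => (hdesc u v _ h).2 (by omega)
    let T : V → SimpleGraph V := fun u =>
      { Adj := fun x y => (D u y ∧ x = par y) ∨ (D u x ∧ y = par x)
        symm := ⟨fun x y h => h.symm⟩
        loopless := ⟨by
          rintro x (⟨h1, h2⟩ | ⟨h1, h2⟩)
          · have := hpar2 x (hDP u x h1).1 (hDP u x h1).2.1
            rw [← h2] at this
            exact lt_irrefl _ this
          · have := hpar2 x (hDP u x h1).1 (hDP u x h1).2.1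
            rw [← h2] at this
            exact lt_irrefl _ this⟩ }
    have hwalk : ∀ u v n, Up par P u v n → ∃ w : (T u).Walk u v, w.length = n := by
      intro u v n h
      induction h with
      | refl => exact ⟨SimpleGraph.Walk.nil, rfl⟩
      | @step v n hPv hup ih =>
        obtain ⟨w, hw⟩ := ih
        have hadj : (T u).Adj (par v) v := Or.inl ⟨⟨n, Up.step hPv hup⟩, rfl⟩
        exact ⟨w.concat hadj, by rw [SimpleGraph.Walk.length_concat, hw]⟩
    -- pigeonhole
    set K : Finset V := (A ∪ W).filter (fun u => u ∈ L r) with hK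
    have hcover : L r ⊆ K.biUnion (fun u => ball (T u) {u} r) := by
      intro v hv
      obtain ⟨u, hu, hu2, n, hn, hup⟩ := hroot (rk v) v hv rfl
      obtain ⟨w, hw⟩ := hwalk u v n hup
      rw [mem_biUnion]
      refine ⟨u, ?_, ?_⟩
      · rw [hK, mem_filter, mem_union]
        refine ⟨?_, hu⟩
        rcases hu2 with h | h
        · exact Or.inl h
        · exact Or.inr (hW _ _ h).1
      · unfold ball
        rw [mem_filter]
        refine ⟨mem_univ _, u, mem_singleton_self u, w, ?_⟩
        have := hrk_le v r hv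
        omega
    have hKne : K.Nonempty := by
      obtain ⟨a, ha⟩ := hA
      exact ⟨a, by rw [hK, mem_filter]; exact ⟨mem_union_left _ ha, hAL a ha⟩⟩
    obtain ⟨u, huK, hmax⟩ := Finset.exists_max_image K (fun u => vol H (ball (T u) {u} r)) hKne
    have hvol : vol H (L r) ≤ ∑ u ∈ K, vol H (ball (T u) {u} r) := by
      unfold vol
      refine le_trans (card_le_card ?_) card_biUnion_le
      intro e he
      rw [mem_filter] at he
      rw [mem_biUnion]
      obtain ⟨u, hu, hu2⟩ := mem_biUnion.1 (hcover he.2.1)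
      exact ⟨u, hu, by rw [mem_filter]; exact ⟨mem_univ _, hu2, he.2.2⟩⟩
    have hKcard : K.card ≤ (A ∪ W).card := card_le_card (filter_subset _ _)
    have huK' : u ∈ A ∪ W ∧ u ∈ L r := by
      rw [hK, mem_filter] at huK
      exact huK
    obtain ⟨a, ha, π, hπ, hlen, hd, hs⟩ := hpath (rk u) u huK'.2 rfl
    refine ⟨a, ha, u, huK'.1, π, hπ, hlen.trans (hrk_le u r huK'.2), hd,
      fun x hx => hdisj x (hs x hx).1, T u, ?_, ?_, ?_, ?_, ?_⟩
    · rintro x y (⟨h1, h2⟩ | ⟨h1, h2⟩)
      · have hp := hDP u y h1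
        rw [h2]
        exact hRes _ _ (hpar3 y hp.1 hp.2.1)
      · have hp := hDP u x h1
        rw [h2]
        exact (hRes _ _ (hpar3 x hp.1 hp.2.1)).symm
    · rw [SimpleGraph.disjoint_left]
      rintro x y (⟨h1, h2⟩ | ⟨h1, h2⟩) h3
      · have hp := hDP u y h1
        rw [h2] at h3
        exact hp.2.2 h3.symm
      · have hp := hDP u x h1
        rw [h2] at h3
        exact hp.2.2 h3
    · intro e he heT
      induction e using Sym2.ind with
      | _ x y =>
        have hx := hs x (SimpleGraph.Walk.fst_mem_support_of_mem_edges π he)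
        have hy := hs y (SimpleGraph.Walk.snd_mem_support_of_mem_edges π he)
        rw [SimpleGraph.mem_edgeSet] at heT
        rcases heT with ⟨h1, _⟩ | ⟨h1, _⟩
        · have h4 := hDrk u y h1
          rcases hy.2 with h5 | h5
          · rw [h5] at h4; exact lt_irrefl _ h4
          · omega
        · have h4 := hDrk u x h1
          rcases hx.2 with h5 | h5
          · rw [h5] at h4; exact lt_irrefl _ h4
          · omega
    · rintro x y (⟨h1, h2⟩ | ⟨h1, h2⟩)
      · have hp := hDP u y h1
        rw [h2]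
        exact hdisj _ (hpar1 y hp.1 hp.2.1)
      · exact hdisj _ (hDP u x h1).1
    · calc B ≤ vol H (L r) := hB
        _ ≤ ∑ u ∈ K, vol H (ball (T u) {u} r) := hvol
        _ ≤ K.card • vol H (ball (T u) {u} r) := Finset.sum_le_card_nsmul _ _ _ hmax
        _ = K.card * vol H (ball (T u) {u} r) := by rw [smul_eq_mul]
        _ ≤ (A ∪ W).card * vol H (ball (T u) {u} r) := Nat.mul_le_mul_right _ hKcard

end M3

alias bfs_dichotomy := M3.bfs_dichotomy

end ImmLog
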