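import Pool.Agent.ImmLog.Defs2

set_option autoImplicit false

open Classical Finset

namespace ImmLog

namespace M4

variable {V : Type*} [Fintype V]




/-! ### Auxiliary lemmas for the splitting lemma -/

theorem vol_eq_sum (H : SimpleGraph V) (S : Finset V) : vol H S = ∑ v ∈ S, vol H {v} := by
  unfold vol
  have h : ∀ S : Finset V, ((univ : Finset (V × V)).filter (fun e => e.1 ∈ S ∧ H.Adj e.1 e.2)).card
      = ∑ v ∈ S, (univ.filter (fun y => H.Adj v y)).card := by
    intro S
    rw [Finset.card_filter, ← Finset.univ_product_univ, Finset.sum_product]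
    rw [← Finset.sum_filter_add_sum_filter_not univ (fun x => x ∈ S)]
    have h0 : ∑ x ∈ univ.filter (fun x => x ∉ S), ∑ y : V, (if x ∈ S ∧ H.Adj x y then 1 else 0) = 0 := by
      apply Finset.sum_eq_zero
      intro x hx
      apply Finset.sum_eq_zero
      intro y _
      rw [if_neg]
      intro h
      exact (Finset.mem_filter.1 hx).2 h.1
    rw [h0, add_zero]
    have : univ.filter (fun x => x ∈ S) = S := by ext x; simp
    rw [this]
    apply Finset.sum_congr rfl
    intro x hx
    rw [Finset.card_filter]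
    apply Finset.sum_congr rfl
    intro y _
    simp [hx]
  rw [h S]
  apply Finset.sum_congr rfl
  intro v _
  rw [h {v}, Finset.sum_singleton]

theorem vol_mono' (H : SimpleGraph V) {S S' : Finset V} (h : S ⊆ S') : vol H S ≤ vol H S' := by
  rw [vol_eq_sum H S, vol_eq_sum H S']
  exact Finset.sum_le_sum_of_subset h

theorem vol_biUnion {ι : Type*} [DecidableEq ι] (H : SimpleGraph V) (C : Finset ι) (f : ι → Finset V)
    (hf : (C : Set ι).PairwiseDisjoint f) : vol H (C.biUnion f) = ∑ c ∈ C, vol H (f c) := by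
  rw [vol_eq_sum, Finset.sum_biUnion hf]
  apply Finset.sum_congr rfl
  intro c _
  rw [← vol_eq_sum]

/-- an abstract breadth first search forest -/
structure Forest (T : SimpleGraph V) (A U : Finset V) (R : ℕ) (dep : V → ℕ) (par : V → V) :
    Prop where
  le : ∀ v ∈ U, dep v ≤ R
  zero : ∀ v ∈ U, dep v = 0 → v ∈ A
  root : ∀ a ∈ A, a ∈ U ∧ dep a = 0
  step : ∀ v ∈ U, ∀ n, dep v = n + 1 → T.Adj v (par v) ∧ par v ∈ U ∧ dep (par v) = n

theorem exists_forest (T : SimpleGraph V) (A : Finset V) (R : ℕ) :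
    ∃ (dep : V → ℕ) (par : V → V), Forest T A (ball T A R) R dep par := by
  -- depth
  let dep : V → ℕ := fun v => sInf {n | ∃ a ∈ A, ∃ w : T.Walk a v, w.length = n}
  have hle : ∀ v, ∀ a ∈ A, ∀ w : T.Walk a v, dep v ≤ w.length := by
    intro v a ha w
    exact Nat.sInf_le ⟨a, ha, w, rfl⟩
  have hex : ∀ v, (∃ a ∈ A, ∃ w : T.Walk a v, True) → ∃ a ∈ A, ∃ w : T.Walk a v, w.length = dep v := by
    rintro v ⟨a, ha, w, -⟩
    exact Nat.sInf_mem (s := {n | ∃ a ∈ A, ∃ w : T.Walk a v, w.length = n}) ⟨w.length, a, ha, w, rfl⟩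
  have hU : ∀ v, v ∈ ball T A R ↔ ∃ a ∈ A, ∃ w : T.Walk a v, w.length ≤ R := by
    intro v; simp [ball]
  have hstep : ∀ v, v ∈ ball T A R → ∀ n, dep v = n + 1 → ∃ u, T.Adj v u ∧ u ∈ ball T A R ∧ dep u = n := by
    intro v hv n hn
    rw [hU] at hv
    obtain ⟨a0, ha0, w0, hw0⟩ := hv
    obtain ⟨a, ha, w, hw⟩ := hex v ⟨a0, ha0, w0, trivial⟩
    have hvR : dep v ≤ R := le_trans (hle v a0 ha0 w0) hw0
    have key : ∀ (r : T.Walk v a), r.length = n + 1 → ∃ u, T.Adj v u ∧ u ∈ ball T A R ∧ dep u = n := by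
      intro r hr
      cases r with
      | nil => simp at hr
      | cons h p =>
        rename_i u
        rw [SimpleGraph.Walk.length_cons] at hr
        have hp : p.length = n := by omega
        refine ⟨u, h, ?_, ?_⟩
        · rw [hU]
          exact ⟨a, ha, p.reverse, by rw [SimpleGraph.Walk.length_reverse]; omega⟩
        · apply le_antisymm
          · have := hle u a ha p.reverse
            rw [SimpleGraph.Walk.length_reverse] at this
            omega
          · obtain ⟨a', ha', w', hw'⟩ := hex u ⟨a, ha, p.reverse, trivial⟩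
            have := hle v a' ha' (w'.concat h.symm)
            rw [SimpleGraph.Walk.length_concat] at this
            omega
    exact key w.reverse (by rw [SimpleGraph.Walk.length_reverse]; omega)
  let par : V → V := fun v => if h : ∃ u, T.Adj v u ∧ u ∈ ball T A R ∧ dep v = dep u + 1 then h.choose else v
  refine ⟨dep, par, ?_, ?_, ?_, ?_⟩
  · intro v hv
    rw [hU] at hv
    obtain ⟨a0, ha0, w0, hw0⟩ := hv
    exact le_trans (hle v a0 ha0 w0) hw0
  · intro v hv h0
    rw [hU] at hv
    obtain ⟨a0, ha0, w0, hw0⟩ := hv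
    obtain ⟨a, ha, w, hw⟩ := hex v ⟨a0, ha0, w0, trivial⟩
    rw [h0] at hw
    have := SimpleGraph.Walk.eq_of_length_eq_zero hw
    rwa [← this]
  · intro a ha
    refine ⟨?_, ?_⟩
    · rw [hU]
      exact ⟨a, ha, SimpleGraph.Walk.nil, by simp⟩
    · have := hle a a ha SimpleGraph.Walk.nil
      simpa using this
  · intro v hv n hn
    obtain ⟨u, h1, h2, h3⟩ := hstep v hv n hn
    have hh : ∃ u, T.Adj v u ∧ u ∈ ball T A R ∧ dep v = dep u + 1 := ⟨u, h1, h2, by omega⟩
    have hpar : par v = hh.choose := by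
      show (if h : ∃ u, T.Adj v u ∧ u ∈ ball T A R ∧ dep v = dep u + 1 then h.choose else v) = _
      rw [dif_pos hh]
    have hspec := hh.choose_spec
    rw [← hpar] at hspec
    exact ⟨hspec.1, hspec.2.1, by omega⟩

section forest
variable {T : SimpleGraph V} {A U : Finset V} {R : ℕ} {dep : V → ℕ} {par : V → V}

theorem Forest.iter (F : Forest T A U R dep par) {v : V} (hv : v ∈ U) :
    ∀ k ≤ dep v, par^[k] v ∈ U ∧ dep (par^[k] v) = dep v - k := by
  intro k
  induction k with
  | zero => intro _; simpa using hv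
  | succ k ih =>
    intro hk
    obtain ⟨h1, h2⟩ := ih (by omega)
    rw [Function.iterate_succ_apply']
    have := F.step _ h1 (dep v - (k + 1)) (by omega)
    exact ⟨this.2.1, this.2.2⟩

/-- descendants -/
noncomputable def desc (U : Finset V) (dep : V → ℕ) (par : V → V) (x : V) : Finset V :=
  U.filter (fun v => dep x ≤ dep v ∧ par^[dep v - dep x] v = x)

theorem mem_desc {x v : V} : v ∈ desc U dep par x ↔ v ∈ U ∧ dep x ≤ dep v ∧
    par^[dep v - dep x] v = x := by
  simp [desc]

theorem desc_self {x : V} (hx : x ∈ U) : x ∈ desc U dep par x := by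
  rw [mem_desc]
  exact ⟨hx, le_refl _, by simp⟩

theorem desc_disj {x y : V} (hxy : x ≠ y) (hd : dep x = dep y) :
    Disjoint (desc U dep par x) (desc U dep par y) := by
  rw [Finset.disjoint_left]
  intro v hx hy
  rw [mem_desc] at hx hy
  apply hxy
  rw [← hx.2.2, ← hy.2.2, hd]

theorem Forest.par_desc (F : Forest T A U R dep par) {x v : V} (hv : v ∈ desc U dep par x)
    (hd : dep x < dep v) : par v ∈ desc U dep par x := by
  rw [mem_desc] at hv ⊢
  obtain ⟨h1, h2, h3⟩ := F.step v hv.1 (dep v - 1) (by omega)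
  refine ⟨h2, by omega, ?_⟩
  rw [h3]
  have : dep v - dep x = (dep v - 1 - dep x) + 1 := by omega
  rw [this, Function.iterate_succ_apply] at hv
  exact hv.2.2

/-- children -/
noncomputable def chil (U : Finset V) (dep : V → ℕ) (par : V → V) (z : V) : Finset V :=
  U.filter (fun c => dep c = dep z + 1 ∧ par c = z)

theorem mem_chil {z c : V} : c ∈ chil U dep par z ↔ c ∈ U ∧ dep c = dep z + 1 ∧ par c = z := by
  simp [chil]

theorem Forest.desc_eq (F : Forest T A U R dep par) {z : V} (hz : z ∈ U) :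
    desc U dep par z = insert z ((chil U dep par z).biUnion (desc U dep par)) := by
  ext v
  rw [Finset.mem_insert, Finset.mem_biUnion]
  constructor
  · intro hv
    have hv' := hv
    rw [mem_desc] at hv
    obtain ⟨h1, h2, h3⟩ := hv
    rcases Nat.eq_or_lt_of_le h2 with h | h
    · left
      rw [h, Nat.sub_self] at h3
      exact h3
    · right
      refine ⟨par^[dep v - (dep z + 1)] v, ?_, ?_⟩
      · have hi := F.iter h1 (dep v - (dep z + 1)) (by omega)
        rw [mem_chil]
        refine ⟨hi.1, by omega, ?_⟩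
        rw [← Function.iterate_succ_apply' par]
        have : (dep v - (dep z + 1)).succ = dep v - dep z := by omega
        rw [this]
        exact h3
      · have hi := F.iter h1 (dep v - (dep z + 1)) (by omega)
        rw [mem_desc]
        refine ⟨h1, by omega, ?_⟩
        have : dep v - dep (par^[dep v - (dep z + 1)] v) = dep v - (dep z + 1) := by omega
        rw [this]
  · rintro (rfl | ⟨c, hc, hv⟩)
    · exact desc_self hz
    · rw [mem_chil] at hc
      rw [mem_desc] at hv ⊢
      refine ⟨hv.1, by omega, ?_⟩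
      have : dep v - dep z = (dep v - dep c) + 1 := by omega
      rw [this, Function.iterate_succ_apply', hv.2.2]
      exact hc.2.2

theorem chil_disj (z : V) :
    ((chil U dep par z : Finset V) : Set V).PairwiseDisjoint (desc U dep par) := by
  intro c hc c' hc' hne
  have h1 := mem_chil.1 (Finset.mem_coe.1 hc)
  have h2 := mem_chil.1 (Finset.mem_coe.1 hc')
  exact desc_disj hne (by omega)

theorem Forest.vol_desc (F : Forest T A U R dep par) (H : SimpleGraph V) {z : V} (hz : z ∈ U) :
    vol H (desc U dep par z) = vol H {z} + ∑ c ∈ chil U dep par z, vol H (desc U dep par c) := by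
  rw [F.desc_eq hz, vol_eq_sum, Finset.sum_insert, ← vol_eq_sum, vol_biUnion _ _ _ (chil_disj z)]
  rw [Finset.mem_biUnion]
  rintro ⟨c, hc, hz'⟩
  rw [mem_chil] at hc
  rw [mem_desc] at hz'
  omega

theorem Forest.eq_union (F : Forest T A U R dep par) : U = A.biUnion (desc U dep par) := by
  ext v
  rw [Finset.mem_biUnion]
  constructor
  · intro hv
    have hi := F.iter hv (dep v) le_rfl
    refine ⟨par^[dep v] v, F.zero _ hi.1 (by omega), ?_⟩
    rw [mem_desc]
    refine ⟨hv, by omega, ?_⟩
    have : dep v - dep (par^[dep v] v) = dep v := by omega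
    rw [this]
  · rintro ⟨a, ha, hv⟩
    exact (mem_desc.1 hv).1

theorem Forest.vol_U (F : Forest T A U R dep par) (H : SimpleGraph V) :
    vol H U = ∑ a ∈ A, vol H (desc U dep par a) := by
  conv_lhs => rw [F.eq_union]
  apply vol_biUnion
  intro a ha a' ha' hne
  have h1 := F.root a (Finset.mem_coe.1 ha)
  have h2 := F.root a' (Finset.mem_coe.1 ha')
  exact desc_disj hne (by omega)

/-- the graph of the edges `{v, par v}` with `v ∈ D` -/
def Bg (dep : V → ℕ) (par : V → V) (D : Finset V) : SimpleGraph V where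
  Adj x y := (x ∈ D ∧ y = par x ∧ dep x = dep y + 1) ∨ (y ∈ D ∧ x = par y ∧ dep y = dep x + 1)
  symm := ⟨fun _ _ h => h.symm⟩
  loopless := ⟨fun _ h => by rcases h with h | h <;> omega⟩

theorem Bg_adj {D : Finset V} {x y : V} : (Bg dep par D).Adj x y ↔
    (x ∈ D ∧ y = par x ∧ dep x = dep y + 1) ∨ (y ∈ D ∧ x = par y ∧ dep y = dep x + 1) := Iff.rfl

theorem Forest.Bg_le (F : Forest T A U R dep par) {D : Finset V} (hD : D ⊆ U) :
    Bg dep par D ≤ T := by
  intro x y h
  rcases h with ⟨h1, h2, h3⟩ | ⟨h1, h2, h3⟩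
  · rw [h2]; exact (F.step x (hD h1) _ h3).1
  · rw [h2]; exact (F.step y (hD h1) _ h3).1.symm

theorem Bg_disj {D D' : Finset V} (hD : Disjoint D D') :
    Disjoint (Bg dep par D) (Bg dep par D') := by
  rw [disjoint_iff_inf_le]
  intro x y h
  obtain ⟨h1, h2⟩ := h
  rw [Finset.disjoint_left] at hD
  rcases h1 with h1 | h1 <;> rcases h2 with h2 | h2
  · exact hD h1.1 h2.1
  · omega
  · omega
  · exact hD h1.1 h2.1

theorem Forest.Bg_ball (F : Forest T A U R dep par) {z : V} {C : Finset V}
    (hC : C ⊆ chil U dep par z) : ∀ k, ∀ v ∈ C.biUnion (desc U dep par), dep v = dep z + k + 1 →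
      ∃ w : (Bg dep par (C.biUnion (desc U dep par))).Walk z v, w.length ≤ k + 1 := by
  intro k
  induction k with
  | zero =>
    intro v hv hk
    have hv' := hv
    rw [Finset.mem_biUnion] at hv
    obtain ⟨c, hc, hvc⟩ := hv
    have hc' := mem_chil.1 (hC hc)
    rw [mem_desc] at hvc
    have h0 : dep v - dep c = 0 := by omega
    rw [h0] at hvc
    have hvc' : v = c := hvc.2.2
    have hadj : (Bg dep par (C.biUnion (desc U dep par))).Adj z v := by
      rw [Bg_adj]
      right
      exact ⟨hv', by rw [hvc']; exact hc'.2.2.symm, by omega⟩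
    exact ⟨SimpleGraph.Walk.cons hadj SimpleGraph.Walk.nil, by simp⟩
  | succ k ih =>
    intro v hv hk
    have hv' := hv
    rw [Finset.mem_biUnion] at hv
    obtain ⟨c, hc, hvc⟩ := hv
    have hc' := mem_chil.1 (hC hc)
    have hvU := (mem_desc.1 hvc).1
    have hp := F.par_desc hvc (by omega)
    obtain ⟨h1, h2, h3⟩ := F.step v hvU (dep z + k + 1) (by omega)
    have hpm : par v ∈ C.biUnion (desc U dep par) := Finset.mem_biUnion.2 ⟨c, hc, hp⟩
    obtain ⟨w, hw⟩ := ih (par v) hpm h3
    have hadj : (Bg dep par (C.biUnion (desc U dep par))).Adj (par v) v := by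
      rw [Bg_adj]
      right
      exact ⟨hv', rfl, by omega⟩
    exact ⟨w.concat hadj, by rw [SimpleGraph.Walk.length_concat]; omega⟩

theorem Forest.mem_Bg_ball (F : Forest T A U R dep par) {z : V} {C : Finset V}
    (hC : C ⊆ chil U dep par z) {v : V} (hv : v ∈ C.biUnion (desc U dep par)) :
    v ∈ ball (Bg dep par (C.biUnion (desc U dep par))) {z} R := by
  have hv' := hv
  rw [Finset.mem_biUnion] at hv
  obtain ⟨c, hc, hvc⟩ := hv
  have hc' := mem_chil.1 (hC hc)
  have hvd := mem_desc.1 hvc
  have hR := F.le v hvd.1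
  obtain ⟨w, hw⟩ := F.Bg_ball hC (dep v - dep z - 1) v hv' (by omega)
  simp only [ball, Finset.mem_filter, Finset.mem_univ, true_and, Finset.mem_singleton,
    exists_eq_left]
  exact ⟨w, by omega⟩

theorem self_mem_ball (B : SimpleGraph V) (z : V) (R : ℕ) : z ∈ ball B {z} R := by
  simp only [ball, Finset.mem_filter, Finset.mem_univ, true_and, Finset.mem_singleton,
    exists_eq_left]
  exact ⟨SimpleGraph.Walk.nil, by simp⟩

theorem Forest.Bg_end (F : Forest T A U R dep par) {z : V} {C : Finset V}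
    (hC : C ⊆ chil U dep par z) {u v : V}
    (h : (Bg dep par (C.biUnion (desc U dep par))).Adj u v) :
    u ∈ ball (Bg dep par (C.biUnion (desc U dep par))) {z} R := by
  rcases h with ⟨h1, h2, h3⟩ | ⟨h1, h2, h3⟩
  · exact F.mem_Bg_ball hC h1
  · have hv' := h1
    rw [Finset.mem_biUnion] at h1
    obtain ⟨c, hc, hvc⟩ := h1
    have hc' := mem_chil.1 (hC hc)
    have hvd := mem_desc.1 hvc
    rcases Nat.eq_or_lt_of_le hvd.2.1 with h | h
    · have : v = c := by
        have h4 := hvd.2.2
        rw [h, Nat.sub_self] at h4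
        exact h4
      rw [h2, this, hc'.2.2]
      exact self_mem_ball _ _ _
    · have := F.par_desc hvc h
      rw [h2]
      exact F.mem_Bg_ball hC (Finset.mem_biUnion.2 ⟨c, hc, this⟩)

theorem Forest.Bg_vol (F : Forest T A U R dep par) (H : SimpleGraph V) {z : V} {C : Finset V}
    (hC : C ⊆ chil U dep par z) :
    ∑ c ∈ C, vol H (desc U dep par c) ≤
      vol H (ball (Bg dep par (C.biUnion (desc U dep par))) {z} R) := by
  rw [← vol_biUnion H C _ ((chil_disj z).subset (by exact_mod_cast hC))]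
  exact vol_mono' H (fun v hv => F.mem_Bg_ball hC hv)

/-- the path to the root -/
theorem Forest.path (F : Forest T A U R dep par) : ∀ n, ∀ v ∈ U, dep v = n →
    ∃ a ∈ A, ∃ w : T.Walk a v, w.IsPath ∧ w.length = n ∧
      (∀ u ∈ w.support, dep u ≤ n) ∧
      (∀ e ∈ w.edges, ∃ x, e = s(x, par x) ∧ dep x ≤ n ∧ dep x = dep (par x) + 1) := by
  intro n
  induction n with
  | zero =>
    intro v hv h0
    refine ⟨v, F.zero v hv h0, SimpleGraph.Walk.nil, by simp, by simp, ?_, ?_⟩
    · intro u hu
      simp at hu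
      rw [hu, h0]
    · intro e he
      simp at he
  | succ n ih =>
    intro v hv hn
    obtain ⟨h1, h2, h3⟩ := F.step v hv n hn
    obtain ⟨a, ha, w, hw1, hw2, hw3, hw4⟩ := ih (par v) h2 h3
    refine ⟨a, ha, w.concat h1.symm, ?_, ?_, ?_, ?_⟩
    · apply hw1.concat
      intro h
      have := hw3 v h
      omega
    · rw [SimpleGraph.Walk.length_concat, hw2]
    · intro u hu
      rw [SimpleGraph.Walk.support_concat] at hu
      simp only [List.concat_eq_append, List.mem_append, List.mem_singleton] at hu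
      rcases hu with hu | hu
      · have := hw3 u hu
        omega
      · rw [hu]; omega
    · intro e he
      rw [SimpleGraph.Walk.edges_concat] at he
      simp only [List.concat_eq_append, List.mem_append, List.mem_singleton] at he
      rcases he with he | he
      · obtain ⟨x, hx1, hx2, hx3⟩ := hw4 e he
        exact ⟨x, hx1, by omega, hx3⟩
      · exact ⟨v, by rw [he, Sym2.eq_swap], by omega, by omega⟩

end forest

/-- splitting of weights -/
theorem exists_split {ι : Type*} [DecidableEq ι] (C : Finset ι) (f : ι → ℕ) (m : ℕ) (hm : 1 ≤ m)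
    (h5 : 5 * m ≤ ∑ c ∈ C, f c) (h1 : ∀ c ∈ C, f c + m ≤ ∑ c ∈ C, f c) :
    ∃ C0 ⊆ C, m ≤ ∑ c ∈ C0, f c ∧ m ≤ ∑ c ∈ C \ C0, f c := by
  obtain ⟨C0, hC0, hmin⟩ := Finset.exists_min_image
    (C.powerset.filter (fun D => m ≤ ∑ c ∈ D, f c)) Finset.card
    ⟨C, by simp only [Finset.mem_filter, Finset.mem_powerset]; exact ⟨subset_rfl, by omega⟩⟩
  simp only [Finset.mem_filter, Finset.mem_powerset] at hC0 hmin
  obtain ⟨hsub, hge⟩ := hC0
  refine ⟨C0, hsub, hge, ?_⟩
  have hsum : ∑ c ∈ C \ C0, f c + ∑ c ∈ C0, f c = ∑ c ∈ C, f c := Finset.sum_sdiff hsub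
  have hne : C0.Nonempty := by
    rw [Finset.nonempty_iff_ne_empty]
    rintro rfl
    simp at hge
    omega
  obtain ⟨c, hc⟩ := hne
  have herase : ∑ x ∈ C0.erase c, f x + f c = ∑ x ∈ C0, f x := Finset.sum_erase_add C0 f hc
  by_cases hbig : m ≤ f c
  · have := hmin {c} ⟨by simpa using hsub hc, by simpa using hbig⟩
    rw [Finset.card_singleton] at this
    obtain ⟨c', hc'⟩ := Finset.card_eq_one.1 (le_antisymm this (Finset.card_pos.2 ⟨c, hc⟩))
    have : c' = c := by
      rw [hc'] at hc
      exact (Finset.mem_singleton.1 hc).symm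
    subst this
    rw [hc', Finset.sum_singleton] at hsum
    have h2 := h1 c' (hsub hc)
    rw [hc']
    omega
  · have hlt : ¬ m ≤ ∑ x ∈ C0.erase c, f x := by
      intro h
      have := hmin (C0.erase c) ⟨(Finset.erase_subset _ _).trans hsub, h⟩
      rw [Finset.card_erase_of_mem hc] at this
      have := Finset.card_pos.2 ⟨c, hc⟩
      omega
    omega

/-- (helper814: `hA : A.Nonempty` added; without it the statement is false for `A = ∅`, `M = 0`.)
Splitting lemma: a fat tree contains a vertex `z` with a path from `A` to `z` and two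
edge-disjoint fat pieces hanging at `z`. -/
theorem split (H T : SimpleGraph V) (hT : T ≤ H) (A : Finset V) (hA : A.Nonempty) (R M M' : ℕ)
    (hR : 1 ≤ R)
    (hM : 4 * (R + 1) * A.card * M' ≤ M) (hM' : 1 ≤ M') (h : M ≤ vol H (ball T A R)) :
    ∃ a ∈ A, ∃ z, ∃ w : T.Walk a z, w.IsPath ∧ w.length ≤ R ∧
      ∃ B0 B1 : SimpleGraph V, B0 ≤ T ∧ B1 ≤ T ∧ Disjoint B0 B1 ∧
        (∀ e ∈ w.edges, e ∉ B0.edgeSet ∧ e ∉ B1.edgeSet) ∧
        (∀ u v, B0.Adj u v → u ∈ ball B0 {z} R) ∧ (∀ u v, B1.Adj u v → u ∈ ball B1 {z} R) ∧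
        M' ≤ vol H (ball B0 {z} R) ∧ M' ≤ vol H (ball B1 {z} R) := by
  obtain ⟨dep, par, F⟩ := exists_forest T A R
  set U := ball T A R with hU
  -- a heavy root
  have hroot : ∃ a ∈ A, 4 * (R + 1) * M' ≤ vol H (desc U dep par a) := by
    by_contra hcon
    push Not at hcon
    have h1 : vol H U < ∑ a ∈ A, 4 * (R + 1) * M' := by
      rw [F.vol_U H]
      exact Finset.sum_lt_sum_of_nonempty hA hcon
    rw [Finset.sum_const, smul_eq_mul] at h1
    have h2 : A.card * (4 * (R + 1) * M') = 4 * (R + 1) * A.card * M' := by ring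
    omega
  obtain ⟨a, ha, hwa⟩ := hroot
  have haU := F.root a ha
  -- the deepest good vertex
  obtain ⟨z, hz, hmax⟩ := Finset.exists_max_image
    (U.filter (fun z => 4 * (R + 1) * M' ≤ vol H (desc U dep par z) + dep z * (2 * M'))) dep
    ⟨a, by
      rw [Finset.mem_filter]
      exact ⟨haU.1, by omega⟩⟩
  rw [Finset.mem_filter] at hz
  obtain ⟨hzU, hzw⟩ := hz
  have hzR := F.le z hzU
  have hz6 : 6 * M' ≤ vol H (desc U dep par z) := by
    have h1 : dep z * (2 * M') ≤ R * (2 * M') := Nat.mul_le_mul_right _ hzR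
    nlinarith
  have hchild : ∀ c ∈ chil U dep par z,
      vol H (desc U dep par c) + 2 * M' < vol H (desc U dep par z) := by
    intro c hc
    have hc' := mem_chil.1 hc
    by_contra hcon
    push Not at hcon
    have := hmax c (by
      rw [Finset.mem_filter]
      refine ⟨hc'.1, ?_⟩
      rw [hc'.2.1]
      nlinarith)
    omega
  have hvol := F.vol_desc H hzU
  obtain ⟨a', ha', w, hw1, hw2, hw3, hw4⟩ := F.path (dep z) z hzU rfl
  refine ⟨a', ha', z, w, hw1, by omega, ?_⟩
  by_cases hdeg : M' ≤ vol H {z}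
  · refine ⟨⊥, ⊥, bot_le, bot_le, disjoint_bot_left, ?_, ?_, ?_, ?_, ?_⟩
    · intro e _
      simp
    · intro u v h; exact absurd h (by simp)
    · intro u v h; exact absurd h (by simp)
    · exact le_trans hdeg (vol_mono' H (by
        rw [Finset.singleton_subset_iff]; exact self_mem_ball _ _ _))
    · exact le_trans hdeg (vol_mono' H (by
        rw [Finset.singleton_subset_iff]; exact self_mem_ball _ _ _))
  · obtain ⟨C0, hC0, hs0, hs1⟩ := exists_split (chil U dep par z)
      (fun c => vol H (desc U dep par c)) M' hM' (by omega) (by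
        intro c hc
        have := hchild c hc
        omega)
    have hC1 : chil U dep par z \ C0 ⊆ chil U dep par z := Finset.sdiff_subset
    have hUsub : ∀ C ⊆ chil U dep par z, C.biUnion (desc U dep par) ⊆ U := by
      intro C _ v hv
      rw [Finset.mem_biUnion] at hv
      obtain ⟨c, _, hv⟩ := hv
      exact (mem_desc.1 hv).1
    have hdep : ∀ C ⊆ chil U dep par z, ∀ v ∈ C.biUnion (desc U dep par), dep z < dep v := by
      intro C hC v hv
      rw [Finset.mem_biUnion] at hv
      obtain ⟨c, hc, hv⟩ := hv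
      have := mem_chil.1 (hC hc)
      have := mem_desc.1 hv
      omega
    have hedge : ∀ C ⊆ chil U dep par z, ∀ e ∈ w.edges,
        e ∉ (Bg dep par (C.biUnion (desc U dep par))).edgeSet := by
      intro C hC e he hmem
      obtain ⟨x, rfl, hx2, hx3⟩ := hw4 e he
      rw [SimpleGraph.mem_edgeSet, Bg_adj] at hmem
      rcases hmem with hmem | hmem
      · have := hdep C hC _ hmem.1
        omega
      · have := hdep C hC _ hmem.1
        omega
    refine ⟨Bg dep par (C0.biUnion (desc U dep par)),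
      Bg dep par ((chil U dep par z \ C0).biUnion (desc U dep par)),
      F.Bg_le (hUsub _ hC0), F.Bg_le (hUsub _ hC1), Bg_disj ?_,
      fun e he => ⟨hedge _ hC0 e he, hedge _ hC1 e he⟩,
      fun u v huv => F.Bg_end hC0 huv, fun u v huv => F.Bg_end hC1 huv,
      le_trans hs0 (F.Bg_vol H hC0), le_trans hs1 (F.Bg_vol H hC1)⟩
    rw [Finset.disjoint_biUnion_left]
    intro c hc
    rw [Finset.disjoint_biUnion_right]
    intro c' hc'
    have hne : c ≠ c' := by
      rintro rfl
      exact (Finset.mem_sdiff.1 hc').2 hc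
    exact chil_disj z (Finset.mem_coe.2 (hC0 hc)) (Finset.mem_coe.2 (hC1 hc')) hne

end M4

alias split := M4.split

end ImmLog
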