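import Pool.Agent.ImmLog.Defs2
import Pool.Agent.ImmLog.M1
import Pool.Agent.ImmLog.M2
import Pool.Agent.ImmLog.M3
import Pool.Agent.ImmLog.M4

set_option autoImplicit false

open Classical Finset

namespace ImmLog

namespace M5

variable {V : Type*} [Fintype V]







theorem fs_ball_mem {T : SimpleGraph V} {A : Finset V} {R : ℕ} {v : V} :
    v ∈ ball T A R ↔ ∃ a ∈ A, ∃ w : T.Walk a v, w.length ≤ R := by
  simp [ball]

theorem fs_vol_mono (H : SimpleGraph V) {S S' : Finset V} (h : S ⊆ S') : vol H S ≤ vol H S' := by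
  unfold vol
  apply Finset.card_le_card
  intro e he
  simp only [Finset.mem_filter, Finset.mem_univ, true_and] at he ⊢
  exact ⟨h he.1, he.2⟩

/-- length bound for the augmented paths -/
theorem fs_len (G : SimpleGraph V) {p : ℕ} (R r : ℕ) (a z : Fin p → V)
    (w : ∀ i, G.Walk (a i) (z i)) (hlen : ∀ i, (w i).length ≤ R)
    {b u : V} (π : G.Walk b u) (hπ : π.length ≤ r) {x y : V} (q : G.Walk x y) (hq : q.IsPath)
    (he : ∀ e ∈ q.edges, (∃ j, e ∈ (w j).edges) ∨ e ∈ π.edges) : q.length ≤ p * R + r := by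
  have h1 : q.edges.toFinset ⊆ ((univ : Finset (Fin p)).biUnion (fun j => (w j).edges.toFinset)) ∪ π.edges.toFinset := by
    intro e h
    rw [List.mem_toFinset] at h
    rw [Finset.mem_union, Finset.mem_biUnion, List.mem_toFinset]
    rcases he e h with ⟨j, hj⟩ | h'
    · exact Or.inl ⟨j, Finset.mem_univ _, List.mem_toFinset.2 hj⟩
    · exact Or.inr h'
  have h2 := Finset.card_le_card h1
  rw [List.toFinset_card_of_nodup hq.isTrail.edges_nodup, SimpleGraph.Walk.length_edges] at h2
  refine h2.trans ((Finset.card_union_le _ _).trans ?_)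
  have h3 : ((univ : Finset (Fin p)).biUnion (fun j => (w j).edges.toFinset)).card ≤ p * R := by
    refine Finset.card_biUnion_le.trans ?_
    calc ∑ j, (w j).edges.toFinset.card ≤ ∑ _j : Fin p, R := by
          apply Finset.sum_le_sum
          intro j _
          refine (List.toFinset_card_le _).trans ?_
          rw [SimpleGraph.Walk.length_edges]
          exact hlen j
      _ = p * R := by simp
  have h4 : π.edges.toFinset.card ≤ r := by
    refine (List.toFinset_card_le _).trans ?_
    rw [SimpleGraph.Walk.length_edges]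
    exact hπ
  omega

/-- assembling the new trees -/
theorem fs_assemble (H G : SimpleGraph V) (A : Finset V) {p : ℕ} (R r M : ℕ) (a z : Fin p → V)
    (w : ∀ i, G.Walk (a i) (z i)) (hlen : ∀ i, (w i).length ≤ R)
    {b u : V} (π : G.Walk b u) (hπ : π.length ≤ r)
    (z' a' : Fin (p + 1) → V) (w' : ∀ i, G.Walk (a' i) (z' i)) (hw' : ∀ i, (w' i).IsPath)
    (ha' : ∀ i, a' i ∈ A) (hd' : ∀ i j, i ≠ j → (w' i).edges.Disjoint (w' j).edges)
    (he' : ∀ i, ∀ e ∈ (w' i).edges, (∃ j, e ∈ (w j).edges) ∨ e ∈ π.edges)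
    (D : Fin (p + 1) → SimpleGraph V) (hD : ∀ i, D i ≤ G) (hDd : ∀ i j, i ≠ j → Disjoint (D i) (D j))
    (hDe : ∀ i x y, (D i).Adj x y → (∀ j, s(x, y) ∉ (w j).edges) ∧ s(x, y) ∉ π.edges)
    (hvol : ∀ i, ∃ (x : V) (L1 L2 : ℕ), (∃ q : (D i).Walk (z' i) x, q.length ≤ L1) ∧
      L1 + L2 ≤ 2 * R + r ∧ M ≤ vol H (ball (D i) {x} L2)) :
    ∃ T' : Fin (p + 1) → SimpleGraph V, (∀ i, T' i ≤ G) ∧
      (∀ i j, i ≠ j → Disjoint (T' i) (T' j)) ∧
      ∀ i, M ≤ vol H (ball (T' i) A ((p + 2) * R + 2 * r)) := by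
  let P : Fin (p + 1) → SimpleGraph V := fun i => SimpleGraph.fromEdgeSet {e | e ∈ (w' i).edges}
  have hP : ∀ i x y, (P i).Adj x y ↔ s(x, y) ∈ (w' i).edges ∧ x ≠ y := by
    intro i x y
    simp [P, SimpleGraph.fromEdgeSet_adj]
  have hPG : ∀ i, P i ≤ G := by
    intro i x y h
    have := ((hP i x y).1 h).1
    exact (SimpleGraph.mem_edgeSet G).1 ((w' i).edges_subset_edgeSet this)
  refine ⟨fun i => P i ⊔ D i, fun i => sup_le (hPG i) (hD i), ?_, ?_⟩
  · intro i j hij
    rw [SimpleGraph.disjoint_left]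
    intro x y h1 h2
    rw [SimpleGraph.sup_adj] at h1 h2
    rcases h1 with h1 | h1 <;> rcases h2 with h2 | h2
    · exact hd' i j hij ((hP i x y).1 h1).1 ((hP j x y).1 h2).1
    · obtain ⟨e1, e2⟩ := hDe j x y h2
      rcases he' i _ ((hP i x y).1 h1).1 with ⟨k, hk⟩ | hk
      · exact e1 k hk
      · exact e2 hk
    · obtain ⟨e1, e2⟩ := hDe i x y h1
      rcases he' j _ ((hP j x y).1 h2).1 with ⟨k, hk⟩ | hk
      · exact e1 k hk
      · exact e2 hk
    · exact (SimpleGraph.disjoint_left.1 (hDd i j hij)) x y h1 h2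
  · intro i
    obtain ⟨x, L1, L2, ⟨q, hq⟩, hL, hv⟩ := hvol i
    refine hv.trans (fs_vol_mono H ?_)
    intro v hv
    rw [fs_ball_mem] at hv ⊢
    obtain ⟨x', hx', q2, hq2⟩ := hv
    rw [Finset.mem_singleton] at hx'
    subst hx'
    have hT : ∀ e ∈ (w' i).edges, e ∈ (P i ⊔ D i).edgeSet := by
      intro e he
      induction e with
      | _ s t =>
        rw [SimpleGraph.mem_edgeSet, SimpleGraph.sup_adj]
        left
        rw [hP]
        refine ⟨he, ?_⟩
        have := (w' i).edges_subset_edgeSet he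
        rw [SimpleGraph.mem_edgeSet] at this
        exact this.ne
    refine ⟨a' i, ha' i, ((((w' i).transfer (P i ⊔ D i) hT).append (q.mapLe le_sup_right)).append
      (q2.mapLe le_sup_right)), ?_⟩
    rw [SimpleGraph.Walk.length_append, SimpleGraph.Walk.length_append, SimpleGraph.Walk.length_transfer,
      SimpleGraph.Walk.length_mapLe, SimpleGraph.Walk.length_mapLe]
    have h1 := fs_len G R r a z w hlen π hπ (w' i) (hw' i) (he' i)
    have h2 : (p + 2) * R + 2 * r = p * R + r + (2 * R + r) := by ring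
    omega

theorem fs_grow (H G : SimpleGraph V) (hG : G ≤ H) (A : Finset V)
    (q r B p : ℕ) (hp : p < q) (hgrow : Grow H G A q r B)
    (a z : Fin p → V) (w : ∀ i, G.Walk (a i) (z i)) (hw : ∀ i, (w i).IsPath) (ha : ∀ i, a i ∈ A)
    (hd : ∀ i j, i ≠ j → (w i).edges.Disjoint (w j).edges)
    (S : ℕ → Finset V) (hS0 : S 0 = A)
    (hS : ∀ k x, x ∈ S (k+1) ↔ x ∈ S k ∨ ∃ y ∈ S k, ∃ h : G.Adj y x, ∀ i, (⟨(y, x), h⟩ : G.Dart) ∉ (w i).darts) :
    B ≤ vol H (S r) := by
  have hmono : ∀ k, S k ⊆ S (k + 1) := fun k x hx => (hS k x).2 (Or.inl hx)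
  have hA : ∀ k, A ⊆ S k := by
    intro k
    induction k with
    | zero => rw [hS0]
    | succ k ih => exact ih.trans (hmono k)
  have hball : ∀ k, S k ⊆ ball G A k := by
    intro k
    induction k with
    | zero =>
      intro x hx
      rw [hS0] at hx
      rw [fs_ball_mem]
      exact ⟨x, hx, SimpleGraph.Walk.nil, le_rfl⟩
    | succ k ih =>
      intro x hx
      rw [fs_ball_mem]
      rcases (hS k x).1 hx with h | ⟨y, hy, h, _⟩
      · obtain ⟨b, hb, v, hv⟩ := fs_ball_mem.1 (ih h)
        exact ⟨b, hb, v, hv.trans (Nat.le_succ k)⟩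
      · obtain ⟨b, hb, v, hv⟩ := fs_ball_mem.1 (ih hy)
        refine ⟨b, hb, v.concat h, ?_⟩
        rw [SimpleGraph.Walk.length_concat]
        omega
  apply hgrow p hp S hS0 hmono hball
  intro k
  have h1 := res_out G A (S k) (hA k) a z w hw ha hd
  set Rs := ((univ : Finset (V × V)).filter (fun e => e.1 ∈ S k ∧ e.2 ∉ S k ∧
      ∃ h : G.Adj e.1 e.2, ∀ i, (⟨e, h⟩ : G.Dart) ∉ (w i).darts)) with hRs
  have h2 : Rs.card + vol H (S k) ≤ vol H (S (k + 1)) := by
    have e1 : (Rs.image Prod.swap).card = Rs.card :=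
      Finset.card_image_of_injective _ Prod.swap_injective
    rw [← e1]
    unfold vol
    rw [← Finset.card_union_of_disjoint]
    · apply Finset.card_le_card
      intro e he
      rw [Finset.mem_union] at he
      rw [Finset.mem_filter]
      refine ⟨Finset.mem_univ _, ?_⟩
      rcases he with he | he
      · obtain ⟨f, hf, rfl⟩ := Finset.mem_image.1 he
        rw [hRs, Finset.mem_filter] at hf
        obtain ⟨_, f1, f2, h, f3⟩ := hf
        refine ⟨(hS k _).2 (Or.inr ⟨f.1, f1, h, ?_⟩), (hG h).symm⟩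
        intro i
        exact f3 i
      · rw [Finset.mem_filter] at he
        exact ⟨hmono k he.2.1, he.2.2⟩
    · rw [Finset.disjoint_left]
      intro e he he2
      obtain ⟨f, hf, rfl⟩ := Finset.mem_image.1 he
      rw [hRs, Finset.mem_filter] at hf
      rw [Finset.mem_filter] at he2
      exact hf.2.2.1 he2.2.1
  omega

/-- TARGET.  One step of the fat tree lemma: from `p` fat trees to `p+1`. -/
theorem fat_step (H G : SimpleGraph V) (hG : G ≤ H) (A : Finset V) (hA : A.Nonempty)
    (q r p R M B : ℕ) (hp : p < q) (hr : 1 ≤ r) (hR : 1 ≤ R) (hM : 1 ≤ M)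
    (hgrow : Grow H G A q r B) (hB : (A.card + p * (R + 1)) * M ≤ B)
    (T : Fin p → SimpleGraph V) (hT : ∀ i, T i ≤ G)
    (hd : ∀ i j, i ≠ j → Disjoint (T i) (T j))
    (hfat : ∀ i, 4 * (R + 1) * A.card * M ≤ vol H (ball (T i) A R)) :
    ∃ T' : Fin (p + 1) → SimpleGraph V, (∀ i, T' i ≤ G) ∧
      (∀ i j, i ≠ j → Disjoint (T' i) (T' j)) ∧
      ∀ i, M ≤ vol H (ball (T' i) A ((p + 2) * R + 2 * r)) := by
  have hsp := fun i => split H (T i) ((hT i).trans hG) A hA R (4 * (R + 1) * A.card * M) M hR le_rfl hM (hfat i)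
  choose a ha z wT hwT hlenT B0 B1 hB0 hB1 hBd hBe hs0 hs1 hv0 hv1 using hsp
  -- unified pieces
  let Bc : Fin p → Bool → SimpleGraph V := fun i c => if c then B1 i else B0 i
  have hBcT : ∀ i c, Bc i c ≤ T i := by
    intro i c
    cases c
    · exact hB0 i
    · exact hB1 i
  have hBcd : ∀ i c, Disjoint (Bc i c) (Bc i (!c)) := by
    intro i c
    cases c
    · exact hBd i
    · exact (hBd i).symm
  have hBce : ∀ i c, ∀ e ∈ (wT i).edges, e ∉ (Bc i c).edgeSet := by
    intro i c e he
    cases c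
    · exact (hBe i e he).1
    · exact (hBe i e he).2
  have hBcs : ∀ i c u v, (Bc i c).Adj u v → u ∈ ball (Bc i c) {z i} R := by
    intro i c
    cases c
    · exact hs0 i
    · exact hs1 i
  have hBcv : ∀ i c, M ≤ vol H (ball (Bc i c) {z i} R) := by
    intro i c
    cases c
    · exact hv0 i
    · exact hv1 i
  -- the paths in G
  let w : ∀ i, G.Walk (a i) (z i) := fun i => (wT i).mapLe (hT i)
  have hwe : ∀ i, (w i).edges = (wT i).edges := fun i => SimpleGraph.Walk.edges_mapLe_eq_edges _ _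
  have hlen : ∀ i, (w i).length ≤ R := by
    intro i
    rw [show (w i).length = (wT i).length from SimpleGraph.Walk.length_mapLe _ _]
    exact hlenT i
  have hw : ∀ i, (w i).IsPath := fun i => SimpleGraph.Walk.IsPath.mapLe _ (hwT i)
  have hweT : ∀ i, ∀ x y, s(x, y) ∈ (w i).edges → (T i).Adj x y := by
    intro i x y he
    rw [hwe] at he
    exact (SimpleGraph.mem_edgeSet _).1 ((wT i).edges_subset_edgeSet he)
  have hdw : ∀ i j, i ≠ j → (w i).edges.Disjoint (w j).edges := by
    intro i j hij e h1 h2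
    induction e with
    | _ x y => exact (SimpleGraph.disjoint_left.1 (hd i j hij)) x y (hweT i x y h1) (hweT j x y h2)
  -- pieces avoid the edges of the paths
  have hBw : ∀ i c j x y, (Bc i c).Adj x y → s(x, y) ∉ (w j).edges := by
    intro i c j x y h1 h2
    by_cases hij : i = j
    · subst hij
      rw [hwe] at h2
      exact hBce i c _ h2 h1
    · exact (SimpleGraph.disjoint_left.1 (hd i j hij)) x y (hBcT i c h1) (hweT j x y h2)
  set Tt : Finset V := univ.biUnion (fun i : Fin p => ball (B0 i) {z i} R ∪ ball (B1 i) {z i} R) with hTt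
  have hTt1 : ∀ y, y ∈ Tt ↔ ∃ i c, y ∈ ball (Bc i c) {z i} R := by
    intro y
    rw [hTt, Finset.mem_biUnion]
    constructor
    · rintro ⟨i, _, h⟩
      rw [Finset.mem_union] at h
      rcases h with h | h
      · exact ⟨i, false, h⟩
      · exact ⟨i, true, h⟩
    · rintro ⟨i, c, h⟩
      refine ⟨i, Finset.mem_univ _, ?_⟩
      rw [Finset.mem_union]
      cases c
      · exact Or.inl h
      · exact Or.inr h
  have hTt2 : ∀ i c x y, (Bc i c).Adj x y → x ∈ Tt ∧ y ∈ Tt := by
    intro i c x y h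
    exact ⟨(hTt1 x).2 ⟨i, c, hBcs i c x y h⟩, (hTt1 y).2 ⟨i, c, hBcs i c y x h.symm⟩⟩
  set W : Finset V := univ.biUnion (fun i : Fin p => (w i).support.toFinset) with hW
  have hWc : W.card ≤ p * (R + 1) := by
    refine Finset.card_biUnion_le.trans ?_
    calc ∑ j, (w j).support.toFinset.card ≤ ∑ _j : Fin p, (R + 1) := by
          apply Finset.sum_le_sum
          intro j _
          refine (List.toFinset_card_le _).trans ?_
          rw [SimpleGraph.Walk.length_support]
          exact Nat.succ_le_succ (hlen j)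
      _ = p * (R + 1) := by simp
  let Res : V → V → Prop := fun x y => ∃ h : G.Adj x y, ∀ i, (⟨(x, y), h⟩ : G.Dart) ∉ (w i).darts
  let Tr : SimpleGraph V := SimpleGraph.fromEdgeSet {e | ∃ i, e ∈ (w i).edges}
  have hTr : ∀ x y, Tr.Adj x y → x ∈ W ∧ y ∈ W := by
    intro x y h
    rw [SimpleGraph.fromEdgeSet_adj] at h
    obtain ⟨⟨i, hi⟩, _⟩ := h
    rw [hW, Finset.mem_biUnion, Finset.mem_biUnion]
    exact ⟨⟨i, Finset.mem_univ _, List.mem_toFinset.2 ((w i).fst_mem_support_of_mem_edges hi)⟩,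
      ⟨i, Finset.mem_univ _, List.mem_toFinset.2 ((w i).snd_mem_support_of_mem_edges hi)⟩⟩
  have hbfs := bfs_dichotomy H G Res (fun x y h => h.1) A Tt W hA Tr hTr r B
    (fun S h0 hS => fs_grow H G hG A q r B p hp hgrow a z w hw ha hdw S h0 hS)
  have hpath_ends : ∀ {b u : V} (π : G.Walk b u) x y, s(x, y) ∈ π.edges → x ∈ π.support ∧ y ∈ π.support :=
    fun π x y h => ⟨π.fst_mem_support_of_mem_edges h, π.snd_mem_support_of_mem_edges h⟩
  rcases hbfs with ⟨a0, ha0, y, hy, π, hπ, hπl, hπr, hπT⟩ | ⟨a0, ha0, u, hu, π, hπ, hπl, hπr, hπT, T0, hT0G, hT0d, hT0π, hT0T, hT0v⟩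
  · -- case 1
    obtain ⟨i0, c0, hy0⟩ := (hTt1 y).1 hy
    obtain ⟨z0, hz0, qy, hqy⟩ := fs_ball_mem.1 hy0
    rw [Finset.mem_singleton] at hz0
    subst hz0
    obtain ⟨a', w', hw', ha', hd', he'⟩ := aug G A a z w hw ha hdw ha0 π hπ
      (fun d hd i => by
        obtain ⟨h, h'⟩ := hπr d hd
        exact h' i) (Fin.snoc (α := fun _ => V) z y) (fun i => by simp) (by simp)
    let D : Fin (p + 1) → SimpleGraph V :=
      Fin.snoc (α := fun _ => SimpleGraph V) (fun i => Bc i (if i = i0 then !c0 else false)) (Bc i0 c0)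
    have hD1 : ∀ i : Fin p, D i.castSucc = Bc i (if i = i0 then !c0 else false) := fun i => by
      simp [D]
    have hD2 : D (Fin.last p) = Bc i0 c0 := by simp [D]
    have hDB : ∀ i, ∃ j c, D i = Bc j c := by
      intro i
      refine Fin.lastCases ?_ (fun i => ?_) i
      · exact ⟨i0, c0, hD2⟩
      · exact ⟨i, _, hD1 i⟩
    have hDlast : ∀ i : Fin p, Disjoint (D i.castSucc) (D (Fin.last p)) := by
      intro i
      rw [hD1, hD2]
      by_cases h : i = i0
      · subst h
        rw [if_pos rfl]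
        exact (hBcd i c0).symm
      · exact Disjoint.mono (hBcT _ _) (hBcT _ _) (hd i i0 h)
    refine fs_assemble H G A R r M a z w hlen π hπl _ a' w' hw' ha' hd' he' D ?_ ?_ ?_ ?_
    · intro i
      obtain ⟨j, c, h⟩ := hDB i
      rw [h]
      exact (hBcT j c).trans (hT j)
    · intro i j
      refine Fin.lastCases ?_ (fun i => ?_) i
      · refine Fin.lastCases ?_ (fun j => ?_) j
        · intro h; exact absurd rfl h
        · intro _; exact (hDlast j).symm
      · refine Fin.lastCases ?_ (fun j => ?_) j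
        · intro _; exact hDlast i
        · intro h
          rw [hD1, hD1]
          refine Disjoint.mono (hBcT _ _) (hBcT _ _) (hd i j ?_)
          rintro rfl
          exact h rfl
    · intro i x y' h
      obtain ⟨j, c, hj⟩ := hDB i
      rw [hj] at h
      refine ⟨fun k => hBw j c k x y' h, ?_⟩
      intro he
      obtain ⟨s1, s2⟩ := hpath_ends π x y' he
      obtain ⟨t1, t2⟩ := hTt2 j c x y' h
      have e1 := hπT x s1 t1
      have e2 := hπT y' s2 t2
      exact h.ne (e1.trans e2.symm)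
    · intro i
      refine Fin.lastCases ?_ (fun i => ?_) i
      · refine ⟨z i0, R, R, ?_, by omega, ?_⟩
        · have e1 : (Fin.snoc (α := fun _ => V) z y) (Fin.last p) = y := by simp
          rw [e1, hD2]
          refine ⟨qy.reverse, ?_⟩
          rw [SimpleGraph.Walk.length_reverse]
          exact hqy
        · rw [hD2]
          exact hBcv i0 c0
      · refine ⟨_, 0, R, ⟨SimpleGraph.Walk.nil, le_rfl⟩, by omega, ?_⟩
        have e1 : (Fin.snoc (α := fun _ => V) z y) (i.castSucc) = z i := by simp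
        rw [e1, hD1]
        exact hBcv i _
  · -- case 2
    obtain ⟨a', w', hw', ha', hd', he'⟩ := aug G A a z w hw ha hdw ha0 π hπ
      (fun d hd i => by
        obtain ⟨h, h'⟩ := hπr d hd
        exact h' i) (Fin.snoc (α := fun _ => V) z u) (fun i => by simp) (by simp)
    let D : Fin (p + 1) → SimpleGraph V :=
      Fin.snoc (α := fun _ => SimpleGraph V) (fun i => Bc i false) T0
    have hD1 : ∀ i : Fin p, D i.castSucc = Bc i false := fun i => by
      simp [D]
    have hD2 : D (Fin.last p) = T0 := by simp [D]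
    have hDlast : ∀ i : Fin p, Disjoint (D i.castSucc) (D (Fin.last p)) := by
      intro i
      rw [hD1, hD2, SimpleGraph.disjoint_left]
      intro x y h1 h2
      exact hT0T x y h2 (hTt2 i false x y h1).1
    refine fs_assemble H G A R r M a z w hlen π hπl _ a' w' hw' ha' hd' he' D ?_ ?_ ?_ ?_
    · intro i
      refine Fin.lastCases ?_ (fun i => ?_) i
      · rw [hD2]; exact hT0G
      · rw [hD1]
        exact (hBcT i false).trans (hT i)
    · intro i j
      refine Fin.lastCases ?_ (fun i => ?_) i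
      · refine Fin.lastCases ?_ (fun j => ?_) j
        · intro h; exact absurd rfl h
        · intro _; exact (hDlast j).symm
      · refine Fin.lastCases ?_ (fun j => ?_) j
        · intro _; exact hDlast i
        · intro h
          rw [hD1, hD1]
          refine Disjoint.mono (hBcT _ _) (hBcT _ _) (hd i j ?_)
          rintro rfl
          exact h rfl
    · intro i x y
      refine Fin.lastCases ?_ (fun i => ?_) i
      · rw [hD2]
        intro h
        refine ⟨fun j hj => ?_, fun hj => hT0π _ hj ((SimpleGraph.mem_edgeSet T0).2 h)⟩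
        refine (SimpleGraph.disjoint_left.1 hT0d) x y h ?_
        rw [SimpleGraph.fromEdgeSet_adj]
        exact ⟨⟨j, hj⟩, h.ne⟩
      · rw [hD1]
        intro h
        refine ⟨fun k => hBw i false k x y h, ?_⟩
        intro he
        exact hπT x (hpath_ends π x y he).1 (hTt2 i false x y h).1
    · intro i
      refine Fin.lastCases ?_ (fun i => ?_) i
      · refine ⟨_, 0, r, ⟨SimpleGraph.Walk.nil, le_rfl⟩, by omega, ?_⟩
        have e1 : (Fin.snoc (α := fun _ => V) z u) (Fin.last p) = u := by simp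
        rw [e1, hD2]
        have h1 : (A ∪ W).card ≤ A.card + p * (R + 1) := (Finset.card_union_le _ _).trans (by omega)
        have h2 : (A.card + p * (R + 1)) * M ≤ (A.card + p * (R + 1)) * vol H (ball T0 {u} r) :=
          hB.trans (hT0v.trans (Nat.mul_le_mul_right _ h1))
        exact Nat.le_of_mul_le_mul_left h2 (by have := hA.card_pos; omega)
      · refine ⟨_, 0, R, ⟨SimpleGraph.Walk.nil, le_rfl⟩, by omega, ?_⟩
        have e1 : (Fin.snoc (α := fun _ => V) z u) (i.castSucc) = z i := by simp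
        rw [e1, hD1]
        exact hBcv i _

end M5

alias fat_step := M5.fat_step

end ImmLog
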