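import Pool.Agent.ImmLog.Defs2
import Pool.Agent.ImmLog.M5

set_option autoImplicit false

open Classical Finset

namespace ImmLog

namespace M5b

variable {V : Type*} [Fintype V]





theorem hW_ball_mono (T : SimpleGraph V) (A : Finset V) {R R' : ℕ} (h : R ≤ R') :
    ball T A R ⊆ ball T A R' := by
  intro v hv
  unfold ball at *
  rw [mem_filter] at *
  obtain ⟨_, a, ha, w, hw⟩ := hv
  exact ⟨mem_univ _, a, ha, w, hw.trans h⟩

theorem hW_vol_mono (G : SimpleGraph V) {S S' : Finset V} (h : S ⊆ S') : vol G S ≤ vol G S' := by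
  unfold vol
  apply card_le_card
  intro e he
  rw [mem_filter] at *
  exact ⟨mem_univ _, h he.2.1, he.2.2⟩

/-- fat tree lemma -/
theorem fat_trees (H G : SimpleGraph V) (hG : G ≤ H) (A : Finset V) (hA : A.Nonempty)
    (q r M K : ℕ) (hK : A.card ≤ K) (hr : 1 ≤ r) (hM : 1 ≤ M)
    (hgrow : Grow H G A q r (M * (4 * (2 * r * (q + 3) ^ q + 1) * (K + q)) ^ q)) :
    ∃ T : Fin q → SimpleGraph V, (∀ i, T i ≤ G) ∧ (∀ i j, i ≠ j → Disjoint (T i) (T j)) ∧
      ∀ i, M ≤ vol H (ball (T i) A (2 * r * (q + 3) ^ q)) := by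
  obtain ⟨D, hD⟩ : ∃ D, D = 4 * (2 * r * (q + 3) ^ q + 1) * (K + q) := ⟨_, rfl⟩
  rw [← hD] at hgrow
  have hA1 : 1 ≤ A.card := hA.card_pos
  have hRq : ∀ p, p ≤ q → 2 * r * (q + 3) ^ p ≤ 2 * r * (q + 3) ^ q := fun p hp =>
    Nat.mul_le_mul_left _ (Nat.pow_le_pow_right (by omega) hp)
  have hD1 : 1 ≤ D := by
    rw [hD]
    have : 1 ≤ K + q := by omega
    exact Nat.mul_pos (Nat.mul_pos (by norm_num) (Nat.succ_pos _)) this
  have main : ∀ p, p ≤ q → ∃ T : Fin p → SimpleGraph V, (∀ i, T i ≤ G) ∧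
      (∀ i j, i ≠ j → Disjoint (T i) (T j)) ∧
      ∀ i, M * D ^ (q - p) ≤ vol H (ball (T i) A (2 * r * (q + 3) ^ p)) := by
    intro p
    induction p with
    | zero =>
      intro _
      exact ⟨fun i => i.elim0, fun i => i.elim0, fun i => i.elim0, fun i => i.elim0⟩
    | succ p ih =>
      intro hp
      obtain ⟨T, hT, hd, hf⟩ := ih (by omega)
      obtain ⟨R, hR⟩ : ∃ R, R = 2 * r * (q + 3) ^ p := ⟨_, rfl⟩
      rw [← hR] at hf
      have hpow1 : 1 ≤ (q + 3) ^ p := Nat.one_le_pow _ _ (by omega)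
      have hR2 : 2 * r ≤ R := by
        rw [hR]; exact Nat.le_mul_of_pos_right _ hpow1
      have hRle : R ≤ 2 * r * (q + 3) ^ q := by rw [hR]; exact hRq p (by omega)
      have hpq : D ^ (q - p) = D * D ^ (q - (p + 1)) := by
        rw [← pow_succ']; congr 1; omega
      have hM' : 1 ≤ M * D ^ (q - (p + 1)) := Nat.mul_pos hM (Nat.pow_pos hD1)
      have hDM : D * (M * D ^ (q - (p + 1))) = M * D ^ (q - p) := by rw [hpq]; ring
      have h1 : (A.card + p * (R + 1)) * (M * D ^ (q - (p + 1))) ≤ M * D ^ q := by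
        have h2 : A.card + p * (R + 1) ≤ D := by
          have e1 : A.card ≤ K * (R + 1) := hK.trans (Nat.le_mul_of_pos_right _ (Nat.succ_pos _))
          have e2 : p * (R + 1) ≤ q * (R + 1) := Nat.mul_le_mul_right _ (by omega)
          have e3 : (K + q) * (R + 1) ≤ (K + q) * (2 * r * (q + 3) ^ q + 1) :=
            Nat.mul_le_mul_left _ (by omega)
          have e4 : (K + q) * (2 * r * (q + 3) ^ q + 1) ≤ D := by
            rw [hD]
            calc (K + q) * (2 * r * (q + 3) ^ q + 1)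
                ≤ 4 * ((K + q) * (2 * r * (q + 3) ^ q + 1)) := by omega
              _ = 4 * (2 * r * (q + 3) ^ q + 1) * (K + q) := by ring
          have e5 : K * (R + 1) + q * (R + 1) = (K + q) * (R + 1) := by ring
          omega
        calc (A.card + p * (R + 1)) * (M * D ^ (q - (p + 1)))
            ≤ D * (M * D ^ (q - (p + 1))) := Nat.mul_le_mul_right _ h2
          _ = M * D ^ (q - p) := hDM
          _ ≤ M * D ^ q := Nat.mul_le_mul_left _ (Nat.pow_le_pow_right hD1 (by omega))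
      have h3 : ∀ i, 4 * (R + 1) * A.card * (M * D ^ (q - (p + 1))) ≤ vol H (ball (T i) A R) := by
        intro i
        refine le_trans ?_ (hf i)
        have h4 : 4 * (R + 1) * A.card ≤ D := by
          rw [hD]
          exact Nat.mul_le_mul (Nat.mul_le_mul_left _ (by omega)) (by omega)
        calc _ ≤ D * (M * D ^ (q - (p + 1))) := Nat.mul_le_mul_right _ h4
          _ = _ := hDM
      obtain ⟨T', hT', hd', hf'⟩ := fat_step H G hG A hA q r p R (M * D ^ (q - (p + 1)))
        (M * D ^ q) (by omega) hr (by omega) hM' hgrow h1 T hT hd h3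
      refine ⟨T', hT', hd', fun i => (hf' i).trans (hW_vol_mono _ (hW_ball_mono _ _ ?_))⟩
      have h5 : 2 * r * (q + 3) ^ (p + 1) = (q + 3) * R := by rw [hR, pow_succ]; ring
      rw [h5]
      have h6 : (p + 2) * R ≤ (q + 1) * R := Nat.mul_le_mul_right _ (by omega)
      have h7 : (q + 3) * R = (q + 1) * R + 2 * R := by ring
      omega
  obtain ⟨T, h1, h2, h3⟩ := main q le_rfl
  refine ⟨T, h1, h2, fun i => ?_⟩
  have := h3 i
  simpa using this

end M5b

alias fat_trees := M5b.fat_trees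

end ImmLog
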