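import Pool.Agent.ImmLog.Defs2

set_option autoImplicit false

open Classical Finset

namespace ImmLog

namespace M6

variable {V : Type*} [Fintype V]



/-- numeric growth lemma -/
theorem grow_of_cut (H G : SimpleGraph V) (A U : Finset V) (q v1 s B : ℕ) (γ : ℝ)
    (hγ : 0 ≤ γ) (hv1 : 1 ≤ v1) (hU : ∀ k, ball G A k ⊆ U)
    (h1 : ∀ S, A ⊆ S → S ⊆ U → vol H S < B → q ≤ cut G S)
    (h2 : ∀ S, A ⊆ S → S ⊆ U → vol H S < B → v1 ≤ vol H S →
      (q : ℝ) + γ * vol H S ≤ cut G S)
    (hs : (B : ℝ) ≤ (1 + γ / 2) ^ s) : Grow H G A q (v1 + s) B := by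
  intro p hp S hS0 hmono hball hcut
  have hSU : ∀ k, S k ⊆ U := fun k => (hball k).trans (hU k)
  have hA : ∀ k, A ⊆ S k := by
    intro k
    induction k with
    | zero => rw [hS0]
    | succ k ih => exact ih.trans (hmono k)
  have hvol : ∀ k, vol H (S k) ≤ vol H (S (k + 1)) := by
    intro k
    apply Finset.card_le_card
    intro e he
    rw [mem_filter] at he ⊢
    exact ⟨he.1, hmono k he.2.1, he.2.2⟩
  have hA1 : ∀ k, B ≤ vol H (S k) ∨ k ≤ vol H (S k) := by
    intro k
    induction k with
    | zero => right; exact Nat.zero_le _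
    | succ k ih =>
      rcases ih with ih | ih
      · left; exact ih.trans (hvol k)
      · rcases Nat.lt_or_ge (vol H (S k)) B with hB | hB
        · right
          have e1 := h1 (S k) (hA k) (hSU k) hB
          have e2 := hcut k
          omega
        · left; exact hB.trans (hvol k)
  have hA2 : ∀ t, B ≤ vol H (S (v1 + t)) ∨ (v1 ≤ vol H (S (v1 + t)) ∧
      (1 + γ / 2) ^ t * (v1 : ℝ) ≤ (vol H (S (v1 + t)) : ℝ)) := by
    intro t
    induction t with
    | zero =>
      rcases hA1 v1 with h | h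
      · left; exact h
      · right
        refine ⟨h, ?_⟩
        rw [pow_zero, one_mul]
        exact_mod_cast h
    | succ t ih =>
      rcases ih with ih | ⟨ih1, ih2⟩
      · left; exact ih.trans (hvol _)
      · rcases Nat.lt_or_ge (vol H (S (v1 + t))) B with hB | hB
        · right
          refine ⟨ih1.trans (hvol _), ?_⟩
          have e1 := h2 _ (hA (v1 + t)) (hSU (v1 + t)) hB ih1
          have e2 : (cut G (S (v1 + t)) : ℝ) + 2 * (vol H (S (v1 + t)) : ℝ)
              ≤ 2 * (vol H (S (v1 + t + 1)) : ℝ) + p := by exact_mod_cast hcut (v1 + t)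
          have e3 : (p : ℝ) ≤ q := by exact_mod_cast hp.le
          have e4 : (1 + γ / 2) ^ (t + 1) * (v1 : ℝ) = (1 + γ / 2) * ((1 + γ / 2) ^ t * (v1 : ℝ)) := by
            rw [pow_succ]; ring
          have e5 : (1 + γ / 2) * ((1 + γ / 2) ^ t * (v1 : ℝ)) ≤
              (1 + γ / 2) * (vol H (S (v1 + t)) : ℝ) :=
            mul_le_mul_of_nonneg_left ih2 (by linarith)
          rw [e4]
          refine e5.trans ?_
          rw [← add_assoc]
          nlinarith
        · left; exact hB.trans (hvol _)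
  rcases hA2 s with h | ⟨h3, h4⟩
  · exact h
  · have e1 : (B : ℝ) ≤ (vol H (S (v1 + s)) : ℝ) := by
      refine hs.trans (le_trans ?_ h4)
      have : (1 : ℝ) ≤ v1 := by exact_mod_cast hv1
      have h5 : 0 ≤ (1 + γ / 2) ^ s := by positivity
      nlinarith
    exact_mod_cast e1

end M6

alias grow_of_cut := M6.grow_of_cut

end ImmLog
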