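import Pool.Agent.ImmLog.Defs2

set_option autoImplicit false

open Classical Finset

namespace ImmLog

namespace M7

variable {V : Type*} [Fintype V]



theorem trim_vol_eq (H : SimpleGraph V) (S : Finset V) :
    vol H S = ∑ v ∈ S, (univ.filter (fun y => H.Adj v y)).card := by
  unfold vol
  rw [Finset.card_filter, ← Finset.univ_product_univ, Finset.sum_product]
  have h : ∀ x ∈ (univ : Finset V), (∑ y ∈ (univ : Finset V), if (x, y).1 ∈ S ∧ H.Adj (x, y).1 (x, y).2 then 1 else 0)
      = if x ∈ S then (univ.filter (fun y => H.Adj x y)).card else 0 := by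
    intro x _
    by_cases hx : x ∈ S
    · rw [if_pos hx, Finset.card_filter]
      apply Finset.sum_congr rfl
      intro y _
      simp [hx]
    · rw [if_neg hx]
      apply Finset.sum_eq_zero
      intro y _
      simp [hx]
  rw [Finset.sum_congr rfl h, Finset.sum_ite_mem, Finset.univ_inter]

theorem trim_vol_mono (H : SimpleGraph V) {S S' : Finset V} (h : S ⊆ S') : vol H S ≤ vol H S' := by
  rw [trim_vol_eq, trim_vol_eq]
  exact Finset.sum_le_sum_of_subset h

theorem trim_choose (H : SimpleGraph V) (B : Finset V) (M : ℕ) (h : M ≤ vol H B) :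
    ∃ U ⊆ B, M ≤ vol H U ∧ U.card ≤ M := by
  have hne : ((B.powerset).filter (fun U => M ≤ vol H U)).Nonempty :=
    ⟨B, by simp [h]⟩
  obtain ⟨U, hU, hmin⟩ := Finset.exists_min_image _ (fun U => U.card) hne
  rw [Finset.mem_filter, Finset.mem_powerset] at hU
  refine ⟨U, hU.1, hU.2, ?_⟩
  by_contra hcon
  push Not at hcon
  have hUne : U.Nonempty := Finset.card_pos.mp (by omega)
  have herase : ∀ v ∈ U, vol H (U.erase v) < M := by
    intro v hv
    by_contra hc
    push Not at hc
    have h1 := hmin (U.erase v) (by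
      rw [Finset.mem_filter, Finset.mem_powerset]
      exact ⟨(Finset.erase_subset _ _).trans hU.1, hc⟩)
    rw [Finset.card_erase_of_mem hv] at h1
    omega
  have hpos : ∀ v ∈ U, 1 ≤ (univ.filter (fun y => H.Adj v y)).card := by
    intro v hv
    by_contra hc
    have h2 := herase v hv
    have h3 : vol H U = vol H (U.erase v) := by
      rw [trim_vol_eq, trim_vol_eq, ← Finset.add_sum_erase U _ hv]
      omega
    omega
  obtain ⟨v, hv⟩ := hUne
  have h4 := herase v hv
  have h5 : (U.erase v).card ≤ vol H (U.erase v) := by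
    rw [trim_vol_eq, Finset.card_eq_sum_ones]
    apply Finset.sum_le_sum
    intro w hw
    exact hpos w (Finset.mem_of_mem_erase hw)
  rw [Finset.card_erase_of_mem hv] at h5
  omega

theorem trim (H T : SimpleGraph V) (A : Finset V) (R M : ℕ) (h : M ≤ vol H (ball T A R)) :
    ∃ T' : SimpleGraph V, T' ≤ T ∧ nd T' ≤ 2 * M * R ∧ M ≤ vol H (ball T' A R) := by
  obtain ⟨U, hUB, hUv, hUc⟩ := trim_choose H (ball T A R) M h
  have hw : ∀ v : V, ∃ P : Finset (V × V), v ∈ U → P.card ≤ R ∧ (∀ e ∈ P, T.Adj e.1 e.2) ∧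
      ∀ T' : SimpleGraph V, (∀ e ∈ P, T'.Adj e.1 e.2) → v ∈ ball T' A R := by
    intro v
    by_cases hv : v ∈ U
    · have h1 := hUB hv
      unfold ball at h1
      rw [Finset.mem_filter] at h1
      obtain ⟨-, a, ha, w, hwl⟩ := h1
      refine ⟨(w.darts.map (fun d => d.toProd)).toFinset, fun _ => ⟨?_, ?_, ?_⟩⟩
      · refine (List.toFinset_card_le _).trans ?_
        rw [List.length_map, SimpleGraph.Walk.length_darts]; exact hwl
      · intro e he
        rw [List.mem_toFinset, List.mem_map] at he
        obtain ⟨d, -, rfl⟩ := he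
        exact d.adj
      · intro T' hT'
        unfold ball
        rw [Finset.mem_filter]
        have h2 : ∀ e ∈ w.edges, e ∈ T'.edgeSet := by
          intro e he
          unfold SimpleGraph.Walk.edges at he
          rw [List.mem_map] at he
          obtain ⟨d, hd, rfl⟩ := he
          have h3 := hT' d.toProd (by
            rw [List.mem_toFinset, List.mem_map]
            exact ⟨d, hd, rfl⟩)
          exact h3
        refine ⟨Finset.mem_univ _, a, ha, w.transfer T' h2, ?_⟩
        rw [SimpleGraph.Walk.length_transfer]; exact hwl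
    · exact ⟨∅, fun h => absurd h hv⟩
  choose P hP using hw
  set Q : Finset (V × V) := U.biUnion P with hQ
  have hQT : ∀ e ∈ Q, T.Adj e.1 e.2 := by
    intro e he
    rw [hQ, Finset.mem_biUnion] at he
    obtain ⟨v, hv, hev⟩ := he
    exact (hP v hv).2.1 e hev
  have hQc : Q.card ≤ M * R := by
    refine Finset.card_biUnion_le.trans ?_
    calc ∑ v ∈ U, (P v).card ≤ ∑ v ∈ U, R := Finset.sum_le_sum fun v hv => (hP v hv).1
      _ = U.card * R := by rw [Finset.sum_const, smul_eq_mul]
      _ ≤ M * R := Nat.mul_le_mul_right R hUc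
  obtain ⟨T', hT'⟩ : ∃ T' : SimpleGraph V, ∀ x y, T'.Adj x y ↔ (x, y) ∈ Q ∨ (y, x) ∈ Q :=
    ⟨{ Adj := fun x y => (x, y) ∈ Q ∨ (y, x) ∈ Q
       symm := ⟨fun _ _ h => h.symm⟩
       loopless := ⟨fun x h => T.loopless.irrefl x (hQT (x, x) (h.elim id id))⟩ },
      fun _ _ => Iff.rfl⟩
  refine ⟨T', ?_, ?_, ?_⟩
  · intro x y hxy
    rcases (hT' x y).mp hxy with h1 | h1
    · exact hQT _ h1
    · exact (hQT _ h1).symm
  · unfold nd
    refine (Finset.card_le_card (t := Q ∪ Q.image Prod.swap) ?_).trans ?_
    · rintro ⟨x, y⟩ he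
      rw [Finset.mem_filter] at he
      rw [Finset.mem_union, Finset.mem_image]
      rcases (hT' x y).mp he.2 with h2 | h2
      · exact Or.inl h2
      · exact Or.inr ⟨(y, x), h2, rfl⟩
    · refine (Finset.card_union_le _ _).trans ?_
      have h3 : (Q.image Prod.swap).card ≤ Q.card := Finset.card_image_le
      have : 2 * M * R = M * R + M * R := by ring
      omega
  · refine hUv.trans (trim_vol_mono H ?_)
    intro v hv
    apply (hP v hv).2.2 T'
    intro e he
    rw [hT']
    left
    rw [hQ, Finset.mem_biUnion]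
    exact ⟨v, hv, he⟩

end M7

alias trim := M7.trim

end ImmLog
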