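import Pool.Agent.ImmLog.Defs2
import Pool.Agent.ImmLog.M5b
import Pool.Agent.ImmLog.M6
import Pool.Agent.ImmLog.M7
import Pool.Agent.ImmLog.M14
import Pool.Agent.ImmLog.M15

set_option autoImplicit false

open Classical Finset

namespace ImmLog

namespace M16

variable {V : Type*} [Fintype V]














theorem j3143_few_bad (H F : SimpleGraph V) (X : Finset V) (fam : Finset (Finset V))
    (hne : ∀ A ∈ fam, A.Nonempty)
    (hdisj : ∀ A ∈ fam, ∀ B ∈ fam, A ≠ B → Disjoint A B) (E : Finset V → SimpleGraph V)
    (q K' s0 v0 smax : ℕ) (hE : ∀ A ∈ fam, ∀ S, cut (E A) S ≤ K')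
    (hcutq : ∀ A ∈ fam, ∀ S, A ⊆ S → S.card ≤ smax → q ≤ cut (H \ E A) S)
    (hsmall : ∀ S : Finset V, S.Nonempty → Disjoint S X → S.card ≤ smax →
      cut (del (H \ F) X) S < q + K' → S.card ≤ s0 ∧ vol H S ≤ v0) :
    ∃ Bd : Finset (Finset V), Bd.card ≤ X.card + nd F + (nd F + cut H X) * (v0 + 1) ^ s0 ∧
      ∀ A ∈ fam, A ∉ Bd → (Disjoint A X ∧ (∀ a ∈ A, ∀ v, ¬ F.Adj a v) ∧
      ∀ S, A ⊆ S → Disjoint S X → S.card ≤ smax →
        q ≤ cut ((del (H \ F) X) \ E A) S) := by
  refine ⟨_, few_bad H F X fam hne hdisj E q K' s0 v0 smax hE hcutq hsmall, ?_⟩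
  intro A hA hn
  by_contra hc
  exact hn (Finset.mem_filter.2 ⟨hA, hc⟩)

theorem j3143_mem_nd (G : SimpleGraph V) (e : V × V) :
    e ∈ (univ : Finset (V × V)).filter (fun e => G.Adj e.1 e.2) ↔ G.Adj e.1 e.2 := by
  rw [Finset.mem_filter]
  exact ⟨fun h => h.2, fun h => ⟨Finset.mem_univ _, h⟩⟩

theorem j3143_mem_cut (G : SimpleGraph V) (S : Finset V) (e : V × V) :
    e ∈ (univ : Finset (V × V)).filter (fun e => e.1 ∈ S ∧ e.2 ∉ S ∧ G.Adj e.1 e.2) ↔
      (e.1 ∈ S ∧ e.2 ∉ S ∧ G.Adj e.1 e.2) := by
  rw [Finset.mem_filter]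
  exact ⟨fun h => h.2, fun h => ⟨Finset.mem_univ _, h⟩⟩

theorem j3143_nd_sup (G G' : SimpleGraph V) : nd (G ⊔ G') ≤ nd G + nd G' := by
  unfold nd
  refine le_trans (Finset.card_le_card ?_) (Finset.card_union_le _ _)
  intro e he
  have he' := (j3143_mem_nd _ e).1 he
  rw [SimpleGraph.sup_adj] at he'
  apply Finset.mem_union.2
  rcases he' with h | h
  · exact Or.inl ((j3143_mem_nd _ e).2 h)
  · exact Or.inr ((j3143_mem_nd _ e).2 h)

theorem j3143_nd_bot : nd (⊥ : SimpleGraph V) = 0 := by
  unfold nd
  apply Finset.card_eq_zero.2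
  apply Finset.eq_empty_of_forall_notMem
  intro e he
  exact (j3143_mem_nd _ e).1 he

theorem j3143_nd_fsup {α : Type*} (t : Finset α) (f : α → SimpleGraph V) (c : ℕ)
    (h : ∀ x ∈ t, nd (f x) ≤ c) : nd (t.sup f) ≤ t.card * c := by
  induction t using Finset.induction_on with
  | empty => rw [Finset.sup_empty, j3143_nd_bot]; exact Nat.zero_le _
  | insert a t ha ih =>
    rw [Finset.sup_insert, Finset.card_insert_of_notMem ha]
    have h1 := j3143_nd_sup (f a) (t.sup f)
    have h2 := h a (Finset.mem_insert_self a t)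
    have h3 := ih (fun x hx => h x (Finset.mem_insert_of_mem hx))
    calc nd (f a ⊔ t.sup f) ≤ nd (f a) + nd (t.sup f) := h1
      _ ≤ c + t.card * c := by omega
      _ = (t.card + 1) * c := by ring

theorem j3143_two_cut (G : SimpleGraph V) (S : Finset V) : 2 * cut G S ≤ nd G := by
  have h1 : cut G S = ((univ : Finset (V × V)).filter (fun e => e.1 ∉ S ∧ e.2 ∈ S ∧ G.Adj e.1 e.2)).card := by
    unfold cut
    apply Finset.card_nbij' (fun e => (e.2, e.1)) (fun e => (e.2, e.1))
    · intro e he
      have he' := (Finset.mem_filter.1 (Finset.mem_coe.1 he)).2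
      exact Finset.mem_coe.2 (Finset.mem_filter.2 ⟨Finset.mem_univ _, he'.2.1, he'.1, he'.2.2.symm⟩)
    · intro e he
      have he' := (Finset.mem_filter.1 (Finset.mem_coe.1 he)).2
      exact Finset.mem_coe.2 (Finset.mem_filter.2 ⟨Finset.mem_univ _, he'.2.1, he'.1, he'.2.2.symm⟩)
    · intro e _; rfl
    · intro e _; rfl
  have h2 : Disjoint ((univ : Finset (V × V)).filter (fun e => e.1 ∈ S ∧ e.2 ∉ S ∧ G.Adj e.1 e.2))
      ((univ : Finset (V × V)).filter (fun e => e.1 ∉ S ∧ e.2 ∈ S ∧ G.Adj e.1 e.2)) := by
    rw [Finset.disjoint_left]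
    intro e he he'
    exact (Finset.mem_filter.1 he').2.1 (Finset.mem_filter.1 he).2.1
  have h3 := Finset.card_union_of_disjoint h2
  have h4 : ((univ : Finset (V × V)).filter (fun e => e.1 ∈ S ∧ e.2 ∉ S ∧ G.Adj e.1 e.2)) ∪
      ((univ : Finset (V × V)).filter (fun e => e.1 ∉ S ∧ e.2 ∈ S ∧ G.Adj e.1 e.2)) ⊆
      ((univ : Finset (V × V)).filter (fun e => G.Adj e.1 e.2)) := by
    intro e he
    rw [Finset.mem_union, Finset.mem_filter, Finset.mem_filter] at he
    rw [Finset.mem_filter]
    rcases he with he | he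
    · exact ⟨he.1, he.2.2.2⟩
    · exact ⟨he.1, he.2.2.2⟩
  have h5 := Finset.card_le_card h4
  rw [h3, ← h1] at h5
  unfold nd
  have h6 : cut G S = ((univ : Finset (V × V)).filter (fun e => e.1 ∈ S ∧ e.2 ∉ S ∧ G.Adj e.1 e.2)).card := rfl
  rw [← h6] at h5
  omega

theorem j3143_cut_sdiff (G E : SimpleGraph V) (S : Finset V) :
    cut G S ≤ cut (G \ E) S + cut E S := by
  unfold cut
  refine le_trans (Finset.card_le_card ?_) (Finset.card_union_le _ _)
  intro e he
  have he' := (j3143_mem_cut _ S e).1 he
  apply Finset.mem_union.2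
  by_cases h : E.Adj e.1 e.2
  · exact Or.inr ((j3143_mem_cut _ S e).2 ⟨he'.1, he'.2.1, h⟩)
  · exact Or.inl ((j3143_mem_cut _ S e).2 ⟨he'.1, he'.2.1, by
      rw [SimpleGraph.sdiff_adj]; exact ⟨he'.2.2, h⟩⟩)

theorem j3143_vol (H : SimpleGraph V) (S A : Finset V) (h : ∀ v ∈ S \ A, ∃ u, H.Adj v u) :
    (S \ A).card ≤ vol H S := by
  unfold vol
  choose! u hu using h
  apply Finset.card_le_card_of_injOn (fun v => (v, u v))
  · intro v hv
    exact Finset.mem_coe.2 (Finset.mem_filter.2 ⟨Finset.mem_univ _,
      (Finset.mem_sdiff.1 (Finset.mem_coe.1 hv)).1, hu v (Finset.mem_coe.1 hv)⟩)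
  · intro v _ v' _ h
    exact congrArg Prod.fst h

theorem j3143_walk {G : SimpleGraph V} {a v : V} (w : G.Walk a v) (h : a ≠ v) :
    ∃ u, G.Adj v u := by
  cases hw : w.reverse with
  | nil => exact absurd rfl h
  | cons h' _ => exact ⟨_, h'⟩

/-- Selection of `N` terminals with `q` pairwise edge-disjoint fat trees each. -/
theorem select (H : SimpleGraph V) (g : ℕ → ℝ) (D0 ρ : ℝ) (smax : ℕ) (hX : Expd H g D0 ρ smax)
    (fam : Finset (Finset V)) (E : Finset V → SimpleGraph V) (q K : ℕ)
    (hT : Terms H fam E q K smax) (hK : 1 ≤ K)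
    (s0 v0 s M N R B f : ℕ)
    (hs0 : ∀ k, 1 ≤ k → k ≤ smax → g k < 16 * ((q : ℝ) + K) → k ≤ s0)
    (hv0 : 16 * ((q : ℝ) + K) + D0 * s0 ≤ v0) (hM : 1 ≤ M)
    (hR : R = 2 * (v0 + 1 + s) * (q + 3) ^ q)
    (hB : B = M * (4 * (R + 1) * (K + q)) ^ q)
    (hBs : B + K ≤ smax)
    (hs : (B : ℝ) ≤ (1 + ρ / (64 * D0)) ^ s)
    (hf : f = N * (q * (2 * M * R) + 2 * K))
    (hfam : (N : ℝ) + 4 * f / ρ + f + 2 * f * (v0 + 1) ^ s0 < fam.card) :
    ∃ a : Fin N → Finset V, Function.Injective a ∧ (∀ l, a l ∈ fam) ∧
      ∃ T : Fin N → Fin q → SimpleGraph V, (∀ l j, T l j ≤ H) ∧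
        (∀ l j l' j', (l, j) ≠ (l', j') → Disjoint (T l j) (T l' j')) ∧
        (∀ l j m, Disjoint (T l j) (E (a m))) ∧
        (∀ l j, M ≤ vol H (ball (T l j) (a l) R)) := by
  have hρ0 := hX.hρ0
  have hD0 : 0 < D0 := lt_of_lt_of_le one_pos hX.hD1
  have hEcut : ∀ A ∈ fam, ∀ S, cut (E A) S ≤ K := by
    intro A hA S
    have h1 := j3143_two_cut (E A) S
    have h2 := hT.hEnd A hA
    omega
  have key : ∀ i, i ≤ N → ∃ W : Finset (Finset V), W ⊆ fam ∧ W.card = i ∧
      ∃ T : Finset V → Fin q → SimpleGraph V,
      (∀ A ∈ W, ∀ j, T A j ≤ H) ∧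
      (∀ A ∈ W, ∀ j, ∀ B ∈ W, ∀ j', (A, j) ≠ (B, j') → Disjoint (T A j) (T B j')) ∧
      (∀ A ∈ W, ∀ j, ∀ C ∈ W, Disjoint (T A j) (E C)) ∧
      (∀ A ∈ W, ∀ j, M ≤ vol H (ball (T A j) A R)) ∧
      (∀ A ∈ W, ∀ j, nd (T A j) ≤ 2 * M * R) := by
    intro i
    induction i with
    | zero =>
      intro _
      exact ⟨∅, by simp, by simp, fun _ _ => ⊥, by simp, by simp, by simp, by simp, by simp⟩
    | succ i ih =>
      intro hi
      obtain ⟨W, hWf, hWc, T, t1, t2, t3, t4, t5⟩ := ih (by omega)
      obtain ⟨F, hF⟩ : ∃ F : SimpleGraph V,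
        F = W.sup (fun A => ((univ : Finset (Fin q)).sup (fun j => T A j)) ⊔ E A) := ⟨_, rfl⟩
      have hFT : ∀ A ∈ W, ∀ j, T A j ≤ F := by
        intro A hA j
        have h1 : T A j ≤ (univ : Finset (Fin q)).sup (fun j => T A j) :=
          Finset.le_sup (f := fun j => T A j) (Finset.mem_univ j)
        have h2 : ((univ : Finset (Fin q)).sup (fun j => T A j)) ⊔ E A ≤ F := by
          rw [hF]
          exact Finset.le_sup (f := fun A => ((univ : Finset (Fin q)).sup (fun j => T A j)) ⊔ E A) hA
        exact h1.trans (le_sup_left.trans h2)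
      have hFE : ∀ A ∈ W, E A ≤ F := by
        intro A hA
        have h2 : ((univ : Finset (Fin q)).sup (fun j => T A j)) ⊔ E A ≤ F := by
          rw [hF]
          exact Finset.le_sup (f := fun A => ((univ : Finset (Fin q)).sup (fun j => T A j)) ⊔ E A) hA
        exact le_sup_right.trans h2
      have hFnd : nd F ≤ f := by
        have h1 : ∀ A ∈ W, nd (((univ : Finset (Fin q)).sup (fun j => T A j)) ⊔ E A) ≤
            q * (2 * M * R) + 2 * K := by
          intro A hA
          have h2 := j3143_nd_sup ((univ : Finset (Fin q)).sup (fun j => T A j)) (E A)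
          have h3 := j3143_nd_fsup (univ : Finset (Fin q)) (fun j => T A j) (2 * M * R)
            (fun j _ => t5 A hA j)
          have h4 := hT.hEnd A (hWf hA)
          rw [Finset.card_univ, Fintype.card_fin] at h3
          omega
        have h5 := j3143_nd_fsup W
          (fun A => ((univ : Finset (Fin q)).sup (fun j => T A j)) ⊔ E A) _ h1
        rw [← hF, hWc] at h5
        rw [hf]
        exact h5.trans (Nat.mul_le_mul_right _ (by omega))
      obtain ⟨X, x1, x2, x3⟩ := cleaning H F g D0 ρ smax hX.hg hX.hρ hρ0 hX.hPI hX.hDB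
      have hsmall : ∀ S : Finset V, S.Nonempty → Disjoint S X → S.card ≤ smax →
          cut (del (H \ F) X) S < q + K → S.card ≤ s0 ∧ vol H S ≤ v0 := by
        intro S hS hSX hSc hcut
        obtain ⟨y1, y2⟩ := x1 S hS hSX hSc
        have hcut' : (cut (del (H \ F) X) S : ℝ) < q + K := by exact_mod_cast hcut
        have hpos : (0 : ℝ) ≤ cut (del (H \ F) X) S := Nat.cast_nonneg _
        have hs1 : S.card ≤ s0 := by
          apply hs0 _ (Finset.card_pos.2 hS) hSc
          linarith
        refine ⟨hs1, ?_⟩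
        have hs1' : (S.card : ℝ) ≤ s0 := by exact_mod_cast hs1
        have h2 : D0 * S.card ≤ D0 * s0 := mul_le_mul_of_nonneg_left hs1' hD0.le
        have h3 : (vol H S : ℝ) ≤ v0 := by linarith
        exact_mod_cast h3
      obtain ⟨Bd, hBd, hgood⟩ := j3143_few_bad H F X fam hT.hne hT.hdisj E q K s0 v0 smax hEcut
        hT.hcut hsmall
      -- existence of a good terminal
      have hexA : ∃ A ∈ fam, A ∉ W ∧ A ∉ Bd := by
        by_contra hcon
        push Not at hcon
        have hsub : fam ⊆ W ∪ Bd := by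
          intro A hA
          rw [Finset.mem_union]
          by_cases hAW : A ∈ W
          · exact Or.inl hAW
          · exact Or.inr (hcon A hA hAW)
        have h1 := (Finset.card_le_card hsub).trans (Finset.card_union_le _ _)
        have h2 : (fam.card : ℝ) ≤ i + (X.card + nd F + (nd F + cut H X) * ((v0 : ℝ) + 1) ^ s0) := by
          have h3 : fam.card ≤ i + (X.card + nd F + (nd F + cut H X) * (v0 + 1) ^ s0) := by omega
          exact_mod_cast h3
        have hFnd' : (nd F : ℝ) ≤ f := by exact_mod_cast hFnd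
        have h4 : (X.card : ℝ) ≤ 4 * f / ρ := by
          rw [le_div_iff₀ hρ0]
          linarith
        have h5 : ((nd F : ℝ) + cut H X) * ((v0 : ℝ) + 1) ^ s0 ≤ (2 * f) * ((v0 : ℝ) + 1) ^ s0 := by
          apply mul_le_mul_of_nonneg_right _ (by positivity)
          linarith
        have h6 : (i : ℝ) ≤ N := by
          have : i ≤ N := by omega
          exact_mod_cast this
        linarith
      obtain ⟨A, hAf, hAW, hABd⟩ := hexA
      obtain ⟨g1, g2, g3⟩ := hgood A hAf hABd
      obtain ⟨GA, hGA⟩ : ∃ GA, GA = (del (H \ F) X) \ E A := ⟨_, rfl⟩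
      rw [← hGA] at g3
      have hGAadj : ∀ u v, GA.Adj u v → H.Adj u v ∧ ¬ F.Adj u v ∧ u ∉ X ∧ v ∉ X ∧ ¬ (E A).Adj u v := by
        intro u v huv
        rw [hGA, SimpleGraph.sdiff_adj] at huv
        obtain ⟨⟨h1, h2, h3⟩, h4⟩ := huv
        rw [SimpleGraph.sdiff_adj] at h1
        exact ⟨h1.1, h1.2, h2, h3, h4⟩
      have hGAH : GA ≤ H := fun u v huv => (hGAadj u v huv).1
      obtain ⟨U, hU⟩ : ∃ U : Finset V, U = univ.filter (fun v => ∃ k, v ∈ ball GA A k) := ⟨_, rfl⟩
      have hUm : ∀ v ∈ U, v ∈ A ∨ ∃ u, GA.Adj v u := by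
        intro v hv
        rw [hU, Finset.mem_filter] at hv
        obtain ⟨_, k, hk⟩ := hv
        unfold ball at hk
        rw [Finset.mem_filter] at hk
        obtain ⟨_, a, ha, w, _⟩ := hk
        by_cases hav : a = v
        · left; rw [← hav]; exact ha
        · right; exact j3143_walk w hav
      have hUX : ∀ v ∈ U, v ∉ X := by
        intro v hv
        rcases hUm v hv with h | ⟨u, h⟩
        · exact Finset.disjoint_left.1 g1 h
        · exact (hGAadj v u h).2.2.1
      have hSfacts : ∀ S, A ⊆ S → S ⊆ U → vol H S < B → Disjoint S X ∧ S.card ≤ smax := by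
        intro S hAS hSU hSB
        refine ⟨Finset.disjoint_left.2 (fun v hv => hUX v (hSU hv)), ?_⟩
        have h1 := j3143_vol H S A (by
          intro v hv
          rw [Finset.mem_sdiff] at hv
          rcases hUm v (hSU hv.1) with h | ⟨u, h⟩
          · exact absurd h hv.2
          · exact ⟨u, hGAH h⟩)
        have h2 := Finset.card_sdiff_add_card_eq_card hAS
        have h3 := hT.hcard A hAf
        omega
      have hAne := hT.hne A hAf
      have hgrow : Grow H GA A q (v0 + 1 + s) B := by
        apply grow_of_cut H GA A U q (v0 + 1) s B (ρ / (32 * D0))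
        · positivity
        · omega
        · intro k v hv
          rw [hU, Finset.mem_filter]
          exact ⟨Finset.mem_univ _, k, hv⟩
        · intro S hAS hSU hSB
          obtain ⟨h1, h2⟩ := hSfacts S hAS hSU hSB
          exact g3 S hAS h1 h2
        · intro S hAS hSU hSB hSv
          obtain ⟨h1, h2⟩ := hSfacts S hAS hSU hSB
          have hSne : S.Nonempty := hAne.mono hAS
          obtain ⟨y1, y2⟩ := x1 S hSne h1 h2
          have hc1 := j3143_cut_sdiff (del (H \ F) X) (E A) S
          rw [← hGA] at hc1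
          have hc2 := hEcut A hAf S
          have hc3 : (cut (del (H \ F) X) S : ℝ) ≤ cut GA S + K := by
            have : cut (del (H \ F) X) S ≤ cut GA S + K := by omega
            exact_mod_cast this
          obtain ⟨mx, hmx⟩ : ∃ mx : ℝ, mx = max (g S.card) ((vol H S : ℝ) - D0 * S.card) := ⟨_, rfl⟩
          have m1 : mx ≤ 8 * cut (del (H \ F) X) S := by rw [hmx]; exact max_le y1 y2
          have m2 : g S.card ≤ mx := by rw [hmx]; exact le_max_left _ _
          have m3 : (vol H S : ℝ) - D0 * S.card ≤ mx := by rw [hmx]; exact le_max_right _ _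
          have m4 : 16 * ((q : ℝ) + K) ≤ mx := by
            by_contra hcon
            push Not at hcon
            have h3 : S.card ≤ s0 := hs0 _ (Finset.card_pos.2 hSne) h2 (by linarith)
            have h3' : (S.card : ℝ) ≤ s0 := by exact_mod_cast h3
            have h4 : D0 * S.card ≤ D0 * s0 := mul_le_mul_of_nonneg_left h3' hD0.le
            have h5 : (vol H S : ℝ) ≤ v0 := by linarith
            have h6 : vol H S ≤ v0 := by exact_mod_cast h5
            omega
          have m5 : ρ / (2 * D0) * vol H S ≤ mx := by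
            have hvp : (0 : ℝ) ≤ vol H S := Nat.cast_nonneg _
            rcases le_total (2 * D0 * S.card) (vol H S : ℝ) with h3 | h3
            · have h4 : (vol H S : ℝ) / 2 ≤ mx := by linarith
              have h5 : ρ / (2 * D0) ≤ 1 / 2 := by
                rw [div_le_div_iff₀ (by positivity) (by norm_num)]
                have := hX.hρD
                linarith
              have h6 := mul_le_mul_of_nonneg_right h5 hvp
              linarith
            · have h4 : (vol H S : ℝ) / (2 * D0) ≤ S.card := by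
                rw [div_le_iff₀ (by positivity)]
                linarith
              have h5 := hX.hρ S.card (Finset.card_pos.2 hSne) h2
              have h6 : ρ / (2 * D0) * vol H S = ρ * ((vol H S : ℝ) / (2 * D0)) := by ring
              rw [h6]
              have h7 := mul_le_mul_of_nonneg_left h4 hρ0.le
              linarith
          have m6 : ρ / (32 * D0) * vol H S ≤ mx / 16 := by
            have h3 : ρ / (32 * D0) * vol H S = (ρ / (2 * D0) * vol H S) / 16 := by
              field_simp
              ring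
            rw [h3]
            linarith
          linarith
        · have h1 : 1 + ρ / (32 * D0) / 2 = 1 + ρ / (64 * D0) := by
            rw [div_div]
            congr 2
            ring
          rw [h1]
          exact hs
      have hft := fat_trees H GA hGAH A hAne q (v0 + 1 + s) M K (hT.hcard A hAf) (by omega) hM (by
        rw [← hR, ← hB]
        exact hgrow)
      obtain ⟨T0, f1, f2, f3⟩ := hft
      rw [← hR] at f3
      have htrim := fun j => trim H (T0 j) A R M (f3 j)
      choose T1 r1 r2 r3 using htrim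
      refine ⟨insert A W, ?_, ?_, Function.update T A T1, ?_, ?_, ?_, ?_, ?_⟩
      · intro C hC
        rcases Finset.mem_insert.1 hC with rfl | hC
        · exact hAf
        · exact hWf hC
      · rw [Finset.card_insert_of_notMem hAW, hWc]
      · intro C hC j
        by_cases hCA : C = A
        · subst hCA
          rw [Function.update_self]
          exact (r1 j).trans ((f1 j).trans hGAH)
        · rw [Function.update_of_ne hCA]
          exact t1 C ((Finset.mem_insert.1 hC).resolve_left hCA) j
      · have hnew : ∀ j, ∀ C ∈ W, ∀ j', Disjoint (T1 j) (T C j') := by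
          intro j C hC j'
          rw [SimpleGraph.disjoint_left]
          intro u v h1 h2
          exact (hGAadj u v (f1 j (r1 j h1))).2.1 (hFT C hC j' h2)
        intro C hC j C' hC' j' hne
        by_cases hCA : C = A
        · rw [hCA, Function.update_self]
          by_cases hCA' : C' = A
          · rw [hCA', Function.update_self]
            have hjj : j ≠ j' := by
              rintro rfl
              exact hne (by rw [hCA, hCA'])
            exact (f2 j j' hjj).mono (r1 j) (r1 j')
          · rw [Function.update_of_ne hCA']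
            exact hnew j C' ((Finset.mem_insert.1 hC').resolve_left hCA') j'
        · rw [Function.update_of_ne hCA]
          by_cases hCA' : C' = A
          · rw [hCA', Function.update_self]
            exact (hnew j' C ((Finset.mem_insert.1 hC).resolve_left hCA) j).symm
          · rw [Function.update_of_ne hCA']
            exact t2 C ((Finset.mem_insert.1 hC).resolve_left hCA) j C'
              ((Finset.mem_insert.1 hC').resolve_left hCA') j' hne
      · intro C hC j D hD
        rw [SimpleGraph.disjoint_left]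
        intro u v h1 h2
        by_cases hCA : C = A
        · rw [hCA, Function.update_self] at h1
          have h3 := hGAadj u v (f1 j (r1 j h1))
          by_cases hDA : D = A
          · rw [hDA] at h2
            exact h3.2.2.2.2 h2
          · exact h3.2.1 (hFE D ((Finset.mem_insert.1 hD).resolve_left hDA) h2)
        · rw [Function.update_of_ne hCA] at h1
          have hCW := (Finset.mem_insert.1 hC).resolve_left hCA
          by_cases hDA : D = A
          · rw [hDA] at h2
            have h4 := hFT C hCW j h1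
            rcases hT.hEinc A hAf u v h2 with h5 | h5
            · exact g2 u h5 v h4
            · exact g2 v h5 u h4.symm
          · exact (SimpleGraph.disjoint_left.1 (t3 C hCW j D
              ((Finset.mem_insert.1 hD).resolve_left hDA))) u v h1 h2
      · intro C hC j
        by_cases hCA : C = A
        · rw [hCA, Function.update_self]
          exact r3 j
        · rw [Function.update_of_ne hCA]
          exact t4 C ((Finset.mem_insert.1 hC).resolve_left hCA) j
      · intro C hC j
        by_cases hCA : C = A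
        · rw [hCA, Function.update_self]
          exact r2 j
        · rw [Function.update_of_ne hCA]
          exact t5 C ((Finset.mem_insert.1 hC).resolve_left hCA) j
  obtain ⟨W, hWf, hWc, T, t1, t2, t3, t4, t5⟩ := key N le_rfl
  have e := (W.equivFinOfCardEq hWc).symm
  refine ⟨fun l => (e l).1, ?_, fun l => hWf (e l).2, fun l j => T (e l).1 j, fun l j => t1 _ (e l).2 j,
    ?_, fun l j m => t3 _ (e l).2 j _ (e m).2, fun l j => t4 _ (e l).2 j⟩
  · intro l l' h
    exact e.injective (Subtype.ext h)
  · intro l j l' j' hne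
    apply t2 _ (e l).2 j _ (e l').2 j'
    intro h
    apply hne
    have h1 : (e l).1 = (e l').1 := congrArg Prod.fst h
    have h2 : j = j' := congrArg Prod.snd h
    have h3 : l = l' := e.injective (Subtype.ext h1)
    rw [h2, h3]

end M16

alias select := M16.select

end ImmLog
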