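import Pool.Agent.ImmLog.Defs2

set_option autoImplicit false

open Classical Finset

namespace ImmLog

namespace M17

variable {V : Type*} [Fintype V]



theorem cut_eq_sum (G : SimpleGraph V) (S : Finset V) :
    cut G S = ∑ e : V × V, if e.1 ∈ S ∧ e.2 ∉ S ∧ G.Adj e.1 e.2 then 1 else 0 := by
  unfold cut
  rw [Finset.card_filter]

theorem two_cut (G : SimpleGraph V) (S : Finset V) :
    2 * cut G S = ∑ e : V × V, ((if e.1 ∈ S ∧ e.2 ∉ S ∧ G.Adj e.1 e.2 then 1 else 0) +
      (if e.2 ∈ S ∧ e.1 ∉ S ∧ G.Adj e.1 e.2 then 1 else 0)) := by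
  rw [Finset.sum_add_distrib, two_mul, cut_eq_sum]
  congr 1
  refine Fintype.sum_equiv (Equiv.prodComm V V) _ _ ?_
  intro e
  simp only [Equiv.prodComm_apply, Prod.fst_swap, Prod.snd_swap]
  refine if_congr ?_ rfl rfl
  rw [G.adj_comm e.1 e.2]

/-- posimodularity of the cut function -/
theorem posimod (G : SimpleGraph V) (A S : Finset V) :
    cut G (A \ S) + cut G (S \ A) ≤ cut G A + cut G S := by
  have h : 2 * cut G (A \ S) + 2 * cut G (S \ A) ≤ 2 * cut G A + 2 * cut G S := by
    rw [two_cut, two_cut, two_cut, two_cut, ← Finset.sum_add_distrib, ← Finset.sum_add_distrib]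
    refine Finset.sum_le_sum fun e _ => ?_
    simp only [Finset.mem_sdiff]
    by_cases h1 : e.1 ∈ A <;> by_cases h2 : e.2 ∈ A <;> by_cases h3 : e.1 ∈ S <;>
      by_cases h4 : e.2 ∈ S <;> by_cases h5 : G.Adj e.1 e.2 <;> simp [h1, h2, h3, h4, h5]
  omega

/-- Cluster lemma (uncrossing). -/
theorem clusters (H : SimpleGraph V) (Y : Finset V) (Δ K0 : ℕ) (hK0 : 1 ≤ K0)
    (hsmall : ∀ S : Finset V, S.Nonempty → 2 * S.card ≤ Fintype.card V → cut H S < Δ →
      S.card ≤ K0 ∧ Disjoint S Y) :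
    ∃ P : Finset (Finset V), (∀ A ∈ P, A.Nonempty) ∧
      (∀ A ∈ P, ∀ B ∈ P, A ≠ B → Disjoint A B) ∧ (∀ A ∈ P, A.card ≤ K0) ∧
      (∀ A ∈ P, Disjoint A Y) ∧ (∀ A ∈ P, cut H A ≤ Δ) ∧
      (∀ v, v ∉ Y → vol H {v} ≤ Δ → ∃ A ∈ P, v ∈ A) ∧
      (∀ A ∈ P, ∀ S, A ⊆ S → 2 * S.card ≤ Fintype.card V → cut H A ≤ cut H S) := by
  let Good : Finset (Finset V) → Prop := fun P => (∀ A ∈ P, A.Nonempty) ∧
      (∀ A ∈ P, ∀ B ∈ P, A ≠ B → Disjoint A B) ∧ (∀ A ∈ P, A.card ≤ K0) ∧
      (∀ A ∈ P, Disjoint A Y) ∧ (∀ A ∈ P, cut H A ≤ Δ) ∧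
      (∀ v, v ∉ Y → vol H {v} ≤ Δ → ∃ A ∈ P, v ∈ A)
  have h0 : Good ((univ.filter (fun v => v ∉ Y ∧ vol H {v} ≤ Δ)).image (fun v => {v})) := by
    refine ⟨?_, ?_, ?_, ?_, ?_, ?_⟩
    · intro A hA
      obtain ⟨v, _, rfl⟩ := Finset.mem_image.1 hA
      exact Finset.singleton_nonempty v
    · intro A hA B hB hAB
      obtain ⟨v, _, rfl⟩ := Finset.mem_image.1 hA
      obtain ⟨w, _, rfl⟩ := Finset.mem_image.1 hB
      rw [Finset.disjoint_singleton]
      intro h; apply hAB; rw [h]
    · intro A hA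
      obtain ⟨v, _, rfl⟩ := Finset.mem_image.1 hA
      simpa using hK0
    · intro A hA
      obtain ⟨v, hv, rfl⟩ := Finset.mem_image.1 hA
      rw [Finset.disjoint_singleton_left]
      exact (Finset.mem_filter.1 hv).2.1
    · intro A hA
      obtain ⟨v, hv, rfl⟩ := Finset.mem_image.1 hA
      refine le_trans ?_ (Finset.mem_filter.1 hv).2.2
      unfold cut vol
      refine Finset.card_le_card ?_
      intro e he
      simp only [Finset.mem_filter, Finset.mem_univ, true_and] at he ⊢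
      exact ⟨he.1, he.2.2⟩
    · intro v hv hv2
      exact ⟨{v}, Finset.mem_image.2 ⟨v, by simp [hv, hv2], rfl⟩, Finset.mem_singleton_self v⟩
  obtain ⟨P, hP, hmin⟩ := Set.exists_min_image {P | Good P} (fun P => ∑ A ∈ P, cut H A)
    (Set.toFinite _) ⟨_, h0⟩
  obtain ⟨g1, g2, g3, g4, g5, g6⟩ := hP
  refine ⟨P, g1, g2, g3, g4, g5, g6, ?_⟩
  intro A hA
  suffices hn : ∀ n : ℕ, ∀ S : Finset V, S.card = n → A ⊆ S → 2 * S.card ≤ Fintype.card V →
      cut H A ≤ cut H S from fun S => hn S.card S rfl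
  intro n
  induction n using Nat.strong_induction_on with
  | _ n ih =>
    intro S hSn hAS hSc
    by_contra hlt
    push Not at hlt
    have hSne : S.Nonempty := (g1 A hA).mono hAS
    have hSΔ : cut H S < Δ := hlt.trans_le (g5 A hA)
    obtain ⟨hSK, hSY⟩ := hsmall S hSne hSc hSΔ
    have hle : ∀ B ∈ P.erase A, cut H (B \ S) ≤ cut H B := by
      intro B hB
      obtain ⟨hBA, hBP⟩ := Finset.mem_erase.1 hB
      by_cases hd : Disjoint B S
      · rw [Finset.sdiff_eq_self_of_disjoint hd]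
      · have hAB : Disjoint A B := g2 A hA B hBP (Ne.symm hBA)
        have h1 : A ⊆ S \ B := by
          intro x hx
          exact Finset.mem_sdiff.2 ⟨hAS hx, fun h => Finset.disjoint_left.1 hAB hx h⟩
        have h2 : (S \ B).card < n := by
          rw [← hSn]
          apply Finset.card_lt_card
          rw [Finset.ssubset_iff_of_subset Finset.sdiff_subset]
          obtain ⟨x, hx, hx2⟩ := Finset.not_disjoint_iff.1 hd
          exact ⟨x, hx2, fun h => (Finset.mem_sdiff.1 h).2 hx⟩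
        have h3 := ih _ h2 (S \ B) rfl h1 (by omega)
        have h4 := posimod H B S
        omega
    let P' : Finset (Finset V) := insert S (((P.erase A).image (fun B => B \ S)).filter Finset.Nonempty)
    have hmem : ∀ C, C ∈ P' ↔ C = S ∨ ((∃ B ∈ P.erase A, B \ S = C) ∧ C.Nonempty) := by
      intro C
      simp only [P', Finset.mem_insert, Finset.mem_filter, Finset.mem_image]
    have hG : Good P' := by
      refine ⟨?_, ?_, ?_, ?_, ?_, ?_⟩
      · intro C hC
        rcases (hmem C).1 hC with rfl | ⟨_, h⟩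
        · exact hSne
        · exact h
      · intro C hC D hD hCD
        rcases (hmem C).1 hC with rfl | ⟨⟨B, hB, rfl⟩, h⟩
        · rcases (hmem D).1 hD with rfl | ⟨⟨B', hB', rfl⟩, h'⟩
          · exact absurd rfl hCD
          · exact Finset.disjoint_sdiff
        · rcases (hmem D).1 hD with rfl | ⟨⟨B', hB', rfl⟩, h'⟩
          · exact Finset.sdiff_disjoint
          · have hBB : B ≠ B' := fun h => hCD (by rw [h])
            exact (g2 B (Finset.mem_of_mem_erase hB) B' (Finset.mem_of_mem_erase hB') hBB).mono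
              Finset.sdiff_subset Finset.sdiff_subset
      · intro C hC
        rcases (hmem C).1 hC with rfl | ⟨⟨B, hB, rfl⟩, h⟩
        · exact hSK
        · exact (Finset.card_le_card Finset.sdiff_subset).trans (g3 B (Finset.mem_of_mem_erase hB))
      · intro C hC
        rcases (hmem C).1 hC with rfl | ⟨⟨B, hB, rfl⟩, h⟩
        · exact hSY
        · exact (g4 B (Finset.mem_of_mem_erase hB)).mono_left Finset.sdiff_subset
      · intro C hC
        rcases (hmem C).1 hC with rfl | ⟨⟨B, hB, rfl⟩, h⟩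
        · exact hSΔ.le
        · exact (hle B hB).trans (g5 B (Finset.mem_of_mem_erase hB))
      · intro v hv hv2
        obtain ⟨B, hB, hvB⟩ := g6 v hv hv2
        by_cases hvS : v ∈ S
        · exact ⟨S, (hmem S).2 (Or.inl rfl), hvS⟩
        · have hBA : B ≠ A := by
            rintro rfl
            exact hvS (hAS hvB)
          have hvBS : v ∈ B \ S := Finset.mem_sdiff.2 ⟨hvB, hvS⟩
          exact ⟨B \ S, (hmem _).2 (Or.inr ⟨⟨B, Finset.mem_erase.2 ⟨hBA, hB⟩, rfl⟩, ⟨v, hvBS⟩⟩), hvBS⟩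
    have h1 := hmin P' hG
    have h2 : ∑ C ∈ P', cut H C ≤ cut H S + ∑ B ∈ P.erase A, cut H (B \ S) := by
      calc ∑ C ∈ P', cut H C ≤ cut H S +
            ∑ C ∈ ((P.erase A).image (fun B => B \ S)).filter Finset.Nonempty, cut H C := by
            by_cases hS' : S ∈ ((P.erase A).image (fun B => B \ S)).filter Finset.Nonempty
            · simp only [P']
              rw [Finset.insert_eq_of_mem hS']
              omega
            · simp only [P']
              rw [Finset.sum_insert hS']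
        _ ≤ cut H S + ∑ C ∈ (P.erase A).image (fun B => B \ S), cut H C := by
            gcongr
            exact Finset.filter_subset _ _
        _ ≤ cut H S + ∑ B ∈ P.erase A, cut H (B \ S) := by
            gcongr
            exact Finset.sum_image_le_of_nonneg (fun _ _ => Nat.zero_le _)
    have h3 : ∑ B ∈ P.erase A, cut H (B \ S) ≤ ∑ B ∈ P.erase A, cut H B := Finset.sum_le_sum hle
    have h4 : ∑ B ∈ P, cut H B = cut H A + ∑ B ∈ P.erase A, cut H B :=
      (Finset.add_sum_erase P (fun B => cut H B) hA).symm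
    have h5 : ∑ B ∈ P, cut H B ≤ ∑ C ∈ P', cut H C := h1
    omega

end M17

alias clusters := M17.clusters

end ImmLog
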