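import Pool.Agent.ImmLog.Defs2
import Pool.Agent.ImmLog.M17

set_option autoImplicit false

open Classical Finset

namespace ImmLog

namespace M18a

variable {V : Type*} [Fintype V]








theorem eb_sum (G : SimpleGraph V) (S Y : Finset V) :
    eb G S Y = ∑ u ∈ S, ∑ v ∈ Y, (if G.Adj u v then 1 else 0) := by
  have h1 : (univ : Finset (V × V)).filter (fun e => e.1 ∈ S ∧ e.2 ∈ Y ∧ G.Adj e.1 e.2) =
      (S ×ˢ Y).filter (fun e => G.Adj e.1 e.2) := by
    ext e
    simp only [mem_filter, mem_univ, true_and, mem_product]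
    tauto
  rw [eb, h1, card_filter, sum_product]

theorem vol_eq (G : SimpleGraph V) (S : Finset V) : vol G S = eb G S univ := by
  rw [vol, eb]; congr 1; ext e; simp

theorem inn_eq (G : SimpleGraph V) (S : Finset V) : inn G S = eb G S S := rfl

theorem cut_eq (G : SimpleGraph V) (S : Finset V) : cut G S = eb G S Sᶜ := by
  rw [cut, eb]; congr 1; ext e; simp

theorem nd_eq (G : SimpleGraph V) : nd G = eb G univ univ := by
  rw [nd, eb]; congr 1; ext e; simp

theorem eb_comm (G : SimpleGraph V) (S Y : Finset V) : eb G S Y = eb G Y S := by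
  rw [eb_sum, eb_sum, sum_comm]
  refine sum_congr rfl fun u _ => sum_congr rfl fun v _ => ?_
  simp only [G.adj_comm]

theorem eb_mono (G : SimpleGraph V) {S T Y Z : Finset V} (h1 : S ⊆ T) (h2 : Y ⊆ Z) :
    eb G S Y ≤ eb G T Z := by
  rw [eb, eb]
  refine card_le_card fun e he => ?_
  simp only [mem_filter, mem_univ, true_and] at he ⊢
  exact ⟨h1 he.1, h2 he.2.1, he.2.2⟩

theorem eb_union (G : SimpleGraph V) {S T : Finset V} (Y : Finset V) (h : Disjoint S T) :
    eb G (S ∪ T) Y = eb G S Y + eb G T Y := by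
  rw [eb_sum, eb_sum, eb_sum, sum_union h]

theorem eb_biUnion (G : SimpleGraph V) (P : Finset (Finset V)) (Y : Finset V)
    (h : ∀ A ∈ P, ∀ B ∈ P, A ≠ B → Disjoint A B) :
    eb G (P.biUnion id) Y = ∑ A ∈ P, eb G A Y := by
  rw [eb_sum, sum_biUnion]
  · exact sum_congr rfl fun A _ => (eb_sum G A Y).symm
  · intro A hA B hB hne
    exact h A hA B hB hne

theorem vol_split (G : SimpleGraph V) (S : Finset V) : vol G S = inn G S + cut G S := by
  rw [vol_eq, inn_eq, cut_eq, eb_comm, eb_comm G S S, eb_comm G S Sᶜ,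
    ← eb_union G S (disjoint_compl_right), union_compl]

theorem card_small_subsets (Y : Finset V) (Δ : ℕ) :
    (Y.powerset.filter (fun S => S.card ≤ Δ)).card ≤ (Y.card + 1) ^ Δ := by
  induction Δ with
  | zero =>
    rw [pow_zero]
    refine card_le_one.2 ?_
    intro a ha b hb
    simp only [mem_filter, Nat.le_zero, card_eq_zero] at ha hb
    rw [ha.2, hb.2]
  | succ Δ ih =>
    have hsub : Y.powerset.filter (fun S => S.card ≤ Δ + 1) ⊆
        ((Y.powerset.filter (fun S => S.card ≤ Δ)) ×ˢ (insertNone Y)).image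
          (fun p => match p.2 with
            | none => p.1
            | some y => insert y p.1) := by
      intro S hS
      simp only [mem_filter, mem_powerset] at hS
      rw [mem_image]
      by_cases hc : S.card ≤ Δ
      · exact ⟨(S, none), by simp [hS.1, hc], rfl⟩
      · have hne : S.Nonempty := card_pos.1 (by omega)
        obtain ⟨y, hy⟩ := hne
        refine ⟨(S.erase y, some y), ?_, ?_⟩
        · simp only [mem_product, mem_filter, mem_powerset, card_erase_of_mem hy]
          refine ⟨⟨(erase_subset _ _).trans hS.1, by omega⟩, ?_⟩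
          simpa using hS.1 hy
        · simp only
          exact insert_erase hy
    refine (card_le_card hsub).trans (card_image_le.trans ?_)
    rw [card_product, pow_succ]
    have : (insertNone Y).card = Y.card + 1 := by simp
    rw [this]
    exact Nat.mul_le_mul_right _ ih

/-- Case of few high degree vertices: clusters, counting and pigeonhole. -/
theorem case_clusters (H : SimpleGraph V) (I ε D0 : ℝ) (hI : 0 ≤ I) (hε : 0 < ε) (hD : 1 ≤ D0)
    (Y : Finset V) (Δ Δ' K0 K : ℕ) (hK0 : 1 ≤ K0)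
    (hlo : (I + ε / 4) * Fintype.card V ≤ nd H)
    (hDB : ∀ S : Finset V, S ≠ univ → (inn H S : ℝ) ≤ D0 * S.card)
    (hY : ∀ v, v ∈ Y ↔ Δ' < vol H {v}) (hYu : Y ≠ univ)
    (hsmall : ∀ S : Finset V, S.Nonempty → 2 * S.card ≤ Fintype.card V → cut H S < Δ →
      S.card ≤ K0 ∧ Disjoint S Y)
    (hgap : (vol H (univ.filter (fun v => Δ < vol H {v} ∧ vol H {v} ≤ Δ')) : ℝ) ≤
      ε / 100 * Fintype.card V)
    (hYc : D0 * Y.card ≤ ε / 100 * Fintype.card V) (hK : 2 * (D0 * K0) + 2 * Δ ≤ K)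
    (hKc : K0 < Fintype.card V)
    (W : ℕ) (hW : (W : ℝ) * (2 * (D0 * K0 + Δ) * (Δ + 1) * (Y.card + 1) ^ Δ) ≤
      ε / 16 * Fintype.card V) :
    ∃ (Y0 : Finset V) (q : ℕ) (fam : Finset (Finset V)), q ≤ K ∧ Y0.card ≤ K ∧
      Terms H fam (fun A => Ex H A Y0) q K (Fintype.card V / 2) ∧
      (∀ A ∈ fam, Disjoint A Y0) ∧
      (∀ A ∈ fam, (I + ε / 16) * A.card ≤ inn H A + q + 2 * eb H A Y0) ∧
      W ≤ fam.card := by
  obtain ⟨P, hPne, hPdis, hPcard, hPY, hPcut, hPcov, hPmin⟩ := clusters H Y Δ K0 hK0 hsmall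
  set PU := P.biUnion id with hPU
  have hPUY : Disjoint PU Y := by
    rw [hPU, disjoint_biUnion_left]
    exact fun A hA => hPY A hA
  set U := (PU ∪ Y)ᶜ with hU
  have hUgap : U ⊆ univ.filter (fun v => Δ < vol H {v} ∧ vol H {v} ≤ Δ') := by
    intro v hv
    rw [hU, mem_compl, mem_union, not_or] at hv
    rw [mem_filter]
    refine ⟨mem_univ _, ?_, ?_⟩
    · by_contra hcon
      obtain ⟨A, hA, hvA⟩ := hPcov v hv.2 (not_lt.1 hcon)
      exact hv.1 (mem_biUnion.2 ⟨A, hA, hvA⟩)
    · by_contra hcon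
      exact hv.2 ((hY v).2 (not_le.1 hcon))
  have hvolU : (vol H U : ℝ) ≤ ε / 100 * Fintype.card V := by
    refine le_trans ?_ hgap
    have := eb_mono H hUgap (Subset.refl (univ : Finset V))
    rw [← vol_eq, ← vol_eq] at this
    exact_mod_cast this
  have hdisU : Disjoint (PU ∪ Y) U := disjoint_compl_right
  have huniv : (univ : Finset V) = (PU ∪ Y) ∪ U := by rw [hU, union_compl]
  have hsplit : ∀ Z : Finset V, eb H univ Z = eb H PU Z + eb H Y Z + eb H U Z := by
    intro Z
    conv_lhs => rw [huniv]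
    rw [eb_union H Z hdisU, eb_union H Z hPUY]
  -- the sum over clusters
  have hnd : nd H = ∑ A ∈ P, (inn H A + cut H A) + vol H Y + vol H U := by
    rw [nd_eq, hsplit, ← vol_eq, ← vol_eq, ← vol_eq, vol_eq H PU, hPU, eb_biUnion H P univ hPdis]
    congr 2
    exact sum_congr rfl fun A _ => by rw [← vol_eq, vol_split]
  have hvolY : vol H Y ≤ ∑ A ∈ P, eb H A Y + inn H Y + vol H U := by
    rw [vol_eq H Y, eb_comm, hsplit, hPU, eb_biUnion H P Y hPdis]
    have h1 : eb H U Y ≤ vol H U := by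
      rw [vol_eq]; exact eb_mono H (Subset.refl _) (subset_univ _)
    have h2 : eb H Y Y = inn H Y := rfl
    omega
  have hinnY : (inn H Y : ℝ) ≤ ε / 100 * Fintype.card V := (hDB Y hYu).trans hYc
  have hPsum : (∑ A ∈ P, A.card : ℕ) ≤ Fintype.card V := by
    have h1 : (P.biUnion id).card = ∑ A ∈ P, A.card := by
      rw [card_biUnion]
      · rfl
      · intro A hA B hB hne
        exact hPdis A hA B hB hne
    rw [← h1]
    exact card_le_univ _
  set sc : Finset V → ℝ := fun A => (inn H A : ℝ) + cut H A + eb H A Y - (I + ε / 16) * A.card with hsc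
  have hcardV : (0 : ℝ) ≤ Fintype.card V := Nat.cast_nonneg _
  have hscsum : ε / 16 * Fintype.card V ≤ ∑ A ∈ P, sc A := by
    have h1 : ∑ A ∈ P, sc A = ((∑ A ∈ P, (inn H A + cut H A) : ℕ) : ℝ) + ((∑ A ∈ P, eb H A Y : ℕ) : ℝ)
        - (I + ε / 16) * ((∑ A ∈ P, A.card : ℕ) : ℝ) := by
      push_cast
      rw [mul_sum, ← sum_add_distrib, ← sum_sub_distrib]
    rw [h1]
    have h2 : (nd H : ℝ) ≤ ((∑ A ∈ P, (inn H A + cut H A) : ℕ) : ℝ) + ((∑ A ∈ P, eb H A Y : ℕ) : ℝ)
        + inn H Y + 2 * vol H U := by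
      have : nd H ≤ (∑ A ∈ P, (inn H A + cut H A)) + (∑ A ∈ P, eb H A Y) + inn H Y + 2 * vol H U := by
        omega
      exact_mod_cast this
    have h3 : ((∑ A ∈ P, A.card : ℕ) : ℝ) ≤ Fintype.card V := by exact_mod_cast hPsum
    have h4 : (I + ε / 16) * ((∑ A ∈ P, A.card : ℕ) : ℝ) ≤ (I + ε / 16) * Fintype.card V :=
      mul_le_mul_of_nonneg_left h3 (by positivity)
    nlinarith
  have hM : (0 : ℝ) < 2 * (D0 * K0 + Δ) := by
    have : (1 : ℝ) ≤ K0 := by exact_mod_cast hK0
    have h2 : (0 : ℝ) ≤ Δ := Nat.cast_nonneg _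
    nlinarith
  have hebcut : ∀ A ∈ P, eb H A Y ≤ cut H A := by
    intro A hA
    rw [cut_eq]
    refine eb_mono H (Subset.refl _) ?_
    intro y hy
    rw [mem_compl]
    intro hyA
    exact (disjoint_left.1 (hPY A hA)) hyA hy
  have hinnA : ∀ A ∈ P, (inn H A : ℝ) ≤ D0 * K0 := by
    intro A hA
    have hne : A ≠ univ := by
      rintro rfl
      have := hPcard _ hA
      rw [card_univ] at this
      omega
    refine (hDB A hne).trans ?_
    exact mul_le_mul_of_nonneg_left (by exact_mod_cast hPcard A hA) (by linarith)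
  have hscle : ∀ A ∈ P, sc A ≤ 2 * (D0 * K0 + Δ) := by
    intro A hA
    have h1 := hinnA A hA
    have h2 : (cut H A : ℝ) ≤ Δ := by exact_mod_cast hPcut A hA
    have h3 : (eb H A Y : ℝ) ≤ Δ := by exact_mod_cast (hebcut A hA).trans (hPcut A hA)
    have h4 : (0 : ℝ) ≤ (I + ε / 16) * A.card := by positivity
    have h5 : (0 : ℝ) ≤ D0 * K0 := by positivity
    simp only [hsc]
    linarith
  set Pp := P.filter (fun A => 0 ≤ sc A) with hPp
  have hPpc : ε / 16 * Fintype.card V ≤ Pp.card * (2 * (D0 * K0 + Δ)) := by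
    refine hscsum.trans ?_
    have h1 : ∑ A ∈ P, sc A ≤ ∑ A ∈ Pp, sc A := by
      rw [← sum_filter_add_sum_filter_not P (fun A => 0 ≤ sc A)]
      have : ∑ A ∈ P.filter (fun A => ¬ 0 ≤ sc A), sc A ≤ 0 := by
        refine sum_nonpos fun A hA => ?_
        exact (not_le.1 (mem_filter.1 hA).2).le
      linarith
    refine h1.trans ?_
    rw [← nsmul_eq_mul]
    exact sum_le_card_nsmul _ _ _ fun A hA => hscle A (mem_filter.1 hA).1
  -- classes
  set t : Finset (Finset V × ℕ) := (Y.powerset.filter (fun S => S.card ≤ Δ)) ×ˢ range (Δ + 1) with ht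
  set cl : Finset V → Finset V × ℕ := fun A =>
    (Y.filter (fun y => ∃ a ∈ A, H.Adj a y), cut H A - eb H A Y) with hcl
  have hmaps : ∀ A ∈ Pp, cl A ∈ t := by
    intro A hA
    have hAP := (mem_filter.1 hA).1
    have h1 := hPcut A hAP
    have h2 := hebcut A hAP
    have h3 : (Y.filter (fun y => ∃ a ∈ A, H.Adj a y)).card ≤ eb H A Y := by
      rw [eb]
      refine card_le_card_of_surjOn (fun e => e.2) ?_
      intro y hy
      simp only [coe_filter, Set.mem_ofPred_eq] at hy
      obtain ⟨hyY, a, ha, hadj⟩ := hy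
      refine ⟨(a, y), ?_, rfl⟩
      simp only [coe_filter, Set.mem_ofPred_eq, mem_univ, true_and]
      exact ⟨ha, hyY, hadj⟩
    simp only [ht, hcl, mem_product, mem_filter, mem_powerset, mem_range]
    exact ⟨⟨filter_subset _ _, by omega⟩, by omega⟩
  have htc : t.card * W ≤ Pp.card := by
    have h1 : t.card ≤ (Δ + 1) * (Y.card + 1) ^ Δ := by
      rw [ht, card_product, card_range, mul_comm]
      exact Nat.mul_le_mul_left _ (card_small_subsets Y Δ)
    have h2 : (2 * (D0 * K0 + Δ)) * ((W : ℝ) * ((Δ + 1) * (Y.card + 1) ^ Δ)) ≤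
        (2 * (D0 * K0 + Δ)) * Pp.card := by
      calc (2 * (D0 * K0 + Δ)) * ((W : ℝ) * ((Δ + 1) * (Y.card + 1) ^ Δ))
          = (W : ℝ) * (2 * (D0 * K0 + Δ) * (Δ + 1) * (Y.card + 1) ^ Δ) := by ring
        _ ≤ _ := hW.trans hPpc
        _ = _ := by ring
    have h3 : (W : ℝ) * ((Δ + 1) * (Y.card + 1) ^ Δ) ≤ Pp.card := le_of_mul_le_mul_left h2 hM
    have h4 : W * ((Δ + 1) * (Y.card + 1) ^ Δ) ≤ Pp.card := by exact_mod_cast h3
    calc t.card * W ≤ ((Δ + 1) * (Y.card + 1) ^ Δ) * W := Nat.mul_le_mul_right _ h1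
      _ = W * ((Δ + 1) * (Y.card + 1) ^ Δ) := mul_comm _ _
      _ ≤ _ := h4
  have htne : t.Nonempty := ⟨(∅, 0), by simp [ht]⟩
  obtain ⟨⟨Y0, q⟩, hYq, hfam⟩ := exists_le_card_fiber_of_mul_le_card_of_maps_to hmaps htne htc
  have hYq' : (Y0 ⊆ Y ∧ Y0.card ≤ Δ) ∧ q < Δ + 1 := by
    simpa [ht, mem_product, mem_filter, mem_powerset, mem_range] using hYq
  have hD0K0 : (0 : ℝ) ≤ D0 * K0 := by positivity
  have hΔK : Δ ≤ K := by
    have h2 : (0 : ℝ) ≤ Δ := Nat.cast_nonneg _
    have : (Δ : ℝ) ≤ K := by linarith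
    exact_mod_cast this
  have hK0K : K0 ≤ K := by
    have h1 : (K0 : ℝ) ≤ D0 * K0 := by
      have : (0 : ℝ) ≤ K0 := Nat.cast_nonneg _
      nlinarith
    have h2 : (0 : ℝ) ≤ Δ := Nat.cast_nonneg _
    have : (K0 : ℝ) ≤ K := by linarith
    exact_mod_cast this
  -- facts on members of the class
  have hmem : ∀ A ∈ Pp.filter (fun A => cl A = (Y0, q)), A ∈ P ∧ 0 ≤ sc A ∧
      eb H A Y0 = eb H A Y ∧ q + eb H A Y = cut H A := by
    intro A hA
    obtain ⟨hA1, hA2⟩ := mem_filter.1 hA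
    obtain ⟨hA3, hA4⟩ := mem_filter.1 hA1
    simp only [hcl, Prod.mk.injEq] at hA2
    obtain ⟨h1, h2⟩ := hA2
    refine ⟨hA3, hA4, ?_, ?_⟩
    · rw [← h1, eb, eb]
      congr 1
      ext e
      simp only [mem_filter, mem_univ, true_and]
      constructor
      · rintro ⟨h3, ⟨h4, _⟩, h5⟩
        exact ⟨h3, h4, h5⟩
      · rintro ⟨h3, h4, h5⟩
        exact ⟨h3, ⟨h4, e.1, h3, h5⟩, h5⟩
    · have := hebcut A hA3
      omega
  refine ⟨Y0, q, Pp.filter (fun A => cl A = (Y0, q)), by omega, by omega, ?_, ?_, ?_, hfam⟩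
  · constructor
    · intro A hA; exact hPne A (hmem A hA).1
    · intro A hA B hB hne; exact hPdis A (hmem A hA).1 B (hmem B hB).1 hne
    · intro A hA; exact (hPcard A (hmem A hA).1).trans hK0K
    · intro A hA u v huv; exact huv.1
    · intro A hA u v huv
      rcases huv.2 with h | h | h
      · exact Or.inl h.1
      · exact Or.inl h.1
      · exact Or.inr h.2
    · intro A hA
      obtain ⟨hAP, _, h2, h3⟩ := hmem A hA
      have h4 : nd (Ex H A Y0) ≤ inn H A + (eb H A Y0 + eb H Y0 A) := by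
        rw [nd, inn, eb, eb]
        refine le_trans (card_le_card ?_) ((card_union_le _ _).trans
          (Nat.add_le_add_left (card_union_le _ _) _))
        intro e he
        simp only [mem_filter, mem_univ, true_and, mem_union] at he ⊢
        obtain ⟨h5, h6⟩ := he
        tauto
      rw [eb_comm H Y0 A] at h4
      have h5 := hinnA A hAP
      have h6 := (hebcut A hAP).trans (hPcut A hAP)
      have h7 : (nd (Ex H A Y0) : ℝ) ≤ K := by
        have h8 : (nd (Ex H A Y0) : ℝ) ≤ inn H A + (eb H A Y0 + eb H A Y0) := by exact_mod_cast h4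
        have h9 : (eb H A Y0 : ℝ) ≤ Δ := by rw [h2]; exact_mod_cast h6
        linarith
      have h8 : nd (Ex H A Y0) ≤ K := by exact_mod_cast h7
      omega
    · intro A hA S hAS hSc
      obtain ⟨hAP, _, h2, h3⟩ := hmem A hA
      have h4 := hPmin A hAP S hAS (by omega)
      have h5 : cut H S ≤ cut (H \ Ex H A Y0) S + eb H A Y0 := by
        rw [cut, cut, eb]
        refine le_trans (card_le_card ?_) (card_union_le _ _)
        intro e he
        simp only [mem_filter, mem_univ, true_and, mem_union] at he ⊢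
        obtain ⟨h5, h6, h7⟩ := he
        by_cases hE : (Ex H A Y0).Adj e.1 e.2
        · right
          rcases hE.2 with h | h | h
          · exact absurd (hAS h.2) h6
          · exact ⟨h.1, h.2, h7⟩
          · exact absurd (hAS h.2) h6
        · left
          refine ⟨h5, h6, ?_⟩
          rw [SimpleGraph.sdiff_adj]
          exact ⟨h7, hE⟩
      omega
  · intro A hA
    exact (hPY A (hmem A hA).1).mono_right hYq'.1.1
  · intro A hA
    obtain ⟨hAP, h1, h2, h3⟩ := hmem A hA
    have h4 : (q : ℝ) + eb H A Y = cut H A := by exact_mod_cast h3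
    simp only [hsc] at h1
    rw [h2]
    linarith

end M18a

alias case_clusters := M18a.case_clusters

end ImmLog
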