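import Pool.Agent.ImmLog.Defs2

set_option autoImplicit false

open Classical Finset

namespace ImmLog

namespace M21b

variable {V : Type*} [Fintype V]









/-- `gf` is large except on bounded sets -/
theorem gf_small (ε C : ℝ) (hε : 0 < ε) : ∃ s0 h0 : ℕ, ∀ h : ℕ, h0 ≤ h → ∀ x : ℝ, 0 < x →
    ∀ s : ℕ, 1 ≤ s → 2 * s ≤ h → gf ε x h s < C → s ≤ s0 := by
  set K : ℝ := 2048 * C / ε with hK
  refine ⟨⌈K ^ 2⌉₊ + 2, 0, ?_⟩
  intro h _ x hx s hs hsh hC
  by_contra hcon
  push Not at hcon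
  have hs2 : 2 ≤ s := by omega
  have hh4 : 4 ≤ h := by omega
  have hs0 : (0 : ℝ) < s := by positivity
  have hsK : K ^ 2 < s := by
    have h1 : K ^ 2 ≤ (⌈K ^ 2⌉₊ : ℝ) := Nat.le_ceil _
    have h2 : ((⌈K ^ 2⌉₊ + 2 : ℕ) : ℝ) < (s : ℝ) := by exact_mod_cast hcon
    push_cast at h2
    linarith
  set a : ℝ := Real.log s with ha
  set b : ℝ := Real.log h with hb
  have ha0 : 0 ≤ a := Real.log_nonneg (by exact_mod_cast hs)
  have hl2 : (1 / 2 : ℝ) ≤ Real.log 2 := by
    have := Real.log_two_gt_d9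
    linarith
  have hab : a + Real.log 2 ≤ b := by
    rw [ha, hb, add_comm, ← Real.log_mul (by norm_num) hs0.ne']
    apply Real.log_le_log (by positivity)
    exact_mod_cast hsh
  have hb1 : 1 ≤ b := by
    have h1 : Real.log 4 ≤ b := Real.log_le_log (by norm_num) (by exact_mod_cast hh4)
    have h2 : Real.log 4 = 2 * Real.log 2 := by
      rw [show (4 : ℝ) = 2 ^ 2 by norm_num, Real.log_pow]
      norm_num
    linarith
  have hkey : (1 + a) * (1 + b) ≤ (b - a) * (4 * (1 + 2 * a) ^ 2) := by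
    rcases le_total (2 * a) b with h1 | h1
    · have h2 : b / 2 * (4 * (1 + 2 * a) ^ 2) ≤ (b - a) * (4 * (1 + 2 * a) ^ 2) :=
        mul_le_mul_of_nonneg_right (by linarith) (by positivity)
      have h3 : (1 + b) * (1 + 2 * a) ^ 2 ≤ 2 * b * (1 + 2 * a) ^ 2 :=
        mul_le_mul_of_nonneg_right (by linarith) (by positivity)
      have h4 : 1 + a ≤ (1 + 2 * a) ^ 2 := by nlinarith
      have h5 : (1 + a) * (1 + b) ≤ (1 + 2 * a) ^ 2 * (1 + b) :=
        mul_le_mul_of_nonneg_right h4 (by linarith)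
      linarith
    · have h2 : 1 / 2 * (4 * (1 + 2 * a) ^ 2) ≤ (b - a) * (4 * (1 + 2 * a) ^ 2) :=
        mul_le_mul_of_nonneg_right (by linarith) (by positivity)
      have h3 : (1 + a) * (1 + b) ≤ (1 + 2 * a) * (1 + 2 * a) :=
        mul_le_mul (by linarith) (by linarith) (by linarith) (by linarith)
      nlinarith
  have hphi : ε / 8 * (1 / (4 * (1 + 2 * a) ^ 2)) ≤ phi ε x h - phi ε x s := by
    have h1 : phi ε x h - phi ε x s =
        ε / 8 * ((b - a) / x) + ε / 8 * ((b - a) / ((1 + a) * (1 + b))) := by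
      unfold phi
      rw [← ha, ← hb]
      have h2 : (1 + a) ≠ 0 := by linarith
      have h3 : (1 + b) ≠ 0 := by linarith
      field_simp
      ring
    rw [h1]
    have h2 : 0 ≤ ε / 8 * ((b - a) / x) := by
      have : 0 ≤ b - a := by linarith
      positivity
    have h3 : 1 / (4 * (1 + 2 * a) ^ 2) ≤ (b - a) / ((1 + a) * (1 + b)) := by
      rw [div_le_div_iff₀ (by positivity) (by positivity)]
      linarith
    have h4 := mul_le_mul_of_nonneg_left h3 (show 0 ≤ ε / 8 by positivity)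
    linarith
  set r : ℝ := Real.sqrt (Real.sqrt s) with hr
  have hr0 : 0 < r := Real.sqrt_pos.mpr (Real.sqrt_pos.mpr hs0)
  have hr2 : r ^ 2 = Real.sqrt s := Real.sq_sqrt (Real.sqrt_nonneg _)
  have hr4 : r ^ 4 = s := by
    have : r ^ 4 = (r ^ 2) ^ 2 := by ring
    rw [this, hr2, Real.sq_sqrt hs0.le]
  have har : a ≤ 4 * (r - 1) := by
    have h1 : a = 4 * Real.log r := by
      rw [ha, ← hr4, Real.log_pow]
      norm_num
    have h2 := Real.log_le_sub_one_of_pos hr0
    linarith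
  have h8 : (1 + 2 * a) ^ 2 ≤ (8 * r) ^ 2 := pow_le_pow_left₀ (by linarith) (by linarith) 2
  have hgf : ε * r ^ 2 / 2048 ≤ gf ε x h s := by
    unfold gf
    have h1 : (s : ℝ) * (ε / 8 * (1 / (4 * (1 + 2 * a) ^ 2))) ≤
        s * (phi ε x h - phi ε x s) := mul_le_mul_of_nonneg_left hphi hs0.le
    refine le_trans ?_ h1
    have h2 : 1 / (4 * (8 * r) ^ 2) ≤ 1 / (4 * (1 + 2 * a) ^ 2) :=
      one_div_le_one_div_of_le (by positivity) (by linarith)
    have h3 : ε * r ^ 2 / 2048 = s * (ε / 8 * (1 / (4 * (8 * r) ^ 2))) := by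
      rw [← hr4]
      field_simp
      norm_num
    rw [h3]
    apply mul_le_mul_of_nonneg_left _ hs0.le
    exact mul_le_mul_of_nonneg_left h2 (by positivity)
  have h9 : r ^ 2 < K := by
    rw [hK, lt_div_iff₀ hε]
    linarith
  have h10 : (r ^ 2) ^ 2 < K ^ 2 := pow_lt_pow_left₀ h9 (by positivity) two_ne_zero
  have h11 : (r ^ 2) ^ 2 = s := by rw [← hr4]; ring
  rw [h11] at h10
  linarith

end M21b

alias gf_small := M21b.gf_small

end ImmLog
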