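import Pool.Agent.ImmLog.Defs2
import Pool.Agent.ImmLog.M18a
import Pool.Agent.ImmLog.M21b

set_option autoImplicit false

open Classical Finset

namespace ImmLog

namespace M18b

variable {V : Type*} [Fintype V]


















theorem cut_pairs (H : SimpleGraph V) (S : Finset V) :
    ((univ : Finset (V × V)).filter (fun e => H.Adj e.1 e.2 ∧
      (if e.1 ∈ S then (1:ℕ) else 0) ≠ (if e.2 ∈ S then (1:ℕ) else 0))).card ≤ 2 * cut H S := by
  have hsub : ((univ : Finset (V × V)).filter (fun e => H.Adj e.1 e.2 ∧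
      (if e.1 ∈ S then (1:ℕ) else 0) ≠ (if e.2 ∈ S then (1:ℕ) else 0))) ⊆
      ((univ : Finset (V × V)).filter (fun e => e.1 ∈ S ∧ e.2 ∉ S ∧ H.Adj e.1 e.2)) ∪
      (((univ : Finset (V × V)).filter (fun e => e.1 ∈ S ∧ e.2 ∉ S ∧ H.Adj e.1 e.2)).map
        ⟨Prod.swap, Prod.swap_injective⟩) := by
    intro e he
    rw [mem_filter] at he
    obtain ⟨-, hadj, hne⟩ := he
    rw [mem_union]
    by_cases h1 : e.1 ∈ S <;> by_cases h2 : e.2 ∈ S
    · simp [h1, h2] at hne
    · left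
      rw [mem_filter]
      exact ⟨mem_univ _, h1, h2, hadj⟩
    · right
      rw [mem_map]
      refine ⟨(e.2, e.1), ?_, rfl⟩
      rw [mem_filter]
      exact ⟨mem_univ _, h2, h1, hadj.symm⟩
    · simp [h1, h2] at hne
  refine (card_le_card hsub).trans ((card_union_le _ _).trans ?_)
  rw [card_map, cut]
  omega

theorem vol_eq (H : SimpleGraph V) (S : Finset V) : vol H S = inn H S + cut H S := by
  rw [vol, inn, cut]
  rw [← Finset.card_union_of_disjoint]
  · congr 1
    ext e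
    simp only [mem_filter, mem_univ, true_and, mem_union]
    tauto
  · rw [Finset.disjoint_left]
    intro e h1 h2
    rw [mem_filter] at h1 h2
    exact h2.2.2.1 h1.2.2.1

theorem vol_mono (H : SimpleGraph V) {S T : Finset V} (h : S ⊆ T) : vol H S ≤ vol H T := by
  apply card_le_card
  intro e he
  rw [mem_filter] at he ⊢
  exact ⟨he.1, h he.2.1, he.2.2⟩

theorem cut_mono_of (H H' : SimpleGraph V) (S : Finset V)
    (h : ∀ u v, H.Adj u v → H'.Adj u v) : cut H S ≤ cut H' S := by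
  apply card_le_card
  intro e he
  rw [mem_filter] at he ⊢
  exact ⟨he.1, he.2.1, he.2.2.1, h _ _ he.2.2.2⟩

theorem small_sets (I ε : ℝ) (hI : 0 ≤ I) (hε : 0 < ε) (C : ℕ) :
    ∃ s0 h0 : ℕ, ∀ (m : ℕ) (H : SimpleGraph (Fin m)) (x : ℝ),
      Good ε x (I + ε + 1) (I + ε / 4) H → h0 ≤ m → ∀ S : Finset (Fin m), S.Nonempty →
      2 * S.card ≤ m → cut H S < C → S.card ≤ s0 ∧ vol H S ≤ C + ⌈(I + ε + 1) * s0⌉₊ := by
  obtain ⟨s0, h0, h⟩ := gf_small ε (2 * C) hε
  refine ⟨s0, h0, ?_⟩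
  intro m H x hG hm S hne h2 hc
  have h1 := hG.PI (fun v => if v ∈ S then 1 else 0)
  have himg : ((univ : Finset (Fin m)).image (fun v => if v ∈ S then (1:ℕ) else 0)).erase 0 = {1} := by
    ext i
    rw [mem_erase, mem_image, mem_singleton]
    constructor
    · rintro ⟨hi, v, -, hv⟩
      by_cases hvS : v ∈ S
      · rw [if_pos hvS] at hv; exact hv.symm
      · rw [if_neg hvS] at hv; exact absurd hv.symm hi
    · rintro rfl
      obtain ⟨v, hv⟩ := hne
      exact ⟨one_ne_zero, v, mem_univ _, if_pos hv⟩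
  rw [himg, sum_singleton] at h1
  have hfil : ((univ : Finset (Fin m)).filter (fun v => (if v ∈ S then (1:ℕ) else 0) = 1)) = S := by
    ext v
    rw [mem_filter]
    by_cases hvS : v ∈ S
    · simp [hvS]
    · simp [hvS]
  rw [hfil, Fintype.card_fin] at h1
  have h3 := cut_pairs H S
  have h4 : gf ε x m S.card < 2 * (C : ℝ) := by
    refine lt_of_le_of_lt h1 ?_
    have h30 : (cut H S : ℝ) < C := by exact_mod_cast hc
    have h31 : ((2 * cut H S : ℕ) : ℝ) < 2 * C := by
      push_cast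
      linarith
    refine lt_of_le_of_lt ?_ h31
    apply Nat.cast_le.2
    convert h3
  have h5 : S.card ≤ s0 := h m hm x hG.x_pos S.card (card_pos.2 hne) h2 h4
  refine ⟨h5, ?_⟩
  have hSu : S ≠ univ := by
    rintro rfl
    have h6 := hG.card_ge
    rw [Fintype.card_fin] at h6
    rw [Finset.card_univ, Fintype.card_fin] at h2
    omega
  have h6 := hG.DB S hSu
  have h7 : (inn H S : ℝ) ≤ ((⌈(I + ε + 1) * s0⌉₊ : ℕ) : ℝ) := by
    refine h6.trans (le_trans ?_ (Nat.le_ceil _))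
    apply mul_le_mul_of_nonneg_left
    · exact_mod_cast h5
    · linarith
  have h8 : inn H S ≤ ⌈(I + ε + 1) * s0⌉₊ := by exact_mod_cast h7
  rw [vol_eq]
  omega

theorem large (C δ c : ℝ) (hδ : 0 < δ) (hc : c < 1) :
    ∃ h : ℕ, ∀ m : ℕ, h ≤ m → C * (m : ℝ) ^ c ≤ δ * m := by
  have h1 : Filter.Tendsto (fun m : ℕ => (m : ℝ) ^ (1 - c)) Filter.atTop Filter.atTop :=
    (tendsto_rpow_atTop (by linarith)).comp tendsto_natCast_atTop_atTop
  have h2 := (h1.eventually_ge_atTop (C / δ)).and (Filter.eventually_ge_atTop 1)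
  obtain ⟨h, hh⟩ := Filter.eventually_atTop.1 h2
  refine ⟨h, fun m hm => ?_⟩
  obtain ⟨h3, h4⟩ := hh m hm
  have hm0 : (0 : ℝ) < m := by exact_mod_cast h4
  have h5 : C ≤ δ * (m : ℝ) ^ (1 - c) := by
    rw [div_le_iff₀ hδ] at h3
    linarith
  have h6 : (m : ℝ) ^ (1 - c) * (m : ℝ) ^ c = m := by
    rw [← Real.rpow_add hm0]
    simp
  calc C * (m : ℝ) ^ c ≤ (δ * (m : ℝ) ^ (1 - c)) * (m : ℝ) ^ c :=
        mul_le_mul_of_nonneg_right h5 (Real.rpow_nonneg hm0.le _)
    _ = δ * m := by rw [mul_assoc, h6]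

theorem sum_vol_le (H : SimpleGraph V) (n : ℕ) (M : ℕ → Finset V)
    (hd : ∀ i j, i < j → Disjoint (M i) (M j)) :
    ∑ i ∈ Finset.range n, vol H (M i) ≤ nd H := by
  have h1 : ∑ i ∈ Finset.range n, vol H (M i) =
      ((Finset.range n).biUnion (fun i =>
        (univ : Finset (V × V)).filter (fun e => e.1 ∈ M i ∧ H.Adj e.1 e.2))).card := by
    rw [Finset.card_biUnion]
    · rfl
    · intro i _ j _ hij
      show Disjoint _ _
      rw [Finset.disjoint_left]
      intro e h1 h2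
      rw [mem_filter] at h1 h2
      rcases lt_or_gt_of_ne hij with h | h
      · exact Finset.disjoint_left.1 (hd i j h) h1.2.1 h2.2.1
      · exact Finset.disjoint_left.1 (hd j i h) h2.2.1 h1.2.1
  rw [h1, nd]
  apply card_le_card
  intro e he
  rw [mem_biUnion] at he
  obtain ⟨i, -, hi⟩ := he
  rw [mem_filter] at hi ⊢
  exact ⟨hi.1, hi.2.2⟩

/-- The dichotomy: a large family of terminals. -/
theorem dichotomy (I ε : ℝ) (hI : 0 ≤ I) (hε : 0 < ε) :
    ∃ (K : ℕ) (b : ℝ) (h0 : ℕ), 0 < b ∧ b ≤ 1 ∧ 1 ≤ K ∧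
      ∀ (m : ℕ) (H : SimpleGraph (Fin m)) (x : ℝ),
      Good ε x (I + ε + 1) (I + ε / 4) H → h0 ≤ m →
      ∃ (Y0 : Finset (Fin m)) (q : ℕ) (fam : Finset (Finset (Fin m))), q ≤ K ∧ Y0.card ≤ K ∧
        Terms H fam (fun A => Ex H A Y0) q K (m / 2) ∧
        (∀ A ∈ fam, Disjoint A Y0) ∧
        (∀ A ∈ fam, (I + ε / 16) * A.card ≤ inn H A + q + 2 * eb H A Y0) ∧
        (m : ℝ) ^ b ≤ fam.card := by
  choose sC hC hsm using small_sets I ε hI hε
  set D0 : ℝ := I + ε + 1 with hD0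
  have hD1 : 1 ≤ D0 := by linarith
  set vC : ℕ → ℕ := fun C => C + ⌈D0 * sC C⌉₊ with hvC
  set Q1 : ℕ := ⌈I + ε / 16⌉₊ with hQ1
  let Δ : ℕ → ℕ := fun i => Nat.rec (vC Q1 + Q1 + 1) (fun _ d => vC d + d + 1) i
  have hΔ0 : Δ 0 = vC Q1 + Q1 + 1 := rfl
  have hΔs : ∀ i, Δ (i + 1) = vC (Δ i) + Δ i + 1 := fun i => rfl
  have hΔm : StrictMono Δ := by
    apply strictMono_nat_of_lt_succ
    intro i
    rw [hΔs]
    omega
  clear_value Δ
  set K0 : ℕ → ℕ := fun i => max 1 (sC (Δ i)) with hK0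
  set n0 : ℕ := ⌈200 * D0 * 2 / ε⌉₊ + 1 with hn0
  set Kf : ℕ → ℕ := fun i => ⌈2 * (D0 * K0 i) + 2 * Δ i⌉₊ with hKf
  set K : ℕ := Q1 + 1 + ∑ i ∈ Finset.range n0, Kf i with hK
  set b : ℝ := 1 / (2 * ((Δ n0 : ℝ) + 2)) with hb
  have hb0 : 0 < b := by
    rw [hb]; positivity
  have hb4 : b ≤ 1 / 4 := by
    rw [hb]
    apply one_div_le_one_div_of_le (by norm_num)
    have : (0 : ℝ) ≤ Δ n0 := Nat.cast_nonneg _
    linarith
  -- thresholds
  obtain ⟨T1, hT1⟩ := large D0 (ε / 100) b (by positivity) (by linarith)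
  have hT2 : ∀ i : ℕ, ∃ T : ℕ, ∀ m : ℕ, T ≤ m →
      (2 * (2 * (D0 * K0 i + Δ i) * (Δ i + 1) * 2 ^ (Δ i))) * (m : ℝ) ^ (1 / 2 : ℝ) ≤ ε / 16 * m :=
    fun i => large _ _ _ (by positivity) (by norm_num)
  choose T2 hT2 using hT2
  refine ⟨K, b, 4 + hC Q1 + T1 + ∑ i ∈ Finset.range n0, (hC (Δ i) + T2 i + K0 i + 1), hb0,
    by linarith, by omega, ?_⟩
  intro m H x hG hm
  have hm4 : 4 ≤ m := by omega
  have hmT1 : T1 ≤ m := by omega
  have hmQ : hC Q1 ≤ m := by omega
  have hmi : ∀ i, i < n0 → hC (Δ i) + T2 i + K0 i + 1 ≤ m := by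
    intro i hi
    have := Finset.single_le_sum (f := fun i => hC (Δ i) + T2 i + K0 i + 1)
      (fun j _ => Nat.zero_le _) (Finset.mem_range.2 hi)
    omega
  have hm0 : (0 : ℝ) < m := by
    have : 0 < m := by omega
    exact_mod_cast this
  have hm1 : (1 : ℝ) ≤ m := by
    have : 1 ≤ m := by omega
    exact_mod_cast this
  have hmb1 : (1 : ℝ) ≤ (m : ℝ) ^ b := Real.one_le_rpow hm1 hb0.le
  -- gap
  have hnd : (nd H : ℝ) ≤ 2 * D0 * m := by
    have h1 := hG.hi (by rw [Fintype.card_fin]; exact hm4)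
    rw [Fintype.card_fin] at h1
    refine h1.trans ?_
    have : (2 : ℝ) ≤ m := by
      have : 2 ≤ m := by omega
      exact_mod_cast this
    nlinarith
  obtain ⟨i, hi, hgap⟩ : ∃ i < n0,
      (vol H (univ.filter (fun v => Δ i < vol H {v} ∧ vol H {v} ≤ Δ (i + 1))) : ℝ) ≤
      ε / 100 * m := by
    by_contra hcon
    push Not at hcon
    have h1 := sum_vol_le H n0
      (fun i => univ.filter (fun v => Δ i < vol H {v} ∧ vol H {v} ≤ Δ (i + 1))) (by
        intro i j hij
        rw [Finset.disjoint_left]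
        intro v h1 h2
        simp only [mem_filter, mem_univ, true_and] at h1 h2
        have : Δ (i + 1) ≤ Δ j := hΔm.monotone hij
        omega)
    have h2 : (n0 : ℝ) * (ε / 100 * m) ≤
        ((∑ i ∈ Finset.range n0,
          vol H (univ.filter (fun v => Δ i < vol H {v} ∧ vol H {v} ≤ Δ (i + 1))) : ℕ) : ℝ) := by
      rw [Nat.cast_sum]
      have : (n0 : ℝ) * (ε / 100 * m) = ∑ i ∈ Finset.range n0, (ε / 100 * m) := by
        rw [Finset.sum_const, Finset.card_range, nsmul_eq_mul]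
      rw [this]
      apply Finset.sum_le_sum
      intro i hi
      exact (hcon i (Finset.mem_range.1 hi)).le
    have h3 : ((∑ i ∈ Finset.range n0,
          vol H (univ.filter (fun v => Δ i < vol H {v} ∧ vol H {v} ≤ Δ (i + 1))) : ℕ) : ℝ) ≤
        (nd H : ℝ) := by exact_mod_cast h1
    have h4 : 200 * D0 * 2 / ε ≤ (n0 : ℝ) := by
      rw [hn0]
      push_cast
      have := Nat.le_ceil (200 * D0 * 2 / ε)
      linarith
    have h5 : (200 * D0 * 2 / ε) * (ε / 100 * m) ≤ (n0 : ℝ) * (ε / 100 * m) :=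
      mul_le_mul_of_nonneg_right h4 (by positivity)
    have h6 : (200 * D0 * 2 / ε) * (ε / 100 * m) = 4 * D0 * m := by
      field_simp
      ring
    have h7 : 0 < D0 * m := by positivity
    nlinarith
  have hK0i : 1 ≤ K0 i := le_max_left _ _
  have hKi : 2 * (D0 * K0 i) + 2 * Δ i ≤ (K : ℝ) := by
    have h1 : Kf i ≤ K := by
      have := Finset.single_le_sum (f := Kf) (fun j _ => Nat.zero_le _) (Finset.mem_range.2 hi)
      omega
    have h2 : (Kf i : ℝ) ≤ K := by exact_mod_cast h1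
    exact (Nat.le_ceil _).trans h2
  set Y : Finset (Fin m) := univ.filter (fun v => Δ (i + 1) < vol H {v}) with hY
  have hYmem : ∀ v, v ∈ Y ↔ Δ (i + 1) < vol H {v} := by
    intro v
    rw [hY, mem_filter]
    exact ⟨fun h => h.2, fun h => ⟨mem_univ _, h⟩⟩
  by_cases hYb : (m : ℝ) ^ b ≤ Y.card
  · -- CASE 1
    have hbot : ∀ y : Fin m, ∀ u v, ¬ (Ex H {y} ∅).Adj u v := by
      intro y u v h
      obtain ⟨h1, h2⟩ := h
      rcases h2 with h2 | h2 | h2
      · rw [mem_singleton, mem_singleton] at h2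
        rw [h2.1, h2.2] at h1
        exact H.loopless.irrefl _ h1
      · exact absurd h2.2 (notMem_empty _)
      · exact absurd h2.1 (notMem_empty _)
    have hfam : ∀ A, A ∈ Y.map ⟨fun y => ({y} : Finset (Fin m)), Finset.singleton_injective⟩ ↔
        ∃ y ∈ Y, A = {y} := by
      intro A
      rw [mem_map]
      constructor
      · rintro ⟨y, hy, rfl⟩
        exact ⟨y, hy, rfl⟩
      · rintro ⟨y, hy, rfl⟩
        exact ⟨y, hy, rfl⟩
    refine ⟨∅, Q1, Y.map ⟨fun y => ({y} : Finset (Fin m)), Finset.singleton_injective⟩, by omega,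
      by rw [card_empty]; exact Nat.zero_le _, ?_, ?_, ?_, ?_⟩
    · constructor
      · intro A hA
        obtain ⟨y, -, rfl⟩ := (hfam A).1 hA
        exact singleton_nonempty y
      · intro A hA B hB hAB
        obtain ⟨y, -, rfl⟩ := (hfam A).1 hA
        obtain ⟨z, -, rfl⟩ := (hfam B).1 hB
        rw [Finset.disjoint_singleton]
        rintro rfl
        exact hAB rfl
      · intro A hA
        obtain ⟨y, -, rfl⟩ := (hfam A).1 hA
        rw [card_singleton]
        omega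
      · intro A _ u v h
        exact h.1
      · intro A hA u v h
        obtain ⟨y, -, rfl⟩ := (hfam A).1 hA
        exact absurd h (hbot y u v)
      · intro A hA
        obtain ⟨y, -, rfl⟩ := (hfam A).1 hA
        rw [nd]
        have : ((univ : Finset (Fin m × Fin m)).filter (fun e => (Ex H {y} ∅).Adj e.1 e.2)) = ∅ := by
          rw [Finset.filter_eq_empty_iff]
          intro e _ h
          exact hbot y _ _ h
        rw [this, card_empty]
        exact Nat.zero_le _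
      · intro A hA S hAS hS
        obtain ⟨y, hy, rfl⟩ := (hfam A).1 hA
        by_contra hlt
        push Not at hlt
        have hcutle : cut H S ≤ cut (H \ Ex H {y} ∅) S := by
          apply cut_mono_of
          intro u v h
          rw [SimpleGraph.sdiff_adj]
          exact ⟨h, hbot y _ _⟩
        have h1 := (hsm Q1 m H x hG hmQ S ⟨y, hAS (mem_singleton_self y)⟩ (by omega) (by omega)).2
        have h2 : vol H {y} ≤ vol H S := vol_mono H hAS
        have h3 := (hYmem y).1 hy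
        have h4 : Δ 0 ≤ Δ (i + 1) := hΔm.monotone (Nat.zero_le _)
        have h5 : vC Q1 = Q1 + ⌈D0 * sC Q1⌉₊ := rfl
        omega
    · intro A _
      exact Finset.disjoint_empty_right _
    · intro A hA
      obtain ⟨y, -, rfl⟩ := (hfam A).1 hA
      rw [card_singleton]
      have h1 : I + ε / 16 ≤ (Q1 : ℝ) := Nat.le_ceil _
      have h2 : (0 : ℝ) ≤ inn H {y} := Nat.cast_nonneg _
      have h3 : (0 : ℝ) ≤ eb H {y} ∅ := Nat.cast_nonneg _
      push_cast
      linarith
    · rw [card_map]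
      exact hYb
  · -- CASE 2
    push Not at hYb
    have hmi' := hmi i hi
    have hcl := case_clusters H I ε D0 hI hε hD1 Y (Δ i) (Δ (i + 1)) (K0 i) K hK0i
      hG.lo hG.DB hYmem (by
        intro hu
        rw [hu, Finset.card_univ, Fintype.card_fin] at hYb
        have : (m : ℝ) ^ b ≤ (m : ℝ) ^ (1 : ℝ) := Real.rpow_le_rpow_of_exponent_le hm1 (by linarith)
        rw [Real.rpow_one] at this
        linarith) (by
        intro S hne h2 hc
        rw [Fintype.card_fin] at h2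
        have h1 := hsm (Δ i) m H x hG (by omega) S hne h2 hc
        refine ⟨h1.1.trans (le_max_right _ _), ?_⟩
        rw [Finset.disjoint_left]
        intro v hv hvY
        have h3 := (hYmem v).1 hvY
        have h4 : vol H {v} ≤ vol H S := vol_mono H (Finset.singleton_subset_iff.2 hv)
        have h5 : vC (Δ i) = Δ i + ⌈D0 * sC (Δ i)⌉₊ := rfl
        have h6 := hΔs i
        omega) (by
        rw [Fintype.card_fin]
        exact hgap) (by
        rw [Fintype.card_fin]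
        refine le_trans ?_ (hT1 m hmT1)
        exact mul_le_mul_of_nonneg_left hYb.le (by linarith)) hKi (by
        rw [Fintype.card_fin]
        omega) ⌈(m : ℝ) ^ b⌉₊ (by
        rw [Fintype.card_fin]
        refine le_trans ?_ (hT2 i m (by omega))
        have hW : ((⌈(m : ℝ) ^ b⌉₊ : ℕ) : ℝ) ≤ 2 * (m : ℝ) ^ b := by
          have := (Nat.ceil_lt_add_one (Real.rpow_nonneg hm0.le b)).le
          linarith
        have hYc : (Y.card : ℝ) + 1 ≤ 2 * (m : ℝ) ^ b := by linarith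
        have h1 : ((Y.card : ℝ) + 1) ^ (Δ i) ≤ (2 * (m : ℝ) ^ b) ^ (Δ i) :=
          pow_le_pow_left₀ (by positivity) hYc _
        have h2 : 0 ≤ 2 * (D0 * K0 i + Δ i) * ((Δ i : ℝ) + 1) := by positivity
        have h3 : 2 * (D0 * K0 i + Δ i) * ((Δ i : ℝ) + 1) * ((Y.card : ℝ) + 1) ^ (Δ i) ≤
            2 * (D0 * K0 i + Δ i) * ((Δ i : ℝ) + 1) * (2 * (m : ℝ) ^ b) ^ (Δ i) :=
          mul_le_mul_of_nonneg_left h1 h2
        have h4 : ((⌈(m : ℝ) ^ b⌉₊ : ℕ) : ℝ) *
            (2 * (D0 * K0 i + Δ i) * ((Δ i : ℝ) + 1) * ((Y.card : ℝ) + 1) ^ (Δ i)) ≤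
            (2 * (m : ℝ) ^ b) *
              (2 * (D0 * K0 i + Δ i) * ((Δ i : ℝ) + 1) * (2 * (m : ℝ) ^ b) ^ (Δ i)) :=
          mul_le_mul hW h3 (by positivity) (by positivity)
        refine h4.trans ?_
        have h5 : (2 * (m : ℝ) ^ b) *
              (2 * (D0 * K0 i + Δ i) * ((Δ i : ℝ) + 1) * (2 * (m : ℝ) ^ b) ^ (Δ i)) =
            (2 * (2 * (D0 * K0 i + Δ i) * (Δ i + 1) * 2 ^ (Δ i))) *
              (((m : ℝ) ^ b) ^ (Δ i + 1)) := by
          rw [mul_pow, pow_succ]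
          ring
        rw [h5]
        apply mul_le_mul_of_nonneg_left _ (by positivity)
        rw [← Real.rpow_natCast, ← Real.rpow_mul hm0.le]
        apply Real.rpow_le_rpow_of_exponent_le hm1
        have h6 : (Δ i : ℝ) ≤ Δ n0 := by
          have : Δ i ≤ Δ n0 := hΔm.monotone hi.le
          exact_mod_cast this
        have h7 : (0 : ℝ) ≤ Δ i := Nat.cast_nonneg _
        rw [hb]
        push_cast
        rw [one_div, ← div_eq_inv_mul, div_le_div_iff₀ (by positivity) (by norm_num)]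
        linarith)
    obtain ⟨Y0, q, fam, h1, h2, h3, h4, h5, h6⟩ := hcl
    rw [Fintype.card_fin] at h3
    refine ⟨Y0, q, fam, h1, h2, h3, h4, h5, ?_⟩
    have h7 : ((⌈(m : ℝ) ^ b⌉₊ : ℕ) : ℝ) ≤ fam.card := by exact_mod_cast h6
    exact (Nat.le_ceil _).trans h7

end M18b

alias dichotomy := M18b.dichotomy

end ImmLog
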