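import Pool.Agent.ImmLog.Defs2

set_option autoImplicit false

open Classical Finset

namespace ImmLog

namespace M19

variable {V : Type*} [Fintype V]







theorem m19_walk {W : Type*} (J : SimpleGraph W) (H : SimpleGraph V) (ι : W → V)
    (P : W → W → SimpleGraph V) (hPle : ∀ u v, J.Adj u v → P u v ≤ H)
    (hPconn : ∀ u v, J.Adj u v → (P u v).Reachable (ι u) (ι v)) {u v : W} (q : J.Walk u v) :
    ∃ w : H.Walk (ι u) (ι v), ∀ e ∈ w.edges,
      ∃ x y, J.Adj x y ∧ s(x, y) ∈ q.edges ∧ e ∈ (P x y).edgeSet := by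
  induction q with
  | nil => exact ⟨SimpleGraph.Walk.nil, by simp⟩
  | @cons a b c hab p ih =>
    obtain ⟨w, hw⟩ := ih
    obtain ⟨w0⟩ := hPconn a b hab
    refine ⟨(w0.mapLe (hPle a b hab)).append w, ?_⟩
    intro e he
    rw [SimpleGraph.Walk.edges_append, List.mem_append] at he
    rcases he with he | he
    · refine ⟨a, b, hab, by simp, ?_⟩
      have h1 : e ∈ w0.edges := by
        simpa using he
      exact w0.edges_subset_edgeSet h1
    · obtain ⟨x, y, h1, h2, h3⟩ := hw e he
      exact ⟨x, y, h1, by rw [SimpleGraph.Walk.edges_cons]; exact List.mem_cons_of_mem _ h2, h3⟩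

theorem m19_path {W : Type*} (J : SimpleGraph W) (H : SimpleGraph V) (ι : W → V)
    (P : W → W → SimpleGraph V) (hPle : ∀ u v, J.Adj u v → P u v ≤ H)
    (hPconn : ∀ u v, J.Adj u v → (P u v).Reachable (ι u) (ι v)) {u v : W} (q : J.Walk u v) :
    ∃ w : H.Walk (ι u) (ι v), w.IsPath ∧ ∀ e ∈ w.edges,
      ∃ x y, J.Adj x y ∧ s(x, y) ∈ q.edges ∧ e ∈ (P x y).edgeSet := by
  obtain ⟨w, hw⟩ := m19_walk J H ι P hPle hPconn q
  exact ⟨w.bypass, w.bypass_isPath, fun e he => hw e (w.edges_bypass_subset_edges he)⟩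

theorem m19_support {H : SimpleGraph V} {a b : V} (w : H.Walk a b) {v : V} (hv : v ∈ w.support) :
    v = a ∨ ∃ e ∈ w.edges, v ∈ e := by
  induction w with
  | nil => left; simpa using hv
  | @cons x y z h p ih =>
    rw [SimpleGraph.Walk.support_cons, List.mem_cons] at hv
    rcases hv with hv | hv
    · exact Or.inl hv
    · right
      rcases ih hv with h1 | ⟨e, he, h1⟩
      · refine ⟨s(x, y), by simp, ?_⟩
        rw [h1]
        simp
      · exact ⟨e, by rw [SimpleGraph.Walk.edges_cons]; exact List.mem_cons_of_mem _ he, h1⟩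

/-- composition of immersions: an immersion of `K_k` in `J` and a short immersion of `J` in `H` -/
theorem compose {W : Type*} [Fintype W] (J : SimpleGraph W) (H : SimpleGraph V) (ι : W → V)
    (hι : Function.Injective ι) (k L : ℕ) (hJ : HasImm k J) (P : W → W → SimpleGraph V)
    (hPle : ∀ u v, J.Adj u v → P u v ≤ H) (hPsymm : ∀ u v, P u v = P v u)
    (hPnd : ∀ u v, J.Adj u v → nd (P u v) ≤ 2 * L)
    (hPconn : ∀ u v, J.Adj u v → (P u v).Reachable (ι u) (ι v))
    (hPdisj : ∀ u v u' v', J.Adj u v → J.Adj u' v' → s(u, v) ≠ s(u', v') →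
      Disjoint (P u v) (P u' v')) :
    HasImmLe k H (k + nd J * (2 * L)) := by
  obtain ⟨f, hf, Q, hQpath, hQdisj⟩ := hJ
  choose R hRpath hRedges using fun i j : Fin k => m19_path J H ι P hPle hPconn (Q i j)
  refine ⟨fun i => ι (f i), hι.comp hf, R, fun i j _ => hRpath i j, ?_, ?_⟩
  · intro i j i' j' hij hi'j' hne e he he'
    obtain ⟨x, y, h1, h2, h3⟩ := hRedges i j e he
    obtain ⟨x', y', h1', h2', h3'⟩ := hRedges i' j' e he'
    by_cases hs : s(x, y) = s(x', y')
    · exact hQdisj i j i' j' hij hi'j' hne h2 (by rw [hs]; exact h2')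
    · have h4 := hPdisj x y x' y' h1 h1' hs
      rw [← SimpleGraph.disjoint_edgeSet] at h4
      exact Set.disjoint_left.1 h4 h3 h3'
  · set F : Finset V := (univ : Finset (Fin k)).image (fun i => ι (f i)) ∪
      ((univ : Finset (W × W)).filter (fun e => J.Adj e.1 e.2)).biUnion
        (fun e => (((univ : Finset (V × V)).filter
          (fun a => (P e.1 e.2).Adj a.1 a.2)).image Prod.fst)) with hF
    have hsub : {v : V | (∃ i, ι (f i) = v) ∨ ∃ i j, i < j ∧ v ∈ (R i j).support} ⊆ (F : Set V) := by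
      rintro v (⟨i, hi⟩ | ⟨i, j, hij, hv⟩)
      · rw [Finset.mem_coe, hF, Finset.mem_union]
        left
        exact Finset.mem_image.2 ⟨i, Finset.mem_univ _, hi⟩
      · rw [Finset.mem_coe, hF, Finset.mem_union]
        rcases m19_support (R i j) hv with h1 | ⟨e, he, h1⟩
        · left
          exact Finset.mem_image.2 ⟨i, Finset.mem_univ _, h1.symm⟩
        · right
          obtain ⟨x, y, h2, -, h3⟩ := hRedges i j e he
          obtain ⟨z, rfl⟩ := Sym2.mem_iff_exists.1 h1
          rw [SimpleGraph.mem_edgeSet] at h3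
          rw [Finset.mem_biUnion]
          refine ⟨(x, y), ?_, ?_⟩
          · exact Finset.mem_filter.2 ⟨Finset.mem_univ _, h2⟩
          · exact Finset.mem_image.2 ⟨(v, z), Finset.mem_filter.2 ⟨Finset.mem_univ _, h3⟩, rfl⟩
    refine (Set.ncard_le_ncard hsub (Finset.finite_toSet F)).trans ?_
    rw [Set.ncard_coe_finset, hF]
    refine (Finset.card_union_le _ _).trans ?_
    apply Nat.add_le_add
    · refine Finset.card_image_le.trans ?_
      simp
    · refine Finset.card_biUnion_le_card_mul _ _ _ ?_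
      intro e he
      refine Finset.card_image_le.trans ?_
      exact hPnd e.1 e.2 (Finset.mem_filter.1 he).2

end M19

alias compose := M19.compose

end ImmLog
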