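import Pool.Agent.ImmLog.Defs2

set_option autoImplicit false

open Classical Finset

namespace ImmLog

namespace M8

variable {V : Type*} [Fintype V]




theorem mem_ball' {G : SimpleGraph V} {A : Finset V} {n : ℕ} {v : V} :
    v ∈ ball G A n ↔ ∃ a ∈ A, ∃ w : G.Walk v a, w.length ≤ n := by
  unfold ball
  rw [mem_filter]
  constructor
  · rintro ⟨-, a, ha, w, hw⟩
    exact ⟨a, ha, w.reverse, by rwa [SimpleGraph.Walk.length_reverse]⟩
  · rintro ⟨a, ha, w, hw⟩
    exact ⟨mem_univ _, a, ha, w.reverse, by rwa [SimpleGraph.Walk.length_reverse]⟩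

theorem ball_of_mem {G : SimpleGraph V} {A : Finset V} {v : V} (hv : v ∈ A) (n : ℕ) :
    v ∈ ball G A n :=
  mem_ball'.mpr ⟨v, hv, SimpleGraph.Walk.nil, by simp⟩

theorem ball_zero' {G : SimpleGraph V} {A : Finset V} {v : V} (h : v ∈ ball G A 0) : v ∈ A := by
  obtain ⟨a, ha, w, hw⟩ := mem_ball'.mp h
  cases w with
  | nil => exact ha
  | cons _ _ => simp at hw

theorem ball_mono' {G : SimpleGraph V} {A : Finset V} {n m : ℕ} (h : n ≤ m) {v : V}
    (hv : v ∈ ball G A n) : v ∈ ball G A m := by
  obtain ⟨a, ha, w, hw⟩ := mem_ball'.mp hv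
  exact mem_ball'.mpr ⟨a, ha, w, hw.trans h⟩

theorem ball_step {G : SimpleGraph V} {A : Finset V} {n : ℕ} {u v : V} (hu : u ∈ ball G A n)
    (h : G.Adj v u) : v ∈ ball G A (n + 1) := by
  obtain ⟨a, ha, w, hw⟩ := mem_ball'.mp hu
  exact mem_ball'.mpr ⟨a, ha, SimpleGraph.Walk.cons h w, by simpa using hw⟩

theorem ball_cases {G : SimpleGraph V} {A : Finset V} {n : ℕ} {v : V}
    (hv : v ∈ ball G A (n + 1)) : v ∈ ball G A n ∨ ∃ u ∈ ball G A n, G.Adj v u := by
  obtain ⟨a, ha, w, hw⟩ := mem_ball'.mp hv
  cases w with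
  | nil => exact Or.inl (ball_of_mem ha n)
  | cons h p =>
    right
    refine ⟨_, mem_ball'.mpr ⟨a, ha, p, ?_⟩, h⟩
    simpa using hw

/-- degree -/
noncomputable def dg (H : SimpleGraph V) (v : V) : ℕ := (univ.filter (fun u => H.Adj v u)).card

theorem vol_eq (H : SimpleGraph V) (S : Finset V) : vol H S = ∑ v ∈ S, dg H v := by
  unfold vol dg
  rw [← Finset.card_sigma]
  apply Finset.card_bij' (fun e _ => (⟨e.1, e.2⟩ : Σ _ : V, V)) (fun e _ => (e.1, e.2))
  · intro e he
    rw [mem_filter] at he
    rw [mem_sigma, mem_filter]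
    exact ⟨he.2.1, mem_univ _, he.2.2⟩
  · intro e he
    rw [mem_sigma, mem_filter] at he
    rw [mem_filter]
    exact ⟨mem_univ _, he.1, he.2.2⟩
  · intro e _; rfl
  · intro e _; rfl

theorem vol_biUnion_le (H : SimpleGraph V) (X : Finset V) (f : V → Finset V) :
    vol H (X.biUnion f) ≤ ∑ x ∈ X, vol H (f x) := by
  induction X using Finset.induction_on with
  | empty => simp [vol_eq]
  | insert a s ha ih =>
    rw [biUnion_insert, sum_insert ha]
    have h2 : vol H (f a ∪ s.biUnion f) ≤ vol H (f a) + vol H (s.biUnion f) := by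
      rw [vol_eq, vol_eq, vol_eq, ← sum_union_inter]
      exact Nat.le_add_right _ _
    omega

theorem nd_zero (G : SimpleGraph V) (h : ∀ a b, ¬ G.Adj a b) : nd G = 0 := by
  unfold nd
  apply card_eq_zero.mpr
  apply eq_empty_of_forall_notMem
  intro e he
  rw [mem_filter] at he
  exact h _ _ he.2

/-- symmetrization -/
def mkQ (P : V → V → Prop) (hP : ∀ a, ¬ P a a) : SimpleGraph V where
  Adj a b := P a b ∨ P b a
  symm := ⟨fun _ _ h => h.symm⟩
  loopless := ⟨fun a h => h.elim (hP a) (hP a)⟩

theorem core (H T : SimpleGraph V) (A U : Finset V) (R Fm : ℕ) (hFm : 1 ≤ Fm)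
    (dep : V → ℕ) (par : V → V)
    (hR : ∀ v ∈ U, dep v ≤ R) (h0 : ∀ v ∈ U, dep v = 0 → v ∈ A)
    (h1 : ∀ v ∈ U, dep v ≠ 0 → par v ∈ U ∧ T.Adj v (par v) ∧ dep (par v) + 1 = dep v)
    (hW : 0 < vol H U) :
    ∃ Q : SimpleGraph V, Q ≤ T ∧ nd Q ≤ 8 * Fm * R ∧
      ∀ F : SimpleGraph V, Disjoint F Q → nd F ≤ 2 * Fm →
        3 * vol H U ≤ 4 * vol H (ball (T \ (Q ⊔ F)) (ball Q A R) R) := by
  have hiter : ∀ k : ℕ, ∀ v ∈ U, k ≤ dep v → par^[k] v ∈ U ∧ dep (par^[k] v) + k = dep v := by
    intro k
    induction k with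
    | zero => intro v hv _; exact ⟨hv, rfl⟩
    | succ k ih =>
      intro v hv hk
      have hd : dep v ≠ 0 := by omega
      obtain ⟨k1, -, k3⟩ := h1 v hv hd
      obtain ⟨k4, k5⟩ := ih (par v) k1 (by omega)
      rw [Function.iterate_succ_apply]
      exact ⟨k4, by omega⟩
  set desc : V → Finset V := fun x => U.filter (fun v => ∃ k ≤ dep v, par^[k] v = x) with hdesc
  have mem_desc : ∀ x v, v ∈ desc x ↔ v ∈ U ∧ ∃ k ≤ dep v, par^[k] v = x := by
    intro x v; rw [hdesc]; simp only [mem_filter]
  set heavy : V → Prop := fun x => vol H U ≤ 4 * Fm * vol H (desc x) with hheavy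
  have desc_sub : ∀ v ∈ U, dep v ≠ 0 → desc v ⊆ desc (par v) := by
    intro v hv hd u hu
    rw [mem_desc] at hu ⊢
    obtain ⟨hu1, k, hk, hku⟩ := hu
    obtain ⟨k1, k2⟩ := hiter k u hu1 hk
    rw [hku] at k2
    refine ⟨hu1, k + 1, by omega, ?_⟩
    rw [Function.iterate_succ_apply', hku]
  have heavy_par : ∀ v ∈ U, dep v ≠ 0 → heavy v → heavy (par v) := by
    intro v hv hd hh
    refine le_trans hh ?_
    have : vol H (desc v) ≤ vol H (desc (par v)) := by
      rw [vol_eq, vol_eq]
      exact sum_le_sum_of_subset (desc_sub v hv hd)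
    exact Nat.mul_le_mul_left _ this
  set HV : Finset V := U.filter (fun v => dep v ≠ 0 ∧ heavy v) with hHV
  -- counting heavy vertices
  have hcount : HV.card ≤ 4 * Fm * R := by
    have e1 : ∑ x ∈ HV, vol H (desc x) ≤ R * vol H U := by
      have e2 : ∑ x ∈ HV, vol H (desc x) =
          ∑ x ∈ HV, ∑ v ∈ U, (if v ∈ desc x then dg H v else 0) := by
        apply sum_congr rfl
        intro x _
        rw [vol_eq, ← sum_filter]
        congr 1
        ext v
        exact ⟨fun h => mem_filter.mpr ⟨((mem_desc x v).mp h).1, h⟩, fun h => (mem_filter.mp h).2⟩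
      rw [e2, sum_comm, vol_eq, mul_sum]
      apply sum_le_sum
      intro v hv
      rw [← sum_filter, sum_const, smul_eq_mul]
      apply Nat.mul_le_mul_right
      have e3 : HV.filter (fun x => v ∈ desc x) ⊆ (range (dep v)).image (fun k => par^[k] v) := by
        intro x hx
        rw [mem_filter, mem_desc, hHV, mem_filter] at hx
        obtain ⟨⟨hxU, hxd, -⟩, -, k, hk, hkv⟩ := hx
        rw [mem_image]
        refine ⟨k, ?_, hkv⟩
        rw [mem_range]
        obtain ⟨-, k2⟩ := hiter k v hv hk
        rw [hkv] at k2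
        omega
      calc _ ≤ _ := card_le_card e3
        _ ≤ (range (dep v)).card := card_image_le
        _ = dep v := card_range _
        _ ≤ R := hR v hv
    have e4 : HV.card * vol H U ≤ (4 * Fm * R) * vol H U := by
      calc HV.card * vol H U = ∑ x ∈ HV, vol H U := by rw [sum_const, smul_eq_mul]
        _ ≤ ∑ x ∈ HV, 4 * Fm * vol H (desc x) := by
            apply sum_le_sum
            intro x hx
            rw [hHV, mem_filter] at hx
            exact hx.2.2
        _ = 4 * Fm * ∑ x ∈ HV, vol H (desc x) := by rw [mul_sum]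
        _ ≤ 4 * Fm * (R * vol H U) := Nat.mul_le_mul_left _ e1
        _ = _ := by ring
    exact Nat.le_of_mul_le_mul_right e4 hW
  set P : V → V → Prop := fun a b => a ∈ U ∧ dep a ≠ 0 ∧ heavy a ∧ par a = b with hP
  have hPdep : ∀ a b, P a b → dep b + 1 = dep a := by
    rintro a b ⟨ha, hd, -, rfl⟩
    exact (h1 a ha hd).2.2
  have hPT : ∀ a b, P a b → T.Adj a b := by
    rintro a b ⟨ha, hd, -, rfl⟩
    exact (h1 a ha hd).2.1
  obtain ⟨Q, hQadj⟩ : ∃ Q : SimpleGraph V, ∀ a b, Q.Adj a b ↔ P a b ∨ P b a :=
    ⟨mkQ P (fun a h => by have := hPdep a a h; omega), fun a b => Iff.rfl⟩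
  refine ⟨Q, ?_, ?_, ?_⟩
  · intro a b hab
    rcases (hQadj a b).mp hab with h | h
    · exact hPT a b h
    · exact (hPT b a h).symm
  · have hnd : nd Q ≤ (HV.image (fun a => (a, par a)) ∪ HV.image (fun a => (par a, a))).card := by
      unfold nd
      apply card_le_card
      intro e he
      have he2 : P e.1 e.2 ∨ P e.2 e.1 := (hQadj _ _).mp (mem_filter.mp he).2
      rw [mem_union, mem_image, mem_image]
      rcases he2 with h | h
      · left
        refine ⟨e.1, ?_, ?_⟩
        · rw [hHV, mem_filter]; exact ⟨h.1, h.2.1, h.2.2.1⟩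
        · rw [h.2.2.2]
      · right
        refine ⟨e.2, ?_, ?_⟩
        · rw [hHV, mem_filter]; exact ⟨h.1, h.2.1, h.2.2.1⟩
        · rw [h.2.2.2]
    have hun := card_union_le (HV.image (fun a => (a, par a))) (HV.image (fun a => (par a, a)))
    have i1 : (HV.image (fun a => (a, par a))).card ≤ HV.card := card_image_le
    have i2 : (HV.image (fun a => (par a, a))).card ≤ HV.card := card_image_le
    have : 2 * (4 * Fm * R) = 8 * Fm * R := by ring
    omega
  · intro F hFQ hF
    set X : Finset V := U.filter (fun x => dep x ≠ 0 ∧ F.Adj x (par x)) with hX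
    have hXlight : ∀ x ∈ X, ¬ heavy x := by
      intro x hx hh
      rw [hX, mem_filter] at hx
      obtain ⟨hxU, hxd, hxF⟩ := hx
      have hq : Q.Adj x (par x) := (hQadj _ _).mpr (Or.inl ⟨hxU, hxd, hh, rfl⟩)
      have := (SimpleGraph.disjoint_left.mp hFQ) x (par x) hxF
      exact this hq
    have hXcard : X.card ≤ Fm := by
      have hsub : X.image (fun a => (a, par a)) ∪ X.image (fun a => (par a, a)) ⊆
          (univ : Finset (V × V)).filter (fun e => F.Adj e.1 e.2) := by
        intro e he
        rw [mem_union, mem_image, mem_image] at he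
        rw [mem_filter]
        refine ⟨mem_univ _, ?_⟩
        rcases he with ⟨a, ha, rfl⟩ | ⟨a, ha, rfl⟩
        · rw [hX, mem_filter] at ha
          exact ha.2.2
        · rw [hX, mem_filter] at ha
          exact ha.2.2.symm
      have hdisj : Disjoint (X.image (fun a => (a, par a))) (X.image (fun a => (par a, a))) := by
        rw [Finset.disjoint_left]
        intro e he he'
        rw [mem_image] at he he'
        obtain ⟨a, ha, rfl⟩ := he
        obtain ⟨b, hb, hab⟩ := he'
        rw [hX, mem_filter] at ha hb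
        have k1 := (h1 a ha.1 ha.2.1).2.2
        have k2 := (h1 b hb.1 hb.2.1).2.2
        have k3 : par b = a := congrArg Prod.fst hab
        have k4 : b = par a := congrArg Prod.snd hab
        rw [k3] at k2
        rw [← k4] at k1
        omega
      have i1 : (X.image (fun a => (a, par a))).card = X.card :=
        card_image_of_injective _ (fun a b h => congrArg Prod.fst h)
      have i2 : (X.image (fun a => (par a, a))).card = X.card :=
        card_image_of_injective _ (fun a b h => congrArg Prod.snd h)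
      have := card_le_card hsub
      rw [card_union_of_disjoint hdisj, i1, i2] at this
      have hF' : ((univ : Finset (V × V)).filter (fun e => F.Adj e.1 e.2)).card ≤ 2 * Fm := hF
      omega
    set lost : Finset V := X.biUnion desc with hlost
    have hlostvol : 4 * vol H lost ≤ vol H U := by
      have e1 : vol H lost ≤ ∑ x ∈ X, vol H (desc x) := by
        rw [hlost]
        exact vol_biUnion_le H X desc
      have e2 : Fm * (4 * ∑ x ∈ X, vol H (desc x)) ≤ Fm * vol H U := by
        calc Fm * (4 * ∑ x ∈ X, vol H (desc x)) = ∑ x ∈ X, 4 * Fm * vol H (desc x) := by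
              rw [← mul_sum]; ring
          _ ≤ ∑ x ∈ X, vol H U := by
              apply sum_le_sum
              intro x hx
              have := hXlight x hx
              rw [hheavy] at this
              omega
          _ = X.card * vol H U := by rw [sum_const, smul_eq_mul]
          _ ≤ Fm * vol H U := Nat.mul_le_mul_right _ hXcard
      have e3 := Nat.le_of_mul_le_mul_left e2 hFm
      omega
    have claimA : ∀ n, ∀ x ∈ U, dep x = n → (dep x = 0 ∨ heavy x) → x ∈ ball Q A n := by
      intro n
      induction n with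
      | zero =>
        intro x hx hd _
        exact ball_of_mem (h0 x hx hd) 0
      | succ n ih =>
        intro x hx hd hh
        have hd0 : dep x ≠ 0 := by omega
        have hhx : heavy x := hh.resolve_left hd0
        obtain ⟨k1, k2, k3⟩ := h1 x hx hd0
        have := ih (par x) k1 (by omega) (Or.inr (heavy_par x hx hd0 hhx))
        exact ball_step this ((hQadj _ _).mpr (Or.inl ⟨hx, hd0, hhx, rfl⟩))
    have claimB : ∀ n, ∀ v ∈ U, dep v = n → v ∉ lost →
        v ∈ ball (T \ (Q ⊔ F)) (ball Q A R) n := by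
      intro n
      induction n with
      | zero =>
        intro v hv hd _
        exact ball_of_mem (ball_of_mem (h0 v hv hd) R) 0
      | succ n ih =>
        intro v hv hd hl
        have hd0 : dep v ≠ 0 := by omega
        by_cases hh : heavy v
        · have h2 := claimA (n + 1) v hv hd (Or.inr hh)
          exact ball_of_mem (ball_mono' (hd ▸ hR v hv) h2) _
        · obtain ⟨k1, k2, k3⟩ := h1 v hv hd0
          have hl' : par v ∉ lost := by
            intro hcon
            apply hl
            rw [hlost, mem_biUnion] at hcon ⊢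
            obtain ⟨x, hx, hpx⟩ := hcon
            refine ⟨x, hx, ?_⟩
            rw [mem_desc] at hpx ⊢
            obtain ⟨-, k, hk, hkx⟩ := hpx
            exact ⟨hv, k + 1, by omega, by rw [Function.iterate_succ_apply]; exact hkx⟩
          have h2 := ih (par v) k1 (by omega) hl'
          refine ball_step h2 ?_
          have hnQ : ¬ Q.Adj v (par v) := by
            intro hq
            rcases (hQadj _ _).mp hq with h | h
            · exact hh h.2.2.1
            · have := hPdep _ _ h
              omega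
          have hnF : ¬ F.Adj v (par v) := by
            intro hF
            apply hl
            rw [hlost, mem_biUnion]
            refine ⟨v, ?_, ?_⟩
            · rw [hX, mem_filter]; exact ⟨hv, hd0, hF⟩
            · rw [mem_desc]; exact ⟨hv, 0, Nat.zero_le _, rfl⟩
          rw [SimpleGraph.sdiff_adj, SimpleGraph.sup_adj]
          exact ⟨k2, fun h => h.elim hnQ hnF⟩
    have hsub : U \ lost ⊆ ball (T \ (Q ⊔ F)) (ball Q A R) R := by
      intro v hv
      rw [mem_sdiff] at hv
      exact ball_mono' (hR v hv.1) (claimB _ v hv.1 rfl hv.2)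
    have hvol1 : vol H (U \ lost) ≤ vol H (ball (T \ (Q ⊔ F)) (ball Q A R) R) := by
      rw [vol_eq, vol_eq]
      exact sum_le_sum_of_subset hsub
    have hvol2 : vol H U ≤ vol H (U \ lost) + vol H lost := by
      rw [vol_eq, vol_eq, vol_eq]
      rw [← sum_inter_add_sum_sdiff U lost]
      have : ∑ x ∈ U ∩ lost, dg H x ≤ ∑ x ∈ lost, dg H x := sum_le_sum_of_subset inter_subset_right
      omega
    omega

/-- A fat tree has a small skeleton `Q` such that deleting any few further edges outside `Q`
leaves most of the volume reachable from the skeleton, without using skeleton edges. -/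
theorem skeleton (H T : SimpleGraph V) (A : Finset V) (R M Fm : ℕ) (hFm : 1 ≤ Fm)
    (h : M ≤ vol H (ball T A R)) :
    ∃ Q : SimpleGraph V, Q ≤ T ∧ nd Q ≤ 8 * Fm * R ∧
      ∀ F : SimpleGraph V, Disjoint F Q → nd F ≤ 2 * Fm →
        3 * M ≤ 4 * vol H (ball (T \ (Q ⊔ F)) (ball Q A R) R) := by
  rcases Nat.eq_zero_or_pos (vol H (ball T A R)) with h0 | h0
  · refine ⟨⊥, bot_le, ?_, ?_⟩
    · have : nd (⊥ : SimpleGraph V) = 0 := nd_zero _ (fun a b h => h)
      omega
    · intro F _ _
      omega
  · set dep : V → ℕ := fun v => sInf {n | v ∈ ball T A n} with hdep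
    have hmem : ∀ v ∈ ball T A R, v ∈ ball T A (dep v) := by
      intro v hv
      exact Nat.sInf_mem (s := {n | v ∈ ball T A n}) ⟨R, hv⟩
    have hle : ∀ v n, v ∈ ball T A n → dep v ≤ n := by
      intro v n hv
      exact Nat.sInf_le hv
    have hpar : ∀ v : V, ∃ u : V, v ∈ ball T A R → dep v ≠ 0 →
        u ∈ ball T A R ∧ T.Adj v u ∧ dep u + 1 = dep v := by
      intro v
      by_cases hv : v ∈ ball T A R
      · by_cases hd : dep v = 0
        · exact ⟨v, fun _ h => absurd hd h⟩
        · obtain ⟨n, hn⟩ := Nat.exists_eq_succ_of_ne_zero hd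
          have h2 := hmem v hv
          rw [hn] at h2
          rcases ball_cases h2 with h3 | ⟨u, hu, hadj⟩
          · have := hle v n h3
            omega
          · refine ⟨u, fun _ _ => ⟨ball_mono' (by have := hle v R hv; omega) hu, hadj, ?_⟩⟩
            have h4 := hle u n hu
            have h5 : u ∈ ball T A (dep u) :=
              Nat.sInf_mem (s := {n | u ∈ ball T A n}) ⟨n, hu⟩
            have h6 := hle v (dep u + 1) (ball_step h5 hadj)
            omega
      · exact ⟨v, fun h => absurd h hv⟩
    choose par hpar using hpar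
    obtain ⟨Q, hQ1, hQ2, hQ3⟩ := core H T A (ball T A R) R Fm hFm dep par (fun v hv => hle v R hv)
      (fun v hv hd => by
        have := hmem v hv
        rw [hd] at this
        exact ball_zero' this) hpar h0
    refine ⟨Q, hQ1, hQ2, fun F hF1 hF2 => ?_⟩
    have := hQ3 F hF1 hF2
    omega

end M8

alias skeleton := M8.skeleton

end ImmLog
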