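import Pool.Agent.ImmLog.Defs2

set_option autoImplicit false

open Classical Finset

namespace ImmLog

namespace M9

variable {V : Type*} [Fintype V]



theorem vol_mono (H : SimpleGraph V) {S T : Finset V} (h : S ⊆ T) : vol H S ≤ vol H T := by
  unfold vol
  apply Finset.card_le_card
  intro e he
  simp only [Finset.mem_filter, Finset.mem_univ, true_and] at he ⊢
  exact ⟨h he.1, he.2⟩

theorem vol_le_nd (H : SimpleGraph V) (S : Finset V) : vol H S ≤ nd H := by
  unfold vol nd
  apply Finset.card_le_card
  intro e he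
  simp only [Finset.mem_filter, Finset.mem_univ, true_and] at he ⊢
  exact he.2

theorem two_cut_le (K : SimpleGraph V) (S : Finset V) : 2 * cut K S ≤ nd K := by
  unfold cut nd
  set C := (univ : Finset (V × V)).filter (fun e => e.1 ∈ S ∧ e.2 ∉ S ∧ K.Adj e.1 e.2) with hC
  have hdisj : Disjoint C (C.image Prod.swap) := by
    rw [Finset.disjoint_left]
    intro e he he'
    rw [Finset.mem_image] at he'
    obtain ⟨e', he', rfl⟩ := he'
    simp only [hC, Finset.mem_filter, Finset.mem_univ, true_and, Prod.fst_swap, Prod.snd_swap]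
      at he he'
    exact he'.2.1 he.1
  have hcard : (C.image Prod.swap).card = C.card :=
    Finset.card_image_of_injective _ Prod.swap_injective
  have h1 : (C ∪ C.image Prod.swap).card = 2 * C.card := by
    rw [Finset.card_union_of_disjoint hdisj, hcard]; ring
  rw [← h1]
  apply Finset.card_le_card
  intro e he
  rw [Finset.mem_union, Finset.mem_image] at he
  rw [Finset.mem_filter]
  refine ⟨Finset.mem_univ _, ?_⟩
  rcases he with he | ⟨e', he', rfl⟩
  · rw [hC, Finset.mem_filter] at he
    exact he.2.2.2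
  · rw [hC, Finset.mem_filter] at he'
    exact he'.2.2.2.symm

theorem cut_le_add (H G : SimpleGraph V) (S : Finset V) :
    cut H S ≤ cut G S + cut (H \ G) S := by
  unfold cut
  rw [← Finset.card_union_add_card_inter]
  refine le_trans ?_ (Nat.le_add_right _ _)
  apply Finset.card_le_card
  intro e he
  simp only [Finset.mem_filter, Finset.mem_univ, true_and, Finset.mem_union,
    SimpleGraph.sdiff_adj] at he ⊢
  by_cases hg : G.Adj e.1 e.2
  · exact Or.inl ⟨he.1, he.2.1, hg⟩
  · exact Or.inr ⟨he.1, he.2.1, he.2.2, hg⟩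

theorem ball_mono (G : SimpleGraph V) (A : Finset V) {k l : ℕ} (h : k ≤ l) :
    ball G A k ⊆ ball G A l := by
  intro v hv
  simp only [ball, Finset.mem_filter, Finset.mem_univ, true_and] at hv ⊢
  obtain ⟨a, ha, w, hw⟩ := hv
  exact ⟨a, ha, w, hw.trans h⟩

theorem ball_step (G : SimpleGraph V) (A : Finset V) (k : ℕ) {x y : V} (hx : x ∈ ball G A k)
    (hxy : G.Adj x y) : y ∈ ball G A (k + 1) := by
  simp only [ball, Finset.mem_filter, Finset.mem_univ, true_and] at hx ⊢
  obtain ⟨a, ha, w, hw⟩ := hx
  refine ⟨a, ha, w.concat hxy, ?_⟩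
  rw [SimpleGraph.Walk.length_concat]
  omega

theorem subset_ball (G : SimpleGraph V) (A : Finset V) (k : ℕ) : A ⊆ ball G A k := by
  intro v hv
  simp only [ball, Finset.mem_filter, Finset.mem_univ, true_and]
  exact ⟨v, hv, SimpleGraph.Walk.nil, by simp⟩

theorem vol_step (H G : SimpleGraph V) (hG : G ≤ H) (A : Finset V) (k : ℕ) :
    vol H (ball G A k) + cut G (ball G A k) ≤ vol H (ball G A (k + 1)) := by
  unfold vol cut
  set b := ball G A k with hb
  set C1 := (univ : Finset (V × V)).filter (fun e => e.1 ∈ b ∧ H.Adj e.1 e.2) with hC1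
  set C := (univ : Finset (V × V)).filter (fun e => e.1 ∈ b ∧ e.2 ∉ b ∧ G.Adj e.1 e.2) with hC
  have hcard : (C.image Prod.swap).card = C.card :=
    Finset.card_image_of_injective _ Prod.swap_injective
  have hdisj : Disjoint C1 (C.image Prod.swap) := by
    rw [Finset.disjoint_left]
    intro e he he'
    rw [Finset.mem_image] at he'
    obtain ⟨e', he', rfl⟩ := he'
    simp only [hC, hC1, Finset.mem_filter, Finset.mem_univ, true_and, Prod.fst_swap,
      Prod.snd_swap] at he he'
    exact he'.2.1 he.1
  rw [← hcard, ← Finset.card_union_of_disjoint hdisj]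
  apply Finset.card_le_card
  intro e he
  rw [Finset.mem_union, Finset.mem_image] at he
  rw [Finset.mem_filter]
  refine ⟨Finset.mem_univ _, ?_⟩
  rcases he with he | ⟨e', he', rfl⟩
  · rw [hC1, Finset.mem_filter] at he
    exact ⟨ball_mono G A (Nat.le_succ k) he.2.1, he.2.2⟩
  · rw [hC, Finset.mem_filter] at he'
    exact ⟨ball_step G A k he'.2.1 he'.2.2.2, hG he'.2.2.2.symm⟩

/-- robust growth from a fat set up to more than `smax` vertices -/
theorem reach (H G : SimpleGraph V) (hG : G ≤ H) (S0 : Finset V) (smax f t : ℕ) (γ : ℝ)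
    (hγ : 0 ≤ γ) (h : ∀ S : Finset V, S.card ≤ smax → γ * vol H S ≤ cut H S)
    (hdel : nd (H \ G) ≤ 2 * f) (hS0 : 2 * (f : ℝ) ≤ γ * vol H S0)
    (ht : (nd H : ℝ) < (1 + γ / 2) ^ t * vol H S0) :
    smax < (ball G S0 t).card := by
  by_contra hcon
  push Not at hcon
  have key : ∀ k ≤ t, (1 + γ / 2) ^ k * (vol H S0 : ℝ) ≤ vol H (ball G S0 k) := by
    intro k
    induction k with
    | zero =>
      intro _
      rw [pow_zero, one_mul]
      exact_mod_cast vol_mono H (subset_ball G S0 0)
    | succ k ih =>
      intro hk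
      have h1 := ih (by omega)
      have hcard : (ball G S0 k).card ≤ smax :=
        (Finset.card_le_card (ball_mono G S0 (by omega : k ≤ t))).trans hcon
      have h2 := h _ hcard
      have h3 : (vol H (ball G S0 k) : ℝ) + cut G (ball G S0 k) ≤ vol H (ball G S0 (k + 1)) := by
        exact_mod_cast vol_step H G hG S0 k
      have h4 : (cut H (ball G S0 k) : ℝ) ≤ cut G (ball G S0 k) + f := by
        have e1 := cut_le_add H G (ball G S0 k)
        have e2 := two_cut_le (H \ G) (ball G S0 k)
        have e3 : cut H (ball G S0 k) ≤ cut G (ball G S0 k) + f := by omega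
        exact_mod_cast e3
      have h5 : (vol H S0 : ℝ) ≤ vol H (ball G S0 k) := by
        exact_mod_cast vol_mono H (subset_ball G S0 k)
      have h6 : γ * (vol H S0 : ℝ) ≤ γ * vol H (ball G S0 k) :=
        mul_le_mul_of_nonneg_left h5 hγ
      rw [pow_succ]
      have h7 : (1 + γ / 2) ^ k * (1 + γ / 2) * (vol H S0 : ℝ) ≤
          (1 + γ / 2) * vol H (ball G S0 k) := by
        have := mul_le_mul_of_nonneg_left h1 (by linarith : (0 : ℝ) ≤ 1 + γ / 2)
        linarith
      refine h7.trans ?_
      linarith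
  have h1 := key t le_rfl
  have h2 : (vol H (ball G S0 t) : ℝ) ≤ nd H := by exact_mod_cast vol_le_nd H _
  linarith

end M9

alias reach := M9.reach

end ImmLog
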