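import Pool.Agent.ImmLog.Defs2
import Pool.Agent.ImmLog.M16
import Pool.Agent.ImmLog.M8
import Pool.Agent.ImmLog.M9
import Pool.Agent.ImmLog.M10

set_option autoImplicit false

open Classical Finset

namespace ImmLog

namespace M20

variable {V : Type*} [Fintype V]















theorem m20_nd_mono {G G' : SimpleGraph V} (h : G ≤ G') : nd G ≤ nd G' := by
  unfold nd
  apply Finset.card_le_card
  intro e he
  rw [Finset.mem_filter] at he ⊢
  exact ⟨he.1, h he.2⟩

theorem m20_nd_le (G : SimpleGraph V) (s : Finset (V × V)) (h : ∀ e : V × V, G.Adj e.1 e.2 → e ∈ s) :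
    nd G ≤ s.card := by
  unfold nd
  apply Finset.card_le_card
  intro e he
  exact h e (Finset.mem_filter.1 he).2

theorem m20_nd_sup (G G' : SimpleGraph V) : nd (G ⊔ G') ≤ nd G + nd G' := by
  refine (m20_nd_le (G ⊔ G') (((univ : Finset (V × V)).filter (fun e => G.Adj e.1 e.2)) ∪
    ((univ : Finset (V × V)).filter (fun e => G'.Adj e.1 e.2))) ?_).trans
    (Finset.card_union_le _ _)
  intro e he
  have he' : G.Adj e.1 e.2 ∨ G'.Adj e.1 e.2 := he
  rcases he' with h | h
  · exact Finset.mem_union_left _ (Finset.mem_filter.2 ⟨Finset.mem_univ _, h⟩)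
  · exact Finset.mem_union_right _ (Finset.mem_filter.2 ⟨Finset.mem_univ _, h⟩)

theorem m20_nd_bot : nd (⊥ : SimpleGraph V) = 0 :=
  Nat.le_zero.1 (m20_nd_le ⊥ ∅ (fun _ h => (h : False).elim))

theorem m20_nd_fsup {ι : Type*} (s : Finset ι) (f : ι → SimpleGraph V) :
    nd (s.sup f) ≤ ∑ i ∈ s, nd (f i) := by
  induction s using Finset.induction_on with
  | empty => rw [Finset.sup_empty, m20_nd_bot]; exact Nat.zero_le _
  | insert a s ha ih =>
    rw [Finset.sup_insert, Finset.sum_insert ha]
    exact (m20_nd_sup _ _).trans (Nat.add_le_add_left ih _)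

theorem m20_mem_ball {T : SimpleGraph V} {A : Finset V} {R : ℕ} {v : V} :
    v ∈ ball T A R ↔ ∃ a ∈ A, ∃ w : T.Walk a v, w.length ≤ R := by
  unfold ball
  rw [Finset.mem_filter]
  exact ⟨fun h => h.2, fun h => ⟨Finset.mem_univ _, h⟩⟩

theorem m20_ball_mono {G G' : SimpleGraph V} (h : G ≤ G') (A : Finset V) (R : ℕ) :
    ball G A R ⊆ ball G' A R := by
  intro v hv
  rw [m20_mem_ball] at hv ⊢
  obtain ⟨a, ha, w, hw⟩ := hv
  refine ⟨a, ha, w.mapLe h, ?_⟩
  simpa using hw

theorem m20_ball_trans {G : SimpleGraph V} {A S : Finset V} {R t : ℕ} (h : S ⊆ ball G A R) :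
    ball G S t ⊆ ball G A (R + t) := by
  intro v hv
  rw [m20_mem_ball] at hv
  obtain ⟨s, hs, w, hw⟩ := hv
  have h1 := h hs
  rw [m20_mem_ball] at h1 ⊢
  obtain ⟨a, ha, w', hw'⟩ := h1
  refine ⟨a, ha, w'.append w, ?_⟩
  rw [SimpleGraph.Walk.length_append]
  omega

theorem m20_vol_le (H : SimpleGraph V) (S : Finset V) : vol H S ≤ inn H S + cut H S := by
  unfold vol inn cut
  refine (Finset.card_le_card ?_).trans (Finset.card_union_le _ _)
  intro e he
  rw [Finset.mem_filter] at he
  rw [Finset.mem_union, Finset.mem_filter, Finset.mem_filter]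
  by_cases h : e.2 ∈ S
  · exact Or.inl ⟨he.1, he.2.1, h, he.2.2⟩
  · exact Or.inr ⟨he.1, he.2.1, h, he.2.2⟩

theorem m20_expand {H : SimpleGraph V} {g : ℕ → ℝ} {D0 ρ : ℝ} {smax : ℕ}
    (hX : Expd H g D0 ρ smax) (S : Finset V) (hS : S.card ≤ smax) :
    ρ / (4 * D0) * vol H S ≤ cut H S := by
  have hD0 : 0 < D0 := lt_of_lt_of_le one_pos hX.hD1
  have hρ := hX.hρ0
  rcases Finset.eq_empty_or_nonempty S with rfl | hne
  · have h0 : vol H (∅ : Finset V) = 0 := by
      unfold vol
      rw [Finset.card_eq_zero, Finset.filter_eq_empty_iff]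
      intro e _ h
      exact absurd h.1 (Finset.notMem_empty _)
    rw [h0]
    simp
  have hcard : 1 ≤ S.card := hne.card_pos
  -- partition inequality
  have hfil : (univ.filter (fun v => (if v ∈ S then 1 else 0 : ℕ) = 1)) = S := by
    ext v
    rw [Finset.mem_filter]
    by_cases h : v ∈ S <;> simp [h]
  have hPI := hX.hPI (fun v => if v ∈ S then 1 else 0) (by
    intro i hi
    refine le_trans (Finset.card_le_card ?_) hS
    intro v hv
    rw [Finset.mem_filter] at hv
    by_contra h
    rw [if_neg h] at hv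
    exact hi hv.2.symm)
  have hsum : ∑ i ∈ (univ.image (fun v => if v ∈ S then 1 else 0 : V → ℕ)).erase 0,
      g ((univ.filter (fun v => (if v ∈ S then 1 else 0 : ℕ) = i)).card) = g S.card := by
    rw [Finset.sum_eq_single 1]
    · rw [hfil]
    · intro i hi hi1
      exfalso
      rw [Finset.mem_erase, Finset.mem_image] at hi
      obtain ⟨hi0, v, _, hv⟩ := hi
      by_cases h : v ∈ S
      · rw [if_pos h] at hv; exact hi1 hv.symm
      · rw [if_neg h] at hv; exact hi0 hv.symm
    · intro h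
      exfalso
      apply h
      obtain ⟨v, hv⟩ := hne
      rw [Finset.mem_erase, Finset.mem_image]
      exact ⟨one_ne_zero, v, Finset.mem_univ _, if_pos hv⟩
  have hcut : ((univ : Finset (V × V)).filter (fun e => H.Adj e.1 e.2 ∧
      (if e.1 ∈ S then 1 else 0 : ℕ) ≠ (if e.2 ∈ S then 1 else 0))).card ≤ 2 * cut H S := by
    rw [two_mul]
    have h2 : ((univ : Finset (V × V)).filter (fun e => e.1 ∉ S ∧ e.2 ∈ S ∧ H.Adj e.1 e.2)).card ≤
        cut H S := by
      unfold cut
      refine Finset.card_le_card_of_injOn Prod.swap ?_ ?_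
      · intro e he
        have he' := (Finset.mem_filter.1 (Finset.mem_coe.1 he)).2
        exact Finset.mem_coe.2 (Finset.mem_filter.2 ⟨Finset.mem_univ _, he'.2.1, he'.1,
          he'.2.2.symm⟩)
      · intro e _ e' _ h
        exact Prod.swap_injective h
    refine le_trans (Finset.card_le_card (t := ((univ : Finset (V × V)).filter
      (fun e => e.1 ∈ S ∧ e.2 ∉ S ∧ H.Adj e.1 e.2)) ∪ ((univ : Finset (V × V)).filter
      (fun e => e.1 ∉ S ∧ e.2 ∈ S ∧ H.Adj e.1 e.2))) ?_)
      ((Finset.card_union_le _ _).trans (Nat.add_le_add_left h2 _))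
    intro e he
    rw [Finset.mem_filter] at he
    rw [Finset.mem_union, Finset.mem_filter, Finset.mem_filter]
    obtain ⟨_, h3, h4⟩ := he
    by_cases a1 : e.1 ∈ S
    · by_cases a2 : e.2 ∈ S
      · rw [if_pos a1, if_pos a2] at h4; exact absurd rfl h4
      · exact Or.inl ⟨Finset.mem_univ _, a1, a2, h3⟩
    · by_cases a2 : e.2 ∈ S
      · exact Or.inr ⟨Finset.mem_univ _, a1, a2, h3⟩
      · rw [if_neg a1, if_neg a2] at h4; exact absurd rfl h4
  have h1 : g S.card ≤ 2 * (cut H S : ℝ) := by
    have : g S.card ≤ (((univ : Finset (V × V)).filter (fun e => H.Adj e.1 e.2 ∧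
      (if e.1 ∈ S then 1 else 0 : ℕ) ≠ (if e.2 ∈ S then 1 else 0))).card : ℝ) := by
      rw [← hsum]
      exact hPI
    refine this.trans ?_
    exact_mod_cast hcut
  have h2 := hX.hρ S.card hcard hS
  have h3 := hX.hDB S hS
  have h4 : (vol H S : ℝ) ≤ inn H S + cut H S := by exact_mod_cast m20_vol_le H S
  have hcn : (1 : ℝ) ≤ S.card := by exact_mod_cast hcard
  have hv0 : (0 : ℝ) ≤ vol H S := Nat.cast_nonneg _
  rcases le_or_gt (2 * D0 * S.card) (vol H S : ℝ) with h5 | h5
  · have h6 : ρ / (4 * D0) ≤ 1 / 4 := by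
      rw [div_le_div_iff₀ (by positivity) (by norm_num)]
      have := hX.hρD
      linarith
    have h7 : ρ / (4 * D0) * vol H S ≤ 1 / 4 * vol H S := mul_le_mul_of_nonneg_right h6 hv0
    linarith
  · have h7 : ρ / (4 * D0) * vol H S ≤ ρ / (4 * D0) * (2 * D0 * S.card) :=
      mul_le_mul_of_nonneg_left h5.le (by positivity)
    have h8 : ρ / (4 * D0) * (2 * D0 * S.card) = ρ * S.card / 2 := by
      field_simp; ring
    linarith

theorem m20_walk_graph {W : SimpleGraph V} {u v : V} (w : W.Walk u v) :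
    ∃ L : SimpleGraph V, L ≤ W ∧ nd L ≤ 2 * w.length ∧ L.Reachable u v := by
  refine ⟨SimpleGraph.fromEdgeSet {e | e ∈ w.edges}, ?_, ?_, ?_⟩
  · intro a b hab
    rw [SimpleGraph.fromEdgeSet_adj] at hab
    exact w.adj_of_mem_edges hab.1
  · have h1 : ∀ e : V × V, (SimpleGraph.fromEdgeSet {e | e ∈ w.edges}).Adj e.1 e.2 → e ∈
        (w.darts.map (fun d => d.toProd) ++ w.darts.map (fun d => d.toProd.swap)).toFinset := by
      intro e he
      rw [SimpleGraph.fromEdgeSet_adj] at he
      have h2 : s(e.1, e.2) ∈ w.edges := he.1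
      rw [SimpleGraph.Walk.edges, List.mem_map] at h2
      obtain ⟨d, hd, hde⟩ := h2
      rw [List.mem_toFinset, List.mem_append, List.mem_map, List.mem_map]
      have h3 : d.toProd = (e.1, e.2) ∨ d.toProd = (e.1, e.2).swap :=
        SimpleGraph.dart_edge_eq_mk'_iff.1 hde
      rcases h3 with h3 | h3
      · exact Or.inl ⟨d, hd, h3⟩
      · exact Or.inr ⟨d, hd, by rw [h3]; rfl⟩
    refine (m20_nd_le _ _ h1).trans ((List.toFinset_card_le _).trans (le_of_eq ?_))
    rw [List.length_append, List.length_map, List.length_map, SimpleGraph.Walk.length_darts]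
    ring
  · refine ⟨w.transfer _ ?_⟩
    intro e he
    rw [SimpleGraph.edgeSet_fromEdgeSet]
    exact ⟨he, W.not_isDiag_of_mem_edgeSet (w.edges_subset_edgeSet he)⟩

/-- Terminal theorem, explicit version: a hypercube of terminals linked by short edge-disjoint
connections. `c N0` come from `hypercube d`. -/
theorem terminals (H : SimpleGraph V) (g : ℕ → ℝ) (D0 ρ : ℝ) (smax : ℕ)
    (hX : Expd H g D0 ρ smax)
    (fam : Finset (Finset V)) (E : Finset V → SimpleGraph V) (q K d : ℕ) (hqd : q ≤ d)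
    (hT : Terms H fam E q K smax) (hK : 1 ≤ K)
    (s0 v0 s M N R B f : ℕ)
    (hs0 : ∀ k, 1 ≤ k → k ≤ smax → g k < 16 * ((q : ℝ) + K) → k ≤ s0)
    (hv0 : 16 * ((q : ℝ) + K) + D0 * s0 ≤ v0) (hM : 1 ≤ M)
    (hR : R = 2 * (v0 + 1 + s) * (q + 3) ^ q)
    (hB : B = M * (4 * (R + 1) * (K + q)) ^ q)
    (hBs : B + K ≤ smax)
    (hs : (B : ℝ) ≤ (1 + ρ / (64 * D0)) ^ s)
    (hf : f = N * (q * (2 * M * R) + 2 * K))
    (hfam : (N : ℝ) + 4 * f / ρ + f + 2 * f * (v0 + 1) ^ s0 < fam.card)
    (t Fm c N0 : ℕ)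
    (hcube : ∀ N : ℕ, N0 ≤ N → ∀ Γ : Fin d → SimpleGraph (Fin N),
      (∀ j, ∀ I : Finset (Fin N), (∀ a ∈ I, ∀ b ∈ I, a ≠ b → ¬ (Γ j).Adj a b) →
        I.card ^ c ≤ N) →
      ∃ g : (Fin d → Bool) → Fin N, Function.Injective g ∧
        ∀ x j, (Γ j).Adj (g x) (g (Function.update x j (!x j))))
    (hN0 : N0 ≤ N) (hN1 : 1 ≤ N) (hNc : ∀ m : ℕ, m * smax ≤ Fintype.card V → m ^ c ≤ N)
    (hFm : N * N * q * (2 * (R + t)) ≤ Fm) (hFm1 : 1 ≤ Fm)
    (hres : 8 * D0 * ((N : ℝ) * q * (8 * Fm * R) + N * (2 * K) + 2 * Fm) ≤ ρ * M)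
    (ht : (nd H : ℝ) < (1 + ρ / (8 * D0)) ^ t) :
    ∃ A : (Fin d → Bool) → Finset V, Function.Injective A ∧ (∀ x, A x ∈ fam) ∧
      ∃ Lk : (Fin d → Bool) → Fin q → SimpleGraph V,
        (∀ x j, Lk x j ≤ H) ∧ (∀ x j, nd (Lk x j) ≤ 2 * (4 * R + 2 * t)) ∧
        (∀ x j, x (Fin.castLE hqd j) = false → ∃ u ∈ A x,
          ∃ v ∈ A (Function.update x (Fin.castLE hqd j) true), (Lk x j).Reachable u v) ∧
        (∀ x j y i, (x, j) ≠ (y, i) → Disjoint (Lk x j) (Lk y i)) ∧
        (∀ x j y, Disjoint (Lk x j) (E (A y))) := by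
  obtain ⟨a, ha, hafam, T, hTH, hTT, hTE, hTvol⟩ := select H g D0 ρ smax hX fam E q K hT hK
    s0 v0 s M N R B f hs0 hv0 hM hR hB hBs hs hf hfam
  have hsk := fun l j => skeleton H (T l j) (a l) R M Fm hFm1 (hTvol l j)
  choose Q hQT hQnd hQvol using hsk
  obtain ⟨Rs, hRs⟩ : ∃ Rs : SimpleGraph V, Rs = (univ : Finset (Fin N × Fin q)).sup
    (fun p => Q p.1 p.2) ⊔ (univ : Finset (Fin N)).sup (fun m => E (a m)) := ⟨_, rfl⟩
  have hQRs : ∀ l j, Q l j ≤ Rs := by
    intro l j
    rw [hRs]
    exact (Finset.le_sup (f := fun p : Fin N × Fin q => Q p.1 p.2)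
      (Finset.mem_univ (l, j))).trans le_sup_left
  have hERs : ∀ m, E (a m) ≤ Rs := by
    intro m
    rw [hRs]
    exact (Finset.le_sup (f := fun m => E (a m)) (Finset.mem_univ m)).trans le_sup_right
  have hD0 : 0 < D0 := lt_of_lt_of_le one_pos hX.hD1
  have hρ := hX.hρ0
  -- the number of deleted edges
  have hRsnd : nd Rs ≤ N * q * (8 * Fm * R) + N * (2 * K) := by
    rw [hRs]
    refine (m20_nd_sup _ _).trans (Nat.add_le_add ?_ ?_)
    · refine (m20_nd_fsup _ _).trans ?_
      refine (Finset.sum_le_card_nsmul _ _ (8 * Fm * R) fun p _ => hQnd p.1 p.2).trans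
        (le_of_eq ?_)
      rw [Finset.card_univ, Fintype.card_prod, Fintype.card_fin, Fintype.card_fin, smul_eq_mul]
    · refine (m20_nd_fsup _ _).trans ?_
      refine (Finset.sum_le_card_nsmul _ _ (2 * K) fun m _ => hT.hEnd _ (hafam m)).trans
        (le_of_eq ?_)
      rw [Finset.card_univ, Fintype.card_fin, smul_eq_mul]
  -- reaching
  have hreach : ∀ F : SimpleGraph V, F ≤ H → Disjoint F Rs → nd F ≤ 2 * Fm →
      ∀ l j, smax ≤ (ball (H \ (Rs ⊔ F)) (ball (Q l j) (a l) R) (R + t)).card := by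
    intro F hFH hFRs hFnd l j
    have h1 := hQvol l j F (hFRs.mono_right (hQRs l j)) hFnd
    obtain ⟨S0, hS0⟩ : ∃ S0, S0 = ball (T l j \ (Q l j ⊔ F)) (ball (Q l j) (a l) R) R := ⟨_, rfl⟩
    rw [← hS0] at h1
    have hle : T l j \ (Q l j ⊔ F) ≤ H \ (Rs ⊔ F) := by
      rw [le_sdiff]
      refine ⟨sdiff_le.trans (hTH l j), ?_⟩
      rw [disjoint_sup_right]
      refine ⟨?_, disjoint_sdiff_self_left.mono_right le_sup_right⟩
      rw [hRs, disjoint_sup_right, Finset.disjoint_sup_right, Finset.disjoint_sup_right]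
      refine ⟨fun p _ => ?_, fun m _ => (hTE l j m).mono_left sdiff_le⟩
      by_cases hp : (l, j) = (p.1, p.2)
      · have e1 : p.1 = l := (congrArg Prod.fst hp).symm
        have e2 : p.2 = j := (congrArg Prod.snd hp).symm
        rw [e1, e2]
        exact disjoint_sdiff_self_left.mono_right le_sup_left
      · exact (hTT l j p.1 p.2 hp).mono sdiff_le (hQT p.1 p.2)
    have hvol0 : (3 : ℝ) * M ≤ 4 * vol H S0 := by exact_mod_cast h1
    have hM1 : (1 : ℝ) ≤ M := by exact_mod_cast hM
    have hvol1 : (1 : ℝ) ≤ vol H S0 := by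
      have : 1 ≤ vol H S0 := by omega
      exact_mod_cast this
    have hγ : (0 : ℝ) ≤ ρ / (4 * D0) := by positivity
    have h2 := reach H (H \ (Rs ⊔ F)) sdiff_le S0 smax (N * q * (4 * Fm * R) + N * K + Fm) t
      (ρ / (4 * D0)) hγ (fun S hS => m20_expand hX S hS) (by
        have e1 : H \ (H \ (Rs ⊔ F)) ≤ Rs ⊔ F := by
          rw [sdiff_sdiff_right_self]
          exact inf_le_right
        have e2 := (m20_nd_mono e1).trans (m20_nd_sup _ _)
        have e3 : 2 * (N * q * (4 * Fm * R) + N * K + Fm) =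
            (N * q * (8 * Fm * R) + N * (2 * K)) + 2 * Fm := by ring
        rw [e3]
        exact e2.trans (Nat.add_le_add hRsnd hFnd)) (by
        push_cast
        have e1 : 2 * ((N : ℝ) * q * (4 * Fm * R) + N * K + Fm) ≤ ρ * M / (8 * D0) := by
          rw [le_div_iff₀ (by positivity)]
          refine le_trans (le_of_eq ?_) hres
          ring
        refine e1.trans ?_
        have e2 : ρ * M / (8 * D0) ≤ ρ / (4 * D0) * (3 / 4 * M) := by
          have : ρ / (4 * D0) * (3 / 4 * M) - ρ * M / (8 * D0) = ρ * M / (16 * D0) := by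
            field_simp; ring
          have h0 : 0 ≤ ρ * M / (16 * D0) := by positivity
          linarith
        refine e2.trans (mul_le_mul_of_nonneg_left ?_ hγ)
        linarith) (by
        have e1 : ρ / (4 * D0) / 2 = ρ / (8 * D0) := by
          field_simp; ring
        rw [e1]
        refine ht.trans_le ?_
        have e2 : (0 : ℝ) ≤ (1 + ρ / (8 * D0)) ^ t := by positivity
        nlinarith)
    refine h2.le.trans (Finset.card_le_card ?_)
    refine m20_ball_trans ?_
    rw [hS0]
    exact m20_ball_mono hle _ _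
  obtain ⟨Γ, P, hPH, hPnd, hPP, hPw, hΓ⟩ := links H Rs
    (fun l j => ball (Q l j) (a l) R) (2 * (R + t)) (R + t) Fm smax le_rfl hFm hreach
  -- the hypercube
  obtain ⟨gg, hgg, hadj⟩ := hcube N hN0
    (fun j => if h : j.1 < q then Γ ⟨j.1, h⟩ else ⊤) (by
      intro j I hI
      by_cases h : j.1 < q
      · apply hNc
        apply hΓ ⟨j.1, h⟩ I
        intro x hx y hy hxy
        have := hI x hx y hy hxy
        rwa [dif_pos h] at this
      · have h1 : I.card ≤ 1 := by
          rw [Finset.card_le_one]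
          intro x hx y hy
          by_contra hxy
          have := hI x hx y hy hxy
          rw [dif_neg h] at this
          exact this hxy
        exact (Nat.pow_le_pow_left h1 c).trans (by rw [one_pow]; exact hN1))
  have hadj' : ∀ (x : Fin d → Bool) (j : Fin q), x (Fin.castLE hqd j) = false →
      (Γ j).Adj (gg x) (gg (Function.update x (Fin.castLE hqd j) true)) := by
    intro x j hx
    have h1 := hadj x (Fin.castLE hqd j)
    rw [hx] at h1
    have h2 : (Fin.castLE hqd j).1 < q := j.2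
    rw [dif_pos h2] at h1
    exact h1
  -- one cube edge
  have hedge : ∀ (x : Fin d → Bool) (j : Fin q), ∃ L : SimpleGraph V,
      (x (Fin.castLE hqd j) = true → L = ⊥) ∧
      L ≤ P (min (gg x) (gg (Function.update x (Fin.castLE hqd j) true)))
          (max (gg x) (gg (Function.update x (Fin.castLE hqd j) true))) j ⊔
        (Q (gg x) j ⊔ Q (gg (Function.update x (Fin.castLE hqd j) true)) j) ∧
      nd L ≤ 2 * (4 * R + 2 * t) ∧
      (x (Fin.castLE hqd j) = false → ∃ u ∈ a (gg x),
        ∃ v ∈ a (gg (Function.update x (Fin.castLE hqd j) true)), L.Reachable u v) := by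
    intro x j
    cases hx : x (Fin.castLE hqd j) with
    | true =>
      refine ⟨⊥, fun _ => rfl, bot_le, ?_, fun h => absurd h (by simp)⟩
      rw [m20_nd_bot]
      exact Nat.zero_le _
    | false =>
      have h1 := hadj' x j hx
      obtain ⟨l, hl⟩ : ∃ l, l = gg x := ⟨_, rfl⟩
      obtain ⟨l', hl'⟩ : ∃ l', l' = gg (Function.update x (Fin.castLE hqd j) true) := ⟨_, rfl⟩
      rw [← hl, ← hl'] at h1 ⊢
      -- the main walk for ordered indices
      have hmain : ∀ m m' : Fin N, m < m' → (Γ j).Adj m m' → ∃ u ∈ a m, ∃ v ∈ a m',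
          ∃ w : (P m m' j ⊔ (Q m j ⊔ Q m' j)).Walk u v, w.length ≤ 4 * R + 2 * t := by
        intro m m' hmm hΓm
        obtain ⟨x1, hx1, y1, hy1, w, hw⟩ := hPw m m' j hmm hΓm
        rw [m20_mem_ball] at hx1 hy1
        obtain ⟨u, hu, w1, hw1⟩ := hx1
        obtain ⟨v, hv, w2, hw2⟩ := hy1
        refine ⟨u, hu, v, hv, ((w1.mapLe (le_sup_left.trans le_sup_right)).append
          ((w.mapLe le_sup_left).append (w2.mapLe (le_sup_right.trans le_sup_right)).reverse)),
          ?_⟩
        simp only [SimpleGraph.Walk.length_append, SimpleGraph.Walk.length_reverse,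
          SimpleGraph.Walk.length_map]
        omega
      rcases lt_trichotomy l l' with hlt | heq | hgt
      · obtain ⟨u, hu, v, hv, w, hw⟩ := hmain l l' hlt h1
        obtain ⟨L, hL1, hL2, hL3⟩ := m20_walk_graph w
        refine ⟨L, fun h => absurd h (by simp), ?_, by omega, fun _ => ⟨u, hu, v, hv, hL3⟩⟩
        rw [min_eq_left hlt.le, max_eq_right hlt.le]
        exact hL1
      · rw [heq] at h1
        exact absurd h1 ((Γ j).loopless.irrefl _)
      · obtain ⟨u, hu, v, hv, w, hw⟩ := hmain l' l hgt h1.symm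
        obtain ⟨L, hL1, hL2, hL3⟩ := m20_walk_graph w
        refine ⟨L, fun h => absurd h (by simp), ?_, by omega, fun _ => ⟨v, hv, u, hu, hL3.symm⟩⟩
        rw [min_eq_right hgt.le, max_eq_left hgt.le, sup_comm (Q l j)]
        exact hL1
  choose Lk hLk0 hLk1 hLk2 hLk3 using hedge
  -- disjointness of skeletons
  have hQQ : ∀ l j l' j', (l, j) ≠ (l', j') → Disjoint (Q l j) (Q l' j') := fun l j l' j' h =>
    (hTT l j l' j' h).mono (hQT l j) (hQT l' j')
  have hPQ : ∀ l l' j m i, Disjoint (P l l' j) (Q m i) := fun l l' j m i =>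
    (disjoint_sdiff_self_left : Disjoint (H \ Rs) Rs).mono (hPH l l' j) (hQRs m i)
  refine ⟨fun x => a (gg x), fun x y h => hgg (ha h), fun x => hafam _, Lk, ?_, hLk2, ?_, ?_, ?_⟩
  · intro x j
    refine (hLk1 x j).trans (sup_le ((hPH _ _ _).trans sdiff_le) (sup_le ?_ ?_))
    · exact (hQT _ _).trans (hTH _ _)
    · exact (hQT _ _).trans (hTH _ _)
  · intro x j hx
    exact hLk3 x j hx
  · intro x j y i hne
    cases hx : x (Fin.castLE hqd j) with
    | true => rw [hLk0 x j hx]; exact disjoint_bot_left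
    | false =>
      cases hy : y (Fin.castLE hqd i) with
      | true => rw [hLk0 y i hy]; exact disjoint_bot_right
      | false =>
        refine Disjoint.mono (hLk1 x j) (hLk1 y i) ?_
        -- separation of the indices
        have hsep : j = i → gg x ≠ gg y ∧
            gg x ≠ gg (Function.update y (Fin.castLE hqd i) true) ∧
            gg (Function.update x (Fin.castLE hqd j) true) ≠ gg y ∧
            gg (Function.update x (Fin.castLE hqd j) true) ≠
              gg (Function.update y (Fin.castLE hqd i) true) := by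
          intro hji
          subst hji
          have hxy : x ≠ y := fun h => hne (by rw [h])
          refine ⟨fun h => hxy (hgg h), fun h => ?_, fun h => ?_, fun h => ?_⟩
          · have h1 := congrFun (hgg h) (Fin.castLE hqd j)
            rw [Function.update_self, hx] at h1
            exact Bool.noConfusion h1
          · have h1 := congrFun (hgg h) (Fin.castLE hqd j)
            rw [Function.update_self, hy] at h1
            exact Bool.noConfusion h1
          · apply hxy
            have h1 := hgg h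
            funext b
            by_cases hb : b = Fin.castLE hqd j
            · rw [hb, hx, hy]
            · have h2 := congrFun h1 b
              rwa [Function.update_of_ne hb, Function.update_of_ne hb] at h2
        have hpair : ∀ l m : Fin N, (j = i → l ≠ m) → (l, j) ≠ (m, i) := by
          intro l m h1 h2
          exact h1 (congrArg Prod.snd h2) (congrArg Prod.fst h2)
        rw [disjoint_sup_left, disjoint_sup_right, disjoint_sup_left, disjoint_sup_right,
          disjoint_sup_right, disjoint_sup_right, disjoint_sup_right, disjoint_sup_right]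
        refine ⟨⟨?_, hPQ _ _ _ _ _, hPQ _ _ _ _ _⟩, ⟨(hPQ _ _ _ _ _).symm, ?_, ?_⟩,
          (hPQ _ _ _ _ _).symm, ?_, ?_⟩
        · apply hPP
          intro h
          have h1 : j = i := congrArg (fun p => p.2.2) h
          have h2 := congrArg (fun p => p.1) h
          have h3 := congrArg (fun p => p.2.1) h
          simp only at h2 h3
          obtain ⟨n1, n2, n3, n4⟩ := hsep h1
          rcases min_choice (gg x) (gg (Function.update x (Fin.castLE hqd j) true)) with e1 | e1
          · rcases min_choice (gg y) (gg (Function.update y (Fin.castLE hqd i) true)) with e2 | e2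
            · rw [e1, e2] at h2; exact n1 h2
            · rw [e1, e2] at h2; exact n2 h2
          · rcases min_choice (gg y) (gg (Function.update y (Fin.castLE hqd i) true)) with e2 | e2
            · rw [e1, e2] at h2; exact n3 h2
            · rw [e1, e2] at h2; exact n4 h2
        · exact hQQ _ _ _ _ (hpair _ _ fun h => (hsep h).1)
        · exact hQQ _ _ _ _ (hpair _ _ fun h => (hsep h).2.1)
        · exact hQQ _ _ _ _ (hpair _ _ fun h => (hsep h).2.2.1)
        · exact hQQ _ _ _ _ (hpair _ _ fun h => (hsep h).2.2.2)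
  · intro x j y
    refine Disjoint.mono_left (hLk1 x j) ?_
    rw [disjoint_sup_left, disjoint_sup_left]
    refine ⟨(disjoint_sdiff_self_left : Disjoint (H \ Rs) Rs).mono (hPH _ _ _) (hERs _), ?_, ?_⟩
    · exact (hTE _ _ _).mono_left (hQT _ _)
    · exact (hTE _ _ _).mono_left (hQT _ _)

end M20

alias terminals := M20.terminals

end ImmLog
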