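import Pool.Agent.ImmLog.Defs2

set_option autoImplicit false

open Classical Finset

namespace ImmLog

namespace M21a

variable {V : Type*} [Fintype V]









theorem phi_diff (ε x : ℝ) (hx : 0 < x) (a b : ℝ) (ha : 0 ≤ a) (hb : 0 ≤ b) :
    (ε / 8 * (b / x) - ε / 8 / (1 + b)) - (ε / 8 * (a / x) - ε / 8 / (1 + a)) =
      ε / 8 * ((b - a) / x + (b - a) / ((1 + a) * (1 + b))) := by
  have h1 : (1 + a) ≠ 0 := by positivity
  have h2 : (1 + b) ≠ 0 := by positivity
  have h3 : x ≠ 0 := hx.ne'
  field_simp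
  ring

theorem gf_nonneg (ε x : ℝ) (hε : 0 < ε) (hx : 0 < x) (h s : ℕ) (hs : s ≤ h) :
    0 ≤ gf ε x h s := by
  unfold gf phi
  rcases Nat.eq_zero_or_pos s with h0 | h0
  · subst h0
    simp
  · have ha : 0 ≤ Real.log s := Real.log_natCast_nonneg s
    have hb : 0 ≤ Real.log h := Real.log_natCast_nonneg h
    have hab : Real.log s ≤ Real.log h :=
      Real.log_le_log (by exact_mod_cast h0) (by exact_mod_cast hs)
    rw [phi_diff ε x hx _ _ ha hb]
    have h1 : 0 ≤ Real.log h - Real.log s := by linarith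
    positivity

/-- linear lower bound of `gf` up to `h^(1-η)` -/
theorem gf_linear (ε x η : ℝ) (hε : 0 < ε) (hx : 0 < x) (hη : 0 < η) (hη1 : η < 1) (h s : ℕ)
    (h2 : 2 ≤ h) (hs1 : 1 ≤ s) (hs : (s : ℝ) ≤ (h : ℝ) ^ (1 - η)) :
    (ε / 8 * η * (Real.log h / x + Real.log h / (1 + Real.log h) ^ 2)) * s ≤ gf ε x h s := by
  unfold gf phi
  have ha : 0 ≤ Real.log s := Real.log_natCast_nonneg s
  have hb : 0 < Real.log h := Real.log_pos (by exact_mod_cast h2)
  have hs0 : (0 : ℝ) < s := by exact_mod_cast hs1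
  have hh0 : (0 : ℝ) < h := by
    have : 0 < h := by omega
    exact_mod_cast this
  have hab : Real.log s ≤ (1 - η) * Real.log h := by
    have h1 := Real.log_le_log hs0 hs
    rwa [Real.log_rpow hh0] at h1
  rw [phi_diff ε x hx _ _ ha hb.le]
  have hab2 : Real.log s ≤ Real.log h := by nlinarith
  have hd : η * Real.log h ≤ Real.log h - Real.log s := by linarith
  have hηb : 0 < η * Real.log h := mul_pos hη hb
  have e1 : η * Real.log h / x ≤ (Real.log h - Real.log s) / x :=
    div_le_div_of_nonneg_right hd hx.le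
  have e2 : η * Real.log h / (1 + Real.log h) ^ 2 ≤
      (Real.log h - Real.log s) / ((1 + Real.log s) * (1 + Real.log h)) := by
    apply div_le_div₀ (by linarith) hd (by positivity)
    rw [pow_two]
    apply mul_le_mul_of_nonneg_right (by linarith) (by linarith)
  have e3 : ε / 8 * (η * Real.log h / x + η * Real.log h / (1 + Real.log h) ^ 2) ≤
      ε / 8 * ((Real.log h - Real.log s) / x +
        (Real.log h - Real.log s) / ((1 + Real.log s) * (1 + Real.log h))) := by
    apply mul_le_mul_of_nonneg_left (add_le_add e1 e2) (by positivity)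
  have e4 : (ε / 8 * η * (Real.log h / x + Real.log h / (1 + Real.log h) ^ 2)) * s =
      s * (ε / 8 * (η * Real.log h / x + η * Real.log h / (1 + Real.log h) ^ 2)) := by
    ring
  rw [e4]
  exact mul_le_mul_of_nonneg_left e3 hs0.le

end M21a

alias gf_linear := M21a.gf_linear
alias gf_nonneg := M21a.gf_nonneg

end ImmLog
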