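import Pool.Agent.ImmLog.Defs2

set_option autoImplicit false

open Classical Finset

namespace ImmLog

namespace M22

variable {V : Type*} [Fintype V]



theorem ev_log (C : ℝ) (k : ℕ) (δ : ℝ) (hδ : 0 < δ) :
    ∀ᶠ h : ℕ in Filter.atTop, C * (1 + Real.log h) ^ k ≤ (h : ℝ) ^ δ := by
  have h1 := (isLittleO_log_rpow_rpow_atTop (k : ℝ) hδ)
  have hc : (0 : ℝ) < 1 / (|C| * 2 ^ k + 1) := by positivity
  have h2 := h1.def hc
  have h3 : ∀ᶠ x : ℝ in Filter.atTop, C * (1 + Real.log x) ^ k ≤ x ^ δ := by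
    filter_upwards [h2, Filter.eventually_ge_atTop (Real.exp 1)] with x hx hx1
    have hx0 : 0 < x := lt_of_lt_of_le (Real.exp_pos 1) hx1
    have hl : 1 ≤ Real.log x := by
      rw [← Real.log_exp 1]
      exact Real.log_le_log (Real.exp_pos 1) hx1
    rw [Real.rpow_natCast, Real.norm_of_nonneg (by positivity),
      Real.norm_of_nonneg (Real.rpow_nonneg hx0.le _)] at hx
    have h4 : (1 + Real.log x) ^ k ≤ 2 ^ k * Real.log x ^ k := by
      rw [← mul_pow]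
      exact pow_le_pow_left₀ (by positivity) (by linarith) k
    have h5 : C * (1 + Real.log x) ^ k ≤ |C| * (1 + Real.log x) ^ k :=
      mul_le_mul_of_nonneg_right (le_abs_self C) (by positivity)
    have h6 : |C| * (1 + Real.log x) ^ k ≤ (|C| * 2 ^ k + 1) * Real.log x ^ k := by
      have : |C| * (1 + Real.log x) ^ k ≤ |C| * (2 ^ k * Real.log x ^ k) :=
        mul_le_mul_of_nonneg_left h4 (abs_nonneg C)
      have h7 : 0 ≤ Real.log x ^ k := by positivity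
      nlinarith
    have h8 : (|C| * 2 ^ k + 1) * Real.log x ^ k ≤ x ^ δ := by
      have h9 : 0 < |C| * 2 ^ k + 1 := by positivity
      have := mul_le_mul_of_nonneg_left hx h9.le
      calc (|C| * 2 ^ k + 1) * Real.log x ^ k ≤ (|C| * 2 ^ k + 1) *
            (1 / (|C| * 2 ^ k + 1) * x ^ δ) := this
        _ = x ^ δ := by field_simp
    linarith
  exact tendsto_natCast_atTop_atTop.eventually h3

theorem pow_exp (y : ℝ) (n : ℕ) (hy0 : 0 ≤ y) (hy1 : y ≤ 1) :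
    Real.exp (n * y / 2) ≤ (1 + y) ^ n := by
  have h1 : Real.exp (y / 2) ≤ 1 + y := by
    have h2 := Real.add_one_le_exp (-(y / 2))
    have h3 : 0 < 1 - y / 2 := by linarith
    have h4 : Real.exp (y / 2) * Real.exp (-(y / 2)) = 1 := by
      rw [← Real.exp_add]; simp
    have h5 : Real.exp (y / 2) * (1 - y / 2) ≤ 1 := by
      rw [← h4]
      exact mul_le_mul_of_nonneg_left (by linarith) (Real.exp_pos _).le
    have h6 : 1 ≤ (1 + y) * (1 - y / 2) := by nlinarith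
    by_contra hcon
    push Not at hcon
    have h7 : (1 + y) * (1 - y / 2) < Real.exp (y / 2) * (1 - y / 2) :=
      mul_lt_mul_of_pos_right hcon h3
    linarith
  calc Real.exp (n * y / 2) = Real.exp (y / 2) ^ n := by
        rw [← Real.exp_nat_mul]; congr 1; ring
    _ ≤ (1 + y) ^ n := pow_le_pow_left₀ (Real.exp_pos _).le h1 n

set_option maxHeartbeats 4000000 in
/-- choice of all the numbers in the terminal theorem -/
theorem params (ε D0 : ℝ) (hε : 0 < ε) (hD : 1 ≤ D0) (hεD : ε ≤ D0) (q K c N0 s0 v0 : ℕ)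
    (hK : 1 ≤ K) (b : ℝ) (hb : 0 < b) (hb1 : b ≤ 1) :
    ∃ (η C : ℝ) (h0 : ℕ), 0 < η ∧ η < 1 ∧ 0 ≤ C ∧ 4 ≤ h0 ∧
      ∀ h : ℕ, h0 ≤ h → ∀ x ρ : ℝ, Real.log h ≤ x →
      ρ = ε / 8 * η * (Real.log h / x + Real.log h / (1 + Real.log h) ^ 2) →
      ∃ smax s M N R B f t Fm : ℕ, (smax : ℝ) ≤ (h : ℝ) ^ (1 - η) ∧ smax ≤ h / 2 ∧ 1 ≤ M ∧
        R = 2 * (v0 + 1 + s) * (q + 3) ^ q ∧
        B = M * (4 * (R + 1) * (K + q)) ^ q ∧ B + K ≤ smax ∧
        (B : ℝ) ≤ (1 + ρ / (64 * D0)) ^ s ∧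
        f = N * (q * (2 * M * R) + 2 * K) ∧
        (N : ℝ) + 4 * f / ρ + f + 2 * f * (v0 + 1) ^ s0 < (h : ℝ) ^ b ∧
        N0 ≤ N ∧ 1 ≤ N ∧ (∀ m : ℕ, m * smax ≤ h → m ^ c ≤ N) ∧
        N * N * q * (2 * (R + t)) ≤ Fm ∧ 1 ≤ Fm ∧
        8 * D0 * ((N : ℝ) * q * (8 * Fm * R) + N * (2 * K) + 2 * Fm) ≤ ρ * M ∧
        D0 * ((h : ℝ) + 2) < (1 + ρ / (8 * D0)) ^ t ∧ ((4 * R + 2 * t : ℕ) : ℝ) ≤ C * x := by
  set β : ℝ := b / 10 with hβ
  have hβ0 : 0 < β := by positivity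
  have hβ1 : β ≤ 1 / 10 := by rw [hβ]; linarith
  set η : ℝ := β / (2 * (c + 1)) with hη
  have hη0 : 0 < η := by positivity
  have hc0 : (0 : ℝ) ≤ c := Nat.cast_nonneg c
  have hη1 : η ≤ 1 / 20 := by
    rw [hη, div_le_iff₀ (by positivity)]
    linarith
  have hηc : η * c ≤ β / 2 := by
    rw [hη, div_mul_eq_mul_div, div_le_iff₀ (by positivity)]
    have : β / 2 * (2 * ((c : ℝ) + 1)) = β * c + β := by ring
    linarith
  have hD0 : 0 < D0 := by linarith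
  set A : ℝ := 2048 * D0 / (ε * η) + 1 with hA
  have hA1 : 1 ≤ A := by
    have : 0 ≤ 2048 * D0 / (ε * η) := by positivity
    linarith
  set E : ℝ := ((q : ℝ) + 3) ^ q with hE
  have hE1 : 1 ≤ E := one_le_pow₀ (by have : (0 : ℝ) ≤ q := Nat.cast_nonneg q; linarith)
  have hv0 : (0 : ℝ) ≤ v0 := Nat.cast_nonneg v0
  have hq0 : (0 : ℝ) ≤ q := Nat.cast_nonneg q
  have hK1 : (1 : ℝ) ≤ K := by exact_mod_cast hK
  set AR : ℝ := 2 * (v0 + 1 + A) * E + 1 with hAR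
  have hAR1 : 1 ≤ AR := by
    have : 0 ≤ 2 * (v0 + 1 + A) * E := by positivity
    linarith
  set Q : ℝ := AR + A + 8 / (ε * η) with hQ
  have hQe : 0 < 8 / (ε * η) := by positivity
  have hQ1 : 1 ≤ Q := by linarith
  set V : ℝ := ((v0 : ℝ) + 1) ^ s0 with hV
  have hV0 : 0 ≤ V := by positivity
  clear_value η A E AR Q V
  have e1 := ev_log N0 0 β hβ0
  have e2 := ev_log (4 * (4 * (K + q) * Q) ^ q + 2 * K) (2 * q) (9 / 20) (by norm_num)
  have e3 := ev_log (2 ^ c) 0 (β / 2) (by positivity)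
  have e4 := ev_log 2 0 η hη0
  have e5 := ev_log ((3 + (8 * q + 4 * K) * (5 + 2 * V)) * Q ^ 2) 4 (4 * β) (by positivity)
  have e6 := ev_log (8 * D0 * (16 * q * (16 * q + 1) + 4 * K + 2 * (16 * q + 1)) * Q ^ 3) 6
    (2 * β) (by positivity)
  have e7 : ∀ᶠ h : ℕ in Filter.atTop, 3 * D0 < (h : ℝ) :=
    tendsto_natCast_atTop_atTop.eventually (Filter.eventually_gt_atTop (3 * D0))
  have e8 : ∀ᶠ h : ℕ in Filter.atTop, Real.exp 1 ≤ (h : ℝ) :=
    tendsto_natCast_atTop_atTop.eventually (Filter.eventually_ge_atTop (Real.exp 1))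
  obtain ⟨h0, hh0⟩ := Filter.eventually_atTop.1
    (e1.and (e2.and (e3.and (e4.and (e5.and (e6.and (e7.and e8)))))))
  refine ⟨η, 4 * AR + 2 * A, max h0 4, hη0, by linarith, by positivity, le_max_right _ _, ?_⟩
  intro h hh x ρ hx hρ
  obtain ⟨f1, f2, f3, f4, f5, f6, f7, f8⟩ := hh0 h ((le_max_left _ _).trans hh)
  have hh4 : 4 ≤ h := (le_max_right _ _).trans hh
  have hhp : (0 : ℝ) < h := by
    have : (4 : ℝ) ≤ h := by exact_mod_cast hh4
    linarith
  have hh1 : (1 : ℝ) ≤ h := by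
    have : (4 : ℝ) ≤ h := by exact_mod_cast hh4
    linarith
  set t0 : ℝ := Real.log h with ht0
  have ht1 : 1 ≤ t0 := by
    rw [ht0, ← Real.log_exp 1]
    exact Real.log_le_log (Real.exp_pos 1) f8
  have hx1 : 1 ≤ x := ht1.trans hx
  have hx0 : 0 < x := by linarith
  set L : ℝ := 1 + t0 with hL
  have hL1 : 1 ≤ L := by linarith
  clear_value L t0
  have hL2 : 1 ≤ L ^ 2 := one_le_pow₀ hL1
  -- bounds on ρ
  have hεη : 0 < ε * η := by positivity
  have hρ1 : ε * η / 8 * (t0 / L ^ 2) ≤ ρ := by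
    rw [hρ]
    have : 0 ≤ t0 / x := by positivity
    have h9 : 0 < ε / 8 * η := by positivity
    calc ε * η / 8 * (t0 / L ^ 2) = ε / 8 * η * (t0 / L ^ 2) := by ring
      _ ≤ ε / 8 * η * (t0 / x + t0 / L ^ 2) := mul_le_mul_of_nonneg_left (by linarith) h9.le
  have hρ2 : ε * η / 8 * (t0 / x) ≤ ρ := by
    rw [hρ]
    have : 0 ≤ t0 / L ^ 2 := by positivity
    have h9 : 0 < ε / 8 * η := by positivity
    calc ε * η / 8 * (t0 / x) = ε / 8 * η * (t0 / x) := by ring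
      _ ≤ ε / 8 * η * (t0 / x + t0 / L ^ 2) := mul_le_mul_of_nonneg_left (by linarith) h9.le
  have hρ0 : 0 < ρ := lt_of_lt_of_le (by positivity) hρ1
  have hρ3 : ρ ≤ D0 / 4 := by
    have h9 : t0 / x ≤ 1 := (div_le_one hx0).2 hx
    have h10 : t0 / L ^ 2 ≤ 1 := by
      rw [div_le_one (by positivity)]
      calc t0 ≤ L := by linarith
        _ ≤ L ^ 2 := le_self_pow₀ hL1 (by norm_num)
    have h11 : ε / 8 * η ≤ D0 / 8 := by
      calc ε / 8 * η ≤ D0 / 8 * 1 :=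
            mul_le_mul (by linarith) (by linarith) hη0.le (by positivity)
        _ = D0 / 8 := mul_one _
    have h12 : 0 < ε / 8 * η := by positivity
    rw [hρ]
    calc ε / 8 * η * (t0 / x + t0 / L ^ 2) ≤ ε / 8 * η * 2 :=
          mul_le_mul_of_nonneg_left (by linarith) h12.le
      _ ≤ D0 / 4 := by linarith
  have hr1 : t0 / ρ ≤ 8 / (ε * η) * L ^ 2 := by
    rw [div_le_iff₀ hρ0]
    calc t0 = 8 / (ε * η) * L ^ 2 * (ε * η / 8 * (t0 / L ^ 2)) := by field_simp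
      _ ≤ 8 / (ε * η) * L ^ 2 * ρ := mul_le_mul_of_nonneg_left hρ1 (by positivity)
  have hr2 : t0 / ρ ≤ 8 / (ε * η) * x := by
    rw [div_le_iff₀ hρ0]
    calc t0 = 8 / (ε * η) * x * (ε * η / 8 * (t0 / x)) := by field_simp
      _ ≤ 8 / (ε * η) * x * ρ := mul_le_mul_of_nonneg_left hρ2 (by positivity)
  have hr3 : 1 / ρ ≤ Q * L ^ 2 := by
    have h9 : 1 / ρ ≤ t0 / ρ := div_le_div_of_nonneg_right ht1 hρ0.le
    have h10 : 8 / (ε * η) * L ^ 2 ≤ Q * L ^ 2 :=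
      mul_le_mul_of_nonneg_right (by linarith) (by positivity)
    linarith
  have hr0 : 0 ≤ t0 / ρ := by positivity
  set s : ℕ := ⌈256 * D0 * (t0 / ρ)⌉₊ with hs
  set t : ℕ := ⌈32 * D0 * (t0 / ρ)⌉₊ with ht
  have hs_ge : 256 * D0 * (t0 / ρ) ≤ s := Nat.le_ceil _
  have ht_ge : 32 * D0 * (t0 / ρ) ≤ t := Nat.le_ceil _
  have hs_lt : (s : ℝ) < 256 * D0 * (t0 / ρ) + 1 := Nat.ceil_lt_add_one (by positivity)
  have ht_lt : (t : ℝ) < 32 * D0 * (t0 / ρ) + 1 := Nat.ceil_lt_add_one (by positivity)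
  clear_value s t
  have hAe : 2048 * D0 / (ε * η) = 256 * D0 * (8 / (ε * η)) := by ring
  have hs1 : (s : ℝ) ≤ A * L ^ 2 := by
    have h9 : 256 * D0 * (t0 / ρ) ≤ 256 * D0 * (8 / (ε * η) * L ^ 2) :=
      mul_le_mul_of_nonneg_left hr1 (by positivity)
    rw [hA, hAe]
    linarith
  have hs2 : (s : ℝ) ≤ A * x := by
    have h9 : 256 * D0 * (t0 / ρ) ≤ 256 * D0 * (8 / (ε * η) * x) :=
      mul_le_mul_of_nonneg_left hr2 (by positivity)
    rw [hA, hAe]
    linarith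
  have hts : (t : ℝ) ≤ 256 * D0 * (t0 / ρ) + 1 := by
    have : 32 * D0 * (t0 / ρ) ≤ 256 * D0 * (t0 / ρ) := by
      apply mul_le_mul_of_nonneg_right _ hr0
      linarith
    linarith
  have ht1' : (t : ℝ) ≤ A * L ^ 2 := by
    have h9 : 256 * D0 * (t0 / ρ) ≤ 256 * D0 * (8 / (ε * η) * L ^ 2) :=
      mul_le_mul_of_nonneg_left hr1 (by positivity)
    rw [hA, hAe]
    linarith
  have ht2 : (t : ℝ) ≤ A * x := by
    have h9 : 256 * D0 * (t0 / ρ) ≤ 256 * D0 * (8 / (ε * η) * x) :=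
      mul_le_mul_of_nonneg_left hr2 (by positivity)
    rw [hA, hAe]
    linarith
  -- the powers
  have hh2 : Real.exp (2 * t0) = (h : ℝ) ^ 2 := by
    have he : Real.exp t0 = h := by rw [ht0]; exact Real.exp_log hhp
    rw [two_mul, Real.exp_add, he]
    ring
  have hpow_s : (h : ℝ) ^ 2 ≤ (1 + ρ / (64 * D0)) ^ s := by
    refine le_trans ?_ (pow_exp (ρ / (64 * D0)) s (by positivity) ?_)
    · rw [← hh2]
      apply Real.exp_le_exp.2
      have : 2 * t0 = 256 * D0 * (t0 / ρ) * (ρ / (64 * D0)) / 2 := by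
        field_simp
        ring
      rw [this]
      have h9 : 0 ≤ ρ / (64 * D0) := by positivity
      have := mul_le_mul_of_nonneg_right hs_ge h9
      linarith
    · rw [div_le_one (by positivity)]
      linarith
  have hpow_t : (h : ℝ) ^ 2 ≤ (1 + ρ / (8 * D0)) ^ t := by
    refine le_trans ?_ (pow_exp (ρ / (8 * D0)) t (by positivity) ?_)
    · rw [← hh2]
      apply Real.exp_le_exp.2
      have : 2 * t0 = 32 * D0 * (t0 / ρ) * (ρ / (8 * D0)) / 2 := by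
        field_simp
        ring
      rw [this]
      have h9 : 0 ≤ ρ / (8 * D0) := by positivity
      have := mul_le_mul_of_nonneg_right ht_ge h9
      linarith
    · rw [div_le_one (by positivity)]
      linarith
  -- u
  set u : ℝ := (h : ℝ) ^ β with hu
  have hu1 : 1 ≤ u := Real.one_le_rpow hh1 hβ0.le
  have hu0 : 0 < u := by linarith
  have hu5 : (h : ℝ) ^ (5 * β) = u ^ 5 := by
    rw [hu, ← Real.rpow_mul_natCast hhp.le]
    congr 1; push_cast; ring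
  have hu4 : (h : ℝ) ^ (4 * β) = u ^ 4 := by
    rw [hu, ← Real.rpow_mul_natCast hhp.le]
    congr 1; push_cast; ring
  have hu2 : (h : ℝ) ^ (2 * β) = u ^ 2 := by
    rw [hu, ← Real.rpow_mul_natCast hhp.le]
    congr 1; push_cast; ring
  have hu10 : (h : ℝ) ^ b = u ^ 10 := by
    rw [hu, ← Real.rpow_mul_natCast hhp.le]
    congr 1; rw [hβ]; push_cast; ring
  set N : ℕ := ⌈u⌉₊ with hN
  set M : ℕ := ⌈u ^ 5⌉₊ with hM
  have hN_ge : u ≤ N := Nat.le_ceil _
  have hN_le : (N : ℝ) ≤ 2 * u := by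
    have := Nat.ceil_lt_add_one (a := u) hu0.le
    linarith
  have hM_ge : u ^ 5 ≤ M := Nat.le_ceil _
  have hu5' : 1 ≤ u ^ 5 := one_le_pow₀ hu1
  have hM_le : (M : ℝ) ≤ 2 * u ^ 5 := by
    have := Nat.ceil_lt_add_one (a := u ^ 5) (by positivity)
    linarith
  clear_value u N M
  set smax : ℕ := ⌊(h : ℝ) ^ (1 - η)⌋₊ with hsm
  have hsm_le : (smax : ℝ) ≤ (h : ℝ) ^ (1 - η) := Nat.floor_le (by positivity)
  have hsm_gt : (h : ℝ) ^ (1 - η) < smax + 1 := Nat.lt_floor_add_one _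
  clear_value smax
  simp only [pow_zero, mul_one] at f1 f3 f4
  have hhη : (h : ℝ) ^ (1 - η) * (h : ℝ) ^ η = h := by
    rw [← Real.rpow_add hhp]
    simp
  have h19 : (h : ℝ) ^ ((19 : ℝ) / 20) ≤ (h : ℝ) ^ (1 - η) :=
    Real.rpow_le_rpow_of_exponent_le hh1 (by linarith)
  have hhalf : (h : ℝ) ^ (5 * β) ≤ (h : ℝ) ^ ((1 : ℝ) / 2) :=
    Real.rpow_le_rpow_of_exponent_le hh1 (by linarith)
  have hsplit : (h : ℝ) ^ ((1 : ℝ) / 2) * (h : ℝ) ^ ((9 : ℝ) / 20) = (h : ℝ) ^ ((19 : ℝ) / 20) := by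
    rw [← Real.rpow_add hhp]
    norm_num
  set P : ℝ := Q * L ^ 2 with hP
  have hP1 : 1 ≤ P := one_le_mul_of_one_le_of_one_le hQ1 hL2
  have hPQ : ∀ n : ℕ, P ^ n = Q ^ n * L ^ (2 * n) := fun n => by
    rw [hP, mul_pow, ← pow_mul]
  clear_value P
  -- R
  set R : ℕ := 2 * (v0 + 1 + s) * (q + 3) ^ q with hR
  clear_value R
  have hRr : (R : ℝ) = 2 * (v0 + 1 + s) * E := by
    rw [hR, hE]; push_cast; ring
  have hR1 : (R : ℝ) + 1 ≤ AR * L ^ 2 := by
    rw [hRr, hAR]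
    have h9 : (v0 : ℝ) + 1 + s ≤ (v0 + 1 + A) * L ^ 2 := by
      have := mul_le_mul_of_nonneg_left hL2 (by positivity : (0 : ℝ) ≤ (v0 : ℝ) + 1)
      linarith
    have h10 : 2 * ((v0 : ℝ) + 1 + s) * E ≤ 2 * ((v0 + 1 + A) * L ^ 2) * E :=
      mul_le_mul_of_nonneg_right (by linarith) (by linarith)
    linarith
  have hR2 : (R : ℝ) ≤ AR * x := by
    rw [hRr, hAR]
    have h9 : (v0 : ℝ) + 1 + s ≤ (v0 + 1 + A) * x := by
      have := mul_le_mul_of_nonneg_left hx1 (by positivity : (0 : ℝ) ≤ (v0 : ℝ) + 1)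
      linarith
    have h10 : 2 * ((v0 : ℝ) + 1 + s) * E ≤ 2 * ((v0 + 1 + A) * x) * E :=
      mul_le_mul_of_nonneg_right (by linarith) (by linarith)
    linarith
  have hRP : (R : ℝ) + 1 ≤ P := by
    refine hR1.trans ?_
    rw [hP]
    exact mul_le_mul_of_nonneg_right (by linarith) (by positivity)
  have htP : (t : ℝ) ≤ P := by
    refine ht1'.trans ?_
    rw [hP]
    exact mul_le_mul_of_nonneg_right (by linarith) (by positivity)
  have hR0 : (0 : ℝ) ≤ R := Nat.cast_nonneg R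
  have hrP : 1 / ρ ≤ P := hr3
  set B : ℕ := M * (4 * (R + 1) * (K + q)) ^ q with hB
  clear_value B
  have hBr : (B : ℝ) ≤ 2 * u ^ 5 * (4 * P * (K + q)) ^ q := by
    rw [hB]; push_cast
    apply mul_le_mul hM_le _ (by positivity) (by positivity)
    apply pow_le_pow_left₀ (by positivity)
    apply mul_le_mul_of_nonneg_right _ (by positivity)
    linarith
  have hG : (4 * P * ((K : ℝ) + q)) ^ q = (4 * (K + q) * Q) ^ q * L ^ (2 * q) := by
    rw [pow_mul, ← mul_pow, hP]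
    congr 1; ring
  have hG1 : 4 * (4 * P * ((K : ℝ) + q)) ^ q + 2 * K ≤ (h : ℝ) ^ ((9 : ℝ) / 20) := by
    refine le_trans ?_ f2
    rw [hG]
    have h9 : 1 ≤ L ^ (2 * q) := one_le_pow₀ hL1
    have := mul_le_mul_of_nonneg_left h9 (by positivity : (0 : ℝ) ≤ 2 * (K : ℝ))
    linarith
  have hBK : 2 * ((B : ℝ) + K) ≤ (h : ℝ) ^ (1 - η) := by
    have h9 : 2 * ((B : ℝ) + K) ≤ u ^ 5 * (4 * (4 * P * ((K : ℝ) + q)) ^ q + 2 * K) := by
      have h10 := mul_le_mul_of_nonneg_right hu5' (by positivity : (0 : ℝ) ≤ 2 * (K : ℝ))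
      linarith
    calc 2 * ((B : ℝ) + K) ≤ u ^ 5 * (4 * (4 * P * ((K : ℝ) + q)) ^ q + 2 * K) := h9
      _ ≤ (h : ℝ) ^ ((1 : ℝ) / 2) * (h : ℝ) ^ ((9 : ℝ) / 20) := by
          apply mul_le_mul _ hG1 (by positivity) (by positivity)
          rw [← hu5]; exact hhalf
      _ = (h : ℝ) ^ ((19 : ℝ) / 20) := hsplit
      _ ≤ _ := h19
  have hsm2 : (h : ℝ) ^ (1 - η) ≤ 2 * smax := by
    -- `h^(1-η) ≥ 2`
    have h9 : 2 ≤ (h : ℝ) ^ (1 - η) := by
      have hB0 : (0 : ℝ) ≤ B := Nat.cast_nonneg B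
      linarith
    have h10 : (1 : ℝ) ≤ smax := by
      have : 1 ≤ smax := by
        rw [hsm, Nat.one_le_floor_iff]
        linarith
      exact_mod_cast this
    linarith
  set f : ℕ := N * (q * (2 * M * R) + 2 * K) with hf
  clear_value f
  have hf1 : (f : ℝ) ≤ u ^ 6 * (8 * q * P + 4 * K) := by
    rw [hf]; push_cast
    have h9 : (q : ℝ) * (2 * M * R) + 2 * K ≤ q * (2 * (2 * u ^ 5) * P) + 2 * K := by
      have : (2 : ℝ) * M * R ≤ 2 * (2 * u ^ 5) * P := by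
        apply mul_le_mul (by linarith) (by linarith) hR0 (by positivity)
      have := mul_le_mul_of_nonneg_left this hq0
      linarith
    calc (N : ℝ) * ((q : ℝ) * (2 * M * R) + 2 * K) ≤
          (2 * u) * (q * (2 * (2 * u ^ 5) * P) + 2 * K) :=
          mul_le_mul hN_le h9 (by positivity) (by positivity)
      _ = u ^ 6 * (8 * q * P) + u * (4 * K) := by ring
      _ ≤ u ^ 6 * (8 * q * P) + u ^ 6 * (4 * K) := by
          have : u ≤ u ^ 6 := le_self_pow₀ hu1 (by norm_num)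
          have := mul_le_mul_of_nonneg_right this (by positivity : (0 : ℝ) ≤ 4 * K)
          linarith
      _ = _ := by ring
  have hf0 : (0 : ℝ) ≤ f := Nat.cast_nonneg f
  set Fm : ℕ := N * N * q * (2 * (R + t)) + 1 with hFm
  clear_value Fm
  have hN0' : (0 : ℝ) ≤ N := Nat.cast_nonneg N
  have hFm1 : (Fm : ℝ) ≤ u ^ 2 * (16 * q * P + 1) := by
    rw [hFm]; push_cast
    have h9 : (N : ℝ) * N ≤ (2 * u) * (2 * u) := mul_le_mul hN_le hN_le hN0' (by positivity)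
    have h10 : (N : ℝ) * N * q ≤ (2 * u) * (2 * u) * q := mul_le_mul_of_nonneg_right h9 hq0
    have h11 : (N : ℝ) * N * q * (2 * (R + t)) ≤ (2 * u) * (2 * u) * q * (2 * (P + P)) :=
      mul_le_mul h10 (by linarith) (by positivity) (by positivity)
    have h12 : 1 ≤ u ^ 2 := one_le_pow₀ hu1
    linarith
  have hFm0 : (0 : ℝ) ≤ Fm := Nat.cast_nonneg Fm
  refine ⟨smax, s, M, N, R, B, f, t, Fm, hsm_le, ?_, ?_, hR, hB, ?_, ?_, hf, ?_, ?_, ?_, ?_,
    ?_, ?_, ?_, ?_, ?_⟩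
  · rw [Nat.le_div_iff_mul_le (by norm_num)]
    have h9 : (smax : ℝ) * 2 ≤ h := by
      calc (smax : ℝ) * 2 ≤ (h : ℝ) ^ (1 - η) * (h : ℝ) ^ η :=
            mul_le_mul hsm_le f4 (by norm_num) (by positivity)
        _ = h := hhη
    exact_mod_cast h9
  · have : (1 : ℝ) ≤ M := hu5'.trans hM_ge
    exact_mod_cast this
  · have : (B : ℝ) + K ≤ smax := by linarith
    exact_mod_cast this
  · refine le_trans ?_ hpow_s
    have h9 : (B : ℝ) ≤ (h : ℝ) ^ (1 - η) := by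
      have hB0 : (0 : ℝ) ≤ B := Nat.cast_nonneg B
      linarith
    have h10 : (h : ℝ) ^ (1 - η) ≤ (h : ℝ) ^ (2 : ℝ) :=
      Real.rpow_le_rpow_of_exponent_le hh1 (by linarith)
    rw [Real.rpow_two] at h10
    linarith
  · rw [hu10]
    have h9 : 4 * (f : ℝ) / ρ = 4 * f * (1 / ρ) := by ring
    have h10 : 4 * (f : ℝ) * (1 / ρ) ≤ 4 * f * P :=
      mul_le_mul_of_nonneg_left hrP (by positivity)
    have h11 : (N : ℝ) + 4 * f / ρ + f + 2 * f * V ≤ 2 * u + f * (4 * P + 1 + 2 * V) := by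
      rw [h9]; linarith
    have h12 : f * (4 * P + 1 + 2 * V) ≤ u ^ 6 * (8 * q * P + 4 * K) * (4 * P + 1 + 2 * V) :=
      mul_le_mul_of_nonneg_right hf1 (by positivity)
    have h13 : (8 * (q : ℝ) * P + 4 * K) ≤ (8 * q + 4 * K) * P := by
      have := mul_le_mul_of_nonneg_left hP1 (by positivity : (0 : ℝ) ≤ 4 * (K : ℝ))
      linarith
    have h14 : (4 * P + 1 + 2 * V) ≤ (5 + 2 * V) * P := by
      have := mul_le_mul_of_nonneg_left hP1 (by positivity : (0 : ℝ) ≤ 2 * V)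
      linarith
    have h15 : (8 * (q : ℝ) * P + 4 * K) * (4 * P + 1 + 2 * V) ≤
        ((8 * q + 4 * K) * P) * ((5 + 2 * V) * P) :=
      mul_le_mul h13 h14 (by positivity) (by positivity)
    have h16 : (3 + (8 * (q : ℝ) + 4 * K) * (5 + 2 * V)) * P ^ 2 ≤ u ^ 4 := by
      rw [hPQ, ← hu4]
      calc _ = (3 + (8 * (q : ℝ) + 4 * K) * (5 + 2 * V)) * Q ^ 2 * L ^ 4 := by ring
        _ ≤ _ := f5
    have h17 : 2 * u ≤ u ^ 6 * (2 * P ^ 2) := by
      have : u ≤ u ^ 6 := le_self_pow₀ hu1 (by norm_num)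
      have h18 : 1 ≤ P ^ 2 := one_le_pow₀ hP1
      have := mul_le_mul this h18 zero_le_one (by positivity)
      linarith
    have h6p : 0 < u ^ 6 := by positivity
    have hPp : 0 < P ^ 2 := by positivity
    calc (N : ℝ) + 4 * f / ρ + f + 2 * f * V ≤ 2 * u + f * (4 * P + 1 + 2 * V) := h11
      _ ≤ u ^ 6 * (2 * P ^ 2) + u ^ 6 * (8 * q * P + 4 * K) * (4 * P + 1 + 2 * V) := by linarith
      _ ≤ u ^ 6 * (2 * P ^ 2) + u ^ 6 * (((8 * q + 4 * K) * P) * ((5 + 2 * V) * P)) := by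
          have := mul_le_mul_of_nonneg_left h15 h6p.le
          linarith
      _ < u ^ 6 * ((3 + (8 * (q : ℝ) + 4 * K) * (5 + 2 * V)) * P ^ 2) := by
          have := mul_pos h6p hPp
          linarith
      _ ≤ u ^ 6 * u ^ 4 := mul_le_mul_of_nonneg_left h16 h6p.le
      _ = u ^ 10 := by ring
  · have : (N0 : ℝ) ≤ N := f1.trans hN_ge
    exact_mod_cast this
  · have : (1 : ℝ) ≤ N := hu1.trans hN_ge
    exact_mod_cast this
  · intro m hm
    have hm' : (m : ℝ) * smax ≤ h := by exact_mod_cast hm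
    have hm2 : (m : ℝ) ≤ 2 * (h : ℝ) ^ η := by
      have h9 : (m : ℝ) * (h : ℝ) ^ (1 - η) ≤ 2 * (h : ℝ) ^ η * (h : ℝ) ^ (1 - η) := by
        calc (m : ℝ) * (h : ℝ) ^ (1 - η) ≤ m * (2 * smax) :=
              mul_le_mul_of_nonneg_left hsm2 (Nat.cast_nonneg m)
          _ = 2 * (m * smax) := by ring
          _ ≤ 2 * h := by linarith
          _ = 2 * ((h : ℝ) ^ (1 - η) * (h : ℝ) ^ η) := by rw [hhη]
          _ = 2 * (h : ℝ) ^ η * (h : ℝ) ^ (1 - η) := by ring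
      exact le_of_mul_le_mul_right h9 (by positivity)
    have h10 : (m : ℝ) ^ c ≤ N := by
      calc (m : ℝ) ^ c ≤ (2 * (h : ℝ) ^ η) ^ c :=
            pow_le_pow_left₀ (Nat.cast_nonneg m) hm2 c
        _ = 2 ^ c * (h : ℝ) ^ (η * c) := by
            rw [mul_pow, Real.rpow_mul_natCast hhp.le]
        _ ≤ (h : ℝ) ^ (β / 2) * (h : ℝ) ^ (β / 2) := by
            apply mul_le_mul f3 _ (by positivity) (by positivity)
            exact Real.rpow_le_rpow_of_exponent_le hh1 hηc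
        _ = u := by
            rw [← Real.rpow_add hhp, hu]
            congr 1; ring
        _ ≤ N := hN_ge
    exact_mod_cast h10
  · rw [hFm]; omega
  · rw [hFm]; omega
  · have hg : (16 * (q : ℝ) * P + 1) ≤ (16 * q + 1) * P := by linarith
    have hFm2 : (Fm : ℝ) ≤ u ^ 2 * ((16 * q + 1) * P) :=
      hFm1.trans (mul_le_mul_of_nonneg_left hg (by positivity))
    set g : ℝ := (16 * (q : ℝ) + 1) with hgd
    have hg0 : 0 < g := by positivity
    clear_value g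
    have hRP' : (R : ℝ) ≤ P := by linarith
    have h9 : (N : ℝ) * q * (8 * Fm * R) ≤ (2 * u) * q * (8 * (u ^ 2 * (g * P)) * P) := by
      apply mul_le_mul (mul_le_mul_of_nonneg_right hN_le hq0) _ (by positivity) (by positivity)
      apply mul_le_mul (by linarith) hRP' hR0 (by positivity)
    have h10 : (N : ℝ) * (2 * K) ≤ (2 * u) * (2 * K) :=
      mul_le_mul_of_nonneg_right hN_le (by positivity)
    have hP2 : 1 ≤ P ^ 2 := one_le_pow₀ hP1
    have hPP : P ≤ P ^ 2 := le_self_pow₀ hP1 (by norm_num)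
    have hu3 : u ≤ u ^ 3 := le_self_pow₀ hu1 (by norm_num)
    have hu23 : u ^ 2 ≤ u ^ 3 := pow_le_pow_right₀ hu1 (by norm_num)
    have h11 : (2 * u) * (2 * (K : ℝ)) ≤ u ^ 3 * (4 * K * P ^ 2) := by
      calc (2 * u) * (2 * (K : ℝ)) = u * (4 * K * 1) := by ring
        _ ≤ u ^ 3 * (4 * K * P ^ 2) := by
            apply mul_le_mul hu3 _ (by positivity) (by positivity)
            exact mul_le_mul_of_nonneg_left hP2 (by positivity)
    have h12 : 2 * (Fm : ℝ) ≤ u ^ 3 * (2 * g * P ^ 2) := by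
      calc 2 * (Fm : ℝ) ≤ 2 * (u ^ 2 * (g * P)) := by linarith
        _ = u ^ 2 * (2 * g * P) := by ring
        _ ≤ u ^ 3 * (2 * g * P ^ 2) := by
            apply mul_le_mul hu23 _ (by positivity) (by positivity)
            exact mul_le_mul_of_nonneg_left hPP (by positivity)
    have h13 : (N : ℝ) * q * (8 * Fm * R) + N * (2 * K) + 2 * Fm ≤
        u ^ 3 * ((16 * q * g + 4 * K + 2 * g) * P ^ 2) := by
      calc _ ≤ (2 * u) * q * (8 * (u ^ 2 * (g * P)) * P) + u ^ 3 * (4 * K * P ^ 2) +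
            u ^ 3 * (2 * g * P ^ 2) := by linarith
        _ = _ := by ring
    have h14 : 8 * D0 * (16 * q * g + 4 * K + 2 * g) * P ^ 3 ≤ u ^ 2 := by
      rw [hPQ, ← hu2]
      calc _ = 8 * D0 * (16 * q * g + 4 * K + 2 * g) * Q ^ 3 * L ^ 6 := by ring
        _ ≤ _ := f6
    have h15 : 8 * D0 * ((N : ℝ) * q * (8 * Fm * R) + N * (2 * K) + 2 * Fm) * P ≤ u ^ 5 := by
      calc _ ≤ 8 * D0 * (u ^ 3 * ((16 * q * g + 4 * K + 2 * g) * P ^ 2)) * P := by
            apply mul_le_mul_of_nonneg_right _ (by positivity)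
            exact mul_le_mul_of_nonneg_left h13 (by positivity)
        _ = u ^ 3 * (8 * D0 * (16 * q * g + 4 * K + 2 * g) * P ^ 3) := by ring
        _ ≤ u ^ 3 * u ^ 2 := mul_le_mul_of_nonneg_left h14 (by positivity)
        _ = u ^ 5 := by ring
    have h16 : 1 ≤ ρ * P := by
      rw [div_le_iff₀ hρ0] at hrP
      linarith
    have h17 : 8 * D0 * ((N : ℝ) * q * (8 * Fm * R) + N * (2 * K) + 2 * Fm) ≤ ρ * u ^ 5 := by
      have hX0 : 0 ≤ 8 * D0 * ((N : ℝ) * q * (8 * Fm * R) + N * (2 * K) + 2 * Fm) := by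
        positivity
      calc _ = 8 * D0 * ((N : ℝ) * q * (8 * Fm * R) + N * (2 * K) + 2 * Fm) * 1 := by ring
        _ ≤ 8 * D0 * ((N : ℝ) * q * (8 * Fm * R) + N * (2 * K) + 2 * Fm) * (ρ * P) :=
            mul_le_mul_of_nonneg_left h16 hX0
        _ = ρ * (8 * D0 * ((N : ℝ) * q * (8 * Fm * R) + N * (2 * K) + 2 * Fm) * P) := by ring
        _ ≤ ρ * u ^ 5 := mul_le_mul_of_nonneg_left h15 hρ0.le
    exact h17.trans (mul_le_mul_of_nonneg_left hM_ge hρ0.le)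
  · refine lt_of_lt_of_le ?_ hpow_t
    calc D0 * ((h : ℝ) + 2) ≤ D0 * (3 * h) := by
          apply mul_le_mul_of_nonneg_left _ hD0.le
          linarith
      _ = 3 * D0 * h := by ring
      _ < h * h := mul_lt_mul_of_pos_right f7 hhp
      _ = (h : ℝ) ^ 2 := by ring
  · push_cast
    linarith

end M22

alias params := M22.params

end ImmLog
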