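import Pool.Agent.ImmLog.Defs2
import Pool.Agent.ImmLog.M20
import Pool.Agent.ImmLog.M11
import Pool.Agent.ImmLog.M21a
import Pool.Agent.ImmLog.M21b
import Pool.Agent.ImmLog.M22

set_option autoImplicit false

open Classical Finset

namespace ImmLog

namespace M23

variable {V : Type*} [Fintype V]





















/-- Terminal theorem, asymptotic version. -/
theorem terminals_asymp (ε D0 : ℝ) (hε : 0 < ε) (hD : 1 ≤ D0) (hεD : ε ≤ D0) (q d K : ℕ)
    (hqd : q ≤ d) (hK : 1 ≤ K) (b : ℝ) (hb : 0 < b) (hb1 : b ≤ 1) :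
    ∃ (C : ℝ) (h0 : ℕ), 0 ≤ C ∧ ∀ (m : ℕ) (H : SimpleGraph (Fin m)) (x c1 : ℝ),
      Good ε x D0 c1 H → h0 ≤ m →
      ∀ (fam : Finset (Finset (Fin m))) (E : Finset (Fin m) → SimpleGraph (Fin m)),
      Terms H fam E q K (m / 2) → (m : ℝ) ^ b ≤ fam.card →
      ∃ A : (Fin d → Bool) → Finset (Fin m), Function.Injective A ∧ (∀ x, A x ∈ fam) ∧
        ∃ (L : ℕ) (Lk : (Fin d → Bool) → Fin q → SimpleGraph (Fin m)), (L : ℝ) ≤ C * x ∧
          (∀ x j, Lk x j ≤ H) ∧ (∀ x j, nd (Lk x j) ≤ 2 * L) ∧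
          (∀ x j, x (Fin.castLE hqd j) = false → ∃ u ∈ A x,
            ∃ v ∈ A (Function.update x (Fin.castLE hqd j) true), (Lk x j).Reachable u v) ∧
          (∀ x j y i, (x, j) ≠ (y, i) → Disjoint (Lk x j) (Lk y i)) ∧
          (∀ x j y, Disjoint (Lk x j) (E (A y))) := by
  obtain ⟨c, N0, hcube⟩ := hypercube d
  obtain ⟨s0, h0', hgs⟩ := gf_small ε (16 * ((q : ℝ) + K)) hε
  set v0 : ℕ := ⌈16 * ((q : ℝ) + K) + D0 * s0⌉₊ with hv0
  obtain ⟨η, C, h0'', hη, hη1, hC, h4, hpar⟩ :=
    params ε D0 hε hD hεD q K c N0 s0 v0 hK b hb hb1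
  refine ⟨C, max h0' h0'', hC, ?_⟩
  intro m H x c1 hG hm fam E hT hfam
  have hm1 : h0' ≤ m := (le_max_left _ _).trans hm
  have hm2 : h0'' ≤ m := (le_max_right _ _).trans hm
  have hm4 : 4 ≤ m := h4.trans hm2
  have hx := hG.x_pos
  have hxge : Real.log m ≤ x := by
    have := hG.x_ge
    rwa [Fintype.card_fin] at this
  have hlog : 0 < Real.log m := Real.log_pos (by
    have : (4 : ℝ) ≤ m := by exact_mod_cast hm4
    linarith)
  set ρ : ℝ := ε / 8 * η * (Real.log m / x + Real.log m / (1 + Real.log m) ^ 2) with hρ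
  obtain ⟨smax, s, M, N, R, B, f, t, Fm, h1, h2, hM, hR, hB, hBK, hBs, hf, hfam', hN0, hN1, hNc,
    hFm, hFm1, hres, ht, hL⟩ := hpar m hm2 x ρ hxge hρ
  have hX : Expd H (gf ε x m) D0 ρ smax := by
    constructor
    · intro s hs
      exact gf_nonneg ε x hε hx m s (by omega)
    · intro s hs1 hs
      apply gf_linear ε x η hε hx hη hη1 m s (by omega) hs1
      have : (s : ℝ) ≤ smax := by exact_mod_cast hs
      exact this.trans h1
    · rw [hρ]; positivity
    · have e1 : Real.log m / x ≤ 1 := by rw [div_le_one hx]; exact hxge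
      have e2 : Real.log m / (1 + Real.log m) ^ 2 ≤ 1 := by
        rw [div_le_one (by positivity)]; nlinarith
      have e3 : 0 ≤ Real.log m / x := by positivity
      have e4 : 0 ≤ Real.log m / (1 + Real.log m) ^ 2 := by positivity
      calc ρ ≤ ε / 8 * 1 * (1 + 1) := by
            rw [hρ]
            apply mul_le_mul
            · exact mul_le_mul_of_nonneg_left hη1.le (by positivity)
            · exact add_le_add e1 e2
            · positivity
            · positivity
        _ ≤ ε := by linarith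
        _ ≤ D0 := hεD
    · exact hD
    · intro part _
      have := hG.PI part
      simpa only [Fintype.card_fin] using this
    · intro S hS
      apply hG.DB S
      rintro rfl
      rw [card_univ, Fintype.card_fin] at hS
      omega
  have hT' : Terms H fam E q K smax :=
    ⟨hT.hne, hT.hdisj, hT.hcard, hT.hEle, hT.hEinc, hT.hEnd,
      fun A hA S hAS hS => hT.hcut A hA S hAS (hS.trans h2)⟩
  obtain ⟨A, hA1, hA2, Lk, hL1, hL2, hL3, hL4, hL5⟩ := terminals H (gf ε x m) D0 ρ smax hX fam E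
    q K d hqd hT' hK s0 v0 s M N R B f
    (fun k hk1 hk2 hk3 => hgs m hm1 x hx k hk1 (by omega) hk3)
    (Nat.le_ceil _) hM hR hB hBK hBs hf (hfam'.trans_le hfam) t Fm c N0 hcube hN0 hN1
    (fun k hk => hNc k (by rwa [Fintype.card_fin] at hk)) hFm hFm1 hres (by
      have h5 := hG.hi (by rw [Fintype.card_fin]; exact hm4)
      rw [Fintype.card_fin] at h5
      exact h5.trans_lt ht)
  exact ⟨A, hA1, hA2, 4 * R + 2 * t, Lk, hL, hL1, hL2, hL3, hL4, hL5⟩

end M23

alias terminals_asymp := M23.terminals_asymp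

end ImmLog
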