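import Pool.Agent.ImmLog.Defs2
import Pool.Agent.ImmLog.M19

set_option autoImplicit false

open Classical Finset

namespace ImmLog

namespace M24

variable {V : Type*} [Fintype V]









theorem hasImm_map {W W' : Type*} (J' : SimpleGraph W') (J : SimpleGraph W) (e : W' → W)
    (he : Function.Injective e) (hom : ∀ a b, J'.Adj a b → J.Adj (e a) (e b)) (k : ℕ)
    (h : HasImm k J') : HasImm k J := by
  obtain ⟨f, hf, P, hP, hD⟩ := h
  let φ : J' →g J := ⟨e, fun {a b} h => hom a b h⟩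
  refine ⟨e ∘ f, he.comp hf, fun i j => (P i j).map φ, ?_, ?_⟩
  · intro i j hij
    exact (hP i j hij).map he
  · intro i j i' j' h1 h2 h3
    rw [SimpleGraph.Walk.edges_map, SimpleGraph.Walk.edges_map]
    intro s hs hs'
    obtain ⟨a, ha, rfl⟩ := List.mem_map.1 hs
    obtain ⟨b, hb, hab⟩ := List.mem_map.1 hs'
    have : b = a := Sym2.map.injective he hab
    subst this
    exact hD i j i' j' h1 h2 h3 ha hb

theorem hasImmLe_mono {W : Type*} {G : SimpleGraph W} {k B B' : ℕ} (h : B ≤ B')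
    (hG : HasImmLe k G B) : HasImmLe k G B' := by
  obtain ⟨f, hf, P, h1, h2, h3⟩ := hG
  exact ⟨f, hf, P, h1, h2, h3.trans h⟩

theorem nd_lower {κ : Type*} [Fintype κ] (J H : SimpleGraph V) (Y0 : Finset V) (A : κ → Finset V)
    (hdisj : ∀ x y, x ≠ y → Disjoint (A x) (A y)) (hAY : ∀ x, Disjoint (A x) Y0) (q : ℕ)
    (flp : κ → Fin q → κ) (hflip : ∀ x j, flp x j ≠ x)
    (hflipinj : ∀ x, Function.Injective (flp x)) (lk : κ → Fin q → V × V)
    (h1 : ∀ x j, (lk x j).1 ∈ A x) (h2 : ∀ x j, (lk x j).2 ∈ A (flp x j))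
    (h3 : ∀ x j, J.Adj (lk x j).1 (lk x j).2)
    (hEx : ∀ x u v, (Ex H (A x) Y0).Adj u v → J.Adj u v) :
    ∑ x, (inn H (A x) + q + 2 * eb H (A x) Y0) ≤ nd J := by
  set P1 : κ → Finset (V × V) := fun x => univ.filter (fun e => e.1 ∈ A x ∧ J.Adj e.1 e.2)
    with hP1
  set P2 : κ → Finset (V × V) :=
    fun x => univ.filter (fun e => e.1 ∈ Y0 ∧ e.2 ∈ A x ∧ J.Adj e.1 e.2) with hP2
  have hne : ∀ x y v, v ∈ A x → v ∈ A y → x = y := by
    intro x y v hx hy
    by_contra hxy
    exact Finset.disjoint_left.1 (hdisj x y hxy) hx hy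
  have hnY : ∀ x v, v ∈ A x → v ∉ Y0 := fun x v hx => Finset.disjoint_left.1 (hAY x) hx
  have c1 : ∀ x, inn H (A x) + eb H (A x) Y0 + q ≤ (P1 x).card := by
    intro x
    set F1 : Finset (V × V) := univ.filter (fun e => e.1 ∈ A x ∧ e.2 ∈ A x ∧ H.Adj e.1 e.2)
    set F2 : Finset (V × V) := univ.filter (fun e => e.1 ∈ A x ∧ e.2 ∈ Y0 ∧ H.Adj e.1 e.2)
    set F3 : Finset (V × V) := univ.image (lk x)
    have hF3 : F3.card = q := by
      rw [Finset.card_image_of_injective, Finset.card_univ, Fintype.card_fin]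
      intro i j hij
      apply hflipinj x
      exact hne _ _ _ (h2 x i) (by rw [hij]; exact h2 x j)
    have d12 : Disjoint F1 F2 := by
      rw [Finset.disjoint_left]
      intro e he he'
      simp only [F1, F2, mem_filter, mem_univ, true_and] at he he'
      exact hnY x _ he.2.1 he'.2.1
    have d123 : Disjoint (F1 ∪ F2) F3 := by
      rw [Finset.disjoint_left]
      intro e he he'
      simp only [F1, F2, F3, mem_union, mem_filter, mem_univ, true_and, mem_image] at he he'
      obtain ⟨j, rfl⟩ := he'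
      rcases he with he | he
      · exact hflip x j (hne _ _ _ (h2 x j) he.2.1)
      · exact hnY _ _ (h2 x j) he.2.1
    have hsub : (F1 ∪ F2) ∪ F3 ⊆ P1 x := by
      intro e he
      simp only [F1, F2, F3, hP1, mem_union, mem_filter, mem_univ, true_and, mem_image] at he ⊢
      rcases he with (he | he) | ⟨j, rfl⟩
      · exact ⟨he.1, hEx x _ _ ⟨he.2.2, Or.inl ⟨he.1, he.2.1⟩⟩⟩
      · exact ⟨he.1, hEx x _ _ ⟨he.2.2, Or.inr (Or.inl ⟨he.1, he.2.1⟩)⟩⟩
      · exact ⟨h1 x j, h3 x j⟩
    have := Finset.card_le_card hsub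
    rw [Finset.card_union_of_disjoint d123, Finset.card_union_of_disjoint d12, hF3] at this
    exact this
  have c2 : ∀ x, eb H (A x) Y0 ≤ (P2 x).card := by
    intro x
    unfold eb
    refine Finset.card_le_card_of_injOn Prod.swap ?_ (Prod.swap_injective.injOn)
    intro e he
    simp only [hP2, coe_filter, mem_univ, true_and, Set.mem_ofPred_eq, Prod.fst_swap,
      Prod.snd_swap] at he ⊢
    exact ⟨he.2.1, he.1, hEx x _ _ ⟨he.2.2.symm, Or.inr (Or.inr ⟨he.2.1, he.1⟩)⟩⟩
  have p1 : (univ.biUnion P1).card = ∑ x, (P1 x).card := by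
    apply Finset.card_biUnion
    intro x _ y _ hxy
    change Disjoint (P1 x) (P1 y)
    rw [Finset.disjoint_left]
    intro e he he'
    simp only [hP1, mem_filter, mem_univ, true_and] at he he'
    exact hxy (hne _ _ _ he.1 he'.1)
  have p2 : (univ.biUnion P2).card = ∑ x, (P2 x).card := by
    apply Finset.card_biUnion
    intro x _ y _ hxy
    change Disjoint (P2 x) (P2 y)
    rw [Finset.disjoint_left]
    intro e he he'
    simp only [hP2, mem_filter, mem_univ, true_and] at he he'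
    exact hxy (hne _ _ _ he.2.1 he'.2.1)
  have p3 : Disjoint (univ.biUnion P1) (univ.biUnion P2) := by
    rw [Finset.disjoint_left]
    intro e he he'
    simp only [hP1, hP2, mem_biUnion, mem_filter, mem_univ, true_and] at he he'
    obtain ⟨x, hx⟩ := he
    obtain ⟨y, hy⟩ := he'
    exact hnY x _ hx.1 hy.1
  have p4 : univ.biUnion P1 ∪ univ.biUnion P2 ⊆ univ.filter (fun e : V × V => J.Adj e.1 e.2) := by
    intro e he
    simp only [hP1, hP2, mem_union, mem_biUnion, mem_filter, mem_univ, true_and] at he ⊢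
    rcases he with ⟨x, hx⟩ | ⟨x, hx⟩
    · exact hx.2
    · exact hx.2.2
  have p5 := Finset.card_le_card p4
  rw [Finset.card_union_of_disjoint p3, p1, p2] at p5
  calc ∑ x, (inn H (A x) + q + 2 * eb H (A x) Y0)
      = ∑ x, (inn H (A x) + eb H (A x) Y0 + q) + ∑ x, eb H (A x) Y0 := by
        rw [← Finset.sum_add_distrib]
        exact Finset.sum_congr rfl fun x _ => by ring
    _ ≤ ∑ x, (P1 x).card + ∑ x, (P2 x).card :=
        Nat.add_le_add (Finset.sum_le_sum fun x _ => c1 x) (Finset.sum_le_sum fun x _ => c2 x)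
    _ ≤ nd J := p5

/-- a graph whose edges lie inside `U` -/
theorem hasImm_of_dense (I : ℝ) (k : ℕ)
    (hImm : ∀ (m : ℕ) (J : SimpleGraph (Fin m)), 0 < m → I * m < nd J → HasImm k J)
    (J : SimpleGraph V) (U : Finset V) (hU : ∀ u v, J.Adj u v → u ∈ U) (hpos : 0 < U.card)
    (hdense : I * U.card < nd J) : HasImm k J := by
  let e : Fin U.card → V := fun i => (U.equivFin.symm i : V)
  have he : Function.Injective e := Subtype.val_injective.comp U.equivFin.symm.injective
  have hsurj : ∀ u ∈ U, ∃ i, e i = u := fun u hu => ⟨U.equivFin ⟨u, hu⟩, by simp [e]⟩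
  let J' : SimpleGraph (Fin U.card) := J.comap e
  refine hasImm_map J' J e he (fun a b h => h) k (hImm _ J' hpos (lt_of_lt_of_le hdense ?_))
  rw [Nat.cast_le]
  unfold nd
  have hsub : univ.filter (fun p : V × V => J.Adj p.1 p.2) ⊆
      (univ.filter (fun p : Fin U.card × Fin U.card => J'.Adj p.1 p.2)).image
        (fun p => (e p.1, e p.2)) := by
    intro p hp
    simp only [mem_filter, mem_univ, true_and] at hp
    obtain ⟨i, hi⟩ := hsurj p.1 (hU _ _ hp)
    obtain ⟨j, hj⟩ := hsurj p.2 (hU _ _ hp.symm)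
    rw [Finset.mem_image]
    refine ⟨(i, j), ?_, by rw [hi, hj]⟩
    simp only [mem_filter, mem_univ, true_and]
    change J.Adj (e i) (e j)
    rw [hi, hj]
    exact hp
  exact (Finset.card_le_card hsub).trans Finset.card_image_le

theorem nd_le_sq (J : SimpleGraph V) (U : Finset V) (hU : ∀ u v, J.Adj u v → u ∈ U) :
    nd J ≤ U.card ^ 2 := by
  rw [sq, ← Finset.card_product]
  unfold nd
  apply Finset.card_le_card
  intro p hp
  simp only [mem_filter, mem_univ, true_and] at hp
  exact Finset.mem_product.2 ⟨hU _ _ hp, hU _ _ hp.symm⟩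

omit [Fintype V] in
theorem disj_single {e e' : Sym2 V} (h : e ≠ e') :
    Disjoint (SimpleGraph.fromEdgeSet {e}) (SimpleGraph.fromEdgeSet {e'}) := by
  rw [disjoint_iff_inf_le]
  intro a b hab
  rw [SimpleGraph.inf_adj, SimpleGraph.fromEdgeSet_adj, SimpleGraph.fromEdgeSet_adj] at hab
  obtain ⟨⟨h1, -⟩, ⟨h2, -⟩⟩ := hab
  rw [Set.mem_singleton_iff] at h1 h2
  exact absurd (h1.symm.trans h2) h

theorem nd_single (u v : V) : nd (SimpleGraph.fromEdgeSet {s(u, v)}) ≤ 2 := by
  unfold nd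
  refine le_trans (Finset.card_le_card (t := {(u, v), (v, u)}) ?_) Finset.card_le_two
  intro p hp
  simp only [mem_filter, mem_univ, true_and, SimpleGraph.fromEdgeSet_adj,
    Set.mem_singleton_iff] at hp
  have := Sym2.eq_iff.1 hp.1
  simp only [mem_insert, mem_singleton, Prod.ext_iff]
  tauto

omit [Fintype V] in
theorem single_le {G : SimpleGraph V} {e : Sym2 V} (h : e ∈ G.edgeSet) :
    SimpleGraph.fromEdgeSet {e} ≤ G := by
  intro a b hab
  rw [SimpleGraph.fromEdgeSet_adj, Set.mem_singleton_iff] at hab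
  rw [← SimpleGraph.mem_edgeSet, hab.1]
  exact h

theorem nd_bot : nd (⊥ : SimpleGraph V) = 0 := by
  unfold nd
  simp

/-- Assembly: linked terminals give a bounded graph `J` of average degree `> I` with a short
immersion in `H`. -/
theorem assemble (I ε : ℝ) (hI : 0 ≤ I) (hε : 0 < ε) (k : ℕ)
    (hImm : ∀ (m : ℕ) (J : SimpleGraph (Fin m)), 0 < m → I * m < nd J → HasImm k J)
    (H : SimpleGraph V) (Y0 : Finset V) (q K d L : ℕ) (hqd : q ≤ d)
    (hd : 16 * I * K < ε * 2 ^ d) (hY0 : Y0.card ≤ K)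
    (A : (Fin d → Bool) → Finset V) (hne : ∀ x, (A x).Nonempty)
    (hdisj : ∀ x y, x ≠ y → Disjoint (A x) (A y)) (hAY : ∀ x, Disjoint (A x) Y0)
    (hcard : ∀ x, (A x).card ≤ K)
    (hscore : ∀ x, (I + ε / 16) * (A x).card ≤ inn H (A x) + q + 2 * eb H (A x) Y0)
    (Lk : (Fin d → Bool) → Fin q → SimpleGraph V) (hLk : ∀ x j, Lk x j ≤ H)
    (hLnd : ∀ x j, nd (Lk x j) ≤ 2 * L)
    (hLc : ∀ x j, x (Fin.castLE hqd j) = false → ∃ u ∈ A x,
      ∃ v ∈ A (Function.update x (Fin.castLE hqd j) true), (Lk x j).Reachable u v)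
    (hLd : ∀ x j y i, (x, j) ≠ (y, i) → Disjoint (Lk x j) (Lk y i))
    (hLE : ∀ x j y, Disjoint (Lk x j) (Ex H (A y) Y0)) :
    HasImmLe k H (k + (2 ^ d * K + K) ^ 2 * (2 * (L + 1))) := by
  have hVne : Nonempty V := ⟨(hne (fun _ => false)).choose⟩
  choose! st hst en hen hrch using hLc
  have hne' : ∀ x y v, v ∈ A x → v ∈ A y → x = y := by
    intro x y v hx hy
    by_contra hxy
    exact Finset.disjoint_left.1 (hdisj x y hxy) hx hy
  -- the graph
  let lnk : V → V → Prop := fun u v => ∃ p : (Fin d → Bool) × Fin q,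
    p.1 (Fin.castLE hqd p.2) = false ∧ s(u, v) = s(st p.1 p.2, en p.1 p.2)
  have hlnk_symm : ∀ u v, lnk u v → lnk v u := by
    rintro u v ⟨p, h1, h2⟩
    exact ⟨p, h1, by rw [Sym2.eq_swap, h2]⟩
  have hst_ne : ∀ x j, x (Fin.castLE hqd j) = false → st x j ≠ en x j := by
    intro x j h he
    have h1 := hst x j h
    have h2 := hen x j h
    rw [he] at h1
    have := hne' _ _ _ h1 h2
    have h3 := congrFun this (Fin.castLE hqd j)
    rw [h, Function.update_self] at h3
    exact absurd h3 (by decide)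
  let J : SimpleGraph V :=
    { Adj := fun u v => (∃ x, (Ex H (A x) Y0).Adj u v) ∨ lnk u v
      symm := ⟨fun u v h => h.imp (fun ⟨x, hx⟩ => ⟨x, hx.symm⟩) (hlnk_symm u v)⟩
      loopless := ⟨fun u h => by
        rcases h with ⟨x, hx⟩ | ⟨p, h1, h2⟩
        · exact (Ex H (A x) Y0).loopless.irrefl _ hx
        · rcases Sym2.eq_iff.1 h2 with ⟨h3, h4⟩ | ⟨h3, h4⟩
          · exact hst_ne _ _ h1 (h3.symm.trans h4)
          · exact hst_ne _ _ h1 (h4.symm.trans h3)⟩ }
  have hJ : ∀ u v, J.Adj u v ↔ (∃ x, (Ex H (A x) Y0).Adj u v) ∨ lnk u v := fun u v => Iff.rfl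
  -- the vertex set
  let U : Finset V := Y0 ∪ univ.biUnion A
  have hAU : ∀ x v, v ∈ A x → v ∈ U := fun x v hv =>
    Finset.mem_union_right _ (Finset.mem_biUnion.2 ⟨x, Finset.mem_univ _, hv⟩)
  have hJU : ∀ u v, J.Adj u v → u ∈ U := by
    intro u v h
    rcases (hJ u v).1 h with ⟨x, -, hx⟩ | ⟨p, h1, h2⟩
    · rcases hx with hx | hx | hx
      · exact hAU x _ hx.1
      · exact hAU x _ hx.1
      · exact Finset.mem_union_left _ hx.1
    · rcases Sym2.eq_iff.1 h2 with ⟨h3, -⟩ | ⟨h3, -⟩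
      · rw [h3]; exact hAU _ _ (hst _ _ h1)
      · rw [h3]; exact hAU _ _ (hen _ _ h1)
  -- counting
  let flp : (Fin d → Bool) → Fin q → (Fin d → Bool) := fun x j =>
    Function.update x (Fin.castLE hqd j) (!x (Fin.castLE hqd j))
  have hflp : ∀ x j, flp x j ≠ x := by
    intro x j h
    have := congrFun h (Fin.castLE hqd j)
    simp only [flp, Function.update_self] at this
    cases hx : x (Fin.castLE hqd j) <;> rw [hx] at this <;> exact absurd this (by decide)
  have hflpinj : ∀ x, Function.Injective (flp x) := by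
    intro x i j hij
    by_contra hne
    have hc : Fin.castLE hqd i ≠ Fin.castLE hqd j := fun h => hne (Fin.castLE_injective hqd h)
    have := congrFun hij (Fin.castLE hqd i)
    simp only [flp, Function.update_self, Function.update_of_ne hc] at this
    cases hx : x (Fin.castLE hqd i) <;> rw [hx] at this <;> exact absurd this (by decide)
  let dn : (Fin d → Bool) → Fin q → (Fin d → Bool) := fun x j =>
    Function.update x (Fin.castLE hqd j) false
  let lk : (Fin d → Bool) → Fin q → V × V := fun x j =>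
    if x (Fin.castLE hqd j) = false then (st x j, en x j) else (en (dn x j) j, st (dn x j) j)
  have hdn : ∀ x j, dn x j (Fin.castLE hqd j) = false := by
    intro x j; simp only [dn, Function.update_self]
  have hdn2 : ∀ x j, x (Fin.castLE hqd j) = true →
      Function.update (dn x j) (Fin.castLE hqd j) true = x := by
    intro x j h
    simp only [dn, Function.update_idem]
    rw [← h, Function.update_eq_self]
  have hdn3 : ∀ x j, x (Fin.castLE hqd j) = true → dn x j = flp x j := by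
    intro x j h
    simp only [dn, flp, h, Bool.not_true]
  have hlk1 : ∀ x j, (lk x j).1 ∈ A x := by
    intro x j
    simp only [lk]
    split_ifs with h
    · exact hst x j h
    · have h' : x (Fin.castLE hqd j) = true := by simpa using h
      have := hen (dn x j) j (hdn x j)
      rwa [hdn2 x j h'] at this
  have hlk2 : ∀ x j, (lk x j).2 ∈ A (flp x j) := by
    intro x j
    simp only [lk]
    split_ifs with h
    · have := hen x j h
      simpa only [flp, h, Bool.not_false] using this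
    · have h' : x (Fin.castLE hqd j) = true := by simpa using h
      have := hst (dn x j) j (hdn x j)
      rw [← hdn3 x j h']
      exact this
  have hlk3 : ∀ x j, J.Adj (lk x j).1 (lk x j).2 := by
    intro x j
    rw [hJ]
    right
    simp only [lk]
    split_ifs with h
    · exact ⟨(x, j), h, rfl⟩
    · exact ⟨(dn x j, j), hdn x j, Sym2.eq_swap⟩
  have hcount := nd_lower J H Y0 A hdisj hAY q flp hflp hflpinj lk hlk1 hlk2 hlk3
    (fun x u v h => (hJ u v).2 (Or.inl ⟨x, h⟩))
  -- numbers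
  have hcardA : (univ.biUnion A).card = ∑ x, (A x).card :=
    Finset.card_biUnion fun x _ y _ hxy => hdisj x y hxy
  have hUcard : U.card ≤ K + ∑ x, (A x).card :=
    (Finset.card_union_le _ _).trans (by rw [hcardA]; exact Nat.add_le_add_right hY0 _)
  have hNA : (2 : ℝ) ^ d ≤ ((∑ x, (A x).card : ℕ) : ℝ) := by
    have : 2 ^ d ≤ ∑ x, (A x).card := by
      calc 2 ^ d = ∑ _x : Fin d → Bool, 1 := by simp
        _ ≤ ∑ x, (A x).card := Finset.sum_le_sum fun x _ => Finset.card_pos.2 (hne x)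
    exact_mod_cast this
  have hNA2 : ∑ x, (A x).card ≤ 2 ^ d * K := by
    calc ∑ x, (A x).card ≤ ∑ _x : Fin d → Bool, K := Finset.sum_le_sum fun x _ => hcard x
      _ = 2 ^ d * K := by simp
  have hdense : I * U.card < nd J := by
    have e1 : ((∑ x, (inn H (A x) + q + 2 * eb H (A x) Y0) : ℕ) : ℝ) ≤ nd J := by
      exact_mod_cast hcount
    have e2 : (I + ε / 16) * ((∑ x, (A x).card : ℕ) : ℝ) ≤
        ((∑ x, (inn H (A x) + q + 2 * eb H (A x) Y0) : ℕ) : ℝ) := by
      push_cast
      rw [Finset.mul_sum]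
      exact Finset.sum_le_sum fun x _ => hscore x
    have e3 : I * (U.card : ℝ) ≤ I * ((K : ℝ) + ((∑ x, (A x).card : ℕ) : ℝ)) := by
      apply mul_le_mul_of_nonneg_left _ hI
      exact_mod_cast hUcard
    have e4 : ε * 2 ^ d ≤ ε * ((∑ x, (A x).card : ℕ) : ℝ) := mul_le_mul_of_nonneg_left hNA hε.le
    nlinarith
  have hUpos : 0 < U.card := by
    obtain ⟨v, hv⟩ := hne (fun _ => false)
    exact Finset.card_pos.2 ⟨v, hAU _ _ hv⟩
  have hJimm := hasImm_of_dense I k hImm J U hJU hUpos hdense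
  -- the paths
  let Q : Sym2 V → SimpleGraph V := fun e =>
    if ∃ x, e ∈ (Ex H (A x) Y0).edgeSet then SimpleGraph.fromEdgeSet {e} else
    if h : ∃ p : (Fin d → Bool) × Fin q, p.1 (Fin.castLE hqd p.2) = false ∧
      e = s(st p.1 p.2, en p.1 p.2) then Lk h.choose.1 h.choose.2 else ⊥
  have hQ : ∀ e : Sym2 V, (∃ x, e ∈ (Ex H (A x) Y0).edgeSet ∧ Q e = SimpleGraph.fromEdgeSet {e}) ∨
      (∃ p : (Fin d → Bool) × Fin q, p.1 (Fin.castLE hqd p.2) = false ∧
        e = s(st p.1 p.2, en p.1 p.2) ∧ Q e = Lk p.1 p.2) ∨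
      ((¬ ∃ x, e ∈ (Ex H (A x) Y0).edgeSet) ∧ (¬ ∃ p : (Fin d → Bool) × Fin q,
        p.1 (Fin.castLE hqd p.2) = false ∧ e = s(st p.1 p.2, en p.1 p.2)) ∧ Q e = ⊥) := by
    intro e
    by_cases h1 : ∃ x, e ∈ (Ex H (A x) Y0).edgeSet
    · obtain ⟨x, hx⟩ := h1
      exact Or.inl ⟨x, hx, if_pos ⟨x, hx⟩⟩
    · by_cases h2 : ∃ p : (Fin d → Bool) × Fin q, p.1 (Fin.castLE hqd p.2) = false ∧
          e = s(st p.1 p.2, en p.1 p.2)
      · refine Or.inr (Or.inl ⟨h2.choose, h2.choose_spec.1, h2.choose_spec.2, ?_⟩)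
        simp only [Q]
        rw [if_neg h1, dif_pos h2]
      · refine Or.inr (Or.inr ⟨h1, h2, ?_⟩)
        simp only [Q]
        rw [if_neg h1, dif_neg h2]
  have hExH : ∀ x, Ex H (A x) Y0 ≤ H := fun x a b h => h.1
  have hfin := compose J H id Function.injective_id k (L + 1) hJimm (fun u v => Q s(u, v))
    (by
      intro u v _
      rcases hQ s(u, v) with ⟨x, h1, h2⟩ | ⟨p, -, -, h2⟩ | ⟨-, -, h2⟩
      · rw [h2]; exact (single_le h1).trans (hExH x)
      · rw [h2]; exact hLk _ _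
      · rw [h2]; exact bot_le)
    (by intro u v; simp only [Sym2.eq_swap (a := u) (b := v)])
    (by
      intro u v _
      rcases hQ s(u, v) with ⟨x, h1, h2⟩ | ⟨p, -, -, h2⟩ | ⟨-, -, h2⟩
      · rw [h2]; have := nd_single u v; omega
      · rw [h2]; have := hLnd p.1 p.2; omega
      · rw [h2, nd_bot]; omega)
    (by
      intro u v huv
      rcases hQ s(u, v) with ⟨x, h1, h2⟩ | ⟨p, h0, h1, h2⟩ | ⟨h1, h2, -⟩
      · rw [h2]
        apply SimpleGraph.Adj.reachable
        rw [SimpleGraph.fromEdgeSet_adj]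
        exact ⟨rfl, J.ne_of_adj huv⟩
      · rw [h2]
        have hr := hrch p.1 p.2 h0
        rcases Sym2.eq_iff.1 h1 with ⟨h3, h4⟩ | ⟨h3, h4⟩
        · rw [h3, h4]; exact hr
        · rw [h3, h4]; exact hr.symm
      · exfalso
        rcases (hJ u v).1 huv with ⟨x, hx⟩ | hx
        · exact h1 ⟨x, hx⟩
        · exact h2 hx)
    (by
      intro u v u' v' _ _ hne
      rcases hQ s(u, v) with ⟨x, h1, h2⟩ | ⟨p, h0, h1, h2⟩ | ⟨-, -, h2⟩
      · rcases hQ s(u', v') with ⟨x', h1', h2'⟩ | ⟨p', h0', h1', h2'⟩ | ⟨-, -, h2'⟩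
        · rw [h2, h2']; exact disj_single hne
        · rw [h2, h2']; exact ((hLE p'.1 p'.2 x).mono_right (single_le h1)).symm
        · rw [h2']; exact disjoint_bot_right
      · rcases hQ s(u', v') with ⟨x', h1', h2'⟩ | ⟨p', h0', h1', h2'⟩ | ⟨-, -, h2'⟩
        · rw [h2, h2']; exact (hLE p.1 p.2 x').mono_right (single_le h1')
        · rw [h2, h2']
          apply hLd
          intro hpp
          apply hne
          have : p = p' := hpp
          rw [h1, h1', this]
        · rw [h2']; exact disjoint_bot_right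
      · rw [h2]; exact disjoint_bot_left)
  refine hasImmLe_mono ?_ hfin
  have hnd := nd_le_sq J U hJU
  have hUc : U.card ≤ 2 ^ d * K + K := by omega
  have : nd J ≤ (2 ^ d * K + K) ^ 2 := hnd.trans (Nat.pow_le_pow_left hUc 2)
  exact Nat.add_le_add_left (Nat.mul_le_mul_right _ this) _

end M24

alias assemble := M24.assemble

end ImmLog
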