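import Pool.Agent.ImmLog.Defs2
import Pool.Agent.ImmLog.M12
import Pool.Agent.ImmLog.M13
import Pool.Agent.ImmLog.M23
import Pool.Agent.ImmLog.M18b
import Pool.Agent.ImmLog.M24

set_option autoImplicit false

open Classical Finset

namespace ImmLog

namespace M25

variable {V : Type*} [Fintype V]




























theorem nd_eq_ncard {m : ℕ} (H : SimpleGraph (Fin m)) : nd H = 2 * H.edgeSet.ncard := by
  have h1 : nd H = ∑ v, H.degree v := by
    unfold nd
    rw [Finset.card_filter, Fintype.sum_prod_type]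
    apply Finset.sum_congr rfl
    intro u _
    rw [← Finset.card_filter, ← SimpleGraph.card_neighborFinset_eq_degree]
    congr 1
    ext v
    simp
  rw [h1, SimpleGraph.sum_degrees_eq_twice_card_edges]
  congr 1
  rw [Set.ncard_eq_toFinset_card' H.edgeSet]
  rfl

theorem HasImmLe.transfer {k B : ℕ} {W W' : Type*} {H : SimpleGraph W} {G : SimpleGraph W'}
    (e : W → W') (he : Function.Injective e) (hom : ∀ u v, H.Adj u v → G.Adj (e u) (e v))
    (h : HasImmLe k H B) : HasImmLe k G B := by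
  obtain ⟨f, hf, P, hP1, hP2, hP3⟩ := h
  let φ : H →g G := ⟨e, fun {a b} hab => hom a b hab⟩
  have hφ : Function.Injective φ := he
  refine ⟨fun i => e (f i), fun i j hij => hf (he hij), fun i j => (P i j).map φ, ?_, ?_, ?_⟩
  · intro i j hij
    exact SimpleGraph.Walk.map_isPath_of_injective hφ (hP1 i j hij)
  · intro i j i' j' hij hij' hne
    have := hP2 i j i' j' hij hij' hne
    rw [SimpleGraph.Walk.edges_map, SimpleGraph.Walk.edges_map]
    exact (List.disjoint_map (Sym2.map.injective hφ) this)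
  · have hset : {v : W' | (∃ i, e (f i) = v) ∨ ∃ i j, i < j ∧ v ∈ ((P i j).map φ).support} =
        e '' {v : W | (∃ i, f i = v) ∨ ∃ i j, i < j ∧ v ∈ (P i j).support} := by
      ext v
      simp only [Set.mem_setOf_eq, Set.mem_image, SimpleGraph.Walk.support_map, List.mem_map]
      constructor
      · rintro (⟨i, hi⟩ | ⟨i, j, hij, w, hw, hwv⟩)
        · exact ⟨f i, Or.inl ⟨i, rfl⟩, hi⟩
        · exact ⟨w, Or.inr ⟨i, j, hij, hw⟩, hwv⟩
      · rintro ⟨w, (⟨i, hi⟩ | ⟨i, j, hij, hw⟩), hwv⟩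
        · exact Or.inl ⟨i, by rw [hi, hwv]⟩
        · exact Or.inr ⟨i, j, hij, w, hw, hwv⟩
    rw [hset, Set.ncard_image_of_injective _ he]
    exact hP3

theorem HasImm.le {k m : ℕ} {H : SimpleGraph (Fin m)} (h : HasImm k H) : HasImmLe k H m := by
  obtain ⟨f, hf, P, hP1, hP2⟩ := h
  refine ⟨f, hf, P, hP1, hP2, ?_⟩
  have := Set.ncard_le_ncard (Set.subset_univ
    {v : Fin m | (∃ i, f i = v) ∨ ∃ i j, i < j ∧ v ∈ (P i j).support}) Set.finite_univ
  rwa [Set.ncard_univ, Nat.card_eq_fintype_card, Fintype.card_fin] at this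

theorem HasImmLe.mono {k B B' : ℕ} {W : Type*} {H : SimpleGraph W} (h : HasImmLe k H B)
    (hB : B ≤ B') : HasImmLe k H B' := by
  obtain ⟨f, hf, P, hP1, hP2, hP3⟩ := h
  exact ⟨f, hf, P, hP1, hP2, hP3.trans hB⟩

/-- the frozen statement -/
theorem main :
    ∀ (k : ℕ), 1 ≤ k → ∀ ε : ℝ, 0 < ε → ∃ α : ℝ, ∀ (n : ℕ) (G : SimpleGraph (Fin n)),
      sInf {d : ℝ | ∀ (m : ℕ) (H : SimpleGraph (Fin m)),
          d ≤ 2 * (H.edgeSet.ncard : ℝ) / (m : ℝ) →
          ∃ f : Fin k → Fin m, Function.Injective f ∧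
            ∃ P : ∀ i j : Fin k, H.Walk (f i) (f j),
              (∀ i j : Fin k, i < j → (P i j).IsPath) ∧
              (∀ i j i' j' : Fin k, i < j → i' < j' → (i ≠ i' ∨ j ≠ j') →
                (P i j).edges.Disjoint (P i' j').edges)} + ε
        ≤ 2 * (G.edgeSet.ncard : ℝ) / (n : ℝ) →
      ∃ f : Fin k → Fin n, Function.Injective f ∧
        ∃ P : ∀ i j : Fin k, G.Walk (f i) (f j),
          (∀ i j : Fin k, i < j → (P i j).IsPath) ∧
          (∀ i j i' j' : Fin k, i < j → i' < j' → (i ≠ i' ∨ j ≠ j') →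
            (P i j).edges.Disjoint (P i' j').edges) ∧
          (({v : Fin n | (∃ i, f i = v) ∨ ∃ i j, i < j ∧ v ∈ (P i j).support}.ncard : ℝ)
            ≤ α * Real.log (n : ℝ)) := by
  intro k hk ε hε
  set thr : Set ℝ := {d : ℝ | ∀ (m : ℕ) (H : SimpleGraph (Fin m)),
          d ≤ 2 * (H.edgeSet.ncard : ℝ) / (m : ℝ) →
          ∃ f : Fin k → Fin m, Function.Injective f ∧
            ∃ P : ∀ i j : Fin k, H.Walk (f i) (f j),
              (∀ i j : Fin k, i < j → (P i j).IsPath) ∧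
              (∀ i j i' j' : Fin k, i < j → i' < j' → (i ≠ i' ∨ j ≠ j') →
                (P i j).edges.Disjoint (P i' j').edges)} with hthr
  have hne : thr.Nonempty := by
    obtain ⟨d, hd⟩ := mader k
    exact ⟨d, hd⟩
  have hpos : ∀ d ∈ thr, 0 ≤ d := by
    intro d hd
    by_contra hlt
    push Not at hlt
    obtain ⟨f, _⟩ := hd 0 ⊥ (by simp; exact hlt.le)
    exact (f ⟨0, hk⟩).elim0
  set I := sInf thr with hIdef
  have hI : 0 ≤ I := le_csInf hne hpos
  have hImm : ∀ (m : ℕ) (J : SimpleGraph (Fin m)), 0 < m → I * m < nd J → HasImm k J := by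
    intro m J hm hJ
    have hm' : (0:ℝ) < m := by exact_mod_cast hm
    have h1 : I < 2 * (J.edgeSet.ncard : ℝ) / (m : ℝ) := by
      rw [lt_div_iff₀ hm']
      rw [nd_eq_ncard] at hJ
      push_cast at hJ
      exact hJ
    obtain ⟨d, hd, hdlt⟩ := exists_lt_of_csInf_lt hne h1
    exact hd m J hdlt.le
  obtain ⟨K, b, h1, hb0, hb1, hK1, hdic⟩ := dichotomy I ε hI hε
  obtain ⟨d, hKd, hd⟩ : ∃ d : ℕ, K ≤ d ∧ 16 * I * K < ε * 2 ^ d := by
    refine ⟨K + ⌈16 * I * K / ε⌉₊, Nat.le_add_right _ _, ?_⟩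
    have e1 : 16 * I * K / ε ≤ (⌈16 * I * K / ε⌉₊ : ℝ) := Nat.le_ceil _
    have e2 : ((⌈16 * I * K / ε⌉₊ : ℕ) : ℝ) < 2 ^ ⌈16 * I * K / ε⌉₊ := by
      exact_mod_cast Nat.lt_two_pow_self
    have e3 : (2:ℝ) ^ ⌈16 * I * K / ε⌉₊ ≤ 2 ^ (K + ⌈16 * I * K / ε⌉₊) :=
      pow_le_pow_right₀ (by norm_num) (Nat.le_add_left _ _)
    have e4 : 16 * I * K / ε < 2 ^ (K + ⌈16 * I * K / ε⌉₊) := lt_of_le_of_lt e1 (lt_of_lt_of_le e2 e3)
    rw [div_lt_iff₀ hε] at e4
    linarith
  have hterm : ∀ q : Fin (K + 1), ∃ (C : ℝ) (h0 : ℕ), 0 ≤ C ∧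
      ∀ (m : ℕ) (H : SimpleGraph (Fin m)) (x c1 : ℝ),
      Good ε x (I + ε + 1) c1 H → h0 ≤ m →
      ∀ (fam : Finset (Finset (Fin m))) (E : Finset (Fin m) → SimpleGraph (Fin m)),
      Terms H fam E q K (m / 2) → (m : ℝ) ^ b ≤ fam.card →
      ∃ A : (Fin d → Bool) → Finset (Fin m), Function.Injective A ∧ (∀ x, A x ∈ fam) ∧
        ∃ (L : ℕ) (Lk : (Fin d → Bool) → Fin q → SimpleGraph (Fin m)), (L : ℝ) ≤ C * x ∧
          (∀ x j, Lk x j ≤ H) ∧ (∀ x j, nd (Lk x j) ≤ 2 * L) ∧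
          (∀ x j, x (Fin.castLE ((Nat.lt_succ_iff.1 q.2).trans hKd) j) = false → ∃ u ∈ A x,
            ∃ v ∈ A (Function.update x (Fin.castLE ((Nat.lt_succ_iff.1 q.2).trans hKd) j) true),
              (Lk x j).Reachable u v) ∧
          (∀ x j y i, (x, j) ≠ (y, i) → Disjoint (Lk x j) (Lk y i)) ∧
          (∀ x j y, Disjoint (Lk x j) (E (A y))) := by
    intro q
    exact terminals_asymp ε (I + ε + 1) hε (by linarith) (by linarith) q d K
      ((Nat.lt_succ_iff.1 q.2).trans hKd) hK1 b hb0 hb1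
  choose Cf hf hC0 hterm' using hterm
  set C : ℝ := ∑ q, Cf q with hCdef
  have hCle : ∀ q, Cf q ≤ C := fun q => Finset.single_le_sum (f := Cf) (fun i _ => hC0 i) (Finset.mem_univ q)
  have hC0' : 0 ≤ C := Finset.sum_nonneg (fun i _ => hC0 i)
  set h2 : ℕ := ∑ q, hf q with hh2
  have hhle : ∀ q, hf q ≤ h2 := fun q =>
    Finset.single_le_sum (f := hf) (fun i _ => Nat.zero_le _) (Finset.mem_univ q)
  set h3 : ℕ := max h1 h2 with hh3
  set Mc : ℕ := (2 ^ d * K + K) ^ 2 with hMc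
  have hlog2 : 0 < Real.log 2 := Real.log_pos (by norm_num)
  refine ⟨((h3 : ℝ) + k + 2 * Mc) / Real.log 2 + 2 * Mc * C, ?_⟩
  intro n G hG
  have hn : 2 ≤ n := by
    by_contra hlt
    push Not at hlt
    have hzero : 2 * (G.edgeSet.ncard : ℝ) / (n : ℝ) = 0 := by
      interval_cases n
      · simp
      · have : G.edgeSet = ∅ := by
          rw [SimpleGraph.edgeSet_eq_empty]
          ext u v
          simp only [SimpleGraph.bot_adj, iff_false]
          intro h
          exact h.ne (Subsingleton.elim _ _)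
        rw [this]; simp
    rw [hzero] at hG
    linarith
  have hlogn : Real.log 2 ≤ Real.log n := by
    apply Real.log_le_log (by norm_num)
    exact_mod_cast hn
  have hlogn0 : 0 < Real.log n := lt_of_lt_of_le hlog2 hlogn
  -- reduction to HasImmLe
  suffices hB : ∃ B : ℕ, HasImmLe k G B ∧
      (B : ℝ) ≤ (((h3 : ℝ) + k + 2 * Mc) / Real.log 2 + 2 * Mc * C) * Real.log n by
    obtain ⟨B, ⟨f, hf', P, hP1, hP2, hP3⟩, hBle⟩ := hB
    refine ⟨f, hf', P, hP1, hP2, le_trans ?_ hBle⟩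
    exact_mod_cast hP3
  have hratio : 1 ≤ Real.log n / Real.log 2 := by
    rw [le_div_iff₀ hlog2]; linarith
  obtain ⟨m, H, e, he, hom, hgood⟩ := exists_good I ε hI hε n hn G hG
  have hm2 : 2 ≤ m := by
    have := hgood.card_ge
    simpa using this
  by_cases hm : m < h3
  · refine ⟨m, ?_, ?_⟩
    · apply HasImmLe.transfer e he hom
      apply HasImm.le
      apply hImm m H (by omega)
      have hlo := hgood.lo
      rw [Fintype.card_fin] at hlo
      have hm0 : (0:ℝ) < m := by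
        have : 0 < m := by omega
        exact_mod_cast this
      nlinarith
    · have e1 : (m : ℝ) ≤ (h3 : ℝ) := by exact_mod_cast hm.le
      have e2 : ((h3 : ℝ) + k + 2 * Mc) / Real.log 2 * Real.log n =
          ((h3 : ℝ) + k + 2 * Mc) * (Real.log n / Real.log 2) := by ring
      have e3 : ((h3 : ℝ) + k + 2 * Mc) ≤ ((h3 : ℝ) + k + 2 * Mc) * (Real.log n / Real.log 2) := by
        have : (0:ℝ) ≤ ((h3 : ℝ) + k + 2 * Mc) := by positivity
        nlinarith
      have e4 : 0 ≤ 2 * (Mc : ℝ) * C * Real.log n := by positivity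
      have e5 : (0:ℝ) ≤ k + 2 * Mc := by positivity
      rw [add_mul, e2]
      linarith
  · push Not at hm
    obtain ⟨Y0, q, fam, hqK, hY0, hT, hAY, hsc, hfc⟩ := hdic m H (Real.log n) hgood
      (le_trans (le_max_left _ _) hm)
    have hq : q < K + 1 := Nat.lt_succ_of_le hqK
    obtain ⟨A, hAinj, hAfam, L, Lk, hL, hLk, hLnd, hLc, hLd, hLE⟩ :=
      hterm' ⟨q, hq⟩ m H (Real.log n) (I + ε / 4) hgood
        (le_trans (hhle ⟨q, hq⟩) (le_trans (le_max_right _ _) hm)) fam (fun A => Ex H A Y0) hT hfc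
    have hass := assemble I ε hI hε k hImm H Y0 q K d L (hqK.trans hKd) hd hY0 A
      (fun x => hT.hne _ (hAfam x))
      (fun x y hxy => hT.hdisj _ (hAfam x) _ (hAfam y) (fun h => hxy (hAinj h)))
      (fun x => hAY _ (hAfam x))
      (fun x => hT.hcard _ (hAfam x))
      (fun x => hsc _ (hAfam x))
      Lk hLk hLnd hLc hLd hLE
    refine ⟨k + (2 ^ d * K + K) ^ 2 * (2 * (L + 1)), HasImmLe.transfer e he hom hass, ?_⟩
    rw [← hMc]
    push_cast
    have hLC : (L : ℝ) ≤ C * Real.log n := by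
      refine hL.trans ?_
      exact mul_le_mul_of_nonneg_right (hCle _) hlogn0.le
    have e2 : ((h3 : ℝ) + k + 2 * Mc) / Real.log 2 * Real.log n =
        ((h3 : ℝ) + k + 2 * Mc) * (Real.log n / Real.log 2) := by ring
    have e3 : ((h3 : ℝ) + k + 2 * Mc) ≤ ((h3 : ℝ) + k + 2 * Mc) * (Real.log n / Real.log 2) := by
      have : (0:ℝ) ≤ ((h3 : ℝ) + k + 2 * Mc) := by positivity
      nlinarith
    have e4 : 2 * (Mc : ℝ) * L ≤ 2 * (Mc : ℝ) * (C * Real.log n) :=
      mul_le_mul_of_nonneg_left hLC (by positivity)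
    have e5 : (0:ℝ) ≤ h3 := by positivity
    rw [add_mul, e2]
    nlinarith

end M25

alias main := M25.main

end ImmLog
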